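import Pool.Agent.H66.D2.Kp3
import Pool.Agent.H77.Z4.Nor3

/-!
# (D2) as one statement about the places of the order

`BigS`: every coordinate of the order with a slope larger than two, which is steep over thin or static
coordinates, is static. `ClassT`: the open statements which give the micro input: (MIC); `BigS` at the
windows of the nonfull rows with macroscopic gain; and the same statement for the target, where static
means static over the fattest boxes or over the natural balls. Statement (C) is a theorem and used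
here. `kp_of_classT`: `KP m` from `ClassT`, `ClassJ` and `TopW`.
-/

set_option autoImplicit false

namespace Pool.PKG

open MeasureTheory Set Filter Topology
open Pool.Agent.H49.Ent Pool.Agent.H32.Dense Pool.STK Pool.KA Pool.KSAT Pool.K2S Pool.PB
open Pool.GEN Pool.S6C Pool.STAT Pool.CHT Pool.GRW Pool.ONE Pool.STA
open Pool.LBT (LSys ThrOf)
open Pool.LEV (Law Lv)
open Pool.ALL (RateOf)
open Pool.TOP (TopS)
open Pool.STR (NumI LeT CellD Rle RowD Mac TopW StaAt StaU1 IsoAt ThinAt SteepAt ae_rowD dia_ae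
  not_iso_of_steep iso_of_thin sta_of_steep isoS_or_mac)

variable {n : ℕ} {hn : 2 ≤ n} {S : PCl n} {P : ℝ → ℝ → ℝ} {r : ℝ → ℝ}
  {P' : ℕ → List (Fin n) × Fin n → ℝ → ℝ → ℝ} {Λ : Finset (Fin n) → Fin n → ℝ → ℝ → ℝ}
  {PB : ℕ → List (Fin n) × Fin n → ℝ → ℝ → ℝ}

/-- **The coordinates of the order with a slope larger than two** are static if they are steep over
thin or static coordinates. -/
def BigS (hn : 2 ≤ n) (P : ℝ → ℝ → ℝ) (P' PB : ℕ → List (Fin n) × Fin n → ℝ → ℝ → ℝ) (o : Od n)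
    (g : ℝ) : Prop :=
  ∀ i, 1 ≤ i → i < n - 1 → (∀ l < i, ThS hn P P' PB o l g) →
    2 < deriv (fun a => LL hn P P' o (i + 1) a a) g → SteepAt 2 (LvT hn PB o i) g →
    StaAt (LL hn P P' o (i + 1)) g

/-- **The open statements which give the micro input**: (MIC), and (D2) for the places of the
order. -/
structure ClassT (H : PkT hn S P r P' Λ PB) (hTop : TopS n) (hF : FZX (n - 1)) (h : ℝ) : Prop where
  /-- (MIC) -/
  noBS : ∃ p : ((H.nk hTop hF).chg (H.rle h) H.up).Par, p.cell.NoJS ∨ p.cell.NoBS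
  /-- (D2) for the coordinates of the order -/
  big : ∀ o : Od n, ∀ᵐ g : ℝ, RwH H hTop hF h o g → Mac (PT hn PB o) g →
    BigS hn P P' PB o g
  /-- (D2) for the target -/
  two : ∀ o : Od n, ∀ᵐ g : ℝ, RwH H hTop hF h o g → (∀ i < n - 1, ThS hn P P' PB o i g) →
    2 < deriv (fun a => P a a) g → SteepAt 2 (PT hn PB o) g →
    StaAt (PT hn PB o) g ∨ StaAt P g

/-- **The windows of the nonfull rows**: iso or static over the fattest boxes, or static over the
natural balls. -/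
theorem ClassT.classN {H : PkT hn S P r P' Λ PB} {hTop : TopS n} {hF : FZX (n - 1)} {h : ℝ}
    (hC : ClassT H hTop hF h) : ClassN H hTop hF h := by
  refine ⟨hC.noBS, fun o : Od n => ?_⟩
  have hL : Law (PT hn PB o) := (H.nk hTop hF).hPT o
  have hEv : ∀ Sb del : ℝ, 1 ≤ Sb → 0 < del → EvTC (n - 1) Sb del := fun Sb del h1 h2 =>
    evTC (n - 1) (by omega) Sb del h1 h2
  filter_upwards [hC.big o, hC.two o, Pool.Z4.ths_of H hTop hF, H.mac_of H.pble hTop hF hEv,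
    (H.nk hTop hF).derT_ae (H.tgs.law ()) o, isoS_or_mac hL, dia_ae hL] with g k1 k1' k2 k3 k4 k5 k6
      R
  have ho := R.rwd.mem
  have hg0 := R.rwd.g0
  have hg1 := R.rwd.g1
  have hlt : PT hn PB o g g < 1 := (H.le o g g hg0 le_rfl hg1.le).trans_lt R.rwd.val
  have k4 := (k4 ho hg0 hg1).2
  have hd := k6 hg0 hg1
  rcases k5 hg0 hg1 hlt with h3 | h3
  · exact Or.inl h3
  have h5 : ∀ i < n - 1, ThS hn P P' PB o i g := k2 o ho (k1 R h3)
  rcases k3 o ho h5 with h6 | h6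
  · exact Or.inl (iso_of_thin hL hg0 hg1 hlt hd (fun a w a0 a1 a2 => H.le o a w a0 a1 a2) h6)
  rcases le_or_gt (deriv (fun a => P a a) g) 2 with h2 | h2
  · exact Or.inr (Or.inl (sta_of_steep hd (k4.trans_le h2) h6))
  · rcases k1' R h5 h2 h6 with h7 | h7
    · exact Or.inr (Or.inl h7)
    · exact Or.inr (Or.inr ⟨h7, by linarith⟩)

/-- **`KP m` from the open statements about one class**, with (D2) for the places of the order. -/
theorem kp_of_classT {m : ℕ} (hm : 1 ≤ m) (η : ℕ → ℝ → ℝ) (hη : ∀ n D, 0 < D → 0 < η n D)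
    (hη1 : ∀ n D, 0 < D → η n D ≤ 1)
    (hG : ∀ n : ℕ, 2 ≤ n → n ≤ m → (∀ k, 2 ≤ k → k < n → Ext0 k) →
      ∀ (hn : 2 ≤ n) (_ : ∀ k, 1 ≤ k → k < n → FZX k) (hF : FZX (n - 1)) (hTop : TopS n)
      (D : ℝ), 0 < D → D ≤ 1 → Ext n ((1 + η n D) * D) → ∀ (S : PCl n) (P : ℝ → ℝ → ℝ)
      (r : ℝ → ℝ) (P' : ℕ → List (Fin n) × Fin n → ℝ → ℝ → ℝ)
      (Λ : Finset (Fin n) → Fin n → ℝ → ℝ → ℝ)
      (PB : ℕ → List (Fin n) × Fin n → ℝ → ℝ → ℝ) (H : PkT hn S P r P' Λ PB),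
      ClassT H hTop hF ((1 - η n D) * D))
    (hR : ∀ n : ℕ, 2 ≤ n → n ≤ m → (∀ k, 2 ≤ k → k < n → Ext0 k) → LocE n (η n) MicRt →
      ∀ (hn : 2 ≤ n) (_ : ∀ k, 1 ≤ k → k < n → FZX k) (hF : FZX (n - 1)) (hTop : TopS n)
      (D : ℝ), 0 < D → D ≤ 1 → Ext n ((1 + η n D) * D) → ∀ (S : PCl n) (P : ℝ → ℝ → ℝ)
      (r : ℝ → ℝ) (P' : ℕ → List (Fin n) × Fin n → ℝ → ℝ → ℝ)
      (Λ : Finset (Fin n) → Fin n → ℝ → ℝ → ℝ)
      (PB : ℕ → List (Fin n) × Fin n → ℝ → ℝ → ℝ) (H : PkT hn S P r P' Λ PB),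
      ClassJ H hTop hF ((1 - η n D) * D))
    (hT : ∀ n, 2 ≤ n → n ≤ m → (∀ k, 2 ≤ k → k < n → Ext0 k) →
      LocE n (η n) fun P r _ => TopW P r) : KP m :=
  kp_of_classN hm η hη hη1 (fun n h1 h2 h3 hn hZ hF hTop D d1 d2 d3 S P r P' Λ PB H =>
    (hG n h1 h2 h3 hn hZ hF hTop D d1 d2 d3 S P r P' Λ PB H).classN) hR hT

end Pool.PKG
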