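import Pool.Agent.H60.GEN.TopR
import Pool.Agent.H39.GEN.Thin

/-!
# The statements about one class, with iso or static windows

`NumI.IsoG`, `NumI.IsoR`: at almost all good windows (of rows which are not full) the threshold over
the order is iso or static (`IsoAt`, `StaAt`). This is weaker than `MacSta`, `MacR`.

`GoalM`: no boxes, and iso or static windows, for the rows of `ρ` only. `GoalM.micW`: they give the
micro input `MicW`. `micW_ofI`: the micro input of all classes, for the rows of maximal deficit.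
`kp_goalI`: `KP m` from `GoalM` and from the strategy; in the strategy one may use the micro input of
all classes of the same dimension, for the rows of maximal deficit.
-/

set_option autoImplicit false

namespace Pool.STR

open MeasureTheory Set Filter Topology Pool.LEV Pool.RTS

/-- A thin threshold gives an iso one. -/
theorem iso_of_thin {PN B : ℝ → ℝ → ℝ} (hB : Law B) {g : ℝ} (hg0 : 0 < g) (hg1 : g < 1)
    (hlt : B g g < 1) (hd : DifferentiableAt ℝ (fun a => B a a) g)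
    (hle : ∀ a w : ℝ, 0 < w → w ≤ a → a ≤ 1 → B a w ≤ PN a w) (h : ThinAt PN B g) :
    IsoAt B g := by
  intro e he
  obtain ⟨S, hS⟩ : ∃ S, S = deriv (fun a => B a a) g := ⟨_, rfl⟩
  obtain ⟨r₀, hr₀, h1⟩ := h (e / 2) (by linarith)
  have h3 := hd.hasDerivAt.isLittleO.def (show (0 : ℝ) < e / 16 by linarith)
  obtain ⟨δ, hδ, h4⟩ := Metric.eventually_nhds_iff.1 h3
  refine ⟨min (min r₀ (δ / 16)) (min (min (g / 16) ((1 - g) / 16)) ((1 - B g g) / (64 * (|S| + 1)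
    + 64 * (e + 1)))), lt_min (lt_min hr₀ (by linarith)) (lt_min (lt_min (by linarith)
      (by linarith)) (div_pos (by linarith) (by positivity))), fun r hr hr' => ⟨S, ?_⟩⟩
  intro a w hw hwa ha
  have m0 := hr'.trans_le (min_le_left _ _)
  have m1 : r < r₀ := m0.trans_le (min_le_left _ _)
  have m2 : r < δ / 16 := m0.trans_le (min_le_right _ _)
  have n0 := hr'.trans_le (min_le_right _ _)
  have m3 : r < g / 16 := (n0.trans_le (min_le_left _ _)).trans_le (min_le_left _ _)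
  have m4 : r < (1 - g) / 16 := (n0.trans_le (min_le_left _ _)).trans_le (min_le_right _ _)
  have m5 : r * (64 * (|S| + 1) + 64 * (e + 1)) < 1 - B g g := by
    have := n0.trans_le (min_le_right _ _)
    rwa [lt_div_iff₀ (by positivity)] at this
  have hS0 : 0 ≤ |S| := abs_nonneg S
  -- the diagonal
  have hwg : |w - g| ≤ 8 * r := by
    rw [abs_le]
    constructor <;> linarith
  have e2 := h4 (y := w) (by rw [Real.dist_eq]; linarith)
  rw [Real.norm_eq_abs, Real.norm_eq_abs, smul_eq_mul, ← hS] at e2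
  have e3 : e / 16 * |w - g| ≤ e / 16 * (8 * r) := mul_le_mul_of_nonneg_left hwg (by linarith)
  have e4 := abs_le.1 (e2.trans e3)
  have e5 : (w - g) * S = (S - 1) * (w - g) + (w - g) := by ring
  rw [e5] at e4
  have e6 : 0 < e * r := mul_pos he hr
  -- the box is not full
  have e7 : |S| * |w - g| ≤ |S| * (8 * r) := mul_le_mul_of_nonneg_left hwg hS0
  have e8 := abs_le.1 ((abs_mul S (w - g)).le.trans e7)
  have e9 : S * (w - g) = (S - 1) * (w - g) + (w - g) := by ring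
  rw [e9] at e8
  have e10 : r * (64 * (|S| + 1) + 64 * (e + 1)) = 64 * (|S| * r) + 64 * r + 64 * (e * r) + 64 * r := by
    ring
  rw [e10] at m5
  have e11 : |S| * (8 * r) = 8 * (|S| * r) := by ring
  rw [e11] at e8
  have hSr : 0 ≤ |S| * r := mul_nonneg hS0 hr.le
  have k1 := h1 r hr m1 a w hw hwa ha
  have k2 := hle a w (by linarith) hwa (by linarith)
  have k3 := hB.slope w w (a - w) (by linarith) le_rfl (by linarith) (by linarith)
  rw [add_sub_cancel, min_eq_right (by linarith)] at k3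
  rw [abs_le]
  constructor <;> linarith

namespace NumI

variable {P : ℝ → ℝ → ℝ} {ρ : ℝ → ℝ} (nk : NumI P ρ)

/-- **Iso or static windows.** -/
def IsoG : Prop := ∀ o : nk.O, ∀ᵐ g : ℝ, 0 < g → g < 1 →
  (∃ a', g < a' ∧ a' ≤ 1 ∧ ρ 1 - ρ (P a' a') < 1 - P a' a') → g ∈ nk.Gs o → nk.PT o g g < 1 →
    IsoAt (nk.PT o) g ∨ StaAt (nk.PT o) g

/-- **Iso or static windows** of the nonfull rows. -/
def IsoR : Prop := ∀ o : nk.O, ∀ᵐ Q : ℝ, RowD P ρ univ Q → Lv P (Q, 0) ∈ nk.Gs o →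
  nk.PT o (Lv P (Q, 0)) (Lv P (Q, 0)) < 1 →
    IsoAt (nk.PT o) (Lv P (Q, 0)) ∨ StaAt (nk.PT o) (Lv P (Q, 0))

variable {nk}

/-- Static thresholds at the windows with macroscopic gain are enough. -/
theorem MacR.isoR (hP : Law P) (hM : nk.MacR) : nk.IsoR := by
  intro o
  filter_upwards [hM o, ae_rowD (ρ := ρ) (W := univ) hP (isoS_or_mac (nk.hPT o))] with Q h1 h2
    hrow ho hlt
  rcases h2 hrow hrow.g0 hrow.g1 hlt with h3 | h3
  · exact Or.inl h3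
  · exact Or.inr (h1 hrow ho hlt h3)

variable {hP : Law P}
  {hP01 : ∀ a w : ℝ, 0 ≤ w → w ≤ a → a ≤ 1 → a ≤ P a w ∧ P a w ≤ 1}

/-- **Iso or static windows** of the larger family of orders. -/
theorem isoG_rows (hM : nk.IsoR) : (nk.rows hP hP01).IsoG := by
  intro o
  cases o with
  | none =>
    filter_upwards [isoS_or_mac (iso_law (diagP hP hP01))] with g h0 h1 h2 _ _ h4
    left
    rcases h0 h1 h2 h4 with h5 | h5
    · exact h5
    exfalso
    have h6 : iso (fun a => P a a) g g = P g g := iso_dia (diagP hP hP01) h1.le h2.le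
    have h4' : P g g < 1 := by
      rw [← h6]
      exact h4
    obtain ⟨v, hv⟩ : ∃ v, v = min ((1 - g) / 2) ((1 - P g g) / 2) := ⟨_, rfl⟩
    have hv0 : 0 < v := by rw [hv]; exact lt_min (by linarith) (by linarith)
    have hv1 : v ≤ (1 - g) / 2 := by rw [hv]; exact min_le_left _ _
    have hv2 : v ≤ (1 - P g g) / 2 := by rw [hv]; exact min_le_right _ _
    have h7 := h5 (g + v) (by linarith) (by linarith) (by
      rw [h6]
      linarith)
    have h8 : iso (fun a => P a a) (g + v) g ≤ P g g + (g + v - g) := iso_le _ _ _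
    rw [h6] at h7
    linarith
  | some o =>
    obtain ⟨B, hB⟩ : ∃ B : Set ℝ, B = {Q | ¬ (RowD P ρ univ Q → Lv P (Q, 0) ∈ nk.Gs o →
      nk.PT o (Lv P (Q, 0)) (Lv P (Q, 0)) < 1 →
        IsoAt (nk.PT o) (Lv P (Q, 0)) ∨ StaAt (nk.PT o) (Lv P (Q, 0)))} := ⟨_, rfl⟩
    have hB0 : volume B = 0 := by
      rw [hB]
      exact ae_iff.1 (hM o)
    have h1 : volume ((fun Q => Lv P (Q, 0)) ''
        {Q | Q ∈ B ∧ DifferentiableAt ℝ (fun Q => Lv P (Q, 0)) Q}) = 0 :=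
      addHaar_image_eq_zero_of_differentiableOn_of_addHaar_eq_zero volume
        (fun Q hQ => hQ.2.differentiableWithinAt)
        (measure_mono_null (fun Q hQ => hQ.1) hB0)
    filter_upwards [measure_eq_zero_iff_ae_notMem.1 h1] with g hg h2 h3 h4 h5 h6
    obtain ⟨Q, hrow, rfl⟩ := h5.2
    by_contra hcon
    refine hg ⟨Q, ⟨?_, hrow.dif⟩, rfl⟩
    rw [hB]
    exact fun h8 => hcon (h8 hrow h5.1 h6)

/-- The form of the dichotomy. -/
theorem IsoG.all (hP : Law P) (hP1 : ∀ a : ℝ, 0 ≤ a → a ≤ 1 → P a a ≤ 1) (hM : nk.IsoG) :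
    ∀ᵐ g : ℝ, 0 < g → g < 1 →
      (∃ a', g < a' ∧ a' ≤ 1 ∧ ρ 1 - ρ (P a' a') < 1 - P a' a') →
        ∀ o, g ∈ nk.Gs o → IsoAt (nk.PT o) g ∨ StaAt (nk.PT o) g := by
  have := nk.cO
  have h1 := ae_all_iff.2 hM
  filter_upwards [h1] with g k1 h3 h4 h5 o ho
  refine k1 o h3 h4 h5 ho ?_
  obtain ⟨a', l1, l2, l3⟩ := h5
  have j1 : nk.PT o g g ≤ P g g := nk.hle o g g h3 le_rfl h4.le
  have j2 : P g g ≤ P a' a' := hP.mono h3.le le_rfl l1.le l1.le le_rfl l2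
  have j3 := hP1 a' (by linarith) l2
  rcases j3.eq_or_lt with h6 | h6
  · rw [h6] at l3
    simp at l3
  · linarith

/-- **The charts and orders of `FullI`** from iso or static windows. -/
theorem Par.fullG (hP : Law P) (hP01 : ∀ a w : ℝ, 0 ≤ w → w ≤ a → a ≤ 1 → a ≤ P a w ∧ P a w ≤ 1)
    (p q : nk.Par) (hJ : p.cell.NoJS ∨ p.cell.NoBS) (hq : Play q.cell) (hM : nk.IsoG) :
    ∃ E' : CellD P ρ, E'.FullI := by
  obtain ⟨s, hs⟩ : ∃ s, s = p.and q := ⟨_, rfl⟩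
  have h1 : s.cell.NoJS ∨ s.cell.NoBS := by
    rw [hs]
    exact hJ.imp noJS_left noBS_left
  have h2 : Play s.cell := by
    rw [hs]
    exact play_right hq
  refine CellD.dich_full (E := s.cell) hP h1 (fun k a h0 h1 => nk.cell_nn k a h0 h1) h2
    (fun o => nk.PT o) (fun _ _ => rfl) ?_
  filter_upwards [IsoG.all hP (fun a h0 h1 => (hP01 a a h0 le_rfl h1).2) hM] with g k1 k2 k3 k4 o ho
  exact k1 k2 k3 k4 o ho.1

/-- **The charts and orders of `FullI`** from iso or static windows of the nonfull rows. -/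
theorem full_isoR (hP : Law P)
    (hP01 : ∀ a w : ℝ, 0 ≤ w → w ≤ a → a ≤ 1 → a ≤ P a w ∧ P a w ≤ 1)
    (p q : nk.Par) (hJ : p.cell.NoJS ∨ p.cell.NoBS) (hq : Play q.cell) (hM : nk.IsoR) :
    ∃ E' : CellD P ρ, E'.FullI :=
  Par.fullG hP hP01 (p.rows hP hP01) (q.rows hP hP01) (hJ.imp Par.noJS_rows Par.noBS_rows)
    (Par.play_rows hq) (isoG_rows hM)

/-- **The micro input** from iso or static windows of the nonfull rows. -/
theorem micW_isoR (hP : Law P)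
    (hP01 : ∀ a w : ℝ, 0 ≤ w → w ≤ a → a ≤ 1 → a ≤ P a w ∧ P a w ≤ 1) (hρ : LipschitzWith 1 ρ)
    (p : nk.Par) (hJ : p.cell.NoJS ∨ p.cell.NoBS) (hM : nk.IsoR) : MicW P ρ := by
  have h1 : (p.rows hP hP01).cell.NoJS ∨ (p.rows hP hP01).cell.NoBS :=
    hJ.imp Par.noJS_rows Par.noBS_rows
  refine CellD.micW_dich (E := (p.rows hP hP01).cell) hP
    (fun a h0 h1 => ⟨h0.trans (hP01 a a h0 le_rfl h1).1, (hP01 a a h0 le_rfl h1).2⟩) hρ h1
    (fun o => (nk.rows hP hP01).PT o) (fun _ _ => rfl) ?_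
  filter_upwards [IsoG.all hP (fun a h0 h1 => (hP01 a a h0 le_rfl h1).2)
    (isoG_rows (hP := hP) (hP01 := hP01) hM)] with g k1 k2 k3 k4 o ho
  exact k1 k2 k3 k4 o ho.1

/-- Iso or static windows, for a larger rate. -/
theorem isoR_chg {r : ℝ → ℝ} {nk : NumI P r} (h : Rle r ρ)
    (hP : ∀ a : ℝ, 0 ≤ a → a ≤ 1 → P a a ≤ 1) (hM : nk.IsoR) : (nk.chg h hP).IsoR := by
  intro o
  filter_upwards [hM o, h.lip.ae_differentiableAt_real] with Q h1 h2 h3
  exact h1 (h.row h2 h3)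

end NumI

end Pool.STR

namespace Pool.PKG

open MeasureTheory Set Filter Topology
open Pool.Agent.H49.Ent Pool.Agent.H32.Dense Pool.STK Pool.KA Pool.KSAT Pool.K2S Pool.PB
open Pool.GEN Pool.S6C Pool.STAT Pool.CHT Pool.GRW Pool.ONE Pool.STA
open Pool.LBT (LSys ThrOf)
open Pool.LEV (Law)
open Pool.ALL (RateOf)
open Pool.TOP (TopS)
open Pool.STR (NumI LeT CellD Rle MicW)

variable {n : ℕ}

/-- **The statements about one class which give the micro input**: no boxes, and iso or static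
windows, for the rows of `ρ`. -/
structure GoalM {P : ℝ → ℝ → ℝ} {ρ : ℝ → ℝ} (nk : NumI P ρ) : Prop where
  noBS : ∃ p : nk.Par, p.cell.NoJS ∨ p.cell.NoBS
  iso : nk.IsoR

theorem GoalM.micW {P : ℝ → ℝ → ℝ} {ρ : ℝ → ℝ} {nk : NumI P ρ} (hP : Law P)
    (hP01 : ∀ a w : ℝ, 0 ≤ w → w ≤ a → a ≤ 1 → a ≤ P a w ∧ P a w ≤ 1) (hρ : LipschitzWith 1 ρ)
    (hG : GoalM nk) : MicW P ρ := by
  obtain ⟨⟨p, hJ⟩, hM⟩ := hG
  exact NumI.micW_isoR hP hP01 hρ p hJ hM

/-- **The micro input for the rows of maximal deficit**: with the function `rt r h` as the rate. -/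
def MicRt (P : ℝ → ℝ → ℝ) (r : ℝ → ℝ) (h : ℝ) : Prop := MicW P (rt r h)

/-- **The micro input of all classes** for the rows of maximal deficit. -/
theorem micRt_of {η : ℝ → ℝ} (hi : ∀ k, 2 ≤ k → k < n → Ext0 k)
    (hG : ∀ (hn : 2 ≤ n) (_ : ∀ k, 1 ≤ k → k < n → FZX k) (hF : FZX (n - 1)) (hTop : TopS n)
      (D : ℝ), 0 < D → D ≤ 1 → Ext n ((1 + η D) * D) → ∀ (S : PCl n) (P : ℝ → ℝ → ℝ)
      (r : ℝ → ℝ) (P' : ℕ → List (Fin n) × Fin n → ℝ → ℝ → ℝ)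
      (Λ : Finset (Fin n) → Fin n → ℝ → ℝ → ℝ)
      (PB : ℕ → List (Fin n) × Fin n → ℝ → ℝ → ℝ) (H : PkT hn S P r P' Λ PB),
      GoalM ((H.nk hTop hF).chg (H.rle ((1 - η D) * D)) H.up)) : LocE n η MicRt := by
  intro hn hZ D hD hD1 hE al g₀ s d hal hg₀ _ e K₀ N S he hC P r hT hr
  have hTop : TopS n := tops_ext hZ hi
  have hF : FZX (n - 1) := hZ (n - 1) (by omega) (by omega)
  obtain ⟨S', P', Λ, PB, -, -, H⟩ := pkT_ex hn hal hg₀ hC hT hr
  exact (hG hn hZ hF hTop D hD hD1 hE S' P r P' Λ PB H).micW (hT.law ())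
    (fun a w h0 h1 h2 => ⟨hT.low () a w h0 h1 h2, hT.up () a w h0 h1 h2⟩)
    (H.rle ((1 - η D) * D)).lip'

/-- **`CellE n η` from the statements about one class.** In the strategy one may use the micro input
of all classes of the dimension `n`, for the rows of maximal deficit. -/
theorem cellE_ofI {η : ℝ → ℝ} (hi : ∀ k, 2 ≤ k → k < n → Ext0 k)
    (hG : ∀ (hn : 2 ≤ n) (_ : ∀ k, 1 ≤ k → k < n → FZX k) (hF : FZX (n - 1)) (hTop : TopS n)
      (D : ℝ), 0 < D → D ≤ 1 → Ext n ((1 + η D) * D) → ∀ (S : PCl n) (P : ℝ → ℝ → ℝ)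
      (r : ℝ → ℝ) (P' : ℕ → List (Fin n) × Fin n → ℝ → ℝ → ℝ)
      (Λ : Finset (Fin n) → Fin n → ℝ → ℝ → ℝ)
      (PB : ℕ → List (Fin n) × Fin n → ℝ → ℝ → ℝ) (H : PkT hn S P r P' Λ PB),
      GoalM ((H.nk hTop hF).chg (H.rle ((1 - η D) * D)) H.up))
    (hR : LocE n η MicRt → ∀ (hn : 2 ≤ n) (_ : ∀ k, 1 ≤ k → k < n → FZX k) (hF : FZX (n - 1))
      (hTop : TopS n) (D : ℝ), 0 < D → D ≤ 1 → Ext n ((1 + η D) * D) → ∀ (S : PCl n)
      (P : ℝ → ℝ → ℝ) (r : ℝ → ℝ) (P' : ℕ → List (Fin n) × Fin n → ℝ → ℝ → ℝ)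
      (Λ : Finset (Fin n) → Fin n → ℝ → ℝ → ℝ)
      (PB : ℕ → List (Fin n) × Fin n → ℝ → ℝ → ℝ) (H : PkT hn S P r P' Λ PB),
      ∃ q : ((H.nk hTop hF).chg (H.rle ((1 - η D) * D)) H.up).Par, NumI.Play q.cell) :
    CellE n η := by
  have hM := micRt_of hi hG
  intro hn hZ D hD hD1 hE al g₀ s d hal hg₀ _ e K₀ N S he hC P r hT hr
  have hTop : TopS n := tops_ext hZ hi
  have hF : FZX (n - 1) := hZ (n - 1) (by omega) (by omega)
  obtain ⟨S', P', Λ, PB, -, -, H⟩ := pkT_ex hn hal hg₀ hC hT hr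
  obtain ⟨⟨p, hJ⟩, hI⟩ := hG hn hZ hF hTop D hD hD1 hE S' P r P' Λ PB H
  obtain ⟨q, hq⟩ := hR hM hn hZ hF hTop D hD hD1 hE S' P r P' Λ PB H
  exact NumI.full_isoR (hT.law ())
    (fun a w h0 h1 h2 => ⟨hT.low () a w h0 h1 h2, hT.up () a w h0 h1 h2⟩) p q hJ hq hI

/-- **`KP m`** from the statements about one class and from the jumps. -/
theorem kp_goalI {m : ℕ} (hm : 1 ≤ m) (η : ℕ → ℝ → ℝ) (hη : ∀ n D, 0 < D → 0 < η n D)
    (hη1 : ∀ n D, 0 < D → η n D ≤ 1)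
    (hG : ∀ n : ℕ, 2 ≤ n → n ≤ m → (∀ k, 2 ≤ k → k < n → Ext0 k) →
      ∀ (hn : 2 ≤ n) (_ : ∀ k, 1 ≤ k → k < n → FZX k) (hF : FZX (n - 1)) (hTop : TopS n)
      (D : ℝ), 0 < D → D ≤ 1 → Ext n ((1 + η n D) * D) → ∀ (S : PCl n) (P : ℝ → ℝ → ℝ)
      (r : ℝ → ℝ) (P' : ℕ → List (Fin n) × Fin n → ℝ → ℝ → ℝ)
      (Λ : Finset (Fin n) → Fin n → ℝ → ℝ → ℝ)
      (PB : ℕ → List (Fin n) × Fin n → ℝ → ℝ → ℝ) (H : PkT hn S P r P' Λ PB),
      GoalM ((H.nk hTop hF).chg (H.rle ((1 - η n D) * D)) H.up))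
    (hR : ∀ n : ℕ, 2 ≤ n → n ≤ m → (∀ k, 2 ≤ k → k < n → Ext0 k) → LocE n (η n) MicRt →
      ∀ (hn : 2 ≤ n) (_ : ∀ k, 1 ≤ k → k < n → FZX k) (hF : FZX (n - 1)) (hTop : TopS n)
      (D : ℝ), 0 < D → D ≤ 1 → Ext n ((1 + η n D) * D) → ∀ (S : PCl n) (P : ℝ → ℝ → ℝ)
      (r : ℝ → ℝ) (P' : ℕ → List (Fin n) × Fin n → ℝ → ℝ → ℝ)
      (Λ : Finset (Fin n) → Fin n → ℝ → ℝ → ℝ)
      (PB : ℕ → List (Fin n) × Fin n → ℝ → ℝ → ℝ) (H : PkT hn S P r P' Λ PB),
      ∃ q : ((H.nk hTop hF).chg (H.rle ((1 - η n D) * D)) H.up).Par, NumI.Play q.cell)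
    (hJ : ∀ n, 2 ≤ n → n ≤ m → (∀ k, 2 ≤ k → k < n → Ext0 k) → LocE n (η n) JmpE) : KP m := by
  have hC : ∀ n, 2 ≤ n → n ≤ m → (∀ k, 2 ≤ k → k < n → Ext0 k) → CellE n (η n) :=
    fun n h1 h2 h3 => cellE_ofI h3 (hG n h1 h2 h3) (hR n h1 h2 h3)
  exact kp_indE hm η hη (fun n h1 h2 h3 => (hC n h1 h2 h3).mic (hη1 n))
    (fun n h1 h2 h3 => (hC n h1 h2 h3).sta (hη1 n)) hJ

end Pool.PKG
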