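import Pool.Agent.H60.GEN.CelI

/-!
# The parameters of the cells

`NumI.Par`: the free parameters of the data `NumI.cell`: the charts, the properties of the selected
charts and the defects. `Par.and`: two sets of parameters together. A cell with more properties is
easier to exclude: `Par.noBS_left`, `Par.noJS_left`, `Par.play_right`. So the statements about the
iso windows and the strategy may be proved with different parameters (`Par.full`).
-/

set_option autoImplicit false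

namespace Pool.STR

open MeasureTheory Set Filter Topology Pool.LEV Pool.RTS

namespace NumI

variable {P : ℝ → ℝ → ℝ} {ρ : ℝ → ℝ} (nk : NumI P ρ)

/-- **The free parameters** of the data of the fattest boxes. -/
structure Par where
  /-- the charts -/
  α : Type
  cα : Countable α
  /-- further properties of the selected charts -/
  Ad' : ℝ → α × nk.O → ℝ → ℝ → ℝ → Prop
  /-- the defects -/
  df : α × nk.O → ℝ → ℝ → ℝ
  /-- windows which are left out -/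
  N : Set ℝ
  hN : volume N = 0
  hch : ∀ᵐ Q : ℝ, RowD P ρ Nᶜ Q → ∀ o : nk.O, Lv P (Q, 0) ∈ nk.Gd o →
    ∃ c : ℝ, 0 < c ∧ ∀ c' : ℝ, 0 < c' → c' ≤ c → ∀ e : ℝ, 0 < e →
      ∃ (k : ℝ → α) (r₀ : ℝ), 0 < r₀ ∧ ∀ r : ℝ, 0 < r → r < r₀ →
        Ad' c' (k r, o) Q (Lv P (Q, 0)) r ∧ df (k r, o) (Lv P (Q, 0)) r ≤ e * r

namespace Par

variable {nk}

/-- The data of the fattest boxes. -/
noncomputable def cell (p : nk.Par) : CellD P ρ := nk.cell p.α p.cα p.Ad' p.df p.N p.hN p.hch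

/-- **One chart**: properties which hold for all small constants and scales. -/
def one (Ad' : ℝ → nk.O → ℝ → ℝ → ℝ → Prop) (df : nk.O → ℝ → ℝ → ℝ) (N : Set ℝ)
    (hN : volume N = 0) (h : ∀ᵐ Q : ℝ, RowD P ρ Nᶜ Q → ∀ o : nk.O, Lv P (Q, 0) ∈ nk.Gd o →
      ∃ c : ℝ, 0 < c ∧ ∀ c' : ℝ, 0 < c' → c' ≤ c → ∀ e : ℝ, 0 < e →
        ∃ r₀ : ℝ, 0 < r₀ ∧ ∀ r : ℝ, 0 < r → r < r₀ →
          Ad' c' o Q (Lv P (Q, 0)) r ∧ df o (Lv P (Q, 0)) r ≤ e * r) : nk.Par where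
  α := Unit
  cα := inferInstance
  Ad' c k := Ad' c k.2
  df k := df k.2
  N := N
  hN := hN
  hch := by
    filter_upwards [h] with Q hQ hrow o ho
    obtain ⟨c, hc, h1⟩ := hQ hrow o ho
    refine ⟨c, hc, fun c' h2 h3 e he => ?_⟩
    obtain ⟨r₀, hr₀, h4⟩ := h1 c' h2 h3 e he
    exact ⟨fun _ => (), r₀, hr₀, h4⟩

/-- **Two sets of parameters together.** -/
def and (p q : nk.Par) : nk.Par where
  α := p.α × q.α
  cα := by
    have := p.cα
    have := q.cα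
    infer_instance
  Ad' c k Q g r := p.Ad' c (k.1.1, k.2) Q g r ∧ q.Ad' c (k.1.2, k.2) Q g r
  df k g r := max (p.df (k.1.1, k.2) g r) (q.df (k.1.2, k.2) g r)
  N := p.N ∪ q.N
  hN := measure_union_null p.hN q.hN
  hch := by
    filter_upwards [p.hch, q.hch] with Q hp hq hrow o ho
    have hp' : RowD P ρ p.Nᶜ Q := { hrow with mem := fun h => hrow.mem (Or.inl h) }
    have hq' : RowD P ρ q.Nᶜ Q := { hrow with mem := fun h => hrow.mem (Or.inr h) }
    obtain ⟨c₁, hc₁, h1⟩ := hp hp' o ho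
    obtain ⟨c₂, hc₂, h2⟩ := hq hq' o ho
    refine ⟨min c₁ c₂, lt_min hc₁ hc₂, fun c' hc' hcc e he => ?_⟩
    obtain ⟨k₁, r₁, hr₁, h3⟩ := h1 c' hc' (hcc.trans (min_le_left _ _)) e he
    obtain ⟨k₂, r₂, hr₂, h4⟩ := h2 c' hc' (hcc.trans (min_le_right _ _)) e he
    refine ⟨fun r => (k₁ r, k₂ r), min r₁ r₂, lt_min hr₁ hr₂, fun r hr hr' => ?_⟩
    obtain ⟨a1, a2⟩ := h3 r hr (hr'.trans_le (min_le_left _ _))
    obtain ⟨b1, b2⟩ := h4 r hr (hr'.trans_le (min_le_right _ _))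
    exact ⟨⟨a1, b1⟩, max_le a2 b2⟩

section

variable {p q : nk.Par}

theorem ad_left {c : ℝ} {k : (p.α × q.α) × nk.O} {Q g r : ℝ}
    (h : (p.and q).cell.Ad c k Q g r) : p.cell.Ad c (k.1.1, k.2) Q g r :=
  ⟨h.1, h.2.1, h.2.2.1, h.2.2.2.1, h.2.2.2.2.1⟩

theorem ad_right {c : ℝ} {k : (p.α × q.α) × nk.O} {Q g r : ℝ}
    (h : (p.and q).cell.Ad c k Q g r) : q.cell.Ad c (k.1.2, k.2) Q g r :=
  ⟨h.1, h.2.1, h.2.2.1, h.2.2.2.1, h.2.2.2.2.2⟩

theorem dfr_left (k : (p.α × q.α) × nk.O) (g r : ℝ) :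
    p.cell.dfr (k.1.1, k.2) g r ≤ (p.and q).cell.dfr k g r :=
  max_le ((le_max_left _ _).trans (le_max_left _ _)) (le_max_right _ _)

theorem dfr_right (k : (p.α × q.α) × nk.O) (g r : ℝ) :
    q.cell.dfr (k.1.2, k.2) g r ≤ (p.and q).cell.dfr k g r :=
  max_le ((le_max_right _ _).trans (le_max_left _ _)) (le_max_right _ _)

theorem ads_left {c e : ℝ} {k : (p.α × q.α) × nk.O} {Q g r S : ℝ}
    (h : (p.and q).cell.AdS c e k Q g r S) : p.cell.AdS c e (k.1.1, k.2) Q g r S :=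
  ⟨⟨ad_left h.ade.ad, h.ade.e0, h.ade.e1, h.ade.lv, h.ade.dg, h.ade.sl, h.ade.dj⟩, h.val, h.S1,
    h.cS, h.dgP, h.dgB, h.iso⟩

/-- **No boxes**, from the parameters on the left. -/
theorem noBS_left (hp : p.cell.NoBS) : (p.and q).cell.NoBS := by
  intro c β h hc hβ hh
  obtain ⟨ε, hε, hε1, M, hM, H⟩ := hp c β h hc hβ hh
  exact ⟨ε, hε, hε1, M, hM, fun k Q g r S k1 k2 k3 k4 k5 k6 k7 k8 k9 k10 =>
    H (k.1.1, k.2) Q g r S k1 k2 k3 k4 k5 k6 (ads_left k7) k8 k9 ((dfr_left k g r).trans k10)⟩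

/-- **No joint cells**, from the parameters on the left. -/
theorem noJS_left (hp : p.cell.NoJS) : (p.and q).cell.NoJS := by
  intro c β T h h1 h2 h3 h4
  obtain ⟨ε, hε, H⟩ := hp c β T h h1 h2 h3 h4
  refine ⟨ε, hε, fun k Q g r y X lamN muN lam mu k1 k2 k3 k4 k5 k6 k7 k8 k9 => ?_⟩
  obtain ⟨S, hS⟩ := k6
  refine H ((k.1.1.1, k.1.2), k.2) Q g r y X lamN muN lam mu k1 k2 k3 k4 k5 ⟨S, ads_left hS⟩ k7 k8
    (le_trans ?_ k9)
  exact max_le_max (dfr_left k.1 g r) le_rfl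

/-- **The strategy**, from the parameters on the right. -/
theorem play_right (hq : Play q.cell) : Play (p.and q).cell := by
  obtain ⟨W', Att, Z, p1, p2, p3, p4, p5, p6⟩ := hq
  refine ⟨W', fun o x => Att o x.2, Z, p1, p2, fun o x => p3 o x.2, p4, ?_, ?_⟩
  · filter_upwards [p5] with Q hQ hrow o ho j
    obtain ⟨a1, a2⟩ := hQ hrow o ho j
    exact ⟨a1, a2.imp id fun h x => h x.2⟩
  · filter_upwards [p6] with Q hQ hrow o c g hO hσ
    have hO' : q.cell.RowO W' Q o c g :=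
      ⟨hO.eq, hO.g0, hO.g1, hO.val, hO.mem, hO.dns, hO.dif, hO.der, hO.difD, hO.c0⟩
    have h1 := hQ hrow o c g hO' hσ
    intro s
    obtain ⟨ε, hε, e, he, r₁, hr₁, K, H⟩ := h1 s
    exact ⟨ε, hε, e, he, r₁, hr₁, K, fun x r b k1 k2 k3 k4 k5 k6 k7 =>
      H x.2 r b k1 k2 k3 ⟨ad_right k4.1, (dfr_right (x, o) g _).trans k4.2⟩ k5 k6 k7⟩

end

/-- **The charts and orders of `FullI`**, from two sets of parameters. -/
theorem full (hP : Law P) (hP01 : ∀ a w : ℝ, 0 ≤ w → w ≤ a → a ≤ 1 → a ≤ P a w ∧ P a w ≤ 1)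
    (p q : nk.Par) (hJ : p.cell.NoJS ∨ p.cell.NoBS) (hq : Play q.cell) (hM : nk.MacSta) :
    ∃ E' : CellD P ρ, E'.FullI := by
  obtain ⟨s, hs⟩ : ∃ s, s = p.and q := ⟨_, rfl⟩
  have h1 : s.cell.NoJS ∨ s.cell.NoBS := by
    rw [hs]
    exact hJ.imp noJS_left noBS_left
  have h2 : Play s.cell := by
    rw [hs]
    exact play_right hq
  exact nk.full hP hP01 h1 h2 hM

end Par

end NumI

end Pool.STR
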