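import Pool.Agent.H76.GN.Lev

/-!
# Gain over the fattest boxes: small on the whole box, or macroscopic

`P a w`: a threshold with the laws `Law`. `Mac P g`: the threshold at the window `g` exceeds the
number `P g g + (A - g)` of the fattest box for **every** radius `A > g` (macroscopic gain).

`iso_or_mac`: at almost every window `g` where `Mac P g` fails, `P a w = P w w + (a - w) + o (r)` on
the whole box of size `r` at `(g, g)`. No further input is used: `P A w - (A - w)` is a monotone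
function of the window, `P w w` is another one, their difference is not negative, and a nonnegative
function which vanishes at a point has derivative zero there.

`mac_nhd`: macroscopic gain at `g` gives a uniform gain at all windows near `g`.
-/

set_option autoImplicit false

namespace Pool.STR

open MeasureTheory Set Filter Topology
open Pool.LEV (Law)

/-- **Macroscopic gain** at the window `g`. -/
def Mac (P : ℝ → ℝ → ℝ) (g : ℝ) : Prop :=
  ∀ A : ℝ, g < A → A ≤ 1 → P g g + (A - g) < 1 → P g g + (A - g) < P A g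

/-- The clamp to `[0, A]`. -/
private noncomputable def ck (A x : ℝ) : ℝ := max 0 (min x A)

private theorem ck_mono {A : ℝ} : Monotone (ck A) := fun _ _ h =>
  max_le_max le_rfl (min_le_min_right A h)

private theorem ck_nonneg {A x : ℝ} : 0 ≤ ck A x := le_max_left _ _

private theorem ck_le {A x : ℝ} (hA : 0 ≤ A) : ck A x ≤ A := max_le hA (min_le_right _ _)

private theorem ck_of {A x : ℝ} (h0 : 0 ≤ x) (h1 : x ≤ A) : ck A x = x := by
  unfold ck
  rw [min_eq_left h1, max_eq_right h0]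

variable {P : ℝ → ℝ → ℝ}

/-- The threshold at a fixed radius is differentiable in the window almost everywhere. -/
theorem row_ae (hP : Law P) {A : ℝ} (hA1 : A ≤ 1) :
    ∀ᵐ g : ℝ, 0 < g → g < A → DifferentiableAt ℝ (fun w => P A w) g := by
  rcases le_or_gt A 0 with h0 | h0
  · exact Eventually.of_forall fun g h1 h2 => absurd h1 (by linarith)
  have hm : Monotone fun w => P A (ck A w) := fun x y hxy =>
    hP.mono_w A _ _ ck_nonneg (ck_mono hxy) (ck_le h0.le) hA1
  filter_upwards [hm.ae_differentiableAt] with g hg h1 h2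
  refine hg.congr_of_eventuallyEq ?_
  filter_upwards [Ioo_mem_nhds h1 h2] with x hx
  rw [ck_of hx.1.le hx.2.le]

/-- The diagonal is differentiable almost everywhere. -/
theorem dia_ae (hP : Law P) :
    ∀ᵐ g : ℝ, 0 < g → g < 1 → DifferentiableAt ℝ (fun w => P w w) g := by
  have hm : Monotone fun w => P (ck 1 w) (ck 1 w) := fun x y hxy =>
    hP.mono ck_nonneg le_rfl (ck_mono hxy) (ck_mono hxy) le_rfl (ck_le zero_le_one)
  filter_upwards [hm.ae_differentiableAt] with g hg h1 h2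
  refine hg.congr_of_eventuallyEq ?_
  filter_upwards [Ioo_mem_nhds h1 h2] with x hx
  rw [ck_of hx.1.le hx.2.le]

/-- **The gain over the box up to the radius `A`.** -/
def gnA (P : ℝ → ℝ → ℝ) (A w : ℝ) : ℝ := P A w - (A - w) - P w w

/-- The gain is not negative, as long as the box is not full. -/
theorem gnA_nonneg (hP : Law P) {A w : ℝ} (h0 : 0 ≤ w) (h1 : w ≤ A) (hA : A ≤ 1)
    (h : P w w + (A - w) ≤ 1) : 0 ≤ gnA P A w := by
  have := hP.slope w w (A - w) h0 le_rfl (by linarith) (by linarith)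
  rw [min_eq_right h, add_sub_cancel] at this
  unfold gnA
  linarith

/-- The gain over the smaller boxes is at most the gain over the large one. -/
theorem le_gnA (hP : Law P) {A a w : ℝ} (h0 : 0 ≤ w) (h1 : w ≤ a) (h2 : a ≤ A) (hA : A ≤ 1)
    (h : P A w < 1) : P a w - P w w - (a - w) ≤ gnA P A w := by
  have h3 := hP.slope a w (A - a) h0 h1 (by linarith) (by linarith)
  rw [add_sub_cancel] at h3
  unfold gnA
  rcases min_le_iff.1 h3 with h4 | h4 <;> linarith

/-- **The box at a window without macroscopic gain**, one window. -/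
theorem iso_pt (hP : Law P) {A g : ℝ} (hg0 : 0 < g) (hgA : g < A) (hA1 : A ≤ 1)
    (hlt : P g g + (A - g) < 1) (hA : P A g ≤ P g g + (A - g))
    (hdA : DifferentiableAt ℝ (fun w => P A w) g) (hd : DifferentiableAt ℝ (fun w => P w w) g) :
    ∀ ε : ℝ, 0 < ε → ∃ r₀ : ℝ, 0 < r₀ ∧ g + r₀ ≤ A ∧ r₀ ≤ g ∧ ∀ r : ℝ, 0 < r → r < r₀ →
      ∀ a w : ℝ, g - r ≤ w → w ≤ a → a ≤ g + r → |P a w - P w w - (a - w)| ≤ ε * r := by
  intro ε hε
  have hdg : DifferentiableAt ℝ (gnA P A) g := by
    have h1 : gnA P A = fun w => P A w - (A - w) - P w w := rfl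
    rw [h1]
    exact (hdA.sub ((differentiableAt_const A).sub differentiableAt_id)).sub hd
  -- the neighbourhood where the boxes are not full
  have hc : ∀ᶠ w in 𝓝 g, P w w + (A - w) < 1 := by
    have h1 : ContinuousAt (fun w => P w w + (A - w)) g :=
      hd.continuousAt.add (continuousAt_const.sub continuousAt_id)
    exact h1.eventually (gt_mem_nhds hlt)
  have hc' : ∀ᶠ w in 𝓝 g, P A w < 1 := hdA.continuousAt.eventually (gt_mem_nhds (hA.trans_lt hlt))
  have hIoo : ∀ᶠ w in 𝓝 g, w ∈ Ioo 0 A := Ioo_mem_nhds hg0 hgA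
  have h0 : gnA P A g = 0 := by
    have h1 := gnA_nonneg hP hg0.le hgA.le hA1 hlt.le
    refine le_antisymm ?_ h1
    unfold gnA
    linarith
  have hmin : IsLocalMin (gnA P A) g := by
    filter_upwards [hc, hIoo] with w h1 h2
    rw [h0]
    exact gnA_nonneg hP h2.1.le h2.2.le hA1 h1.le
  have hder : HasDerivAt (gnA P A) 0 g := by
    have h1 := hmin.deriv_eq_zero
    have h2 := hdg.hasDerivAt
    rwa [h1] at h2
  have h3 := hder.isLittleO.def hε
  have h4 : ∀ᶠ w in 𝓝 g, |gnA P A w| ≤ ε * |w - g| := by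
    filter_upwards [h3] with w hw
    rw [h0, sub_zero, smul_zero, sub_zero, Real.norm_eq_abs, Real.norm_eq_abs] at hw
    exact hw
  obtain ⟨δ, hδ, hb⟩ := Metric.eventually_nhds_iff.1 (h4.and (hc.and (hc'.and hIoo)))
  refine ⟨min δ (min (A - g) g), lt_min hδ (lt_min (by linarith) hg0), ?_, ?_, ?_⟩
  · have : min δ (min (A - g) g) ≤ A - g := (min_le_right _ _).trans (min_le_left _ _)
    linarith
  · exact (min_le_right _ _).trans (min_le_right _ _)
  intro r hr hr' a w h5 h6 h7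
  have hrδ : r < δ := hr'.trans_le (min_le_left _ _)
  have hrA : r < A - g := hr'.trans_le ((min_le_right _ _).trans (min_le_left _ _))
  have hrg : r < g := hr'.trans_le ((min_le_right _ _).trans (min_le_right _ _))
  have hwg : |w - g| ≤ r := by
    rw [abs_le]
    constructor <;> linarith
  obtain ⟨k1, k2, k3, k4⟩ := hb (y := w) (by rw [Real.dist_eq]; exact hwg.trans_lt hrδ)
  have hw0 : 0 ≤ w := k4.1.le
  have haA : a ≤ A := by linarith
  have e1 := le_gnA hP hw0 h6 haA hA1 k3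
  have e2 : ε * |w - g| ≤ ε * r := mul_le_mul_of_nonneg_left hwg hε.le
  have e3 := (abs_le.1 (k1.trans e2)).2
  -- the lower bound
  have e4 := hP.slope w w (a - w) hw0 le_rfl (by linarith) (by linarith)
  rw [add_sub_cancel, min_eq_right (by linarith)] at e4
  rw [abs_le]
  have e5 : 0 < ε * r := mul_pos hε hr
  constructor <;> linarith

/-- **Small gain on the whole box, or macroscopic gain.** -/
theorem iso_or_mac (hP : Law P) : ∀ᵐ g : ℝ, 0 < g → g < 1 → P g g < 1 → ¬ Mac P g →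
    ∀ ε : ℝ, 0 < ε → ∃ r₀ : ℝ, 0 < r₀ ∧ g + r₀ ≤ 1 ∧ r₀ ≤ g ∧ ∀ r : ℝ, 0 < r → r < r₀ →
      ∀ a w : ℝ, g - r ≤ w → w ≤ a → a ≤ g + r → |P a w - P w w - (a - w)| ≤ ε * r := by
  have h1 : ∀ᵐ g : ℝ, ∀ A : ℚ, (A : ℝ) ≤ 1 → 0 < g → g < A →
      DifferentiableAt ℝ (fun w => P A w) g := by
    refine ae_all_iff.2 fun A => ?_
    by_cases hA : (A : ℝ) ≤ 1
    · filter_upwards [row_ae hP hA] with g hg _ h2 h3
      exact hg h2 h3
    · exact Eventually.of_forall fun g h => absurd h hA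
  filter_upwards [h1, dia_ae hP] with g k1 k2 hg0 hg1 hlt hM ε hε
  unfold Mac at hM
  push Not at hM
  obtain ⟨A, hA0, hA1, hA2, hA3⟩ := hM
  obtain ⟨q, hq1, hq2⟩ := exists_rat_btwn hA0
  -- the same at a rational radius
  have h4 := hP.slope q g (A - q) hg0.le hq1.le (by linarith) (by linarith)
  rw [add_sub_cancel] at h4
  have h5 : P q g ≤ P g g + (q - g) := by
    rcases min_le_iff.1 h4 with h6 | h6 <;> linarith
  obtain ⟨r₀, hr0, hr1, hr2, hr3⟩ := iso_pt hP hg0 hq1 (by linarith) (by linarith) h5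
    (k1 q (by linarith) hg0 hq1) (k2 hg0 hg1) ε hε
  exact ⟨r₀, hr0, by linarith, hr2, hr3⟩

/-- **The form with the slopes** `(1, S - 1)` in the radius and the window. -/
theorem isoS_or_mac (hP : Law P) : ∀ᵐ g : ℝ, 0 < g → g < 1 → P g g < 1 →
    (∀ ε : ℝ, 0 < ε → ∃ r₀ : ℝ, 0 < r₀ ∧ ∀ r : ℝ, 0 < r → r < r₀ → ∃ S : ℝ, ∀ a w : ℝ,
      g - 8 * r ≤ w → w ≤ a → a ≤ g + 8 * r →
        |P a w - P g g - (a - g) - (S - 1) * (w - g)| ≤ ε * r) ∨ Mac P g := by
  filter_upwards [iso_or_mac hP, dia_ae hP] with g k1 k2 hg0 hg1 hlt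
  by_cases hM : Mac P g
  · exact Or.inr hM
  left
  intro ε hε
  obtain ⟨r₁, hr1, -, -, hb⟩ := k1 hg0 hg1 hlt hM (ε / 16) (by linarith)
  have h3 := (k2 hg0 hg1).hasDerivAt.isLittleO.def (show (0 : ℝ) < ε / 16 by linarith)
  obtain ⟨δ, hδ, hd⟩ := Metric.eventually_nhds_iff.1 h3
  refine ⟨min (r₁ / 8) (δ / 16), lt_min (by linarith) (by linarith), fun r hr hr' => ?_⟩
  have m1 : r < r₁ / 8 := hr'.trans_le (min_le_left _ _)
  have m2 : r < δ / 16 := hr'.trans_le (min_le_right _ _)
  refine ⟨deriv (fun w => P w w) g, fun a w h5 h6 h7 => ?_⟩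
  have e1 := abs_le.1 (hb (8 * r) (by linarith) (by linarith) a w h5 h6 h7)
  have hwg : |w - g| ≤ 8 * r := by
    rw [abs_le]
    constructor <;> linarith
  have e2 := hd (y := w) (by rw [Real.dist_eq]; linarith)
  rw [Real.norm_eq_abs, Real.norm_eq_abs, smul_eq_mul] at e2
  have e3 : ε / 16 * |w - g| ≤ ε / 16 * (8 * r) := mul_le_mul_of_nonneg_left hwg (by linarith)
  have e4 := abs_le.1 (e2.trans e3)
  have e5 : (w - g) * deriv (fun w => P w w) g
      = (deriv (fun w => P w w) g - 1) * (w - g) + (w - g) := by ring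
  rw [e5] at e4
  have e6 : 0 < ε * r := mul_pos hε hr
  rw [abs_le]
  constructor <;> linarith

/-- **Macroscopic gain at all windows near `g`.** -/
theorem mac_nhd (hP : Law P) : ∀ᵐ g : ℝ, 0 < g → g < 1 → P g g < 1 → Mac P g →
    ∀ A₁ : ℝ, g < A₁ → ∃ A : ℝ, g < A ∧ A < A₁ ∧ A ≤ 1 ∧ ∃ δ : ℝ, 0 < δ ∧ ∃ η : ℝ, 0 < η ∧
      g + η < A ∧ η < g ∧ ∀ w : ℝ, |w - g| ≤ η → P w w + (A - w) + δ ≤ P A w := by
  have h1 : ∀ᵐ g : ℝ, ∀ A : ℚ, (A : ℝ) ≤ 1 → 0 < g → g < A →
      DifferentiableAt ℝ (fun w => P A w) g := by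
    refine ae_all_iff.2 fun A => ?_
    by_cases hA : (A : ℝ) ≤ 1
    · filter_upwards [row_ae hP hA] with g hg _ h2 h3
      exact hg h2 h3
    · exact Eventually.of_forall fun g h => absurd h hA
  filter_upwards [h1, dia_ae hP] with g k1 k2 hg0 hg1 hlt hM A₁ hA₁
  obtain ⟨A, hA0, hA2⟩ := exists_rat_btwn
    (show g < min (min A₁ 1) (g + (1 - P g g)) from
      lt_min (lt_min hA₁ hg1) (by linarith))
  have h2 : (A : ℝ) < A₁ := hA2.trans_le ((min_le_left _ _).trans (min_le_left _ _))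
  have h3 : (A : ℝ) < 1 := hA2.trans_le ((min_le_left _ _).trans (min_le_right _ _))
  have h4 : (A : ℝ) < g + (1 - P g g) := hA2.trans_le (min_le_right _ _)
  have h5 := hM A hA0 h3.le (by linarith)
  obtain ⟨δ, hδ⟩ : ∃ δ, δ = (P A g - (P g g + (A - g))) / 2 := ⟨_, rfl⟩
  have hδ0 : 0 < δ := by rw [hδ]; linarith
  have h6 : ContinuousAt (fun w => P A w - P w w - (A - w)) g :=
    ((k1 A h3.le hg0 hA0).continuousAt.sub (k2 hg0 hg1).continuousAt).sub
      (continuousAt_const.sub continuousAt_id)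
  have h7 : ∀ᶠ w in 𝓝 g, δ < P A w - P w w - (A - w) :=
    h6.eventually (lt_mem_nhds (by rw [hδ]; linarith))
  obtain ⟨η, hη, hb⟩ := Metric.eventually_nhds_iff.1 h7
  obtain ⟨η', hη'⟩ : ∃ η', η' = min (η / 2) (min ((A - g) / 2) (g / 2)) := ⟨_, rfl⟩
  have i1 : η' ≤ η / 2 := by rw [hη']; exact min_le_left _ _
  have i2 : η' ≤ (A - g) / 2 := by rw [hη']; exact (min_le_right _ _).trans (min_le_left _ _)
  have i3 : η' ≤ g / 2 := by rw [hη']; exact (min_le_right _ _).trans (min_le_right _ _)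
  have i0 : 0 < η' := by
    rw [hη']
    exact lt_min (by linarith) (lt_min (by linarith) (by linarith))
  refine ⟨A, hA0, h2, h3.le, δ, hδ0, η', i0, by linarith, by linarith, fun w hw => ?_⟩
  have := hb (y := w) (by rw [Real.dist_eq]; linarith)
  linarith

/-- A window with macroscopic gain is not a window where the slope of the diagonal is one. -/
theorem Mac.slope (hP : Law P) {g : ℝ} (hg0 : 0 < g)
    (hM : Mac P g) {A : ℝ} (hA : g < A) (hA1 : A ≤ 1) (hA2 : P g g + (A - g) < 1) :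
    P g g + (A - g) < P A A :=
  (hM A hA hA1 hA2).trans_le (hP.mono_w A g A hg0.le hA.le le_rfl hA1)

end Pool.STR
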