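import Pool.Agent.H29.REC.Iso
import Pool.Agent.H39.GEN.DichF

/-!
# One kit: the fattest boxes

`NumI P ρ`: the numbers of a class. For every order `o` of the coordinates: the diagonals `D o j` of
the other coordinates and the threshold `PT o` of the target over the order, for the fattest boxes;
`P` is the threshold of the target over all orders. At almost every window below nonfull rows some
order is right (`hG`, `hPG`); `Gs o` are the windows at which the facts about the order are known.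

`NumI.cell`: the data `CellD`; the levels are those of the fattest boxes (`Pool.RTS.iso`).
`NumI.full`: what is needed for `FullI`: no boxes at the iso windows (`NoBS` or `NoJS`), the
strategy against the affine cells (`Play`), and static thresholds at the windows with macroscopic
gain.
-/

set_option autoImplicit false

namespace Pool.STR

open MeasureTheory Set Filter Topology Pool.LEV Pool.RTS

/-- **The numbers of a class**, one kit. -/
structure NumI (P : ℝ → ℝ → ℝ) (ρ : ℝ → ℝ) where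
  /-- the orders -/
  O : Type
  cO : Countable O
  /-- the number of the other coordinates -/
  m : ℕ
  /-- the diagonals of the other coordinates -/
  D : O → Fin m → ℝ → ℝ
  /-- the threshold of the target over the order -/
  PT : O → ℝ → ℝ → ℝ
  hD : ∀ o j, Diag (D o j)
  hPT : ∀ o, Law (PT o)
  lPT : ∀ o (a w : ℝ), 0 ≤ w → w ≤ a → a ≤ 1 → a ≤ PT o a w ∧ PT o a w ≤ 1
  hle : ∀ o, LeT (PT o) P
  /-- the good windows of an order -/
  Gs : O → Set ℝ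
  hG : ∀ᵐ g : ℝ, 0 < g → g < 1 →
    (∃ a', g < a' ∧ a' ≤ 1 ∧ ρ 1 - ρ (P a' a') < 1 - P a' a') → ∃ o, g ∈ Gs o
  hPG : ∀ᵐ g : ℝ, ∀ o, g ∈ Gs o → 0 < g → g < 1 →
    ∀ a', g < a' → a' ≤ 1 → P g g ≤ PT o a' a'

namespace NumI

variable {P : ℝ → ℝ → ℝ} {ρ : ℝ → ℝ} (nk : NumI P ρ)

/-- The windows at which the order is right. -/
def Gd (o : nk.O) : Set ℝ :=
  {g | g ∈ nk.Gs o ∧ ∀ a', g < a' → a' ≤ 1 → P g g ≤ nk.PT o a' a'}

theorem gd_sub (o : nk.O) : nk.Gd o ⊆ nk.Gs o := fun _ h => h.1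

/-- The diagonal of the target over the order. -/
def dT (o : nk.O) (a : ℝ) : ℝ := nk.PT o a a

theorem diag_T (o : nk.O) : Diag (nk.dT o) :=
  diag_of (D := nk.PT o) (nk.hPT o) (fun a h0 h1 => (nk.lPT o a a h0 le_rfl h1).1)
    fun a h0 h1 => (nk.lPT o a a h0 le_rfl h1).2

/-- **The data of the fattest boxes.** The charts `α`, the properties `Ad'` and the defects `df` are
free. -/
noncomputable def cell (α : Type) (cα : Countable α)
    (Ad' : ℝ → α × nk.O → ℝ → ℝ → ℝ → Prop) (df : α × nk.O → ℝ → ℝ → ℝ)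
    (N : Set ℝ) (hN : volume N = 0)
    (hch : ∀ᵐ Q : ℝ, RowD P ρ Nᶜ Q → ∀ o : nk.O, Lv P (Q, 0) ∈ nk.Gd o →
      ∃ c : ℝ, 0 < c ∧ ∀ c' : ℝ, 0 < c' → c' ≤ c → ∀ e : ℝ, 0 < e →
        ∃ (k : ℝ → α) (r₀ : ℝ), 0 < r₀ ∧ ∀ r : ℝ, 0 < r → r < r₀ →
          Ad' c' (k r, o) Q (Lv P (Q, 0)) r ∧ df (k r, o) (Lv P (Q, 0)) r ≤ e * r) :
    CellD P ρ where
  α := α
  O := nk.O
  J := Option (Fin nk.m)
  cα := cα
  cO := nk.cO
  fJ := inferInstance
  m := nk.m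
  PB k := nk.PT k.2
  be k j := iso (nk.D k.2 j)
  D o j := j.elim (nk.dT o) (nk.D o)
  f _ j := some j
  G := nk.Gd
  Ad' := Ad'
  df := df
  N := N
  hPB k := nk.hPT _
  hle k := nk.hle _
  hbe k j := iso_law (nk.hD _ _)
  hdia x o j a h0 h1 := iso_dia (nk.hD o j) h0 h1
  hDm o j x y h0 h1 h2 := by
    cases j with
    | none => exact (nk.diag_T o).mono h0 h1 h2
    | some j => exact (nk.hD o j).mono h0 h1 h2
  hD0 o j x h0 h1 := by
    cases j with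
    | none => exact h0.trans ((nk.diag_T o).low h0 h1)
    | some j => exact h0.trans ((nk.hD o j).low h0 h1)
  hD1 o j x h0 h1 := by
    cases j with
    | none => exact (nk.diag_T o).up h0 h1
    | some j => exact (nk.hD o j).up h0 h1
  hG := by
    filter_upwards [nk.hG, nk.hPG] with g h1 h2 h3 h4 h5
    obtain ⟨o, ho⟩ := h1 h3 h4 h5
    exact ⟨o, ho, h2 o ho h3 h4⟩
  hPG x o g hg h0 h1 a' h2 h3 := hg.2 a' h2 h3
  hN := hN
  hch := hch

variable {α : Type} {cα : Countable α} {Ad' : ℝ → α × nk.O → ℝ → ℝ → ℝ → Prop}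
  {df : α × nk.O → ℝ → ℝ → ℝ} {N : Set ℝ} {hN : volume N = 0}
  {hch : ∀ᵐ Q : ℝ, RowD P ρ Nᶜ Q → ∀ o : nk.O, Lv P (Q, 0) ∈ nk.Gd o →
      ∃ c : ℝ, 0 < c ∧ ∀ c' : ℝ, 0 < c' → c' ≤ c → ∀ e : ℝ, 0 < e →
        ∃ (k : ℝ → α) (r₀ : ℝ), 0 < r₀ ∧ ∀ r : ℝ, 0 < r → r < r₀ →
          Ad' c' (k r, o) Q (Lv P (Q, 0)) r ∧ df (k r, o) (Lv P (Q, 0)) r ≤ e * r}

/-- The threshold of the target is not negative. -/
theorem cell_nn (k : α × nk.O) (a : ℝ) (h0 : 0 ≤ a) (h1 : a ≤ 1) :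
    0 ≤ (nk.cell α cα Ad' df N hN hch).PB k a a :=
  h0.trans (nk.lPT k.2 a a h0 le_rfl h1).1

/-- The base levels are the smallest ones. -/
theorem cell_be (x : α) (o : nk.O) (j : Fin nk.m) {a w : ℝ} (h0 : 0 ≤ w) (h1 : w ≤ a)
    (h2 : a ≤ 1) : (nk.cell α cα Ad' df N hN hch).be (x, o) j a w ≤
      (nk.cell α cα Ad' df N hN hch).be (x, o) j w w + (a - w) := by
  show iso (nk.D o j) a w ≤ iso (nk.D o j) w w + (a - w)
  rw [iso_dia (nk.hD o j) h0 (h1.trans h2)]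
  exact iso_le _ _ _

/-- **Static thresholds** at the windows with macroscopic gain. -/
def MacSta : Prop := ∀ o : nk.O, ∀ᵐ g : ℝ, 0 < g → g < 1 →
  (∃ a', g < a' ∧ a' ≤ 1 ∧ ρ 1 - ρ (P a' a') < 1 - P a' a') → g ∈ nk.Gs o → nk.PT o g g < 1 →
    Mac (nk.PT o) g → StaAt (nk.PT o) g

/-- **The strategy against the affine cells**: the field `play` of `FullI`. -/
def Play (E : CellD P ρ) : Prop :=
  ∃ (W' : E.O → Set ℝ) (Att : E.O → E.α → Set (ℝ × ℝ)) (Z : Set ℝ),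
    (∀ o, MeasurableSet (W' o)) ∧ (∀ o, ∀ᵐ g : ℝ, g ∈ E.G o → 0 < g → g < 1 → g ∈ W' o) ∧
    (∀ o x, AttN (Att o x)) ∧ volume Z = 0 ∧
    (∀ᵐ Q : ℝ, RowD P ρ Zᶜ Q → ∀ o, Lv P (Q, 0) ∈ E.G o → ∀ j,
      E.D o (E.f o j) (Lv P (Q, 0)) < 1 ∧ (deriv (E.D o (E.f o j)) (Lv P (Q, 0)) = 1 ∨
        ∀ x a w, 0 ≤ w → w ≤ a → a ≤ 1 → E.be (x, o) j a w ≤ E.be (x, o) j w w + (a - w))) ∧
    ∀ᵐ Q : ℝ, RowD P ρ Zᶜ Q → E.PlayI W' Att Q

/-- **The charts and orders of `FullI`.** -/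
theorem full (hP : Law P) (hP01 : ∀ a w : ℝ, 0 ≤ w → w ≤ a → a ≤ 1 → a ≤ P a w ∧ P a w ≤ 1)
    (hJ : (nk.cell α cα Ad' df N hN hch).NoJS ∨ (nk.cell α cα Ad' df N hN hch).NoBS)
    (hplay : Play (nk.cell α cα Ad' df N hN hch)) (hM : nk.MacSta) :
    ∃ E' : CellD P ρ, E'.FullI := by
  refine CellD.dich_full (E := nk.cell α cα Ad' df N hN hch) hP hJ
    (fun k a h0 h1 => nk.cell_nn k a h0 h1) hplay (fun o => nk.PT o) (fun _ _ => rfl) ?_
  refine CellD.hC_of (E := nk.cell α cα Ad' df N hN hch) (fun o => nk.hPT o) hP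
    (fun a h0 h1 => (hP01 a a h0 le_rfl h1).2) (fun o => nk.hle o) fun o => ?_
  filter_upwards [hM o] with g h1 h2 h3 h4 h5 h6 h7
  exact h1 h2 h3 h4 h5.1 h6 h7

end NumI

end Pool.STR
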