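import Pool.Agent.H87.GEN.Pkg
import Pool.Agent.H9.GEN.DiaN
import Pool.Agent.H60.GEN.Par

/-!
# The numbers of a class over the fattest boxes

`bi P' j`: the sides of the fattest boxes over the diagonals of the thresholds `P' j`.
`PkT`: the package of a class (`Pool.PKG.Pk`) with the thresholds `PB j` over these boxes. It exists
in a subclass (`pkT_ex`). `PT PB o`: the threshold of the target over the order `o`.

`PkT.diag`: at the good windows `g` of an order (outside a null set)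
`min 1 (P g g + (a - g)) ≤ PT PB o a a` for `a > g`.
`PkT.nk`: the numbers `Pool.STR.NumI` of the class.

`Goal`: the three statements about one class: no boxes at the iso windows, a strategy against the
affine cells, and static thresholds at the windows with macroscopic gain. The first two may be
proved with different parameters (`Pool.STR.NumI.Par`). `cellI_of`: they give `CellI n`.
-/

set_option autoImplicit false

namespace Pool.PKG

open MeasureTheory Set Filter Topology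
open Pool.Agent.H49.Ent Pool.Agent.H32.Dense Pool.STK Pool.KA Pool.KSAT Pool.K2S Pool.PB
open Pool.GEN Pool.S6C Pool.STAT Pool.CHT Pool.GRW Pool.ONE Pool.STA
open Pool.LBT (LSys ThrOf)
open Pool.LEV (Law)
open Pool.ALL (RateOf)
open Pool.TOP (TopS)
open Pool.RTS (iso iso_dia diag_thr Diag)
open Pool.STR (NumI LeT CellD)
open Pool.CHB (chsysB)
open Pool.FRN (Gdy Wgd wgd_ae)

variable {n : ℕ}

/-- **The sides of the fattest boxes.** -/
noncomputable def bi (P' : ℕ → List (Fin n) × Fin n → ℝ → ℝ → ℝ) (j : ℕ) :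
    List (Fin n) × Fin n → ℝ → ℝ → ℝ := fun i => iso fun a => P' j i a a

/-- **The package with the thresholds over the fattest boxes.** -/
structure PkT (hn : 2 ≤ n) (S : PCl n) (P : ℝ → ℝ → ℝ) (r : ℝ → ℝ)
    (P' : ℕ → List (Fin n) × Fin n → ℝ → ℝ → ℝ)
    (Λ : Finset (Fin n) → Fin n → ℝ → ℝ → ℝ)
    (PB : ℕ → List (Fin n) × Fin n → ℝ → ℝ → ℝ) : Prop extends Pk hn S P r P' Λ where
  thb : ∀ j, ThrOf (chsysB n none (bi P' j)) S (PB j)
  regb : ∀ j i, Pool.LBT.Reg (PB j i)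

/-- **The package exists in a subclass.** -/
theorem pkT_ex (hn : 2 ≤ n) {al : ℝ} {g₀ : ℝ → ℝ} {s : Fin n → ℝ} {d : ℕ → ℝ} {e : ℝ} {K₀ : ℕ}
    {N : ℚ → ℚ → ℝ} {S₀ : PCl n} (hal : 0 < al) (hg₀ : ∀ ε : ℝ, 0 < ε → 0 < g₀ ε)
    (hC : ClX s d al g₀ e K₀ N S₀) {P : ℝ → ℝ → ℝ} {r : ℝ → ℝ}
    (hT : ThrOf (Pool.ONE.tgs (lst hn)) S₀ (fun _ => P)) (hr : RateOf S₀ (lst hn) r) :
    ∃ (S : PCl n) (P' : ℕ → List (Fin n) × Fin n → ℝ → ℝ → ℝ)
      (Λ : Finset (Fin n) → Fin n → ℝ → ℝ → ℝ)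
      (PB : ℕ → List (Fin n) × Fin n → ℝ → ℝ → ℝ),
      (∀ (τ : ℝ) (J : ℕ) (F : Fam n J) (A : F.Ω → Prop), S.St τ J F A → S₀.St τ J F A) ∧
      ClX s d al g₀ e K₀ N S ∧ PkT hn S P r P' Λ PB := by
  obtain ⟨S₁, P', Λ, h1, h2, h3⟩ := pk_ex hn hal hg₀ hC hT hr
  obtain ⟨S₂, PB, h4, h5, h6, h7, -⟩ := Pool.CHB.thr_le_tgs h2.ne (κ := ℕ)
    (fun _ => none) (bi P')
  have h9 : ∀ (τ : ℝ) (J : ℕ) (F : Fam n J) (A : F.Ω → Prop), S₂.St τ J F A → S₀.St τ J F A :=
    fun τ J F A h => h1 τ J F A (h5 τ J F A h)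
  exact ⟨S₂, P', Λ, PB, h9, hC.sub h4 h9,
    { cl := ⟨al, g₀, s, d, e, K₀, N, hal, hg₀, hC.sub h4 h9⟩
      tgs := hT.sub h9
      rate := hr.sub h9
      cht := fun j => (h3.cht j).sub h5
      reg := h3.reg
      lam := h3.lam.sub h5
      thb := h6
      regb := h7 }⟩

/-- The threshold of the target over the order. -/
def PT (hn : 2 ≤ n) (PB : ℕ → List (Fin n) × Fin n → ℝ → ℝ → ℝ) (o : Od n) : ℝ → ℝ → ℝ :=
  PB o.2 (lis o.1.1, lst hn)

/-- The diagonals of the other coordinates. -/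
def Dg (hn : 2 ≤ n) (P' : ℕ → List (Fin n) × Fin n → ℝ → ℝ → ℝ) (o : Od n) (i : ℕ) (a : ℝ) : ℝ :=
  bet (P' o.2) (cc hn o.1.1) i a a

section

variable {hn : 2 ≤ n} {S : PCl n} {P : ℝ → ℝ → ℝ} {r : ℝ → ℝ}
  {P' : ℕ → List (Fin n) × Fin n → ℝ → ℝ → ℝ} {Λ : Finset (Fin n) → Fin n → ℝ → ℝ → ℝ}
  {PB : ℕ → List (Fin n) × Fin n → ℝ → ℝ → ℝ}

/-- The order of a good window is greedy. -/
theorem Fac.gdyT {o : Od n} {g α Q c : ℝ} (h : Fac hn S P r P' o g α Q c) :
    Gdy (P' o.2) (lst hn) g g (cc hn o.1.1) where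
  inj := (cc_inj hn o.1.1).mono fun x hx => by
    rw [Set.mem_Iio] at hx ⊢
    omega
  ne l hl := cc_ne hn _ hl
  top := cc_ge hn _ le_rfl
  gre l hl x hx hxl := by
    obtain ⟨i, hi, rfl⟩ := cc_all hn o.1.1 hx
    have h1 : l ≤ i := by
      by_contra hcon
      push Not at hcon
      exact hxl i hcon rfl
    exact h.gre i hi l h1

/-- The list of an order. -/
theorem map_cc (hn : 2 ≤ n) (σ : Equiv.Perm (Fin (n - 1))) :
    (List.range (n - 1)).map (cc hn σ) = lis σ := by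
  refine List.ext_getElem (by rw [List.length_map, List.length_range, lis_len]) fun i h1 h2 => ?_
  rw [List.getElem_map, List.getElem_range]
  rw [lis_len] at h2
  rw [cc_lt hn σ h2]
  simp [lis]

namespace PkT

variable (H : PkT hn S P r P' Λ PB)
include H

/-- The thresholds over boxes are at most the thresholds of the target. -/
theorem le (o : Od n) : LeT (PT hn PB o) P := fun a w h1 h2 h3 =>
  Pool.CHB.le_tgs H.ne (H.thb o.2) (i := (lis o.1.1, lst hn)) (lis_nodup _) (lst_lis hn _)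
    (H.regb _ _) H.tgs a w h1 h2 h3

/-- The sides on the diagonal. -/
theorem dia (j : ℕ) (i : List (Fin n) × Fin n) {v : ℝ} (h0 : 0 ≤ v) (h1 : v ≤ 1) :
    bi P' j i v v = P' j i v v := iso_dia (diag_thr (H.cht j) i) h0 h1

/-- **The diagonal** at the good windows. -/
theorem diag (hTop : TopS n) (hF : FZX (n - 1)) {o : Od n}
    {g : ℝ} (hg : g ∈ Gs P r P' Λ o) (hw : g ∈ Wgd (P' o.2)) :
    ∀ a', g < a' → a' ≤ 1 → min 1 (P g g + (a' - g)) ≤ PT hn PB o a' a' := by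
  obtain ⟨α, Q, c, h⟩ := H.toPk.fac hTop hF hg
  have h1 := h.gdyT.diag H.ne (H.cht o.2) (tht_pos _) H.tmh H.tgs h.t1 h.t2 h.α1
    (by linarith [h.thc]) h.Q1 h.g0 h.gα (h.PQ g g h.g0 le_rfl h.gα) hw
    (β := bi P' o.2) (fun i => H.dia o.2 i h.g0.le h.g1.le) (H.thb o.2)
  intro a' h2 h3
  have h4 := h1 a' h2 h3
  unfold bet at h4
  rw [h.gdyT.top, map_cc] at h4
  exact h4

/-- Almost every window is good for all the gradients. -/
theorem wgd : ∀ᵐ g : ℝ, ∀ j, 0 < g → g < 1 → g ∈ Wgd (P' j) := by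
  refine ae_all_iff.2 fun j => ?_
  have h2 := wgd_ae (H.cht j)
  rw [ae_restrict_iff' measurableSet_Ioo] at h2
  filter_upwards [h2] with g h3 h4 h5
  exact h3 ⟨h4, h5⟩

omit H in
/-- The diagonals of the other coordinates have the properties of diagonals. -/
theorem dgD (H : PkT hn S P r P' Λ PB) (o : Od n) (i : ℕ) : Diag (Dg hn P' o i) :=
  diag_thr (H.cht o.2) _

/-- **The numbers of the class.** -/
noncomputable def nk (hTop : TopS n) (hF : FZX (n - 1)) : NumI P r where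
  O := Od n
  cO := inferInstance
  m := n - 1
  D o i := Dg hn P' o i
  PT := PT hn PB
  hD o i := H.dgD o i
  hPT o := (H.thb o.2).law _
  lPT o a w h0 h1 h2 := ⟨(H.thb o.2).low _ a w h0 h1 h2, (H.thb o.2).up _ a w h0 h1 h2⟩
  hle := H.le
  Gs := Gs P r P' Λ
  hG := H.toPk.gs_cover
  hPG := by
    filter_upwards [H.wgd] with g k1 o ho hg0 hg1 a' h2 h3
    refine (le_min ?_ ?_).trans (H.diag hTop hF ho (k1 o.2 hg0 hg1) a' h2 h3)
    · exact H.tgs.up () g g hg0.le le_rfl hg1.le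
    · linarith

end PkT

end

/-- **The three statements about one class**, with any parameters: no boxes at the iso windows, a
strategy against the affine cells, and static thresholds at the windows with macroscopic gain. -/
structure Goal {P : ℝ → ℝ → ℝ} {r : ℝ → ℝ} (nk : NumI P r) : Prop where
  noBS : ∃ p : nk.Par, p.cell.NoJS ∨ p.cell.NoBS
  play : ∃ q : nk.Par, NumI.Play q.cell
  mac : nk.MacSta

/-- **`CellI n` from the statements about one class.** -/
theorem cellI_of (hi : ∀ k, 2 ≤ k → k < n → Mic k ∧ Sta k ∧ Jmp k)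
    (hG : ∀ (hn : 2 ≤ n) (hF : FZX (n - 1)) (hTop : TopS n) (S : PCl n) (P : ℝ → ℝ → ℝ)
      (r : ℝ → ℝ) (P' : ℕ → List (Fin n) × Fin n → ℝ → ℝ → ℝ)
      (Λ : Finset (Fin n) → Fin n → ℝ → ℝ → ℝ)
      (PB : ℕ → List (Fin n) × Fin n → ℝ → ℝ → ℝ) (H : PkT hn S P r P' Λ PB),
      Goal (H.nk hTop hF)) : CellI n := by
  intro hn hZ al g₀ s d hal hg₀ _ e K₀ N S he hC P r hT hr
  have hTop : TopS n := Pool.TOP.tops_ind hZ hi
  have hF : FZX (n - 1) := hZ (n - 1) (by omega) (by omega)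
  obtain ⟨S', P', Λ, PB, -, -, H⟩ := pkT_ex hn hal hg₀ hC hT hr
  obtain ⟨⟨p, hJ⟩, ⟨q, hq⟩, hM⟩ := hG hn hF hTop S' P r P' Λ PB H
  exact NumI.Par.full (hT.law ())
    (fun a w h0 h1 h2 => ⟨hT.low () a w h0 h1 h2, hT.up () a w h0 h1 h2⟩) p q hJ hq hM

end Pool.PKG
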