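import Pool.Agent.H60.GEN.TopR
import Pool.Agent.H77.STAT.PlayT
import Pool.Agent.H93.GEN.End4

/-!
# `KP m` from the open statements about one class

`ClassX H hTop hF h`: what is to be proved about one class (with the rows of maximal deficit): no boxes
at the iso windows, the two kinds of rows of the strategy, the gain property where the slope of the
target is at most `2`, and that no row with a larger slope has large deficit.
`kp_of_classX`: with the statement on the last rows (`TopW`) it gives `KP m`.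
-/

set_option autoImplicit false

namespace Pool.PKG

open MeasureTheory Set Filter Topology
open Pool.Agent.H49.Ent Pool.Agent.H32.Dense Pool.STK Pool.KA Pool.KSAT Pool.K2S Pool.PB
open Pool.GEN Pool.S6C Pool.STAT Pool.CHT Pool.GRW Pool.ONE Pool.STA
open Pool.LBT (LSys ThrOf)
open Pool.LEV (Law Lv)
open Pool.ALL (RateOf)
open Pool.TOP (TopS)
open Pool.STR (NumI LeT CellD Rle RowD Mac DPS TopW StaAt ae_rowD)

/-- Charts without properties. -/
def triv {P : ℝ → ℝ → ℝ} {ρ : ℝ → ℝ} (nk : NumI P ρ) : nk.Par :=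
  NumI.Par.one (fun _ _ _ _ _ => True) (fun _ _ _ => 0) ∅ measure_empty (ae_of_all _ fun _ _ _ _ =>
    ⟨1, one_pos, fun _ _ _ _ he => ⟨1, one_pos, fun _ hr _ => ⟨trivial, (mul_pos he hr).le⟩⟩⟩)

variable {n : ℕ} {hn : 2 ≤ n} {S : PCl n} {P : ℝ → ℝ → ℝ} {r : ℝ → ℝ}
  {P' : ℕ → List (Fin n) × Fin n → ℝ → ℝ → ℝ} {Λ : Finset (Fin n) → Fin n → ℝ → ℝ → ℝ}
  {PB : ℕ → List (Fin n) × Fin n → ℝ → ℝ → ℝ}

/-- **The open statements about one class**, for the rows with deficit more than `h`. -/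
structure ClassX (H : PkT hn S P r P' Λ PB) (hTop : TopS n) (hF : FZX (n - 1)) (h : ℝ) : Prop where
  /-- (MIC) -/
  noBS : ∃ p : ((H.nk hTop hF).chg (H.rle h) H.up).Par, p.cell.NoJS ∨ p.cell.NoBS
  /-- (STAT), rows (I) and rows (II) -/
  rows : ∃ W : Od n → Set ℝ, (∀ o, MeasurableSet (W o)) ∧
    (∀ o, ∀ᵐ g : ℝ, g ∈ Gs P r P' Λ o → 0 < g → g < 1 → g ∈ W o) ∧ RowsT H hTop hF W ∧
    StaT H hTop hF W
  /-- (C) -/
  dps : ∀ o : Od n, ∀ᵐ Q : ℝ, RowD P r univ Q → ∀ g, g = Lv P (Q, 0) → g ∈ Gs P r P' Λ o →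
    PT hn PB o g g < 1 → Mac (PT hn PB o) g → deriv (fun a => PT hn PB o a a) g ≤ 2 →
      DPS 2 P (PT hn PB o) g
  /-- (D2) -/
  two : ∀ o : Od n, ∀ᵐ Q : ℝ, RowD P r univ Q → ∀ g, g = Lv P (Q, 0) → g ∈ Gs P r P' Λ o →
    PT hn PB o g g < 1 → Mac (PT hn PB o) g → deriv (fun a => P a a) g ≤ 2

theorem ClassX.goalR {H : PkT hn S P r P' Λ PB} {hTop : TopS n} {hF : FZX (n - 1)} {h : ℝ}
    (hC : ClassX H hTop hF h) : GoalR (H.nk hTop hF) (H.rle h) H.up := by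
  obtain ⟨W, w1, w2, w3, w4⟩ := hC.rows
  refine ⟨hC.noBS, ⟨triv _, H.play hTop hF w1 w2 w3 w4 _⟩, ?_⟩
  refine NumI.macR_two (H.tgs.law ()) (fun o a w => max (P a w) (PT hn PB o a w))
    (fun o a w _ _ _ => le_max_right _ _) (fun o => ?_) fun o => ?_
  · filter_upwards [hC.dps o] with Q h1 hrow g hg ho h2 h3 h4
    obtain ⟨m, hm, h5⟩ := h1 hrow g hg ho h2 h3 h4
    have hg0 : 0 < g := by rw [hg]; exact hrow.g0
    refine ⟨m, hm, fun q hq0 hqm hq1 hlt => h5 q hq0 hqm hq1 ?_⟩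
    have h6 : PT hn PB o (g + q) g ≤ P (g + q) g := H.le o (g + q) g hg0 (by linarith) hq1
    have hlt' : PT hn PB o g g + q < max (P (g + q) g) (PT hn PB o (g + q) g) := hlt
    rwa [max_eq_left h6] at hlt'
  · filter_upwards [hC.two o, ae_rowD (ρ := r) (W := univ) (H.tgs.law ())
      ((H.nk hTop hF).derT_ae (H.tgs.law ()) o)] with Q h1 h2 hrow g hg ho h3 h4 h5
    exfalso
    have h6 := h1 hrow g hg ho h3 h4
    have h7 := h2 hrow
    rw [← hg] at h7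
    have h8 := (h7 ho (by rw [hg]; exact hrow.g0) (by rw [hg]; exact hrow.g1)).2
    rw [h8] at h5
    linarith

/-- **`KP m` from the open statements about one class** and from the statement on the last rows. -/
theorem kp_of_classX {m : ℕ} (hm : 1 ≤ m) (η : ℕ → ℝ → ℝ) (hη : ∀ n D, 0 < D → 0 < η n D)
    (hη1 : ∀ n D, 0 < D → η n D ≤ 1)
    (hG : ∀ n : ℕ, 2 ≤ n → n ≤ m → (∀ k, 2 ≤ k → k < n → Ext0 k) →
      ∀ (hn : 2 ≤ n) (_ : ∀ k, 1 ≤ k → k < n → FZX k) (hF : FZX (n - 1)) (hTop : TopS n)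
      (D : ℝ), 0 < D → D ≤ 1 → Ext n ((1 + η n D) * D) → ∀ (S : PCl n) (P : ℝ → ℝ → ℝ)
      (r : ℝ → ℝ) (P' : ℕ → List (Fin n) × Fin n → ℝ → ℝ → ℝ)
      (Λ : Finset (Fin n) → Fin n → ℝ → ℝ → ℝ)
      (PB : ℕ → List (Fin n) × Fin n → ℝ → ℝ → ℝ) (H : PkT hn S P r P' Λ PB),
      ClassX H hTop hF ((1 - η n D) * D))
    (hT : ∀ n, 2 ≤ n → n ≤ m → (∀ k, 2 ≤ k → k < n → Ext0 k) →
      LocE n (η n) fun P r _ => TopW P r) : KP m := by
  have hC : ∀ n, 2 ≤ n → n ≤ m → (∀ k, 2 ≤ k → k < n → Ext0 k) → CellE n (η n) :=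
    fun n h1 h2 h3 => cellE_ofR h3 fun hn hZ hF hTop D d1 d2 d3 S P r P' Λ PB H =>
      (hG n h1 h2 h3 hn hZ hF hTop D d1 d2 d3 S P r P' Λ PB H).goalR
  exact kp_indE hm η hη (fun n h1 h2 h3 => (hC n h1 h2 h3).mic (hη1 n))
    (fun n h1 h2 h3 => (hC n h1 h2 h3).sta (hη1 n)) fun n h1 h2 h3 =>
      jmpE_of_top (hη1 n) ((hC n h1 h2 h3).mic (hη1 n)) ((hC n h1 h2 h3).sta (hη1 n))
        (hT n h1 h2 h3)

end Pool.PKG
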