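import Pool.Agent.H60.GEN.PlayE
import Pool.Agent.H39.GEN.DichR
import Pool.Agent.H60.GEN.KpX

/-!
# `KP m` from the open statements about one class, second form

`NumI.rwd_ae`, `PkT.rwH_ae`: the window of a nonfull row (with deficit more than `h`) has the
properties `RwD` (`RwH`).

`ClassM H hTop hF h`: no boxes, and what is to be proved about the thresholds of the target: thin,
steep or static where the slope is at most `2`; iso or static where it is larger. It gives the micro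
input for the rows with deficit more than `h`. `ClassR H hTop hF h`: the strategy.
`kp_of_classI`: `KP m` from `ClassM`, `ClassR` (where the micro input of all classes of the same
dimension may be used) and from the statement on the last rows (`TopW`). Everything is needed only for
the rows with deficit more than `h`.
-/

set_option autoImplicit false

namespace Pool.STR

open MeasureTheory Set Filter Topology Pool.LEV Pool.RTS

/-- The derivative of a diagonal is at least one. -/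
theorem diag_one {D : ℝ → ℝ} (hD : Diag D) {g : ℝ} (h0 : 0 < g) (h1 : g < 1) (hlt : D g < 1)
    (hd : DifferentiableAt ℝ D g) : 1 ≤ deriv D g := by
  have hc : ∀ᶠ x in 𝓝 g, D x < 1 := hd.continuousAt.eventually (gt_mem_nhds hlt)
  have h2 : Tendsto (fun v : ℝ => v⁻¹ • (D (g + v) - D g)) (𝓝[>] 0) (𝓝 (deriv D g)) :=
    (hasDerivAt_iff_tendsto_slope_zero.1 hd.hasDerivAt).mono_left
      (nhdsWithin_mono _ fun x hx => ne_of_gt hx)
  refine ge_of_tendsto h2 ?_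
  have h3 : ∀ᶠ v in 𝓝[>] (0 : ℝ), D (g + v) < 1 := by
    have h4 : Tendsto (fun v : ℝ => g + v) (𝓝[>] 0) (𝓝 g) := by
      have : Tendsto (fun v : ℝ => g + v) (𝓝 0) (𝓝 (g + 0)) :=
        tendsto_const_nhds.add tendsto_id
      rw [add_zero] at this
      exact this.mono_left nhdsWithin_le_nhds
    exact h4.eventually hc
  filter_upwards [h3, Ioo_mem_nhdsGT (show (0 : ℝ) < 1 - g by linarith)] with v h4 hv
  have h5 := hD.slope h0.le (show g ≤ g + v by linarith [hv.1]) (by linarith [hv.2]) h4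
  rw [smul_eq_mul, le_inv_mul_iff₀ hv.1]
  linarith

/-- A diagonal is differentiable almost everywhere. -/
theorem diag_dif {D : ℝ → ℝ} (hD : Diag D) :
    ∀ᵐ g : ℝ, 0 < g → g < 1 → DifferentiableAt ℝ D g := by
  filter_upwards [dia_ae (iso_law hD)] with g h h0 h1
  refine (h h0 h1).congr_of_eventuallyEq ?_
  filter_upwards [Ioo_mem_nhds h0 h1] with x hx
  exact (iso_dia hD hx.1.le hx.2.le).symm

namespace NumI

variable {P : ℝ → ℝ → ℝ} {ρ : ℝ → ℝ} {nk : NumI P ρ}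

/-- **The windows of the nonfull rows.** -/
theorem rwd_ae (hP : Law P)
    (hP01 : ∀ a w : ℝ, 0 ≤ w → w ≤ a → a ≤ 1 → a ≤ P a w ∧ P a w ≤ 1) (o : nk.O)
    (hlt : ∀ᵐ g : ℝ, g ∈ nk.Gs o → 0 < g → g < 1 → ∀ j, nk.D o j g < 1) :
    ∀ᵐ Q : ℝ, RowD P ρ univ Q → Lv P (Q, 0) ∈ nk.Gs o → nk.RwD o (Lv P (Q, 0)) := by
  have h1 : ∀ᵐ g : ℝ, ∀ j : Fin nk.m, 0 < g → g < 1 → DifferentiableAt ℝ (nk.D o j) g :=
    ae_all_iff.2 fun j => diag_dif (nk.hD o j)
  have h2 : ∀ᵐ g : ℝ, 0 < g → g < 1 → DifferentiableAt ℝ (fun a => P a a) g := dia_ae hP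
  filter_upwards [ae_rowD (ρ := ρ) (W := univ) hP h1, ae_rowD (ρ := ρ) (W := univ) hP h2,
    ae_rowD (ρ := ρ) (W := univ) hP hlt] with Q k1 k2 k3 hrow ho
  obtain ⟨a1, a2, a3, a4, a5, a6⟩ := RowG.row (P := P) (ρ := ρ) (g := Lv P (Q, 0))
    ⟨Q, hrow, rfl⟩ hP
  have hg0 := hrow.g0
  have hg1 := hrow.g1
  have k1 := fun j => k1 hrow j hg0 hg1
  have k2 := k2 hrow hg0 hg1
  have k3 := k3 hrow ho hg0 hg1
  refine ⟨ho, hg0, hg1, a2, fun i hi => ?_, fun i hi => ?_, fun i hi => ?_, a4, a5⟩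
  · rcases hi.lt_or_eq with h | h
    · rw [nk.dg_lt o h]
      exact k1 _
    · rw [h, nk.dg_m]
      exact k2
  · rcases hi.lt_or_eq with h | h
    · rw [nk.dg_lt o h]
      exact diag_one (nk.hD o _) hg0 hg1 (k3 _) (k1 _)
    · rw [h, nk.dg_m]
      exact diag_one (diagP hP hP01) hg0 hg1 a2 k2
  · rcases hi.lt_or_eq with h | h
    · rw [nk.dg_lt o h]
      exact k3 _
    · rw [h, nk.dg_m]
      exact a2

end NumI

end Pool.STR

namespace Pool.PKG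

open MeasureTheory Set Filter Topology
open Pool.Agent.H49.Ent Pool.Agent.H32.Dense Pool.STK Pool.KA Pool.KSAT Pool.K2S Pool.PB
open Pool.GEN Pool.S6C Pool.STAT Pool.CHT Pool.GRW Pool.ONE Pool.STA
open Pool.LBT (LSys ThrOf)
open Pool.LEV (Law Lv)
open Pool.ALL (RateOf)
open Pool.TOP (TopS)
open Pool.STR (NumI LeT CellD Rle RowD Mac TopW StaAt IsoAt ThinAt SteepAt ae_rowD iso_of_thin
  sta_of_steep dia_ae)

variable {n : ℕ} {hn : 2 ≤ n} {S : PCl n} {P : ℝ → ℝ → ℝ} {r : ℝ → ℝ}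
  {P' : ℕ → List (Fin n) × Fin n → ℝ → ℝ → ℝ} {Λ : Finset (Fin n) → Fin n → ℝ → ℝ → ℝ}
  {PB : ℕ → List (Fin n) × Fin n → ℝ → ℝ → ℝ}

/-- **The windows of the rows with deficit more than `h`.** -/
theorem PkT.rwH_ae (H : PkT hn S P r P' Λ PB) (hTop : TopS n) (hF : FZX (n - 1)) (h : ℝ)
    (o : Od n) : ∀ᵐ Q : ℝ, RowD P (rt r h) univ Q → Lv P (Q, 0) ∈ Gs P r P' Λ o →
      RwH H hTop hF h o (Lv P (Q, 0)) := by
  have hlt : ∀ᵐ g : ℝ, g ∈ (H.nk hTop hF).Gs o → 0 < g → g < 1 →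
      ∀ j, (H.nk hTop hF).D o j g < 1 := by
    refine ae_of_all _ fun g hg h0 h1 j => ?_
    obtain ⟨α, Q, c, F⟩ := H.toPk.fac hTop hF hg
    have h2 := F.le j j.2 g g h0 le_rfl F.gα
    have h3 := (tht_pos o.2).trans F.thc
    exact lt_of_le_of_lt h2 (by linarith)
  filter_upwards [NumI.rwd_ae (nk := H.nk hTop hF) (H.tgs.law ())
    (fun a w h0 h1 h2 => ⟨H.tgs.low () a w h0 h1 h2, H.tgs.up () a w h0 h1 h2⟩) o hlt,
    rt_deriv (h := h) H.rate.lip H.rate.mono, H.rate.lip.ae_differentiableAt_real] with Q k1 k2 k3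
      hrow ho
  have hrow' := (H.rle h).row k3 hrow
  have k4 := k1 hrow' ho
  obtain ⟨-, -, a3, -, -, a6⟩ := STR.RowG.row (P := P) (ρ := rt r h) (g := Lv P (Q, 0))
    ⟨Q, hrow, rfl⟩ (H.tgs.law ())
  refine ⟨k4, ?_⟩
  -- the value of the diagonal
  have hval : P (Lv P (Q, 0)) (Lv P (Q, 0)) = Q := by
    obtain ⟨C, hC, r₀, hr₀, hb⟩ := STR.diag_bdB (H.tgs.law ()) hrow.Q0 hrow.Q1 rfl hrow.g0 hrow.g1
      hrow.dif hrow.dpos
    by_contra hne
    have hpos : 0 < |P (Lv P (Q, 0)) (Lv P (Q, 0)) - Q| := abs_pos.2 (sub_ne_zero.2 hne)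
    obtain ⟨s, hs⟩ : ∃ s, s = min (r₀ / 2) (|P (Lv P (Q, 0)) (Lv P (Q, 0)) - Q| / (2 * C)) :=
      ⟨_, rfl⟩
    have hs0 : 0 < s := by
      rw [hs]
      exact lt_min (by linarith) (by positivity)
    have hs1 : s < r₀ := by
      have : s ≤ r₀ / 2 := by rw [hs]; exact min_le_left _ _
      linarith
    have hs2 : s ≤ |P (Lv P (Q, 0)) (Lv P (Q, 0)) - Q| / (2 * C) := by
      rw [hs]
      exact min_le_right _ _
    rw [le_div_iff₀ (by positivity)] at hs2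
    have h1 := hb s hs0 hs1 (Lv P (Q, 0)) (by rw [sub_self, abs_zero]; exact hs0.le)
    linarith
  rw [hval]
  have h5 := hrow.rlt
  rw [k2.deriv] at h5
  unfold rtd at h5
  by_contra hcon
  rw [if_pos (not_lt.1 hcon)] at h5
  exact lt_irrefl _ h5

/-- **The open statements which give the micro input**, for the rows with deficit more than `h`. -/
structure ClassM (H : PkT hn S P r P' Λ PB) (hTop : TopS n) (hF : FZX (n - 1)) (h : ℝ) : Prop where
  /-- (MIC) -/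
  noBS : ∃ p : ((H.nk hTop hF).chg (H.rle h) H.up).Par, p.cell.NoJS ∨ p.cell.NoBS
  /-- (C) -/
  thin : ∀ o : Od n, ∀ᵐ g : ℝ, RwH H hTop hF h o g → deriv (fun a => P a a) g ≤ 2 →
    ThinAt P (PT hn PB o) g ∨ SteepAt 2 (PT hn PB o) g ∨ IsoAt (PT hn PB o) g ∨
      StaAt (PT hn PB o) g
  /-- (D2) -/
  two : ∀ o : Od n, ∀ᵐ g : ℝ, RwH H hTop hF h o g → 2 < deriv (fun a => P a a) g →
    Mac (PT hn PB o) g → StaAt (PT hn PB o) g

/-- **The open statements on the strategy**, for the rows with deficit more than `h`. -/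
def ClassR (H : PkT hn S P r P' Λ PB) (hTop : TopS n) (hF : FZX (n - 1)) (h : ℝ) : Prop :=
  ∃ W : Od n → Set ℝ, (∀ o, MeasurableSet (W o)) ∧
    (∀ o, ∀ᵐ g : ℝ, g ∈ Gs P r P' Λ o → 0 < g → g < 1 → g ∈ W o) ∧
    (GmT H hTop hF h W fun x => x = 1) ∧ GmT H hTop hF h W fun x => 1 < x

/-- The strategy from the rows (I) and the static chains. -/
theorem classR_of {H : PkT hn S P r P' Λ PB} {hTop : TopS n} {hF : FZX (n - 1)} {h : ℝ}
    {W : Od n → Set ℝ} (hWm : ∀ o, MeasurableSet (W o))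
    (hWf : ∀ o, ∀ᵐ g : ℝ, g ∈ Gs P r P' Λ o → 0 < g → g < 1 → g ∈ W o)
    (hI : RowsTE H hTop hF h W) (hR : NoRE H hTop hF h) : ClassR H hTop hF h := by
  obtain ⟨W', h1, h2, h3, h4, h5⟩ := H.exW hTop hF hWm hWf
  exact ⟨W', h1, h2, (hI.mono_W h3).gmT h4 h5, hR.gmT h4 h5⟩

/-- The strategies of the two kinds of rows, on different sets of windows. -/
theorem classR_and {H : PkT hn S P r P' Λ PB} {hTop : TopS n} {hF : FZX (n - 1)} {h : ℝ}
    {W : Od n → Set ℝ} (hWm : ∀ o, MeasurableSet (W o))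
    (hWf : ∀ o, ∀ᵐ g : ℝ, g ∈ Gs P r P' Λ o → 0 < g → g < 1 → g ∈ W o)
    (hI : GmT H hTop hF h W fun x => x = 1) (hR : NoRE H hTop hF h) : ClassR H hTop hF h := by
  obtain ⟨W', h1, h2, h3, h4, h5⟩ := H.exW hTop hF hWm hWf
  exact ⟨W', h1, h2, hI.mono_W h3, hR.gmT h4 h5⟩

theorem ClassR.play {H : PkT hn S P r P' Λ PB} {hTop : TopS n} {hF : FZX (n - 1)} {h : ℝ}
    (hC : ClassR H hTop hF h) :
    ∃ q : ((H.nk hTop hF).chg (H.rle h) H.up).Par, NumI.Play q.cell := by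
  obtain ⟨W, h1, h2, h3, h4⟩ := hC
  exact ⟨triv _, H.playE hTop hF h1 h2 h3 h4 _⟩

theorem ClassM.goalM {H : PkT hn S P r P' Λ PB} {hTop : TopS n} {hF : FZX (n - 1)} {h : ℝ}
    (hC : ClassM H hTop hF h) : GoalM ((H.nk hTop hF).chg (H.rle h) H.up) := by
  have hlaw := H.tgs.law ()
  refine ⟨hC.noBS, fun o : Od n => ?_⟩
  have hL : Law (PT hn PB o) := (H.nk hTop hF).hPT o
  filter_upwards [H.rwH_ae hTop hF h o, ae_rowD (ρ := rt r h) (W := univ) hlaw (hC.thin o),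
    ae_rowD (ρ := rt r h) (W := univ) hlaw (hC.two o),
    ae_rowD (ρ := rt r h) (W := univ) hlaw ((H.nk hTop hF).derT_ae hlaw o),
    ae_rowD (ρ := rt r h) (W := univ) hlaw (STR.isoS_or_mac hL),
    ae_rowD (ρ := rt r h) (W := univ) hlaw (dia_ae hL)] with Q k1 k2 k3 k4 k5 k6 hrow ho hlt
  have hg0 := hrow.g0
  have hg1 := hrow.g1
  have R := k1 hrow ho
  have k4 := (k4 hrow ho hg0 hg1).2
  have hd := k6 hrow hg0 hg1
  rcases le_or_gt (deriv (fun a => P a a) (Lv P (Q, 0))) 2 with h2 | h2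
  · rcases k2 hrow R h2 with h3 | h3 | h3 | h3
    · exact Or.inl (iso_of_thin hL hg0 hg1 hlt hd (fun a w a0 a1 a2 => H.le o a w a0 a1 a2) h3)
    · exact Or.inr (sta_of_steep hd (k4.trans_le h2) h3)
    · exact Or.inl h3
    · exact Or.inr h3
  · rcases k5 hrow hg0 hg1 hlt with h3 | h3
    · exact Or.inl h3
    · exact Or.inr (k3 hrow R h2 h3)

/-- **`KP m` from the open statements about one class**, second form: in `ClassR` the micro input of
all classes of the dimension `n` may be used, for the rows of maximal deficit. -/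
theorem kp_of_classI {m : ℕ} (hm : 1 ≤ m) (η : ℕ → ℝ → ℝ) (hη : ∀ n D, 0 < D → 0 < η n D)
    (hη1 : ∀ n D, 0 < D → η n D ≤ 1)
    (hG : ∀ n : ℕ, 2 ≤ n → n ≤ m → (∀ k, 2 ≤ k → k < n → Ext0 k) →
      ∀ (hn : 2 ≤ n) (_ : ∀ k, 1 ≤ k → k < n → FZX k) (hF : FZX (n - 1)) (hTop : TopS n)
      (D : ℝ), 0 < D → D ≤ 1 → Ext n ((1 + η n D) * D) → ∀ (S : PCl n) (P : ℝ → ℝ → ℝ)
      (r : ℝ → ℝ) (P' : ℕ → List (Fin n) × Fin n → ℝ → ℝ → ℝ)
      (Λ : Finset (Fin n) → Fin n → ℝ → ℝ → ℝ)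
      (PB : ℕ → List (Fin n) × Fin n → ℝ → ℝ → ℝ) (H : PkT hn S P r P' Λ PB),
      ClassM H hTop hF ((1 - η n D) * D))
    (hR : ∀ n : ℕ, 2 ≤ n → n ≤ m → (∀ k, 2 ≤ k → k < n → Ext0 k) → LocE n (η n) MicRt →
      ∀ (hn : 2 ≤ n) (_ : ∀ k, 1 ≤ k → k < n → FZX k) (hF : FZX (n - 1)) (hTop : TopS n)
      (D : ℝ), 0 < D → D ≤ 1 → Ext n ((1 + η n D) * D) → ∀ (S : PCl n) (P : ℝ → ℝ → ℝ)
      (r : ℝ → ℝ) (P' : ℕ → List (Fin n) × Fin n → ℝ → ℝ → ℝ)
      (Λ : Finset (Fin n) → Fin n → ℝ → ℝ → ℝ)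
      (PB : ℕ → List (Fin n) × Fin n → ℝ → ℝ → ℝ) (H : PkT hn S P r P' Λ PB),
      ClassR H hTop hF ((1 - η n D) * D))
    (hT : ∀ n, 2 ≤ n → n ≤ m → (∀ k, 2 ≤ k → k < n → Ext0 k) →
      LocE n (η n) fun P r _ => TopW P r) : KP m := by
  have hG' := fun n h1 h2 h3 hn hZ hF hTop D d1 d2 d3 S P r P' Λ PB H =>
    (hG n h1 h2 h3 hn hZ hF hTop D d1 d2 d3 S P r P' Λ PB H).goalM
  have hR' := fun n h1 h2 h3 hM hn hZ hF hTop D d1 d2 d3 S P r P' Λ PB H =>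
    (hR n h1 h2 h3 hM hn hZ hF hTop D d1 d2 d3 S P r P' Λ PB H).play
  have hC : ∀ n, 2 ≤ n → n ≤ m → (∀ k, 2 ≤ k → k < n → Ext0 k) → CellE n (η n) :=
    fun n h1 h2 h3 => cellE_ofI h3 (hG' n h1 h2 h3) (hR' n h1 h2 h3)
  exact kp_indE hm η hη (fun n h1 h2 h3 => (hC n h1 h2 h3).mic (hη1 n))
    (fun n h1 h2 h3 => (hC n h1 h2 h3).sta (hη1 n)) fun n h1 h2 h3 =>
      jmpE_of_top (hη1 n) ((hC n h1 h2 h3).mic (hη1 n)) ((hC n h1 h2 h3).sta (hη1 n))
        (hT n h1 h2 h3)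

end Pool.PKG
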