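import Pool.Agent.H60.GEN.Par

/-!
# The cells for a larger rate

`Rle r ρ`: the rows of `ρ` are at least as large as the rows of `r`. `NumI.chg`: the same numbers for
the rate `ρ`; a row which is not full for `ρ` is not full for `r`. The statements `NoBS`, `NoJS`,
`Play`, `MacSta` for `r` give those for `ρ` (`Par.noBS_chg`, `Par.noJS_chg`, `Par.play_chg`,
`macSta_chg`). `full_chg`: the charts and orders of `FullI` for `ρ` from `NoBS` for `ρ` and from the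
strategy and the static thresholds for `r`.
-/

set_option autoImplicit false

namespace Pool.STR

open MeasureTheory Set Filter Topology Pool.LEV Pool.RTS

/-- **A larger rate.** -/
structure Rle (r ρ : ℝ → ℝ) : Prop where
  lip : LipschitzWith 1 r
  lip' : LipschitzWith 1 ρ
  le : ∀ a b : ℝ, a ≤ b → r b - r a ≤ ρ b - ρ a

variable {P : ℝ → ℝ → ℝ} {r ρ : ℝ → ℝ}

/-- The derivatives. -/
theorem Rle.deriv_le (h : Rle r ρ) {Q : ℝ} (h1 : DifferentiableAt ℝ r Q)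
    (h2 : DifferentiableAt ℝ ρ Q) : deriv r Q ≤ deriv ρ Q := by
  have h3 : Monotone fun x => ρ x - r x := fun a b hab => by
    have := h.le a b hab
    show ρ a - r a ≤ ρ b - r b
    linarith
  have h4 : 0 ≤ deriv (fun x => ρ x - r x) Q := h3.deriv_nonneg
  have h5 : deriv (fun x => ρ x - r x) Q = deriv ρ Q - deriv r Q :=
    (h2.hasDerivAt.sub h1.hasDerivAt).deriv
  rw [h5] at h4
  linarith

/-- A row which is not full for the larger rate. -/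
theorem Rle.row (h : Rle r ρ) {W : Set ℝ} {Q : ℝ} (h1 : DifferentiableAt ℝ r Q)
    (h2 : RowD P ρ W Q) : RowD P r W Q :=
  ⟨h2.Q0, h2.Q1, h2.g0, h2.g1, h2.mem, h2.dif, h2.dpos, h1,
    (h.deriv_le h1 h2.rdif).trans_lt h2.rlt⟩

/-- Above the rows. -/
theorem Rle.above (h : Rle r ρ) {x : ℝ} (hx : x ≤ 1) (h1 : ρ 1 - ρ x < 1 - x) :
    r 1 - r x < 1 - x := by
  have := h.le x 1 hx
  linarith

theorem Rle.adR (h : Rle r ρ) {c Q g s : ℝ} (hc : 0 < c) (h1 : AdR P ρ c Q g s) :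
    AdR P r c Q g s := by
  refine ⟨h1.g0, h1.g1, h1.Q0, h1.Q1, h1.row, fun Q' hQ' => ?_⟩
  have h2 := h1.pos Q' hQ'
  have h3 : Q' ≤ 1 := by
    by_contra hcon
    push Not at hcon
    have h4 := h.lip'.dist_le_mul Q' 1
    rw [Real.dist_eq, Real.dist_eq, NNReal.coe_one, one_mul,
      abs_of_nonneg (by linarith : 0 ≤ Q' - 1)] at h4
    have h5 := (le_abs_self _).trans h4
    linarith
  have h4 := h.le Q' 1 h3
  linarith

theorem Rle.nfB (h : Rle r ρ) {δ η A B : ℝ} (h1 : NfB ρ δ η A B) : NfB r δ η A B := by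
  intro Q₁ Q₂ k1 k2 k3
  have := h1 Q₁ Q₂ k1 k2 k3
  have := h.le Q₁ Q₂ k2
  linarith

namespace NumI

/-- **The same numbers for a larger rate.** -/
def chg (nk : NumI P r) (h : Rle r ρ) (hP : ∀ a : ℝ, 0 ≤ a → a ≤ 1 → P a a ≤ 1) : NumI P ρ where
  O := nk.O
  cO := nk.cO
  m := nk.m
  D := nk.D
  PT := nk.PT
  hD := nk.hD
  hPT := nk.hPT
  lPT := nk.lPT
  hle := nk.hle
  Gs := nk.Gs
  hG := by
    filter_upwards [nk.hG] with g h1 h2 h3 h4
    obtain ⟨a', h5, h6, h7⟩ := h4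
    exact h1 h2 h3 ⟨a', h5, h6, h.above (hP a' (by linarith) h6) h7⟩
  hPG := nk.hPG

variable {nk : NumI P r} (h : Rle r ρ) (hP : ∀ a : ℝ, 0 ≤ a → a ≤ 1 → P a a ≤ 1)

/-- Static thresholds. -/
theorem macSta_chg (hM : nk.MacSta) : (nk.chg h hP).MacSta := by
  intro o
  filter_upwards [hM o] with g h1 h2 h3 h4 h5 h6 h7
  obtain ⟨a', k1, k2, k3⟩ := h4
  exact h1 h2 h3 ⟨a', k1, k2, h.above (hP a' (by linarith) k2) k3⟩ h5 h6 h7

namespace Par

/-- **The same parameters for a larger rate.** -/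
def chg (p : nk.Par) (h : Rle r ρ) (hP : ∀ a : ℝ, 0 ≤ a → a ≤ 1 → P a a ≤ 1) :
    (nk.chg h hP).Par where
  α := p.α
  cα := p.cα
  Ad' := p.Ad'
  df := p.df
  N := p.N
  hN := p.hN
  hch := by
    filter_upwards [p.hch, h.lip.ae_differentiableAt_real] with Q h1 h2 h3 o ho
    exact h1 (h.row h2 h3) o ho

variable {p : nk.Par} {h hP}

theorem ad_chg {c : ℝ} (hc : 0 < c) {k : p.α × nk.O} {Q g s : ℝ}
    (h1 : (p.chg h hP).cell.Ad c k Q g s) : p.cell.Ad c k Q g s :=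
  ⟨h.adR hc h1.1, h1.2.1, h1.2.2.1, h1.2.2.2.1, h1.2.2.2.2⟩

theorem ads_chg {c e : ℝ} (hc : 0 < c) {k : p.α × nk.O} {Q g s S : ℝ}
    (h1 : (p.chg h hP).cell.AdS c e k Q g s S) : p.cell.AdS c e k Q g s S :=
  ⟨⟨ad_chg hc h1.ade.ad, h1.ade.e0, h1.ade.e1, h1.ade.lv, h1.ade.dg, h1.ade.sl, h1.ade.dj⟩,
    h1.val, h1.S1, h1.cS, h1.dgP, h1.dgB, h1.iso⟩

/-- **No boxes**, for a larger rate. -/
theorem noBS_chg (hp : p.cell.NoBS) : (p.chg h hP).cell.NoBS := by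
  intro c β δ hc hβ hδ
  obtain ⟨ε, hε, hε1, M, hM, H⟩ := hp c β δ hc hβ hδ
  exact ⟨ε, hε, hε1, M, hM, fun k Q g s S k1 k2 k3 k4 k5 k6 k7 k8 k9 k10 =>
    H k Q g s S k1 k2 k3 k4 k5 k6 (ads_chg hc k7) k8 (h.nfB k9) k10⟩

/-- **No joint cells**, for a larger rate. -/
theorem noJS_chg (hp : p.cell.NoJS) : (p.chg h hP).cell.NoJS := by
  intro c β T δ h1 h2 h3 h4
  obtain ⟨ε, hε, H⟩ := hp c β T δ h1 h2 h3 h4
  refine ⟨ε, hε, fun k Q g s y X lamN muN lam mu k1 k2 k3 k4 k5 k6 k7 k8 k9 => ?_⟩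
  obtain ⟨S, hS⟩ := k6
  exact H k Q g s y X lamN muN lam mu k1 k2 k3 k4 k5 ⟨S, ads_chg h1 hS⟩ k7 (h.nfB k8) k9

/-- **The strategy**, for a larger rate. -/
theorem play_chg (hq : Play p.cell) : Play (p.chg h hP).cell := by
  obtain ⟨W', Att, Z, p1, p2, p3, p4, p5, p6⟩ := hq
  refine ⟨W', Att, Z, p1, p2, p3, p4, ?_, ?_⟩
  · filter_upwards [p5, h.lip.ae_differentiableAt_real] with Q hQ hd hrow o ho j
    exact hQ (h.row hd hrow) o ho j
  · filter_upwards [p6, h.lip.ae_differentiableAt_real] with Q hQ hd hrow o c g hO hσ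
    have hO' : p.cell.RowO W' Q o c g :=
      ⟨hO.eq, hO.g0, hO.g1, hO.val, hO.mem, hO.dns, hO.dif, hO.der, hO.difD, hO.c0⟩
    have h1 := hQ (h.row hd hrow) o c g hO' hσ
    intro s
    obtain ⟨ε, hε, e, he, r₁, hr₁, K, H⟩ := h1 s
    exact ⟨ε, hε, e, he, r₁, hr₁, K, fun x r b k1 k2 k3 k4 k5 k6 k7 =>
      H x r b k1 k2 k3 ⟨ad_chg hO.c0 k4.1, k4.2⟩ k5 k6 k7⟩

end Par

/-- **The charts and orders of `FullI`** for a larger rate: no boxes for the larger rate, the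
strategy and the static thresholds for the rate. -/
theorem full_chg (hPl : Law P)
    (hP01 : ∀ a w : ℝ, 0 ≤ w → w ≤ a → a ≤ 1 → a ≤ P a w ∧ P a w ≤ 1)
    (p : (nk.chg h hP).Par) (q : nk.Par) (hJ : p.cell.NoJS ∨ p.cell.NoBS) (hq : Play q.cell)
    (hM : nk.MacSta) : ∃ E' : CellD P ρ, E'.FullI :=
  Par.full hPl hP01 p (q.chg h hP) hJ (Par.play_chg hq) (macSta_chg h hP hM)

end NumI

end Pool.STR
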