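import Pool.Agent.H56.ALL.Top
import Pool.Agent.H60.GEN.CelE
import Pool.Agent.H60.GEN.NumT

/-!
# The statements about one class, for the rows of maximal deficit

`Ext0 n`: all the rows of all classes are full. `ext_zero`: it follows from the local statements
`LocE`; `rowN_of_ext`, `tops_ext`: it gives the labels over proper subsets (`TopS`). `kp_indE`: the
induction on the dimension for the local statements `LocE`, in which one may use `Ext0 k` for `k < n`.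

`GoalE nk ρ`: the statements about one class for the rows of the function `ρ` (in place of the rate):
no boxes at the iso windows for `ρ`, a strategy and static thresholds for the rate.
`cellE_of`: they give `CellE n η`. `kp_goal`: `KP m` from these statements and from the jumps.
-/

set_option autoImplicit false

namespace Pool.ONE

open Set MeasureTheory Pool.KA Pool.GEN Pool.STR Pool.LEV
open Pool.ALL Pool.STK Pool.PB
open Pool.LBT (LSys ThrOf Slo Tri)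
open Pool.TOP (TopS RowN)

variable {n : ℕ} {η : ℝ → ℝ}

/-- **All the rows of all classes are full.** -/
def Ext0 (n : ℕ) : Prop := ∀ x : ℝ, 0 < x → Ext n x

/-- A bound for the deficits which is not positive. -/
theorem ext_mono {x y : ℝ} (hxy : x ≤ y) (h : Ext n x) : Ext n y := by
  intro hn al g₀ s d a1 a2 a3 e K₀ N S a4 a6 P r a7 a8
  filter_upwards [h hn al g₀ s d a1 a2 a3 e K₀ N S a4 a6 P r a7 a8] with Q h1 b1 b2 b3 b4
  have := h1 b1 b2 b3 b4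
  linarith

/-- **The step**: all rows are full. -/
theorem ext_zero (hη : ∀ D, 0 < D → 0 < η D) (hM : LocE n η MicE) (hS : LocE n η StaE)
    (hJ : LocE n η JmpE) (_ : 2 ≤ n) (hZ : ∀ k, 1 ≤ k → k < n → FZX k) : Ext0 n := by
  obtain ⟨X, hX⟩ : ∃ X : Set ℝ, X = {x | 0 ≤ x ∧ Ext n x} := ⟨_, rfl⟩
  have hX1 : (1 : ℝ) ∈ X := by rw [hX]; exact ⟨zero_le_one, ext_one n⟩
  have hXb : BddBelow X := ⟨0, fun x hx => by rw [hX] at hx; exact hx.1⟩
  obtain ⟨D, hD⟩ : ∃ D, D = sInf X := ⟨_, rfl⟩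
  have hD0 : 0 ≤ D := by
    rw [hD]
    exact le_csInf ⟨1, hX1⟩ fun x hx => by rw [hX] at hx; exact hx.1
  have hD1 : D ≤ 1 := by rw [hD]; exact csInf_le hXb hX1
  have hlt : ∀ x : ℝ, D < x → Ext n x := by
    intro x hx
    rw [hD] at hx
    obtain ⟨y, hy, hyx⟩ := exists_lt_of_csInf_lt ⟨1, hX1⟩ hx
    rw [hX] at hy
    exact ext_mono hyx.le hy.2
  rcases hD0.eq_or_lt with h0 | hDpos
  · intro x hx
    exact hlt x (by rw [← h0]; exact hx)
  exfalso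
  have hη' := mul_pos (hη D hDpos) hDpos
  have hExt : Ext n ((1 + η D) * D) := hlt _ (by nlinarith)
  have hlow : max ((1 - η D) * D) 0 ∈ X := by
    rw [hX]
    refine ⟨le_max_right _ _, ?_⟩
    intro hn al g₀ s d a1 a2 a3 e K₀ N S a4 a6 P r a7 a8
    have b1 := hM hn hZ D hDpos hD1 hExt al g₀ s d a1 a2 a3 e K₀ N S a4 a6 P r a7 a8
    have b2 := hS hn hZ D hDpos hD1 hExt al g₀ s d a1 a2 a3 e K₀ N S a4 a6 P r a7 a8
    have b3 := hJ hn hZ D hDpos hD1 hExt al g₀ s d a1 a2 a3 e K₀ N S a4 a6 P r a7 a8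
    filter_upwards [fullE (a7.law ()) b1 b2 b3] with Q h1 c1 c2 c3 c4
    have := h1 c1 c2 c3 c4
    have := le_max_left ((1 - η D) * D) 0
    linarith
  have h1 : D ≤ max ((1 - η D) * D) 0 := by
    conv_lhs => rw [hD]
    exact csInf_le hXb hlow
  rcases le_max_iff.1 h1 with h2 | h2
  · nlinarith
  · linarith

/-- The rows above the thresholds. -/
theorem rowN_of_ext (h : Ext0 n) : RowN n := by
  intro hn _ al g₀ s d hal hg₀ hsd e K₀ N S he hS P r hP hr w hw hw1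
  have hlow := hP.low () w w hw.le le_rfl hw1
  have hup := hP.up () w w hw.le le_rfl hw1
  have h0 : 0 ≤ P w w := hw.le.trans hlow
  refine le_of_forall_pos_le_add fun x hx => ?_
  have h1 := rowsE (hP.law ()) hr.mono hw hw1 h0 hup hx.le
    (h x hx hn al g₀ s d hal hg₀ hsd e K₀ N S he hS P r hP hr)
  nlinarith

/-- **No good labels where the rows are not full.** -/
theorem tops_ext (hZ : ∀ k, 1 ≤ k → k < n → FZX k) (h : ∀ k, 2 ≤ k → k < n → Ext0 k) : TopS n :=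
  Pool.TOP.tops_all hZ fun k h1 h2 => rowN_of_ext (h k h1 h2)

/-- **The induction on the dimension** for the local statements: one may use `Ext0 k`, `k < n`. -/
theorem ext_indE {m : ℕ} (η : ℕ → ℝ → ℝ) (hη : ∀ n D, 0 < D → 0 < η n D)
    (hM : ∀ n, 2 ≤ n → n ≤ m → (∀ k, 2 ≤ k → k < n → Ext0 k) → LocE n (η n) MicE)
    (hS : ∀ n, 2 ≤ n → n ≤ m → (∀ k, 2 ≤ k → k < n → Ext0 k) → LocE n (η n) StaE)
    (hJ : ∀ n, 2 ≤ n → n ≤ m → (∀ k, 2 ≤ k → k < n → Ext0 k) → LocE n (η n) JmpE) :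
    ∀ n, 1 ≤ n → n ≤ m → FZX n ∧ (2 ≤ n → Ext0 n) := by
  intro n
  induction n using Nat.strong_induction_on with
  | _ n ih =>
    intro h1 h2
    have hZ : ∀ k, 1 ≤ k → k < n → FZX k := fun k k1 k2 => (ih k k2 k1 (by omega)).1
    have hE : ∀ k, 2 ≤ k → k < n → Ext0 k := fun k k1 k2 => (ih k k2 (by omega) (by omega)).2 k1
    rcases Nat.lt_or_ge 1 n with h3 | h3
    · have h4 := ext_zero (hη n) (hM n h3 h2 hE) (hS n h3 h2 hE) (hJ n h3 h2 hE) h3 hZ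
      exact ⟨fzx_of (ftx_of_ext h3 hZ h4), fun _ => h4⟩
    · have h4 : n = 1 := by omega
      subst h4
      exact ⟨fzx_of ftx_one, fun h5 => by omega⟩

/-- **`KP m`** from the local statements. -/
theorem kp_indE {m : ℕ} (hm : 1 ≤ m) (η : ℕ → ℝ → ℝ) (hη : ∀ n D, 0 < D → 0 < η n D)
    (hM : ∀ n, 2 ≤ n → n ≤ m → (∀ k, 2 ≤ k → k < n → Ext0 k) → LocE n (η n) MicE)
    (hS : ∀ n, 2 ≤ n → n ≤ m → (∀ k, 2 ≤ k → k < n → Ext0 k) → LocE n (η n) StaE)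
    (hJ : ∀ n, 2 ≤ n → n ≤ m → (∀ k, 2 ≤ k → k < n → Ext0 k) → LocE n (η n) JmpE) : KP m :=
  kp_fzx (ext_indE η hη hM hS hJ m hm le_rfl).1

end Pool.ONE

namespace Pool.PKG

open MeasureTheory Set Filter Topology
open Pool.Agent.H49.Ent Pool.Agent.H32.Dense Pool.STK Pool.KA Pool.KSAT Pool.K2S Pool.PB
open Pool.GEN Pool.S6C Pool.STAT Pool.CHT Pool.GRW Pool.ONE Pool.STA
open Pool.LBT (LSys ThrOf)
open Pool.LEV (Law)
open Pool.ALL (RateOf)
open Pool.TOP (TopS)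
open Pool.STR (NumI LeT CellD Rle)

variable {n : ℕ}

/-- **The three statements about one class**, for the rows of `ρ`. -/
structure GoalE {P : ℝ → ℝ → ℝ} {r : ℝ → ℝ} (nk : NumI P r) {ρ : ℝ → ℝ} (h : Rle r ρ)
    (hP : ∀ a : ℝ, 0 ≤ a → a ≤ 1 → P a a ≤ 1) : Prop where
  noBS : ∃ p : (nk.chg h hP).Par, p.cell.NoJS ∨ p.cell.NoBS
  play : ∃ q : nk.Par, NumI.Play q.cell
  mac : nk.MacSta

/-- The statements for the rate. -/
theorem Goal.goalE {P : ℝ → ℝ → ℝ} {r : ℝ → ℝ} {nk : NumI P r} {ρ : ℝ → ℝ} (h : Rle r ρ)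
    (hP : ∀ a : ℝ, 0 ≤ a → a ≤ 1 → P a a ≤ 1) (hG : Goal nk) : GoalE nk h hP := by
  obtain ⟨⟨p, hp⟩, hq, hM⟩ := hG
  exact ⟨⟨p.chg h hP, hp.imp NumI.Par.noJS_chg NumI.Par.noBS_chg⟩, hq, hM⟩

/-- The larger rate of the rows of large deficit. -/
theorem rle_rt {r : ℝ → ℝ} (hr : LipschitzWith 1 r) (hm : Monotone r) (h : ℝ) :
    Rle r (rt r h) := ⟨hr, rt_lip hr hm, fun _ _ hab => le_rt hr hm hab⟩

section

variable {hn : 2 ≤ n} {S : PCl n} {P : ℝ → ℝ → ℝ} {r : ℝ → ℝ}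
  {P' : ℕ → List (Fin n) × Fin n → ℝ → ℝ → ℝ} {Λ : Finset (Fin n) → Fin n → ℝ → ℝ → ℝ}
  {PB : ℕ → List (Fin n) × Fin n → ℝ → ℝ → ℝ}

theorem PkT.rle (H : PkT hn S P r P' Λ PB) (h : ℝ) : Rle r (rt r h) :=
  rle_rt H.rate.lip H.rate.mono h

theorem PkT.up (H : PkT hn S P r P' Λ PB) (a : ℝ) (h0 : 0 ≤ a) (h1 : a ≤ 1) : P a a ≤ 1 :=
  H.tgs.up () a a h0 le_rfl h1

end

/-- **`CellE n η` from the statements about one class.** In the class one may use the exactness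
theorem and `Ext0` in smaller dimensions, and that all the deficits are at most `(1 + η D) D`. -/
theorem cellE_of {η : ℝ → ℝ} (hi : ∀ k, 2 ≤ k → k < n → Ext0 k)
    (hG : ∀ (hn : 2 ≤ n) (_ : ∀ k, 1 ≤ k → k < n → FZX k) (hF : FZX (n - 1)) (hTop : TopS n)
      (D : ℝ), 0 < D → D ≤ 1 → Ext n ((1 + η D) * D) → ∀ (S : PCl n) (P : ℝ → ℝ → ℝ)
      (r : ℝ → ℝ) (P' : ℕ → List (Fin n) × Fin n → ℝ → ℝ → ℝ)
      (Λ : Finset (Fin n) → Fin n → ℝ → ℝ → ℝ)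
      (PB : ℕ → List (Fin n) × Fin n → ℝ → ℝ → ℝ) (H : PkT hn S P r P' Λ PB),
      GoalE (H.nk hTop hF) (H.rle ((1 - η D) * D)) H.up) : CellE n η := by
  intro hn hZ D hD hD1 hE al g₀ s d hal hg₀ _ e K₀ N S he hC P r hT hr
  have hTop : TopS n := tops_ext hZ hi
  have hF : FZX (n - 1) := hZ (n - 1) (by omega) (by omega)
  obtain ⟨S', P', Λ, PB, -, -, H⟩ := pkT_ex hn hal hg₀ hC hT hr
  obtain ⟨⟨p, hJ⟩, ⟨q, hq⟩, hM⟩ := hG hn hZ hF hTop D hD hD1 hE S' P r P' Λ PB H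
  exact NumI.full_chg _ _ (hT.law ())
    (fun a w h0 h1 h2 => ⟨hT.low () a w h0 h1 h2, hT.up () a w h0 h1 h2⟩) p q hJ hq hM

/-- **`KP m`** from the statements about one class and from the jumps. -/
theorem kp_goal {m : ℕ} (hm : 1 ≤ m) (η : ℕ → ℝ → ℝ) (hη : ∀ n D, 0 < D → 0 < η n D)
    (hη1 : ∀ n D, 0 < D → η n D ≤ 1)
    (hG : ∀ n : ℕ, 2 ≤ n → n ≤ m → (∀ k, 2 ≤ k → k < n → Ext0 k) →
      ∀ (hn : 2 ≤ n) (_ : ∀ k, 1 ≤ k → k < n → FZX k) (hF : FZX (n - 1)) (hTop : TopS n)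
      (D : ℝ), 0 < D → D ≤ 1 → Ext n ((1 + η n D) * D) → ∀ (S : PCl n) (P : ℝ → ℝ → ℝ)
      (r : ℝ → ℝ) (P' : ℕ → List (Fin n) × Fin n → ℝ → ℝ → ℝ)
      (Λ : Finset (Fin n) → Fin n → ℝ → ℝ → ℝ)
      (PB : ℕ → List (Fin n) × Fin n → ℝ → ℝ → ℝ) (H : PkT hn S P r P' Λ PB),
      GoalE (H.nk hTop hF) (H.rle ((1 - η n D) * D)) H.up)
    (hJ : ∀ n, 2 ≤ n → n ≤ m → (∀ k, 2 ≤ k → k < n → Ext0 k) → LocE n (η n) JmpE) : KP m := by
  have hC : ∀ n, 2 ≤ n → n ≤ m → (∀ k, 2 ≤ k → k < n → Ext0 k) → CellE n (η n) :=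
    fun n h1 h2 h3 => cellE_of h3 (hG n h1 h2 h3)
  exact kp_indE hm η hη (fun n h1 h2 h3 => (hC n h1 h2 h3).mic (hη1 n))
    (fun n h1 h2 h3 => (hC n h1 h2 h3).sta (hη1 n)) hJ

end Pool.PKG
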