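import Pool.Agent.H60.GEN.KpJ
import Pool.Agent.H39.GEN.Zfn

/-!
# Three stages: the windows with base slopes at most two

`full2_of`: if there are no boxes, and if all windows of nonfull rows have base slopes at most `2` and
a target slope larger than `2`, then there are no nonfull rows (`Full2`). The inputs are the statements
(C) and (D2) at such windows only; the rate is free.

`ClassM2`: the form of `ClassM` where (C) is needed only at the windows with base slopes at most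
`2`, and where such slopes are the output of the second stage. `kp_of_classK`: `KP m` from `ClassM2`,
`ClassJ` and `TopW`.
-/

set_option autoImplicit false

namespace Pool.STR

open MeasureTheory Set Filter Topology Pool.LEV Pool.RTS
open Pool.ZFN (RgUp DgLo full_rg)

/-- A row which is not full lies below rows of a positive deficit. -/
theorem RowD.above {P : ℝ → ℝ → ℝ} {ρ : ℝ → ℝ} (hP : Law P) (hρ : LipschitzWith 1 ρ) {W : Set ℝ}
    {Q : ℝ} (hrow : RowD P ρ W Q) :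
    ∃ a', Lv P (Q, 0) < a' ∧ a' ≤ 1 ∧ ρ 1 - ρ (P a' a') < 1 - P a' a' := by
  obtain ⟨cR, hcR, hR⟩ := adR_of hP hρ hrow
  have hg0 := hrow.g0
  have hg1 := hrow.g1
  obtain ⟨g, hg⟩ : ∃ g, g = Lv P (Q, 0) := ⟨_, rfl⟩
  rw [← hg] at hg0 hg1 hR ⊢
  obtain ⟨r₀, hr₀, h1⟩ := hR cR hcR le_rfl
  obtain ⟨r, hr⟩ : ∃ r, r = min (r₀ / 2) ((1 - g) / 8) := ⟨_, rfl⟩
  have hr0 : 0 < r := by rw [hr]; exact lt_min (by linarith) (by linarith)
  have hr1 : r < r₀ := by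
    have : r ≤ r₀ / 2 := by rw [hr]; exact min_le_left _ _
    linarith
  have hr2 : r ≤ (1 - g) / 8 := by rw [hr]; exact min_le_right _ _
  have h2 := h1 r hr0 hr1
  have h3 := h2.row (g + r) (by rw [add_sub_cancel_left, abs_of_pos hr0]; linarith)
  have h4 := h2.pos (P (g + r) (g + r)) (by linarith)
  exact ⟨g + r, by linarith, by linarith, by linarith⟩

/-- A steep threshold is not iso. -/
theorem not_iso_of_steep {P : ℝ → ℝ → ℝ} {g K : ℝ} (hK : 1 < K) (h : SteepAt K P g) :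
    ¬ IsoAt P g := by
  intro hI
  obtain ⟨r₁, hr₁, h1⟩ := h ((K - 1) / 8) (by linarith)
  obtain ⟨r₂, hr₂, h2⟩ := hI ((K - 1) / 8) (by linarith)
  obtain ⟨r, hr⟩ : ∃ r, r = min r₁ r₂ / 2 := ⟨_, rfl⟩
  have hm : 0 < min r₁ r₂ := lt_min hr₁ hr₂
  have hr0 : 0 < r := by rw [hr]; linarith
  have hr1 : r < r₁ := by
    have := min_le_left r₁ r₂
    rw [hr]
    linarith
  have hr2 : r < r₂ := by
    have := min_le_right r₁ r₂
    rw [hr]
    linarith
  have h3 := h1 r hr0 hr1 (g + r) g (by linarith) (by linarith) (by linarith)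
  obtain ⟨S, hS⟩ := h2 r hr0 hr2
  have h4 := (abs_le.1 (hS (g + r) g (by linarith) (by linarith) (by linarith))).2
  have h5 : 0 < (K - 1) * r := mul_pos (by linarith) hr0
  have h6 : K * (g + r - g) = (K - 1) * r + r := by ring
  rw [h6] at h3
  have h7 : (S - 1) * (g - g) = 0 := by ring
  rw [h7] at h4
  have h8 : (K - 1) / 8 * r = (K - 1) * r / 8 := by ring
  rw [h8] at h3 h4
  linarith

/-- The diagonal from below. -/
theorem dgLo_of {P : ℝ → ℝ → ℝ} {g : ℝ} (hd : DifferentiableAt ℝ (fun a => P a a) g) :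
    DgLo P g (P g g) (deriv (fun a => P a a) g) := by
  intro e he
  have h3 := hd.hasDerivAt.isLittleO.def he
  obtain ⟨δ, hδ, h4⟩ := Metric.eventually_nhds_iff.1 h3
  refine ⟨δ / 2, by linarith, fun r hr hr' v hv1 hv2 => ?_⟩
  have hv : |v - g| ≤ r := by
    rw [abs_le]
    constructor <;> linarith
  have e2 := h4 (y := v) (by rw [Real.dist_eq]; linarith)
  rw [Real.norm_eq_abs, Real.norm_eq_abs, smul_eq_mul] at e2
  have e3 : e * |v - g| ≤ e * r := mul_le_mul_of_nonneg_left hv he.le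
  have e4 := (abs_le.1 (e2.trans e3)).1
  have e5 : deriv (fun a => P a a) g * (v - g) = (v - g) * deriv (fun a => P a a) g := by ring
  linarith

/-- **A thin window is rough from above.** -/
theorem rgUp_of {P B : ℝ → ℝ → ℝ} {g : ℝ} (hd : DifferentiableAt ℝ (fun a => P a a) g)
    (hg0 : 0 < g) (hg1 : g < 1) (hle : ∀ w : ℝ, 0 < w → w ≤ 1 → B w w ≤ P w w)
    (h : ThinAt P B g) : RgUp P g (P g g) (deriv (fun a => P a a) g) := by
  intro e he
  obtain ⟨r₁, hr₁, h1⟩ := h (e / 2) (by linarith)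
  have h3 := hd.hasDerivAt.isLittleO.def (show (0 : ℝ) < e / 2 by linarith)
  obtain ⟨δ, hδ, h4⟩ := Metric.eventually_nhds_iff.1 h3
  refine ⟨min (min r₁ (δ / 2)) (min g (1 - g)), lt_min (lt_min hr₁ (by linarith))
    (lt_min hg0 (by linarith)), fun r hr hr' a w hw hwa ha => ?_⟩
  have m1 : r < r₁ := (hr'.trans_le (min_le_left _ _)).trans_le (min_le_left _ _)
  have m2 : r < δ / 2 := (hr'.trans_le (min_le_left _ _)).trans_le (min_le_right _ _)
  have m3 : r < g := (hr'.trans_le (min_le_right _ _)).trans_le (min_le_left _ _)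
  have m4 : r < 1 - g := (hr'.trans_le (min_le_right _ _)).trans_le (min_le_right _ _)
  have k1 := h1 r hr m1 a w (by linarith) hwa (by linarith)
  have k2 := hle w (by linarith) (by linarith)
  have hv : |w - g| ≤ r := by
    rw [abs_le]
    constructor <;> linarith
  have e2 := h4 (y := w) (by rw [Real.dist_eq]; linarith)
  rw [Real.norm_eq_abs, Real.norm_eq_abs, smul_eq_mul] at e2
  have e3 : e / 2 * |w - g| ≤ e / 2 * r := mul_le_mul_of_nonneg_left hv (by linarith)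
  have e4 := (abs_le.1 (e2.trans e3)).2
  have e5 : deriv (fun a => P a a) g * (w - g) = (w - g) * deriv (fun a => P a a) g := by ring
  linarith

namespace NumI

variable {P : ℝ → ℝ → ℝ} {ρ : ℝ → ℝ} {nk : NumI P ρ}

/-- **There are no nonfull rows** with thin windows and target slopes larger than one. -/
theorem full_of_thin (hP : Law P)
    (hP01 : ∀ a w : ℝ, 0 ≤ w → w ≤ a → a ≤ 1 → a ≤ P a w ∧ P a w ≤ 1) (hρ : LipschitzWith 1 ρ)
    (p : nk.Par) (hJ : p.cell.NoJS ∨ p.cell.NoBS)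
    (hle : ∀ (o : nk.O) (a w : ℝ), 0 < w → w ≤ a → a ≤ 1 → nk.PT o a w ≤ P a w)
    (hth : ∀ o, ∀ᵐ Q : ℝ, RowD P ρ univ Q → Lv P (Q, 0) ∈ nk.Gs o →
      ThinAt P (nk.PT o) (Lv P (Q, 0)))
    (hsl : ∀ o, ∀ᵐ Q : ℝ, RowD P ρ univ Q → Lv P (Q, 0) ∈ nk.Gs o →
      1 < deriv (fun a => P a a) (Lv P (Q, 0))) : ∀ᵐ Q : ℝ, ¬ RowD P ρ univ Q := by
  have hcO := nk.cO
  -- the windows are iso
  have hI : nk.IsoR := by
    intro o
    filter_upwards [hth o, ae_rowD (ρ := ρ) (W := univ) hP (dia_ae (nk.hPT o))] with Q h1 h2 hrow ho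
      hlt
    exact Or.inl (iso_of_thin (nk.hPT o) hrow.g0 hrow.g1 hlt (h2 hrow hrow.g0 hrow.g1)
      (fun a w a0 a1 a2 => hle o a w a0 a1 a2) (h1 hrow ho))
  have hM := micW_isoR hP hP01 hρ p hJ hI
  filter_upwards [full_rg hP hρ hM, ae_all_iff.2 hth, ae_all_iff.2 hsl,
    ae_rowD (ρ := ρ) (W := univ) hP nk.hG, ae_rowD (ρ := ρ) (W := univ) hP (dia_ae hP)] with Q k1 k2
      k3 k4 k5 hrow
  obtain ⟨o, ho⟩ := k4 hrow hrow.g0 hrow.g1 (hrow.above hP hρ)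
  have k2 := k2 o hrow ho
  have k3 := k3 o hrow ho
  have k5 := k5 hrow hrow.g0 hrow.g1
  have hval : P (Lv P (Q, 0)) (Lv P (Q, 0)) = Q := by
    obtain ⟨C, hC, r₀, hr₀, hb⟩ := diag_bdB hP hrow.Q0 hrow.Q1 rfl hrow.g0 hrow.g1 hrow.dif
      hrow.dpos
    by_contra hne
    have hpos : 0 < |P (Lv P (Q, 0)) (Lv P (Q, 0)) - Q| := abs_pos.2 (sub_ne_zero.2 hne)
    obtain ⟨s, hs⟩ : ∃ s, s = min (r₀ / 2) (|P (Lv P (Q, 0)) (Lv P (Q, 0)) - Q| / (2 * C)) :=
      ⟨_, rfl⟩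
    have hs0 : 0 < s := by
      rw [hs]
      exact lt_min (by linarith) (by positivity)
    have hs1 : s < r₀ := by
      have : s ≤ r₀ / 2 := by rw [hs]; exact min_le_left _ _
      linarith
    have hs2 : s ≤ |P (Lv P (Q, 0)) (Lv P (Q, 0)) - Q| / (2 * C) := by
      rw [hs]
      exact min_le_right _ _
    rw [le_div_iff₀ (by positivity)] at hs2
    have h1 := hb s hs0 hs1 (Lv P (Q, 0)) (by rw [sub_self, abs_zero]; exact hs0.le)
    linarith
  have hU := rgUp_of k5 hrow.g0 hrow.g1 (fun w h0 h1 => hle o w w h0 le_rfl h1) k2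
  have hD := dgLo_of k5
  rw [hval] at hU hD
  have h9 := k1 hrow.Q0 hrow.Q1 _ _ hrow.g0 hrow.g1 k3 hU hD
  exact absurd hrow.rlt (not_lt.2 h9)

end NumI

end Pool.STR

namespace Pool.PKG

open MeasureTheory Set Filter Topology
open Pool.Agent.H49.Ent Pool.Agent.H32.Dense Pool.STK Pool.KA Pool.KSAT Pool.K2S Pool.PB
open Pool.GEN Pool.S6C Pool.STAT Pool.CHT Pool.GRW Pool.ONE Pool.STA
open Pool.LBT (LSys ThrOf)
open Pool.LEV (Law Lv)
open Pool.ALL (RateOf)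
open Pool.TOP (TopS)
open Pool.STR (NumI LeT CellD Rle RowD Mac TopW StaAt IsoAt ThinAt SteepAt ae_rowD dia_ae
  not_iso_of_steep)

variable {n : ℕ} {hn : 2 ≤ n} {S : PCl n} {P : ℝ → ℝ → ℝ} {r : ℝ → ℝ}
  {P' : ℕ → List (Fin n) × Fin n → ℝ → ℝ → ℝ} {Λ : Finset (Fin n) → Fin n → ℝ → ℝ → ℝ}
  {PB : ℕ → List (Fin n) × Fin n → ℝ → ℝ → ℝ}

/-- **The base slopes are at most two.** -/
def Bas2 (H : PkT hn S P r P' Λ PB) (hTop : TopS n) (hF : FZX (n - 1)) (o : Od n) (g : ℝ) : Prop :=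
  ∀ i < n - 1, deriv ((H.nk hTop hF).dg o i) g ≤ 2

/-- **The windows of the nonfull rows of a rate above `r`.** -/
theorem PkT.rwd_ae (H : PkT hn S P r P' Λ PB) (hTop : TopS n) (hF : FZX (n - 1)) {ρ : ℝ → ℝ}
    (hr : Rle r ρ) (o : Od n) : ∀ᵐ Q : ℝ, RowD P ρ univ Q → Lv P (Q, 0) ∈ Gs P r P' Λ o →
      ((H.nk hTop hF).chg hr H.up).RwD o (Lv P (Q, 0)) := by
  have hlt : ∀ᵐ g : ℝ, g ∈ ((H.nk hTop hF).chg hr H.up).Gs o → 0 < g → g < 1 →
      ∀ j, ((H.nk hTop hF).chg hr H.up).D o j g < 1 := by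
    refine ae_of_all _ fun g hg h0 h1 j => ?_
    obtain ⟨α, Q, c, F⟩ := H.toPk.fac hTop hF hg
    have h2 := F.le j j.2 g g h0 le_rfl F.gα
    have h3 := (tht_pos o.2).trans F.thc
    exact lt_of_le_of_lt h2 (by linarith)
  exact NumI.rwd_ae (nk := (H.nk hTop hF).chg hr H.up) (H.tgs.law ())
    (fun a w h0 h1 h2 => ⟨H.tgs.low () a w h0 h1 h2, H.tgs.up () a w h0 h1 h2⟩) o hlt

/-- **The statements (C) and (D2)** at the windows of the rows of `ρ` with base slopes at most `2`. -/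
structure CD2 (H : PkT hn S P r P' Λ PB) (hTop : TopS n) (hF : FZX (n - 1)) {ρ : ℝ → ℝ}
    (hr : Rle r ρ) : Prop where
  thin : ∀ o : Od n, ∀ᵐ g : ℝ, ((H.nk hTop hF).chg hr H.up).RwD o g → Bas2 H hTop hF o g →
    ThinAt P (PT hn PB o) g ∨ SteepAt 2 (PT hn PB o) g
  two : ∀ o : Od n, ∀ᵐ g : ℝ, ((H.nk hTop hF).chg hr H.up).RwD o g → Bas2 H hTop hF o g →
    Mac (PT hn PB o) g → deriv (fun a => P a a) g ≤ 2

/-- **FULL2**: there are no nonfull rows with base slopes at most `2` and a target slope larger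
than `2`. -/
theorem full2_of {H : PkT hn S P r P' Λ PB} {hTop : TopS n} {hF : FZX (n - 1)} {ρ : ℝ → ℝ}
    {hr : Rle r ρ} (hρ : LipschitzWith 1 ρ) (hC : CD2 H hTop hF hr)
    (hJ : ∃ p : ((H.nk hTop hF).chg hr H.up).Par, p.cell.NoJS ∨ p.cell.NoBS)
    (hrow : ∀ o : Od n, ∀ᵐ g : ℝ, ((H.nk hTop hF).chg hr H.up).RwD o g →
      Bas2 H hTop hF o g ∧ 2 < deriv (fun a => P a a) g) : ∀ᵐ Q : ℝ, ¬ RowD P ρ univ Q := by
  have hlaw := H.tgs.law ()
  obtain ⟨p, hp⟩ := hJ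
  refine NumI.full_of_thin hlaw
    (fun a w h0 h1 h2 => ⟨H.tgs.low () a w h0 h1 h2, H.tgs.up () a w h0 h1 h2⟩) hρ p hp
    (fun o a w h0 h1 h2 => H.le o a w h0 h1 h2) (fun o : Od n => ?_) fun o : Od n => ?_
  · have hL : Law (PT hn PB o) := (H.nk hTop hF).hPT o
    filter_upwards [H.rwd_ae hTop hF hr o, ae_rowD (ρ := ρ) (W := univ) hlaw (hC.thin o),
      ae_rowD (ρ := ρ) (W := univ) hlaw (hC.two o), ae_rowD (ρ := ρ) (W := univ) hlaw (hrow o),
      ae_rowD (ρ := ρ) (W := univ) hlaw (STR.isoS_or_mac hL),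
      ae_rowD (ρ := ρ) (W := univ) hlaw ((H.nk hTop hF).derT_ae hlaw o)] with Q k1 k2 k3 k4 k5 k6
        hr1 ho
    have R := k1 hr1 ho
    obtain ⟨h1, h2⟩ := k4 hr1 R
    rcases k2 hr1 R h1 with h3 | h3
    · exact h3
    exfalso
    have hlt : PT hn PB o (Lv P (Q, 0)) (Lv P (Q, 0)) < 1 := by
      have h7 := H.le o (Lv P (Q, 0)) (Lv P (Q, 0)) hr1.g0 le_rfl hr1.g1.le
      exact lt_of_le_of_lt h7 R.val
    rcases k5 hr1 hr1.g0 hr1.g1 hlt with h4 | h4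
    · exact not_iso_of_steep (by norm_num) h3 h4
    · have := k3 hr1 R h1 h4
      linarith
  · filter_upwards [H.rwd_ae hTop hF hr o, ae_rowD (ρ := ρ) (W := univ) hlaw (hrow o)] with Q k1 k4
      hr1 ho
    have h2 := (k4 hr1 (k1 hr1 ho)).2
    linarith

/-- **The open statements which give the micro input**, in three stages: (C) at the windows with base
slopes at most `2`; (D2); and the base slopes. -/
structure ClassM2 (H : PkT hn S P r P' Λ PB) (hTop : TopS n) (hF : FZX (n - 1)) (h : ℝ) : Prop where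
  /-- (MIC) -/
  noBS : ∃ p : ((H.nk hTop hF).chg (H.rle h) H.up).Par, p.cell.NoJS ∨ p.cell.NoBS
  /-- (C) -/
  thin : ∀ o : Od n, ∀ᵐ g : ℝ, RwH H hTop hF h o g → Bas2 H hTop hF o g →
    ThinAt P (PT hn PB o) g ∨ SteepAt 2 (PT hn PB o) g
  /-- (D2) -/
  two : ∀ o : Od n, ∀ᵐ g : ℝ, RwH H hTop hF h o g → 2 < deriv (fun a => P a a) g →
    Mac (PT hn PB o) g → StaAt (PT hn PB o) g
  /-- the second stage -/
  bas : ∀ o : Od n, ∀ᵐ g : ℝ, RwH H hTop hF h o g → deriv (fun a => P a a) g ≤ 2 →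
    Bas2 H hTop hF o g

theorem ClassM2.classM {H : PkT hn S P r P' Λ PB} {hTop : TopS n} {hF : FZX (n - 1)} {h : ℝ}
    (hC : ClassM2 H hTop hF h) : ClassM H hTop hF h := by
  refine ⟨hC.noBS, fun o => ?_, hC.two⟩
  filter_upwards [hC.thin o, hC.bas o] with g h1 h2 R h3
  rcases h1 R (h2 R h3) with h4 | h4
  · exact Or.inl h4
  · exact Or.inr (Or.inl h4)

/-- **`KP m` from the open statements about one class**, in three stages. -/
theorem kp_of_classK {m : ℕ} (hm : 1 ≤ m) (η : ℕ → ℝ → ℝ) (hη : ∀ n D, 0 < D → 0 < η n D)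
    (hη1 : ∀ n D, 0 < D → η n D ≤ 1)
    (hG : ∀ n : ℕ, 2 ≤ n → n ≤ m → (∀ k, 2 ≤ k → k < n → Ext0 k) →
      ∀ (hn : 2 ≤ n) (_ : ∀ k, 1 ≤ k → k < n → FZX k) (hF : FZX (n - 1)) (hTop : TopS n)
      (D : ℝ), 0 < D → D ≤ 1 → Ext n ((1 + η n D) * D) → ∀ (S : PCl n) (P : ℝ → ℝ → ℝ)
      (r : ℝ → ℝ) (P' : ℕ → List (Fin n) × Fin n → ℝ → ℝ → ℝ)
      (Λ : Finset (Fin n) → Fin n → ℝ → ℝ → ℝ)
      (PB : ℕ → List (Fin n) × Fin n → ℝ → ℝ → ℝ) (H : PkT hn S P r P' Λ PB),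
      ClassM2 H hTop hF ((1 - η n D) * D))
    (hR : ∀ n : ℕ, 2 ≤ n → n ≤ m → (∀ k, 2 ≤ k → k < n → Ext0 k) → LocE n (η n) MicRt →
      ∀ (hn : 2 ≤ n) (_ : ∀ k, 1 ≤ k → k < n → FZX k) (hF : FZX (n - 1)) (hTop : TopS n)
      (D : ℝ), 0 < D → D ≤ 1 → Ext n ((1 + η n D) * D) → ∀ (S : PCl n) (P : ℝ → ℝ → ℝ)
      (r : ℝ → ℝ) (P' : ℕ → List (Fin n) × Fin n → ℝ → ℝ → ℝ)
      (Λ : Finset (Fin n) → Fin n → ℝ → ℝ → ℝ)
      (PB : ℕ → List (Fin n) × Fin n → ℝ → ℝ → ℝ) (H : PkT hn S P r P' Λ PB),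
      ClassJ H hTop hF ((1 - η n D) * D))
    (hT : ∀ n, 2 ≤ n → n ≤ m → (∀ k, 2 ≤ k → k < n → Ext0 k) →
      LocE n (η n) fun P r _ => TopW P r) : KP m :=
  kp_of_classJ hm η hη hη1 (fun n h1 h2 h3 hn hZ hF hTop D d1 d2 d3 S P r P' Λ PB H =>
    (hG n h1 h2 h3 hn hZ hF hTop D d1 d2 d3 S P r P' Λ PB H).classM) hR hT

end Pool.PKG
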