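import Pool.Agent.H60.GEN.Back

/-!
# The selection of charts and orders at a row

`O`: the orders of the coordinates (lists), with the sets `G o` of windows on which the order `o` is
the right one; `α`: the charts (the base window, the visible variables, ..). For a chart `x` and an
order `o`: the threshold `PB (x, o)` of the target, which is below `P`, and equal to `P` on the
diagonal above the windows of `G o`; the levels `be (x, o) j`, whose diagonals `D o (f o j)` do not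
depend on the chart.

`sel_mic`: if no chart has a joint cell (`NoJB2`) or a front cell (`NoFB`), then `P` has the micro
input. In the box form one may use: `AdR` (the row is above nonfull rows, and the diagonal of `P` is
near `Q`), `Slp` (the slopes of the diagonals across the window `g`, at all scales), `g ∈ G o`, a
further property `Ad'` of the selected charts, and that the defect `df` and the scale `r` are small.
-/

set_option autoImplicit false

namespace Pool.STR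

open MeasureTheory Set Filter Topology Pool.LEV

/-- **The slopes across the window `g`**: at most `1 / c`, at all scales. -/
def Slp (D : ℝ → ℝ) (c g r : ℝ) : Prop :=
  ∀ u v : ℝ, 0 ≤ u → u ≤ g → g ≤ v → v ≤ g + 8 * r → c * (D v - D u) ≤ v - u

theorem Slp.mono {D : ℝ → ℝ} {c c' g r : ℝ} (h : Slp D c g r) (hr : g + 8 * r ≤ 1)
    (hD : ∀ x y : ℝ, 0 ≤ x → x ≤ y → y ≤ 1 → D x ≤ D y) (hc : c' ≤ c) : Slp D c' g r := by
  intro u v h1 h2 h3 h4
  have h5 := hD u v h1 (h2.trans h3) (h4.trans hr)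
  exact (mul_le_mul_of_nonneg_right hc (by linarith)).trans (h u v h1 h2 h3 h4)

/-- A bounded function which is differentiable at `g`. -/
theorem slp_of {D : ℝ → ℝ} (h0 : ∀ x : ℝ, 0 ≤ x → x ≤ 1 → 0 ≤ D x) (h1 : ∀ x : ℝ, 0 ≤ x → x ≤ 1 → D x ≤ 1) {g : ℝ}
    (hg0 : 0 < g) (hg1 : g < 1) (hd : DifferentiableAt ℝ D g) :
    ∃ c : ℝ, 0 < c ∧ ∃ r₀ : ℝ, 0 < r₀ ∧ ∀ r : ℝ, 0 < r → r < r₀ → ∀ c' : ℝ, 0 < c' → c' ≤ c →
      Slp D c' g r := by
  obtain ⟨d, hdd⟩ : ∃ d, d = deriv D g := ⟨_, rfl⟩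
  have h2 := hd.hasDerivAt.isLittleO.def (show (0 : ℝ) < 1 from one_pos)
  obtain ⟨η, hη, h3⟩ := Metric.eventually_nhds_iff.1 h2
  have hS0 : 0 < |d| + 1 := by
    have := abs_nonneg d
    linarith
  have key : ∀ x : ℝ, |x - g| < η → |D x - D g| ≤ (|d| + 1) * |x - g| := by
    intro x hx
    have h4 := h3 (y := x) (by rw [Real.dist_eq]; exact hx)
    rw [Real.norm_eq_abs, Real.norm_eq_abs, smul_eq_mul, ← hdd, one_mul] at h4
    have h5 := abs_add_le (D x - D g - (x - g) * d) ((x - g) * d)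
    rw [sub_add_cancel, abs_mul (x - g)] at h5
    have h6 : (|d| + 1) * |x - g| = |x - g| + |x - g| * |d| := by ring
    linarith
  refine ⟨min (1 / (|d| + 1)) η, lt_min (by positivity) hη, min (η / 16) ((1 - g) / 8),
    lt_min (by linarith) (by linarith), fun r hr hr' c' hc0 hc' u v k1 k2 k3 k4 => ?_⟩
  have m1 : r < η / 16 := hr'.trans_le (min_le_left _ _)
  have m2 : r < (1 - g) / 8 := hr'.trans_le (min_le_right _ _)
  have hc1 : c' * (|d| + 1) ≤ 1 := by
    have := hc'.trans (min_le_left _ _)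
    rwa [le_div_iff₀ hS0] at this
  have hc2 : c' ≤ η := hc'.trans (min_le_right _ _)
  have hv1 : v ≤ 1 := by linarith
  have kv : c' * (D v - D g) ≤ v - g := by
    have h4 := (le_abs_self _).trans (key v (by rw [abs_of_nonneg (by linarith)]; linarith))
    rw [abs_of_nonneg (by linarith : 0 ≤ v - g)] at h4
    have h5 := mul_le_mul_of_nonneg_left h4 hc0.le
    have h6 := mul_le_mul_of_nonneg_right hc1 (by linarith : 0 ≤ v - g)
    linarith
  have ku : c' * (D g - D u) ≤ g - u := by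
    rcases lt_or_ge (g - u) η with h4 | h4
    · have h5 := key u (by rw [abs_sub_comm, abs_of_nonneg (by linarith)]; exact h4)
      rw [abs_sub_comm (D u), abs_sub_comm u, abs_of_nonneg (by linarith : 0 ≤ g - u)] at h5
      have h6 := (le_abs_self _).trans h5
      have h7 := mul_le_mul_of_nonneg_left h6 hc0.le
      have h8 := mul_le_mul_of_nonneg_right hc1 (by linarith : 0 ≤ g - u)
      linarith
    · have h5 := h1 g hg0.le hg1.le
      have h6 := h0 u k1 (by linarith)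
      have h7 : c' * (D g - D u) ≤ c' * 1 := mul_le_mul_of_nonneg_left (by linarith) hc0.le
      linarith
  linarith

/-- **The row `Q` at the window `g`**, at the scale `r`. -/
structure AdR (P : ℝ → ℝ → ℝ) (ρ : ℝ → ℝ) (c Q g r : ℝ) : Prop where
  g0 : c ≤ g
  g1 : c ≤ 1 - g
  Q0 : c ≤ Q
  Q1 : c ≤ 1 - Q
  row : ∀ a : ℝ, |a - g| ≤ 8 * r → c * |P a a - Q| ≤ r
  pos : ∀ Q' : ℝ, c * |Q' - Q| ≤ 9 * r → ρ 1 - ρ Q' + c ≤ 1 - Q'

theorem adR_of {P : ℝ → ℝ → ℝ} (hP : Law P) {ρ : ℝ → ℝ} (hρ : LipschitzWith 1 ρ) {W : Set ℝ}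
    {Q : ℝ} (h : RowD P ρ W Q) : ∃ c : ℝ, 0 < c ∧ ∀ c' : ℝ, 0 < c' → c' ≤ c → ∃ r₀ : ℝ, 0 < r₀ ∧
      ∀ r : ℝ, 0 < r → r < r₀ → AdR P ρ c' Q (Lv P (Q, 0)) r := by
  obtain ⟨g, hg⟩ : ∃ g, g = Lv P (Q, 0) := ⟨_, rfl⟩
  have hg0 := h.g0
  have hg1 := h.g1
  have hQ0 := h.Q0
  have hQ1 := h.Q1
  rw [← hg] at hg0 hg1 ⊢
  obtain ⟨C, hC, r₀, hr₀, hbd⟩ := diag_bdB hP h.Q0 h.Q1 hg hg0 hg1 h.dif h.dpos
  have hlip : ∀ x y : ℝ, |ρ x - ρ y| ≤ |x - y| := by
    intro x y
    have := hρ.dist_le_mul x y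
    rwa [Real.dist_eq, Real.dist_eq, NNReal.coe_one, one_mul] at this
  -- the rows above are not all full
  have hpos : 0 < 1 - Q - (ρ 1 - ρ Q) := by
    obtain ⟨h', hh'⟩ : ∃ h', h' = 1 - deriv ρ Q := ⟨_, rfl⟩
    have hh0 : 0 < h' := by rw [hh']; linarith [h.rlt]
    obtain ⟨r₁, hr₁, h1⟩ := nfB_of h.rdif h.rlt (h := h') (by rw [hh']) (η := h' / 2)
      (half_pos hh0) one_pos
    obtain ⟨r, hr⟩ : ∃ r, r = min (r₁ / 2) (1 - Q) := ⟨_, rfl⟩
    have hr0 : 0 < r := by rw [hr]; exact lt_min (by linarith) (by linarith)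
    have hr1 : r < r₁ := by
      have : r ≤ r₁ / 2 := by rw [hr]; exact min_le_left _ _
      linarith
    have hr2 : r ≤ 1 - Q := by rw [hr]; exact min_le_right _ _
    have h2 := h1 r hr0 hr1 Q (Q + 1 * r) (by linarith) (by linarith) le_rfl
    rw [one_mul] at h2
    have h3 := (abs_le.1 (hlip 1 (Q + r))).2
    rw [abs_of_nonneg (by linarith : 0 ≤ 1 - (Q + r))] at h3
    have h4 : (1 - h') * (Q + r - Q) = r - h' * r := by ring
    have h5 : 0 < h' * r := mul_pos hh0 hr0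
    rw [h4] at h2
    linarith
  obtain ⟨E, hE⟩ : ∃ E, E = 1 - Q - (ρ 1 - ρ Q) := ⟨_, rfl⟩
  rw [← hE] at hpos
  refine ⟨min (min (min g (1 - g)) (min Q (1 - Q))) (min (1 / (8 * C)) (E / 2)), ?_,
    fun c hc0 hc => ⟨min (r₀ / 8) (c * (E / 36)), ?_, fun r hr hr' => ?_⟩⟩
  · refine lt_min (lt_min (lt_min hg0 (by linarith)) (lt_min hQ0 (by linarith)))
      (lt_min (by positivity) (by linarith))
  · exact lt_min (by linarith) (by positivity)
  · have c1 : c ≤ min (min g (1 - g)) (min Q (1 - Q)) := hc.trans (min_le_left _ _)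
    have c2 : c ≤ min (1 / (8 * C)) (E / 2) := hc.trans (min_le_right _ _)
    have c3 := c1.trans (min_le_left _ _)
    have c4 := c1.trans (min_le_right _ _)
    have m1 : r < r₀ / 8 := hr'.trans_le (min_le_left _ _)
    have m2 : r < c * (E / 36) := hr'.trans_le (min_le_right _ _)
    refine ⟨c3.trans (min_le_left _ _), c3.trans (min_le_right _ _), c4.trans (min_le_left _ _),
      c4.trans (min_le_right _ _), fun a ha => ?_, fun Q' hQ' => ?_⟩
    · have h1 := hbd (8 * r) (by linarith) (by linarith) a ha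
      have h2 := c2.trans (min_le_left _ _)
      rw [le_div_iff₀ (by positivity)] at h2
      have h3 : c * |P a a - Q| ≤ c * (C * (8 * r)) := mul_le_mul_of_nonneg_left h1 hc0.le
      have h4 : c * (C * (8 * r)) = c * (8 * C) * r := by ring
      have h5 := mul_le_mul_of_nonneg_right h2 hr.le
      linarith
    · have h1 := c2.trans (min_le_right _ _)
      have h2 := (abs_le.1 (hlip Q' Q)).1
      have h3 : |Q' - Q| ≤ E / 4 := by
        by_contra hcon
        push Not at hcon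
        have := mul_lt_mul_of_pos_left hcon hc0
        linarith
      have h4 := (abs_le.1 h3).2
      have h5 := (abs_le.1 h3).1
      linarith

/-- All the properties of the selected charts and orders. -/
def AdF {α O J : Type*} (P : ℝ → ℝ → ℝ) (ρ : ℝ → ℝ) (D : O → J → ℝ → ℝ) (G : O → Set ℝ)
    (Ad' : ℝ → α × O → ℝ → ℝ → ℝ → Prop) (c : ℝ) (k : α × O) (Q g r : ℝ) : Prop :=
  AdR P ρ c Q g r ∧ Slp (fun a => P a a) c g r ∧ (∀ j, Slp (D k.2 j) c g r) ∧ g ∈ G k.2 ∧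
    Ad' c k Q g r

/-- **The data of the charts and orders** for the threshold `P` and the rate `ρ` of the target. -/
structure CellD (P : ℝ → ℝ → ℝ) (ρ : ℝ → ℝ) where
  /-- the charts -/
  α : Type
  /-- the orders -/
  O : Type
  /-- the diagonals -/
  J : Type
  cα : Countable α
  cO : Countable O
  fJ : Fintype J
  /-- the number of the levels -/
  m : ℕ
  /-- the thresholds of the target over the boxes of the chart -/
  PB : α × O → ℝ → ℝ → ℝ
  /-- the levels -/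
  be : α × O → Fin m → ℝ → ℝ → ℝ
  /-- the diagonals -/
  D : O → J → ℝ → ℝ
  /-- the diagonal of a level -/
  f : O → Fin m → J
  /-- the windows of an order -/
  G : O → Set ℝ
  /-- further properties of the selected charts: `Ad' c k Q g r` -/
  Ad' : ℝ → α × O → ℝ → ℝ → ℝ → Prop
  /-- the defects -/
  df : α × O → ℝ → ℝ → ℝ
  /-- windows which are left out -/
  N : Set ℝ
  hPB : ∀ k, Law (PB k)
  hle : ∀ k, LeT (PB k) P
  hbe : ∀ k j, Law (be k j)
  hdia : ∀ x o j, ∀ a : ℝ, 0 ≤ a → a ≤ 1 → be (x, o) j a a = D o (f o j) a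
  hDm : ∀ o j, ∀ x y : ℝ, 0 ≤ x → x ≤ y → y ≤ 1 → D o j x ≤ D o j y
  hD0 : ∀ o j, ∀ x : ℝ, 0 ≤ x → x ≤ 1 → 0 ≤ D o j x
  hD1 : ∀ o j, ∀ x : ℝ, 0 ≤ x → x ≤ 1 → D o j x ≤ 1
  hG : ∀ᵐ g : ℝ, 0 < g → g < 1 →
    (∃ a', g < a' ∧ a' ≤ 1 ∧ ρ 1 - ρ (P a' a') < 1 - P a' a') → ∃ o, g ∈ G o
  hPG : ∀ x o, ∀ g ∈ G o, 0 < g → g < 1 → ∀ a', g < a' → a' ≤ 1 → P g g ≤ PB (x, o) a' a'
  hN : volume N = 0
  hch : ∀ᵐ Q : ℝ, RowD P ρ Nᶜ Q → ∀ o, Lv P (Q, 0) ∈ G o → ∃ c : ℝ, 0 < c ∧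
    ∀ c' : ℝ, 0 < c' → c' ≤ c → ∀ e : ℝ, 0 < e → ∃ (k : ℝ → α) (r₀ : ℝ), 0 < r₀ ∧
      ∀ r : ℝ, 0 < r → r < r₀ → Ad' c' (k r, o) Q (Lv P (Q, 0)) r ∧
        df (k r, o) (Lv P (Q, 0)) r ≤ e * r

namespace CellD

variable {P : ℝ → ℝ → ℝ} {ρ : ℝ → ℝ} (E : CellD P ρ)

/-- The levels in the chart (window, depth). -/
def R (k : E.α × E.O) (j : Fin E.m) : ℝ × ℝ → ℝ := Nw (E.be k j)

/-- The properties of the selected charts. -/
def Ad : ℝ → E.α × E.O → ℝ → ℝ → ℝ → Prop := AdF P ρ E.D E.G E.Ad'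

/-- The defects, at least the square of the scale. -/
noncomputable def dfr (k : E.α × E.O) (g r : ℝ) : ℝ := max (E.df k g r) (r * r)

/-- No chart has a joint cell. -/
def NoJ : Prop := NoJB2 ρ E.PB E.R E.Ad E.dfr

/-- No chart has a front cell. -/
def NoF : Prop := NoFB ρ E.PB E.Ad E.dfr

/-- **The selection** at almost every row. -/
theorem sel (hP : Law P) (hP01 : ∀ a : ℝ, 0 ≤ a → a ≤ 1 → 0 ≤ P a a ∧ P a a ≤ 1)
    (hρ : LipschitzWith 1 ρ) : ∃ N' : Set ℝ, volume N' = 0 ∧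
      (∀ g : ℝ, g ∉ N' → 0 < g → g < 1 → DifferentiableAt ℝ (fun a => P a a) g) ∧
      ∀ᵐ Q : ℝ, RowD P ρ N'ᶜ Q → ∃ C c : ℝ, 0 ≤ C ∧ 0 < c ∧ ∀ e : ℝ, 0 < e →
        ∃ (k : ℝ → E.α × E.O) (V : ℝ → Fin E.m → ℝ),
          FamBox P (Lv P (Q, 0)) C (fun r => E.PB (k r)) (fun r => E.R (k r)) V ∧
          FamDg P (Lv P (Q, 0)) e (fun r => E.PB (k r)) ∧
          ∃ r₀ : ℝ, 0 < r₀ ∧ ∀ r : ℝ, 0 < r → r < r₀ → E.Ad c (k r) Q (Lv P (Q, 0)) r ∧
            E.dfr (k r) (Lv P (Q, 0)) r ≤ e * r := by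
  obtain ⟨α, O, J, cα, cO, fJ, m, PB, be, D, f, G, Ad', df, N, hPB, hle, hbe, hdia, hDm, hD0, hD1,
    hG, hPG, hN, hch⟩ := E
  simp only [CellD.Ad, CellD.dfr]
  classical
  obtain ⟨B, hB⟩ : ∃ B : α × O → ℝ → ℝ, B = fun k a => PB k (cl a) (cl a) := ⟨_, rfl⟩
  have hBm : ∀ k, Monotone (B k) := by
    intro k x y hxy
    rw [hB]
    exact (hPB k).mono (cl_nonneg _) le_rfl (cl_mono hxy) (cl_mono hxy) le_rfl (cl_le_one _)
  obtain ⟨W, hW⟩ : ∃ W : O → Set ℝ, W = fun o =>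
    {a | a ∈ G o ∧ 0 < a ∧ a < 1 ∧ ∀ x, ContinuousAt (B (x, o)) a} := ⟨_, rfl⟩
  have hWd : ∀ x o, ∀ a ∈ W o, P a a ≤ PB (x, o) a a := by
    intro x o a ha
    rw [hW] at ha
    obtain ⟨h1, h2, h3, h4⟩ := ha
    have h5 : Tendsto (B (x, o)) (𝓝[>] a) (𝓝 (B (x, o) a)) := (h4 x).tendsto.mono_left
      nhdsWithin_le_nhds
    have h6 : ∀ᶠ y in 𝓝[>] a, P a a ≤ B (x, o) y := by
      filter_upwards [Ioo_mem_nhdsGT h3] with y hy
      rw [hB]
      simp only
      rw [cl_of_mem (by linarith [hy.1]) hy.2.le]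
      exact hPG x o a h1 h2 h3 y hy.1 hy.2.le
    have h7 := ge_of_tendsto h5 h6
    rw [hB] at h7
    simp only at h7
    rwa [cl_of_mem h2.le h3.le] at h7
  -- the windows without exceptions
  have hDc : ∀ o j, Monotone fun a => D o j (cl a) := fun o j x y hxy =>
    hDm o j _ _ (cl_nonneg _) (cl_mono hxy) (cl_le_one _)
  have hfa : ∀ᵐ g : ℝ, (0 < g → g < 1 →
      (∃ a', g < a' ∧ a' ≤ 1 ∧ ρ 1 - ρ (P a' a') < 1 - P a' a') → ∃ o, g ∈ G o) ∧
      (∀ o, g ∈ W o → Tendsto (fun r => volume (W o ∩ Metric.closedBall g r) /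
        volume (Metric.closedBall g r)) (𝓝[>] 0) (𝓝 1)) ∧
      (∀ k, ContinuousAt (B k) g) ∧ (∀ p : O × J, 0 < g → g < 1 → DifferentiableAt ℝ (D p.1 p.2) g) ∧
      (0 < g → g < 1 → DifferentiableAt ℝ (fun a => P a a) g) := by
    have h1 := ae_all_iff.2 fun o : O =>
      ae_imp_of_ae_restrict (Besicovitch.ae_tendsto_measure_inter_div volume (W o))
    have h2 : ∀ᵐ g : ℝ, ∀ k, ContinuousAt (B k) g := ae_all_iff.2 fun k => by
      filter_upwards [(hBm k).ae_differentiableAt] with g hg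
      exact hg.continuousAt
    have h3 : ∀ᵐ g : ℝ, ∀ p : O × J, 0 < g → g < 1 → DifferentiableAt ℝ (D p.1 p.2) g :=
      ae_all_iff.2 fun p => by
        filter_upwards [(hDc p.1 p.2).ae_differentiableAt] with g hg h0 h1
        refine hg.congr_of_eventuallyEq ?_
        filter_upwards [Ioo_mem_nhds h0 h1] with x hx
        rw [cl_of_mem hx.1.le hx.2.le]
    filter_upwards [hG, h1, h2, h3, diag_aeC hP] with g k1 k2 k3 k4 k5
    exact ⟨k1, k2, k3, k4, k5⟩
  obtain ⟨N', hN'⟩ : ∃ N' : Set ℝ, N' = N ∪ {g : ℝ | ¬ ((0 < g → g < 1 →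
      (∃ a', g < a' ∧ a' ≤ 1 ∧ ρ 1 - ρ (P a' a') < 1 - P a' a') → ∃ o, g ∈ G o) ∧
      (∀ o, g ∈ W o → Tendsto (fun r => volume (W o ∩ Metric.closedBall g r) /
        volume (Metric.closedBall g r)) (𝓝[>] 0) (𝓝 1)) ∧
      (∀ k, ContinuousAt (B k) g) ∧ (∀ p : O × J, 0 < g → g < 1 → DifferentiableAt ℝ (D p.1 p.2) g) ∧
      (0 < g → g < 1 → DifferentiableAt ℝ (fun a => P a a) g))} := ⟨_, rfl⟩
  have hN'0 : volume N' = 0 := by
    rw [hN']
    exact measure_union_null hN (ae_iff.1 hfa)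
  refine ⟨N', hN'0, fun g hg => ?_, ?_⟩
  · rw [hN'] at hg
    simp only [mem_union, mem_ofPred_eq, not_or, not_not] at hg
    exact hg.2.2.2.2.2
  filter_upwards [hch] with Q hQ hrow
  have hmem := hrow.mem
  rw [hN'] at hmem
  simp only [compl_union, mem_inter_iff, mem_compl_iff, mem_ofPred_eq, not_not] at hmem
  obtain ⟨hgN, f1, f2, f3, f4, f5⟩ := hmem
  have hrow' : RowD P ρ Nᶜ Q := { hrow with mem := hgN }
  have hg0 := hrow.g0
  have hg1 := hrow.g1
  obtain ⟨g, hg⟩ : ∃ g, g = Lv P (Q, 0) := ⟨_, rfl⟩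
  obtain ⟨cR, hcR, hR⟩ := adR_of hP hρ hrow
  have hQ := hQ hrow'
  rw [← hg] at hg0 hg1 f1 f2 f3 f4 f5 hR hQ ⊢
  -- the order
  obtain ⟨o, ho⟩ := f1 hg0 hg1 (by
    obtain ⟨r₀, hr₀, h1⟩ := hR cR hcR le_rfl
    obtain ⟨r, hr⟩ : ∃ r, r = min (r₀ / 2) ((1 - g) / 8) := ⟨_, rfl⟩
    have hr0 : 0 < r := by rw [hr]; exact lt_min (by linarith) (by linarith)
    have hr1 : r < r₀ := by
      have : r ≤ r₀ / 2 := by rw [hr]; exact min_le_left _ _
      linarith
    have hr2 : r ≤ (1 - g) / 8 := by rw [hr]; exact min_le_right _ _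
    have h2 := h1 r hr0 hr1
    have h3 := h2.row (g + r) (by rw [add_sub_cancel_left, abs_of_pos hr0]; linarith)
    have h4 := h2.pos (P (g + r) (g + r)) (by linarith)
    exact ⟨g + r, by linarith, by linarith, by linarith⟩)
  have hWo : g ∈ W o := by
    rw [hW]
    exact ⟨ho, hg0, hg1, fun x => f3 (x, o)⟩
  have hdens := f2 o hWo
  -- the slopes
  obtain ⟨cP, hcP, rP, hrP, hsP⟩ := slp_of (D := fun a => P a a)
    (fun x h0 h1 => (hP01 x h0 h1).1)
    (fun x h0 h1 => (hP01 x h0 h1).2) hg0 hg1 (f5 hg0 hg1)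
  have hsD : ∀ j : J, ∃ c : ℝ, 0 < c ∧ ∃ r₀ : ℝ, 0 < r₀ ∧ ∀ r : ℝ, 0 < r → r < r₀ →
      ∀ c' : ℝ, 0 < c' → c' ≤ c → Slp (D o j) c' g r := fun j =>
    slp_of (hD0 o j) (hD1 o j) hg0 hg1 (f4 (o, j) hg0 hg1)
  choose cD hcD rD hrD hsD using hsD
  obtain ⟨cA, hcA, hA⟩ := hQ o ho
  obtain ⟨c, hcdef⟩ : ∃ c, c = min (min cR cP) (min cA (⨅ j : Option J, j.elim 1 cD)) := ⟨_, rfl⟩
  have hfin : (Set.range fun j : Option J => j.elim 1 cD).Finite := Set.finite_range _
  have hinf0 : 0 < ⨅ j : Option J, j.elim 1 cD := by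
    obtain ⟨j, hj⟩ := exists_eq_ciInf_of_finite (f := fun j : Option J => j.elim 1 cD)
    rw [← hj]
    cases j with
    | none => exact one_pos
    | some j => exact hcD j
  have hinf : ∀ j : J, (⨅ j : Option J, j.elim 1 cD) ≤ cD j := fun j =>
    ciInf_le hfin.bddBelow (some j)
  have hc0 : 0 < c := by
    rw [hcdef]
    exact lt_min (lt_min hcR hcP) (lt_min hcA hinf0)
  have cc1 : c ≤ cR := by rw [hcdef]; exact (min_le_left _ _).trans (min_le_left _ _)
  have cc2 : c ≤ cP := by rw [hcdef]; exact (min_le_left _ _).trans (min_le_right _ _)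
  have cc3 : c ≤ cA := by rw [hcdef]; exact (min_le_right _ _).trans (min_le_left _ _)
  have cc4 : ∀ j, c ≤ cD j := fun j => by
    rw [hcdef]
    exact ((min_le_right _ _).trans (min_le_right _ _)).trans (hinf j)
  obtain ⟨r₁, hr₁, hR⟩ := hR c hc0 cc1
  -- a common scale
  obtain ⟨r₂, hr₂, hS⟩ : ∃ r₂ : ℝ, 0 < r₂ ∧ ∀ r : ℝ, 0 < r → r < r₂ →
      Slp (fun a => P a a) c g r ∧ ∀ j, Slp (D o j) c g r := by
    have hfin' : (Set.range fun j : Option J => j.elim rP rD).Finite := Set.finite_range _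
    refine ⟨⨅ j : Option J, j.elim rP rD, ?_, fun r hr hr' => ⟨hsP r hr (hr'.trans_le
      (ciInf_le hfin'.bddBelow none)) c hc0 cc2, fun j => hsD j r hr (hr'.trans_le
      (ciInf_le hfin'.bddBelow (some j))) c hc0 (cc4 j)⟩⟩
    obtain ⟨j, hj⟩ := exists_eq_ciInf_of_finite (f := fun j : Option J => j.elim rP rD)
    rw [← hj]
    cases j with
    | none => exact hrP
    | some j => exact hrD j
  refine ⟨3 / c, c, by positivity, hc0, fun e he => ?_⟩
  obtain ⟨k, r₃, hr₃, hA⟩ := hA c hc0 cc3 e he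
  refine ⟨fun r => (k r, o), fun r j => D o (f o j) g, ?_, ?_, min (min r₁ r₂) (min r₃ e),
    lt_min (lt_min hr₁ hr₂) (lt_min hr₃ he), fun r hr hr' => ?_⟩
  · -- the boxes
    refine ⟨min r₂ (min (g / 8) ((1 - g) / 8)), lt_min hr₂ (lt_min (by linarith) (by linarith)),
      fun r hr hr' => ?_⟩
    have m1 : r < r₂ := hr'.trans_le (min_le_left _ _)
    have m2 : r < g / 8 := (hr'.trans_le (min_le_right _ _)).trans_le (min_le_left _ _)
    have m3 : r < (1 - g) / 8 := (hr'.trans_le (min_le_right _ _)).trans_le (min_le_right _ _)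
    refine ⟨hPB _, fun a w h1 h2 h3 => hle _ a w (by linarith) h2 (by linarith), fun j => ?_⟩
    have hSj := (hS r hr m1).2 (f o j)
    have hbox : ∀ y : ℝ × ℝ, WBox g (2 * r) y → g - 4 * r ≤ y.1 ∧ y.1 ≤ g + 4 * r ∧ 0 ≤ y.2 ∧
        y.2 ≤ 2 * r := by
      intro y hy
      have := abs_le.1 hy.1
      exact ⟨by linarith, by linarith, hy.2.1, hy.2.2⟩
    refine ⟨fun y y' hy h1 h2 => ?_, fun y h1 => ?_⟩
    · obtain ⟨a1, a2, a3, a4⟩ := hbox y h1
      obtain ⟨b1, b2, b3, b4⟩ := hbox y' h2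
      exact (hbe (k r, o) j).mono (by linarith) (by linarith) (by linarith [hy.1, hy.2]) hy.1
        (by linarith) (by linarith)
    · obtain ⟨a1, a2, a3, a4⟩ := hbox y h1
      have u1 : be (k r, o) j y.1 y.1 ≤ be (k r, o) j (y.1 + y.2) y.1 :=
        (hbe (k r, o) j).mono (by linarith) le_rfl (by linarith) le_rfl (by linarith)
          (by linarith)
      have u2 : be (k r, o) j (y.1 + y.2) y.1 ≤ be (k r, o) j (y.1 + y.2) (y.1 + y.2) :=
        (hbe (k r, o) j).mono (by linarith) (by linarith) le_rfl (by linarith) le_rfl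
          (by linarith)
      rw [hdia (k r) o j _ (by linarith) (by linarith)] at u1 u2
      have u3 : D o (f o j) (y.1 + y.2) ≤ D o (f o j) (g + 6 * r) :=
        hDm o _ _ _ (by linarith) (by linarith) (by linarith)
      have u4 : D o (f o j) (g - 4 * r) ≤ D o (f o j) y.1 :=
        hDm o _ _ _ (by linarith) (by linarith) (by linarith)
      have u5 := hSj g (g + 6 * r) hg0.le le_rfl (by linarith) (by linarith)
      have u6 := hSj (g - 4 * r) g (by linarith) (by linarith) le_rfl (by linarith)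
      show |be (k r, o) j (y.1 + y.2) y.1 - D o (f o j) g| ≤ 3 / c * (2 * r)
      have e1 : 3 / c * (2 * r) = (6 * r) / c := by ring
      have e2 : ∀ z : ℝ, |z| * c = |c * z| := fun z => by
        rw [abs_mul, abs_of_pos hc0, mul_comm]
      rw [e1, le_div_iff₀ hc0, e2, abs_le]
      constructor
      · have := mul_le_mul_of_nonneg_left (u4.trans u1) hc0.le
        linarith
      · have := mul_le_mul_of_nonneg_left (u2.trans u3) hc0.le
        linarith
  · -- the diagonal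
    refine famDg_of_density hdens he ⟨min (g / 8) ((1 - g) / 8), lt_min (by linarith)
      (by linarith), fun r hr hr' a ha _ => ?_⟩
    have := hWd (k r) o a ha
    have := mul_pos he hr
    linarith
  · have m1 : r < r₁ := (hr'.trans_le (min_le_left _ _)).trans_le (min_le_left _ _)
    have m2 : r < r₂ := (hr'.trans_le (min_le_left _ _)).trans_le (min_le_right _ _)
    have m3 : r < r₃ := (hr'.trans_le (min_le_right _ _)).trans_le (min_le_left _ _)
    have m4 : r < e := (hr'.trans_le (min_le_right _ _)).trans_le (min_le_right _ _)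
    obtain ⟨h1, h2⟩ := hA r hr m3
    refine ⟨⟨hR r hr m1, (hS r hr m2).1, (hS r hr m2).2, ho, h1⟩, max_le h2 ?_⟩
    exact mul_le_mul_of_nonneg_right m4.le hr.le

/-- **The micro input from the charts.** -/
theorem mic (hP : Law P) (hP01 : ∀ a : ℝ, 0 ≤ a → a ≤ 1 → 0 ≤ P a a ∧ P a a ≤ 1)
    (hρ : LipschitzWith 1 ρ) (hJ : E.NoJ) (hF : E.NoF) : MicW P ρ := by
  obtain ⟨N', h1, -, h2⟩ := E.sel hP hP01 hρ
  exact micW_of_box2 hP h1 hJ hF h2

end CellD

end Pool.STR
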