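import Pool.Agent.H60.GEN.MicC

/-!
# Cells of families of thresholds

The thresholds `P' r` of the target and the other levels `R r` may depend on the scale `r` of the
cell. They are needed only near the row: `P' r` is smaller than the threshold `P`, and almost equal
to it on the diagonal. If the row `Q` is not uniformly free from the window for `P`, then `P' r`,
`R r` have a cell of size `δ r` at arbitrarily small scales `r`, and `δ` does not depend on the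
family (`cell_famF`). `micW_of_fam`: the micro input from the absence of cells of families.
-/

set_option autoImplicit false

namespace Pool.STR

open MeasureTheory Set Filter Topology Pool.LEV

/-! ### Extension of a law -/

/-- The laws of a threshold on the windows beyond `b`. -/
structure LawB (b : ℝ) (P : ℝ → ℝ → ℝ) : Prop where
  mono_a : ∀ a a' w, b ≤ w → w ≤ a → a ≤ a' → a' ≤ 1 → P a w ≤ P a' w
  mono_w : ∀ a w w', b ≤ w → w ≤ w' → w' ≤ a → a ≤ 1 → P a w ≤ P a w'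
  slope : ∀ a w v, b ≤ w → w ≤ a → 0 ≤ v → a + v ≤ 1 → min 1 (P a w + v) ≤ P (a + v) w

/-- The extension to smaller windows. -/
noncomputable def ext (b : ℝ) (P : ℝ → ℝ → ℝ) (a w : ℝ) : ℝ :=
  P (max a b) (max w b) - (max a b - a)

theorem ext_eq {b : ℝ} {P : ℝ → ℝ → ℝ} {a w : ℝ} (hw : b ≤ w) (ha : b ≤ a) :
    ext b P a w = P a w := by
  unfold ext
  rw [max_eq_left hw, max_eq_left ha, sub_self, sub_zero]

/-- **A law on the windows beyond `b` extends to a law.** -/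
theorem law_ext {b : ℝ} {P : ℝ → ℝ → ℝ} (h : LawB b P) (hb : b ≤ 1) : Law (ext b P) := by
  refine ⟨fun a a' w h0 h1 h2 h3 => ?_, fun a w w' h0 h1 h2 h3 => ?_,
    fun a w v h0 h1 h2 h3 => ?_⟩
  · unfold ext
    have e1 : P (max a b) (max w b) ≤ P (max a' b) (max w b) :=
      h.mono_a _ _ _ (le_max_right _ _) (max_le_max_right b h1) (max_le_max_right b h2)
        (max_le h3 hb)
    have e2 : max a' b - a' ≤ max a b - a := by
      rcases le_total a b with c | c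
      · rw [max_eq_right c]
        rcases le_total a' b with c' | c'
        · rw [max_eq_right c']
          linarith
        · rw [max_eq_left c']
          linarith
      · rw [max_eq_left c, max_eq_left (c.trans h2)]
        linarith
    linarith
  · unfold ext
    have e1 : P (max a b) (max w b) ≤ P (max a b) (max w' b) :=
      h.mono_w _ _ _ (le_max_right _ _) (max_le_max_right b h1) (max_le_max_right b h2)
        (max_le h3 hb)
    linarith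
  · unfold ext
    have hm : max a b ≤ max (a + v) b := max_le_max_right b (by linarith)
    have e1 := h.slope (max a b) (max w b) (max (a + v) b - max a b) (le_max_right _ _)
      (max_le_max_right b h1) (by linarith) (by
        rw [add_sub_cancel]
        exact max_le h3 hb)
    rw [add_sub_cancel] at e1
    rcases min_choice (1 : ℝ) (P (max a b) (max w b) + (max (a + v) b - max a b)) with e2 | e2
    · rw [e2] at e1
      -- the value is one at the larger radius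
      have hle : max (a + v) b - (a + v) ≤ 0 ∨ b ≤ 1 := Or.inr hb
      by_cases hc : b ≤ a + v
      · rw [max_eq_left hc] at e1 ⊢
        have := min_le_left (1 : ℝ) (P (max a b) (max w b) - (max a b - a) + v)
        linarith
      · push Not at hc
        have h4 : a ≤ b := by linarith
        rw [max_eq_right hc.le, max_eq_right h4]
        have h5 : P b (max w b) + (b - b) = P b (max w b) := by ring
        have := min_le_right (1 : ℝ) (P b (max w b) - (b - a) + v)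
        linarith
    · rw [e2] at e1
      have := min_le_right (1 : ℝ) (P (max a b) (max w b) - (max a b - a) + v)
      linarith

/-! ### Families -/

/-- The thresholds `P' r` and the levels `R r` at the scale `r`. -/
def FamBox {ι : Type*} (P : ℝ → ℝ → ℝ) (g C : ℝ) (P' : ℝ → ℝ → ℝ → ℝ)
    (R : ℝ → ι → ℝ × ℝ → ℝ) (V : ℝ → ι → ℝ) : Prop :=
  ∃ r₀ : ℝ, 0 < r₀ ∧ ∀ r : ℝ, 0 < r → r < r₀ → Law (P' r) ∧
    (∀ a w : ℝ, g - 4 * r ≤ w → w ≤ a → a ≤ g + 4 * r → P' r a w ≤ P a w) ∧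
    ∀ j, LvBox (R r j) g (V r j) C (2 * r)

/-- On the diagonal `P' r` is equal to `P` up to `e r`, at radii close to every radius of the
box. -/
def FamDg (P : ℝ → ℝ → ℝ) (g e : ℝ) (P' : ℝ → ℝ → ℝ → ℝ) : Prop :=
  ∃ r₀ : ℝ, 0 < r₀ ∧ ∀ r : ℝ, 0 < r → r < r₀ → ∀ x : ℝ, |x - g| ≤ 2 * r →
    ∃ x' : ℝ, x ≤ x' ∧ x' ≤ x + e * r ∧ P x' x' ≤ P' r x' x' + e * r

/-- A point of density. -/
theorem famDg_of_density {P : ℝ → ℝ → ℝ} {g e : ℝ} {P' : ℝ → ℝ → ℝ → ℝ} {W : Set ℝ}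
    (hW : Tendsto (fun r => volume (W ∩ Metric.closedBall g r) / volume (Metric.closedBall g r))
      (𝓝[>] 0) (𝓝 1)) (he : 0 < e)
    (h : ∃ r₀ : ℝ, 0 < r₀ ∧ ∀ r : ℝ, 0 < r → r < r₀ → ∀ a ∈ W,
      |a - g| ≤ 4 * r → P a a ≤ P' r a a + e * r) : FamDg P g e P' := by
  obtain ⟨e₁, he₁, he₁0, he₁e, he₁1⟩ : ∃ e₁, e₁ = min e 1 ∧ 0 < e₁ ∧ e₁ ≤ e ∧ e₁ ≤ 1 :=
    ⟨_, rfl, lt_min he one_pos, min_le_left _ _, min_le_right _ _⟩
  have h1 : ∀ᶠ r in 𝓝[>] (0 : ℝ), ENNReal.ofReal (1 - e₁ / 8) <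
      volume (W ∩ Metric.closedBall g r) / volume (Metric.closedBall g r) := by
    refine hW.eventually_const_lt ?_
    rw [ENNReal.ofReal_lt_one]
    linarith
  obtain ⟨r₂, hr₂, h2⟩ := mem_nhdsGT_iff_exists_Ioo_subset.1 h1
  have hr₂' : (0 : ℝ) < r₂ := hr₂
  obtain ⟨r₀, hr₀, h⟩ := h
  refine ⟨min r₀ (r₂ / 4), lt_min hr₀ (by linarith), fun r hr hr' x hx => ?_⟩
  have l1 : r < r₀ := hr'.trans_le (min_le_left _ _)
  have l2 : r < r₂ / 4 := hr'.trans_le (min_le_right _ _)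
  have h3 := h2 (show 4 * r ∈ Ioo 0 r₂ from ⟨by linarith, by linarith⟩)
  simp only [Set.mem_ofPred_eq, Real.volume_closedBall] at h3
  by_contra hcon
  push Not at hcon
  have hxx := abs_le.1 hx
  have her : e₁ * r ≤ 1 * r := mul_le_mul_of_nonneg_right he₁1 hr.le
  have her' : e₁ * r ≤ e * r := mul_le_mul_of_nonneg_right he₁e hr.le
  have hep : 0 < e₁ * r := mul_pos he₁0 hr
  have h4 : W ∩ Metric.closedBall g (4 * r) ⊆
      Icc (g - 4 * r) x ∪ Icc (x + e₁ * r) (g + 4 * r) := by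
    rintro y ⟨hy, hyb⟩
    rw [Metric.mem_closedBall, Real.dist_eq] at hyb
    have hyb' := abs_le.1 hyb
    by_cases hy1 : y ≤ x
    · exact Or.inl ⟨by linarith, hy1⟩
    push Not at hy1
    right
    refine ⟨?_, by linarith⟩
    by_contra hy2
    push Not at hy2
    exact absurd (h r hr l1 y hy hyb) (not_le.2 (hcon y hy1.le (by linarith)))
  have h5 : volume (W ∩ Metric.closedBall g (4 * r)) ≤
      ENNReal.ofReal ((1 - e₁ / 8) * (2 * (4 * r))) := by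
    refine (measure_mono h4).trans ((measure_union_le _ _).trans ?_)
    rw [Real.volume_Icc, Real.volume_Icc, ← ENNReal.ofReal_add (by linarith) (by linarith)]
    refine ENNReal.ofReal_le_ofReal ?_
    nlinarith
  have h7 : volume (W ∩ Metric.closedBall g (4 * r)) / ENNReal.ofReal (2 * (4 * r)) ≤
      ENNReal.ofReal (1 - e₁ / 8) := by
    refine ENNReal.div_le_of_le_mul ?_
    rwa [← ENNReal.ofReal_mul (by linarith)]
  exact absurd h3 (not_lt.2 h7)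

/-- The level of the smaller threshold is larger, near the row. -/
theorem lv_anti_loc {P P' : ℝ → ℝ → ℝ} (hP : Law P) (hP' : Law P') {Q g r r' Q' q : ℝ}
    (hg : g = Lv P (Q, 0)) (hr : 0 < r) (hrr : r ≤ r') (hg0 : 4 * r' ≤ g) (hg1 : g + 4 * r' ≤ 1)
    (hQ' : |Q' - Q| ≤ r) (hq0 : 0 ≤ q) (hqr : q ≤ r)
    (hle : ∀ a w : ℝ, g - 4 * r' ≤ w → w ≤ a → a ≤ g + 4 * r' → P' a w ≤ P a w) :
    Lv P (Q', q) ≤ Lv P' (Q', q) := by
  have hq1 : q ≤ 1 := by linarith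
  have hcq : cl q = q := cl_of_mem hq0 hq1
  have h1 : |Lv P (Q', q) - g| ≤ r := by
    have h2 := (Lv_lip hP).dist_le_mul (Q', q) (Q, 0)
    rw [Real.dist_eq, NNReal.coe_one, one_mul, Prod.dist_eq, ← hg] at h2
    refine h2.trans (max_le hQ' ?_)
    rw [Real.dist_eq, sub_zero, abs_of_nonneg hq0]
    exact hqr
  rw [abs_le] at h1
  refine le_csInf ⟨1, one_mem (cl_le_one _)⟩ ?_
  rintro a ⟨h2, h3, h4⟩
  simp only at h2 h4
  rw [hcq] at h2 h4
  by_contra hcon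
  push Not at hcon
  have h5 : cl Q' ≤ P' a (a - q) := by
    rcases h4 with h4 | h4
    · exact h4
    · linarith [h1.2]
  by_cases h6 : g - 4 * r' ≤ a - q
  · have h7 : Lv P (Q', q) ≤ a := by
      refine lev_le ⟨by rw [hcq]; exact h2, h3, Or.inl ?_⟩
      rw [hcq]
      exact h5.trans (hle a (a - q) h6 (by linarith) (by linarith [h1.2]))
    linarith
  · push Not at h6
    have h7 : Lv P (Q', q) ≤ g - 4 * r' + q := by
      refine lev_le ⟨by rw [hcq]; linarith, by linarith, Or.inl ?_⟩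
      rw [hcq, add_sub_cancel_right]
      have h8 : P' a (a - q) ≤ P' (g - 4 * r' + q) (g - 4 * r') :=
        hP'.mono (by linarith) (by linarith) (by linarith) h6.le (by linarith) (by linarith)
      exact h5.trans (h8.trans (hle _ _ le_rfl (by linarith) (by linarith)))
    linarith [h1.1]

/-- The increase of the level of the family at the scale `r`, `t = 4 r / 3`. -/
theorem fam_scale {P P' : ℝ → ℝ → ℝ} (hP : Law P) (hL : Law P') {Q g ε₀ e r t Q' : ℝ}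
    (hQ0 : 8 * r < Q) (hQ1 : 8 * r < 1 - Q) (hg : g = Lv P (Q, 0)) (hg0 : 8 * r < g)
    (hg1 : 8 * r < 1 - g) (hr : 0 < r) (ht : t = 4 / 3 * r) (he0 : 0 < e) (he1 : e ≤ 1 / 8)
    (he2 : e ≤ ε₀ / 8) (hQ' : |Q' - Q| ≤ r) (hgr : ε₀ * r < Lv P (Q', r) - Lv P (Q', 0))
    (hle : ∀ a w : ℝ, g - 4 * t ≤ w → w ≤ a → a ≤ g + 4 * t → P' a w ≤ P a w)
    (hdg : ∀ x : ℝ, |x - g| ≤ 2 * t → ∃ x' : ℝ, x ≤ x' ∧ x' ≤ x + e * t ∧
      P x' x' ≤ P' x' x' + e * t) :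
    |Lv P' (Q', 0) - g| ≤ r + 3 * (e * t) ∧ ε₀ / 2 * r ≤ Lv P' (Q', r) - Lv P' (Q', 0) := by
  have ht0 : 0 < t := by rw [ht]; linarith
  have hrt : r ≤ t := by rw [ht]; linarith
  have hQ1' := abs_le.1 hQ'
  have hanti : ∀ q : ℝ, 0 ≤ q → q ≤ r → Lv P (Q', q) ≤ Lv P' (Q', q) := fun q hq hq' =>
    lv_anti_loc hP hL hg hr hrt (by rw [ht]; linarith) (by rw [ht]; linarith) hQ' hq hq' hle
  have hLip : ∀ x y : ℝ, |Lv P (x, 0) - Lv P (y, 0)| ≤ |x - y| := by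
    intro x y
    have h1 := (Lv_lip hP).dist_le_mul (x, 0) (y, 0)
    rw [Real.dist_eq, NNReal.coe_one, one_mul, Prod.dist_eq] at h1
    refine h1.trans (max_le le_rfl ?_)
    rw [dist_self]
    exact abs_nonneg _
  have het : 0 < e * t := mul_pos he0 ht0
  have het1 : e * t ≤ 1 / 8 * t := mul_le_mul_of_nonneg_right he1 ht0.le
  have hup : Lv P' (Q', 0) ≤ Lv P (Q', 0) + 3 * (e * t) := by
    have h1 := hLip (Q' + e * t) Q
    have h2 := hLip (Q' + e * t) Q'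
    rw [add_sub_cancel_left, abs_of_pos het] at h2
    have h3 : |Q' + e * t - Q| ≤ r + e * t := by
      rw [abs_le]
      constructor <;> linarith
    rw [← hg] at h1
    have h1' := abs_le.1 (h1.trans h3)
    have h2' := abs_le.1 h2
    obtain ⟨x', k1, k2, k3⟩ := hdg (Lv P (Q' + e * t, 0) + e * t) (by
        rw [abs_le]
        constructor <;> linarith)
    have hx1 : x' ≤ 1 := by linarith
    have h4 : cl (Q' + e * t) ≤ P x' (x' - cl 0) := by
      refine le_of_lev_lt hP (cl_nonneg _) (cl_le_one _) ?_ hx1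
      change Lv P (Q' + e * t, 0) < x'
      linarith
    rw [cl_of_mem (by linarith) (by linarith), cl_of_mem le_rfl zero_le_one, sub_zero] at h4
    have h5 : Lv P' (Q', 0) ≤ x' := by
      refine lev_le (P := P') (Q := cl Q') (q := cl 0) ⟨?_, hx1, Or.inl ?_⟩
      · rw [cl_of_mem le_rfl zero_le_one]
        linarith
      · rw [cl_of_mem le_rfl zero_le_one, sub_zero, cl_of_mem (by linarith) (by linarith)]
        linarith
    linarith
  constructor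
  · have h1 := hLip Q' Q
    rw [← hg] at h1
    have h2 := abs_le.1 (h1.trans hQ')
    have h3 := hanti 0 le_rfl hr.le
    rw [abs_le]
    constructor <;> linarith
  · have h1 := hanti r hr.le le_rfl
    have h2 : e * t ≤ ε₀ / 8 * t := mul_le_mul_of_nonneg_right he2 ht0.le
    have h3 : ε₀ / 8 * t = ε₀ * r / 6 := by rw [ht]; ring
    have h4 : ε₀ / 2 * r = ε₀ * r / 2 := by ring
    linarith

/-- The bound of the slopes. -/
theorem slope_T {N C' s' ε₂ : ℝ} (hN : 0 ≤ N) (hC'0 : 0 ≤ C') (hs'0 : 0 < s') (hε₂0 : 0 < ε₂) :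
    ∃ T : ℝ, 0 < T ∧ 1 / s' ≤ T ∧ N * (10 * C' / T) < s' * (ε₂ / 4 * (ε₂ / 4)) := by
  obtain ⟨c, hc⟩ : ∃ c, c = s' * (ε₂ / 4 * (ε₂ / 4)) := ⟨_, rfl⟩
  have hc0 : 0 < c := by rw [hc]; positivity
  obtain ⟨A, hA⟩ : ∃ A, A = N * (10 * C') := ⟨_, rfl⟩
  have hA0 : 0 ≤ A := by rw [hA]; positivity
  obtain ⟨T, hT⟩ : ∃ T, T = 1 / s' + (A + 1) / c := ⟨_, rfl⟩
  have h1 : 0 < 1 / s' := by positivity
  have h2 : 0 < (A + 1) / c := by positivity
  have hT0 : 0 < T := by rw [hT]; linarith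
  refine ⟨T, hT0, by rw [hT]; linarith, ?_⟩
  rw [← hc]
  have e1 : N * (10 * C' / T) = A / T := by rw [hA]; ring
  rw [e1, div_lt_iff₀ hT0]
  have e2 : c * ((A + 1) / c) = A + 1 := by field_simp
  have e3 : c * T = c * (1 / s') + (A + 1) := by rw [hT, mul_add, e2]
  have e4 : 0 < c * (1 / s') := by positivity
  linarith

/-- From an affine cell of the level to a joint cell. -/
theorem jcell_of {ι : Type*} {P : ℝ → ℝ → ℝ} (hL : Law P) {R : ι → ℝ × ℝ → ℝ}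
    {Q g r t ε ε₁ s' T X al be β x : ℝ} {p : ℝ × ℝ} (hr : 0 < r) (ht : t = 4 / 3 * r)
    (hQ0 : 8 * r < Q) (hQ1 : 8 * r < 1 - Q) (hg0 : 8 * r < g) (hg1 : 8 * r < 1 - g)
    (hs'0 : 0 < s') (hs'1 : s' ≤ 1) (hT1 : 1 / s' ≤ T) (hε₁0 : 0 < ε₁) (hε₁1 : ε₁ ≤ s' / 8)
    (hε₁2 : ε₁ ≤ ε * s' ^ 2 / 32) (hε₁3 : ε₁ ≤ ε * s' / 8) (hX0 : 0 < X)
    (hpQ : |p.1 - Q| ≤ 2 * r) (c3 : X ≤ p.2) (c4 : p.2 + X ≤ r)
    (hxg : |x - g| ≤ 3 / 2 * r) (c5 : |Lv P p - p.2 - x| + X ≤ 2 * r) (hal : s' < al)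
    (hβ : 0 ≤ β) (c7 : β ≤ be) (c8 : al + be ≤ 1) (c9 : Affn (Lv P) ε₁ p X al be)
    (c10 : ∀ j, ∃ lam mu : ℝ, 0 ≤ lam ∧ lam ≤ T ∧ 0 ≤ mu ∧ mu ≤ T ∧
      Affn (R j) ε₁ (Lv P p - p.2, p.2) X lam mu) :
    ∃ (lamN muN : ℝ) (lam mu : ι → ℝ),
      JCell P R Q g t ε β T (Lv P p - p.2, p.2) (s' / 8 * X) lamN muN lam mu := by
  choose lam mu m1 m2 m3 m4 m5 using c10
  have hrt : r ≤ t := by rw [ht]; linarith
  have hXr : X ≤ r := by linarith
  have hab := abs_le.1 hpQ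
  have hsX : s' / 8 * X ≤ X := mul_le_of_le_one_left hX0.le (by linarith)
  have hwd : |Lv P p - p.2 - g| + X ≤ 7 / 2 * r := by
    have := abs_sub_le (Lv P p - p.2) x g
    linarith
  have hwd1 : |Lv P p - p.2 - g| ≤ 7 / 2 * r - X := by linarith
  have hwd2 := abs_le.1 hwd1
  have hal0 : 0 < al := hs'0.trans hal
  have hbe0 : 0 ≤ be := hβ.trans c7
  obtain ⟨k1, k2⟩ := Affn.chart hL c9 hX0 hs'0 hal.le hε₁0 hε₁1 hbe0 c8
    (by linarith) (by linarith) c3 (by linarith) (by linarith)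
  refine ⟨1 / al, (1 - be) / al, lam, mu, ?_, ?_, ?_, ?_, ?_, ?_, ?_, ?_, ?_, fun j => ?_, m1, m2,
    m3, m4⟩
  · positivity
  · refine (abs_sub_le _ p.1 _).trans ?_
    have e1 : 2 * ε₁ * X / s' ≤ r := by
      rw [div_le_iff₀ hs'0]
      have h1 : ε₁ * X ≤ s' / 8 * X := mul_le_mul_of_nonneg_right hε₁1 hX0.le
      have h2 : s' / 8 * X ≤ s' / 8 * r := mul_le_mul_of_nonneg_left hXr (by positivity)
      have h3 : 0 < s' * r := mul_pos hs'0 hr
      linarith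
    linarith
  · show |Lv P p - p.2 - g| + s' / 8 * X ≤ 3 * t
    rw [ht]
    linarith
  · show s' / 8 * X ≤ p.2
    linarith
  · show p.2 + s' / 8 * X ≤ t
    linarith
  · refine k1.shrink le_rfl (mul_le_mul_of_nonneg_right ?_ (by positivity))
    rw [div_le_iff₀ (by positivity)]
    linarith
  · rw [le_div_iff₀ hal0]
    linarith
  · rw [div_add' _ _ _ hal0.ne', div_le_div_iff_of_pos_right hal0]
    have h1 : β * al ≤ β * 1 := mul_le_mul_of_nonneg_left (by linarith) hβ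
    linarith
  · exact (one_div_le_one_div_of_le hs'0 hal.le).trans hT1
  · refine (m5 j).shrink hsX ?_
    have e1 : ε * (s' / 8 * X) = ε * s' / 8 * X := by ring
    rw [e1]
    exact mul_le_mul_of_nonneg_right hε₁3 hX0.le

/-- **Cells of families.** -/
theorem cell_famF {ι : Type*} [Fintype ι] {P : ℝ → ℝ → ℝ} (hP : Law P) {Q g C : ℝ}
    (hQ0 : 0 < Q) (hQ1 : Q < 1) (hg : g = Lv P (Q, 0)) (hg0 : 0 < g) (hg1 : g < 1) (hC : 0 ≤ C)
    (hW : ¬ WfU P Q) : ∃ β : ℝ, 0 < β ∧ ∀ s : ℝ, 0 < s → ∃ T : ℝ, 0 < T ∧ ∀ ε : ℝ, 0 < ε →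
      ∃ δ : ℝ, 0 < δ ∧ ∀ (P' : ℝ → ℝ → ℝ → ℝ) (R : ℝ → ι → ℝ × ℝ → ℝ) (V : ℝ → ι → ℝ),
        FamBox P g C P' R V → FamDg P g (min (1 / 8) (β / 2)) P' →
        ∀ r₁ : ℝ, 0 < r₁ → ∃ r : ℝ, 0 < r ∧ r < r₁ ∧ ((∃ (p : ℝ × ℝ) (X al be : ℝ), δ * r ≤ X ∧ FrCell (P' r) Q r ε β s p X al be) ∨
        ∃ (y : ℝ × ℝ) (X lamN muN : ℝ) (lam mu : ι → ℝ), δ * r ≤ X ∧
          JCell (P' r) (R r) Q g r ε β T y X lamN muN lam mu) := by
  unfold WfU at hW
  push Not at hW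
  obtain ⟨ε₀, hε₀, hW⟩ := hW
  obtain ⟨C', hC'⟩ : ∃ C', C' = 8 / 3 * C := ⟨_, rfl⟩
  have hC'0 : 0 ≤ C' := by rw [hC']; positivity
  have hε₂0 : 0 < ε₀ / 2 := by linarith
  refine ⟨ε₀ / 2 / 2, half_pos hε₂0, fun s hs => ?_⟩
  obtain ⟨s', hs'⟩ : ∃ s', s' = min s 1 := ⟨_, rfl⟩
  have hs'0 : 0 < s' := by rw [hs']; exact lt_min hs one_pos
  have hs's : s' ≤ s := by rw [hs']; exact min_le_left _ _
  have hs'1 : s' ≤ 1 := by rw [hs']; exact min_le_right _ _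
  obtain ⟨T, hT, hT1, hT2⟩ := slope_T (N := Fintype.card ι) (Nat.cast_nonneg _) hC'0 hs'0 hε₂0
  refine ⟨T, hT, fun ε hε => ?_⟩
  obtain ⟨ε₁, hε₁⟩ : ∃ ε₁, ε₁ = min (s' / 8) (ε * s' ^ 2 / 32) := ⟨_, rfl⟩
  have hε₁0 : 0 < ε₁ := by
    rw [hε₁]
    exact lt_min (by positivity) (by positivity)
  have hε₁1 : ε₁ ≤ s' / 8 := by rw [hε₁]; exact min_le_left _ _
  have hε₁2 : ε₁ ≤ ε * s' ^ 2 / 32 := by rw [hε₁]; exact min_le_right _ _
  have hss : ε * s' ^ 2 ≤ ε * s' := by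
    refine mul_le_mul_of_nonneg_left ?_ hε.le
    rw [sq]
    exact mul_le_of_le_one_left hs'0.le hs'1
  have hes : 0 < ε * s' := mul_pos hε hs'0
  have hes1 : ε * s' ≤ ε * 1 := mul_le_mul_of_nonneg_left hs'1 hε.le
  have hε₁3 : ε₁ ≤ ε * s' / 8 := by linarith
  have hε₁4 : ε₁ ≤ ε := by linarith
  obtain ⟨δ, hδ, H⟩ := blowM (ι := ι) hε₂0 hε₁0 hs'0 hT hC'0 hT2
  refine ⟨s' / 16 * δ, by positivity, fun P' R V hbox hdg r₁ hr₁ => ?_⟩
  obtain ⟨r₀, hr₀, hbox⟩ := hbox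
  obtain ⟨e, he⟩ : ∃ e, e = min (1 / 8) (ε₀ / 2 / 2 / 2) := ⟨_, rfl⟩
  have he0 : 0 < e := by rw [he]; exact lt_min (by norm_num) (by linarith)
  have he1 : e ≤ 1 / 8 := by rw [he]; exact min_le_left _ _
  have he2 : e ≤ ε₀ / 8 := by
    rw [he]
    exact (min_le_right _ _).trans (le_of_eq (by ring))
  rw [← he] at hdg
  obtain ⟨r₂, hr₂, hdg⟩ := hdg
  obtain ⟨ρ, hρ⟩ : ∃ ρ, ρ = min (r₁ / 2) (min (r₀ / 2) (min (r₂ / 2) (min (Q / 8)
    (min ((1 - Q) / 8) (min (g / 8) ((1 - g) / 8)))))) := ⟨_, rfl⟩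
  have hρ0 : 0 < ρ := by
    rw [hρ]
    exact lt_min (by linarith) (lt_min (by linarith) (lt_min (by linarith) (lt_min (by linarith)
      (lt_min (by linarith) (lt_min (by linarith) (by linarith))))))
  obtain ⟨r, hr, hrρ, Q', hQ', hgr⟩ := hW ρ hρ0
  have l1 : r < r₁ / 2 := lt_of_lt_of_le hrρ (by rw [hρ]; exact min_le_left _ _)
  have l2 : r < r₀ / 2 := lt_of_lt_of_le hrρ (by
    rw [hρ]; exact (min_le_right _ _).trans (min_le_left _ _))
  have l2' : r < r₂ / 2 := lt_of_lt_of_le hrρ (by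
    rw [hρ]; exact (min_le_right _ _).trans ((min_le_right _ _).trans (min_le_left _ _)))
  have l3 : r < Q / 8 := lt_of_lt_of_le hrρ (by
    rw [hρ]
    exact (min_le_right _ _).trans ((min_le_right _ _).trans ((min_le_right _ _).trans
      (min_le_left _ _))))
  have l4 : r < (1 - Q) / 8 := lt_of_lt_of_le hrρ (by
    rw [hρ]
    exact (min_le_right _ _).trans ((min_le_right _ _).trans ((min_le_right _ _).trans
      ((min_le_right _ _).trans (min_le_left _ _)))))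
  have l5 : r < g / 8 := lt_of_lt_of_le hrρ (by
    rw [hρ]
    exact (min_le_right _ _).trans ((min_le_right _ _).trans ((min_le_right _ _).trans
      ((min_le_right _ _).trans ((min_le_right _ _).trans (min_le_left _ _))))))
  have l6 : r < (1 - g) / 8 := lt_of_lt_of_le hrρ (by
    rw [hρ]
    exact (min_le_right _ _).trans ((min_le_right _ _).trans ((min_le_right _ _).trans
      ((min_le_right _ _).trans ((min_le_right _ _).trans (min_le_right _ _))))))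
  obtain ⟨t, ht⟩ : ∃ t, t = 4 / 3 * r := ⟨_, rfl⟩
  have ht0 : 0 < t := by rw [ht]; linarith
  have hrt : r ≤ t := by rw [ht]; linarith
  obtain ⟨hL, hle, hlv⟩ := hbox t ht0 (by rw [ht]; linarith)
  have hQa : 8 * r < Q := by linarith
  have hQb : 8 * r < 1 - Q := by linarith
  have hga : 8 * r < g := by linarith
  have hgb : 8 * r < 1 - g := by linarith
  obtain ⟨hxg, hinc⟩ := fam_scale hP hL hQa hQb hg hga hgb hr ht he0 he1 he2 hQ' hgr hle
    (hdg t ht0 (by rw [ht]; linarith))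
  obtain ⟨x, hx⟩ : ∃ x, x = Lv (P' t) (Q', 0) := ⟨_, rfl⟩
  have het1 : e * t ≤ 1 / 6 * r := by
    have h1 : e * t ≤ 1 / 8 * t := mul_le_mul_of_nonneg_right he1 ht0.le
    have h2 : 1 / 8 * t = 1 / 6 * r := by rw [ht]; ring
    linarith
  have hxg' : |x - g| ≤ 3 / 2 * r := by
    rw [hx]
    linarith
  have hwb : ∀ y, WBox x r y → WBox g (2 * t) y := by
    intro y hy
    have h1 := abs_sub_le y.1 x g
    refine ⟨?_, hy.2.1, hy.2.2.trans (by linarith)⟩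
    have h2 := hy.1
    rw [ht]
    linarith
  have hlv' : ∀ j, LvBox (R t j) x (V t j) C' r := by
    intro j
    refine ⟨fun y y' hy h h' => (hlv j).mono y y' hy (hwb y h) (hwb y' h'), fun y hy => ?_⟩
    refine ((hlv j).bd y (hwb y hy)).trans (le_of_eq ?_)
    rw [hC', ht]
    ring
  rw [hx] at hlv'
  obtain ⟨p, X, al, be, c1, c2, c3, c4, c5, c6, c7, c8, c9, c10⟩ :=
    H (Lv (P' t)) (R t) (Lv_lip hL) (Lv_mono hL) Q' r (V t) hr hinc hlv'
  have hX0 : 0 < X := lt_of_lt_of_le (mul_pos hδ hr) c2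
  rw [← hx] at c5
  have hpQ : |p.1 - Q| ≤ 2 * r := by
    have := abs_sub_le p.1 Q' Q
    linarith
  refine ⟨t, ht0, by rw [ht]; linarith, ?_⟩
  have hδX : s' / 16 * δ * t ≤ s' / 8 * X := by
    have h1 := mul_le_mul_of_nonneg_left c2 (show (0 : ℝ) ≤ s' / 8 by positivity)
    have h3 : 0 ≤ s' * δ * r := by positivity
    have h4 : s' / 16 * δ * t = 1 / 12 * (s' * δ * r) := by rw [ht]; ring
    have h5 : s' / 8 * (δ * r) = 1 / 8 * (s' * δ * r) := by ring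
    rw [h4]
    rw [h5] at h1
    linarith
  have hsX : s' / 8 * X ≤ X := mul_le_of_le_one_left hX0.le (by linarith)
  rcases le_or_gt al s' with hal | hal
  · left
    exact ⟨p, X, al, be, hδX.trans hsX, hpQ.trans (by linarith), c3, c4.trans hrt, c6,
      hal.trans hs's, c7, c8, c9.shrink le_rfl (mul_le_mul_of_nonneg_right hε₁4 hX0.le)⟩
  · right
    rcases c10 with c10 | c10
    · exact absurd c10 (not_le.2 hal)
    obtain ⟨lamN, muN, lam, mu, hJ⟩ := jcell_of hL hr ht hQa hQb hga hgb hs'0 hs'1 hT1 hε₁0 hε₁1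
      hε₁2 hε₁3 hX0 hpQ c3 c4 hxg' c5 hal (half_pos hε₂0).le c7 c8 c9 c10
    exact ⟨_, _, lamN, muN, lam, mu, hδX, hJ⟩

/-- The closeness with a smaller error. -/
theorem FamDg.mono {P : ℝ → ℝ → ℝ} {g e e' : ℝ} {P' : ℝ → ℝ → ℝ → ℝ} (h : FamDg P g e P')
    (he : e ≤ e') : FamDg P g e' P' := by
  obtain ⟨r₀, hr₀, h⟩ := h
  refine ⟨r₀, hr₀, fun r hr hr' x hx => ?_⟩
  obtain ⟨x', h1, h2, h3⟩ := h r hr hr' x hx
  have h4 : e * r ≤ e' * r := mul_le_mul_of_nonneg_right he hr.le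
  exact ⟨x', h1, h2.trans (by linarith), h3.trans (by linarith)⟩

/-- **No cells** at the row `Q`: the numbers are chosen in the order `C` (the bound of the levels),
`β`, `s`, `T`, `ε`, `δ`, the family, `r`. -/
def NoCell (P : ℝ → ℝ → ℝ) (Q : ℝ) : Prop :=
  ∃ (m : ℕ) (C : ℝ), 0 ≤ C ∧ ∀ β : ℝ, 0 < β → ∃ s : ℝ, 0 < s ∧ ∀ T : ℝ, 0 < T → ∃ ε : ℝ, 0 < ε ∧
    ∀ δ : ℝ, 0 < δ → ∃ (P' : ℝ → ℝ → ℝ → ℝ) (R : ℝ → Fin m → ℝ × ℝ → ℝ) (V : ℝ → Fin m → ℝ),
      FamBox P (Lv P (Q, 0)) C P' R V ∧ FamDg P (Lv P (Q, 0)) (min (1 / 8) (β / 2)) P' ∧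
      ∃ r₁ : ℝ, 0 < r₁ ∧ ∀ r : ℝ, 0 < r → r < r₁ →
        (∀ (p : ℝ × ℝ) (X al be : ℝ), δ * r ≤ X → ¬ FrCell (P' r) Q r ε β s p X al be) ∧
        ∀ (y : ℝ × ℝ) (X lamN muN : ℝ) (lam mu : Fin m → ℝ), δ * r ≤ X →
          ¬ JCell (P' r) (R r) Q (Lv P (Q, 0)) r ε β T y X lamN muN lam mu

/-- A row without cells is uniformly free from the window. -/
theorem wfu_of_noCell {P : ℝ → ℝ → ℝ} (hP : Law P) {Q : ℝ} (hQ0 : 0 < Q) (hQ1 : Q < 1)
    (hg0 : 0 < Lv P (Q, 0)) (hg1 : Lv P (Q, 0) < 1) (h : NoCell P Q) : WfU P Q := by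
  by_contra hcon
  obtain ⟨m, C, hC, h⟩ := h
  obtain ⟨β, hβ, H⟩ := cell_famF (ι := Fin m) hP hQ0 hQ1 rfl hg0 hg1 hC hcon
  obtain ⟨s, hs, h⟩ := h β hβ
  obtain ⟨T, hT, H⟩ := H s hs
  obtain ⟨ε, hε, h⟩ := h T hT
  obtain ⟨δ, hδ, H⟩ := H ε hε
  obtain ⟨P', R, V, h1, h2, r₁, hr₁, h⟩ := h δ hδ
  obtain ⟨r, hr, hr', H⟩ := H P' R V h1 h2 r₁ hr₁
  rcases H with ⟨p, X, al, be, k1, k2⟩ | ⟨y, X, lamN, muN, lam, mu, k1, k2⟩
  · exact (h r hr hr').1 p X al be k1 k2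
  · exact (h r hr hr').2 y X lamN muN lam mu k1 k2

/-- A row with a positive derivative of the diagonal level is not the last one. -/
theorem lv_lt_one {P : ℝ → ℝ → ℝ} (hP : Law P) {Q : ℝ}
    (d : DifferentiableAt ℝ (fun Q => Lv P (Q, 0)) Q)
    (e : 0 < deriv (fun Q => Lv P (Q, 0)) Q) : Lv P (Q, 0) < 1 := by
  have hgm : Monotone (fun Q => Lv P (Q, 0)) := fun x y hxy => Lv_mono hP ⟨hxy, le_rfl⟩
  refine lt_of_le_of_ne (lev_le_one (cl_le_one _)) fun he => ?_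
  have h5 : HasDerivWithinAt (fun Q => Lv P (Q, 0)) (deriv (fun Q => Lv P (Q, 0)) Q) (Ici Q) Q :=
    d.hasDerivAt.hasDerivWithinAt
  have h6 : HasDerivWithinAt (fun Q => Lv P (Q, 0)) 0 (Ici Q) Q := by
    refine (hasDerivWithinAt_const Q (Ici Q) (1 : ℝ)).congr (fun z hz => ?_) he
    exact le_antisymm (lev_le_one (cl_le_one _)) (he.ge.trans (hgm hz))
  have h7 := (uniqueDiffWithinAt_Ici Q).eq_deriv _ h5 h6
  linarith

/-- **The micro input from the absence of cells of families.** A null set of windows may be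
removed. -/
theorem micW_of_fam {P : ℝ → ℝ → ℝ} (hP : Law P) {N : Set ℝ} (hN : volume N = 0) {ρ : ℝ → ℝ}
    (h : ∀ᵐ Q : ℝ, RowD P ρ Nᶜ Q → NoCell P Q) : MicW P ρ := by
  have hgm : Monotone (fun Q => Lv P (Q, 0)) := fun x y hxy => Lv_mono hP ⟨hxy, le_rfl⟩
  filter_upwards [ae_notMem_of_null hgm hN, h] with Q hQ hQN a b c d e f g
  have hlt := lv_lt_one hP d e
  exact wfu_of_noCell hP a b c hlt (hQN ⟨a, b, c, hlt, hQ d e, d, e, f, g⟩)

/-! ### The box form -/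

/-- The rows between `A` and `B` are not full, up to `η`. -/
def NfB (ρ : ℝ → ℝ) (h η A B : ℝ) : Prop :=
  ∀ Q₁ Q₂ : ℝ, A ≤ Q₁ → Q₁ ≤ Q₂ → Q₂ ≤ B → ρ Q₂ - ρ Q₁ ≤ (1 - h) * (Q₂ - Q₁) + η

/-- A nonfull row is nonfull on all its small boxes. -/
theorem nfB_of {ρ : ℝ → ℝ} {Q : ℝ} (hd : DifferentiableAt ℝ ρ Q) (hlt : deriv ρ Q < 1) {h : ℝ}
    (hh : h ≤ 1 - deriv ρ Q) {η M : ℝ} (hη : 0 < η) (hM : 0 < M) : ∃ r₀ : ℝ, 0 < r₀ ∧
      ∀ r : ℝ, 0 < r → r < r₀ → NfB ρ h (η * r) (Q - M * r) (Q + M * r) := by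
  have h1 := hd.hasDerivAt.isLittleO.def (show 0 < η / (2 * M) by positivity)
  obtain ⟨d, hd0, h2⟩ := Metric.eventually_nhds_iff.1 h1
  refine ⟨d / M, by positivity, fun r hr hr' Q₁ Q₂ h3 h4 h5 => ?_⟩
  rw [lt_div_iff₀ hM] at hr'
  have key : ∀ x : ℝ, |x - Q| ≤ M * r → |ρ x - ρ Q - (x - Q) * deriv ρ Q| ≤ η / 2 * r := by
    intro x hx
    have h6 := h2 (y := x) (by rw [Real.dist_eq]; linarith)
    rw [Real.norm_eq_abs, Real.norm_eq_abs, smul_eq_mul] at h6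
    refine h6.trans ((mul_le_mul_of_nonneg_left hx (by positivity)).trans (le_of_eq ?_))
    field_simp
  have k1 := key Q₁ (by rw [abs_le]; constructor <;> linarith)
  have k2 := key Q₂ (by rw [abs_le]; constructor <;> linarith)
  rw [abs_le] at k1 k2
  have e1 : deriv ρ Q * (Q₂ - Q₁) ≤ (1 - h) * (Q₂ - Q₁) :=
    mul_le_mul_of_nonneg_right (by linarith) (by linarith)
  have e2 : (Q₂ - Q) * deriv ρ Q - (Q₁ - Q) * deriv ρ Q = deriv ρ Q * (Q₂ - Q₁) := by ring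
  linarith [k1.1, k2.2]

/-- **No joint cells, box form.** The families are indexed by `κ`; the defect `df k g r` is what the
statements on almost all windows lose on the box of size `r` around the window `g`. `Ad c k Q g r`
is any property of the selected families at a row, `c` is a constant of the row. -/
def NoJB {κ : Type*} {m : ℕ} (ρ : ℝ → ℝ) (PB : κ → ℝ → ℝ → ℝ) (R : κ → Fin m → ℝ × ℝ → ℝ)
    (Ad : ℝ → κ → ℝ → ℝ → ℝ → Prop) (df : κ → ℝ → ℝ → ℝ) : Prop :=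
  ∀ c β T h : ℝ, 0 < c → 0 < β → 0 < T → 0 < h → ∃ ε : ℝ, 0 < ε ∧
    ∀ (k : κ) (Q g r : ℝ) (y : ℝ × ℝ) (X lamN muN : ℝ) (lam mu : Fin m → ℝ), 0 < r →
      8 * r < g → 8 * r < 1 - g → 8 * r < Q → 8 * r < 1 - Q → Ad c k Q g r →
      JCell (PB k) (R k) Q g r ε β T y X lamN muN lam mu →
      NfB ρ h (ε * X) (Nw (PB k) y - 4 * (T + 1) * X) (Nw (PB k) y + 4 * (T + 1) * X) →
      df k g r ≤ ε * X → False

/-- **No front cells, box form.** -/
def NoFB {κ : Type*} (ρ : ℝ → ℝ) (PB : κ → ℝ → ℝ → ℝ) (Ad : ℝ → κ → ℝ → ℝ → ℝ → Prop)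
    (df : κ → ℝ → ℝ → ℝ) : Prop :=
  ∀ c β h : ℝ, 0 < c → 0 < β → 0 < h → ∃ s : ℝ, 0 < s ∧ ∃ M : ℝ, 0 < M ∧ ∃ ε : ℝ, 0 < ε ∧
    ∀ (k : κ) (Q g r : ℝ) (p : ℝ × ℝ) (X al be : ℝ), 0 < r → 0 < X →
      8 * r < g → 8 * r < 1 - g → 8 * r < Q → 8 * r < 1 - Q → Ad c k Q g r →
      FrCell (PB k) Q r ε β s p X al be → NfB ρ h (ε * X) (Q - M * r) (Q + M * r) →
      df k g r ≤ ε * X → False

/-- **The micro input from the box forms.** At almost every row, for every `e`, a selection of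
families, which are near the threshold `P` and have defects at most `e r`. -/
theorem micW_of_box {κ : Type*} {m : ℕ} {P : ℝ → ℝ → ℝ} (hP : Law P) {N : Set ℝ}
    (hN : volume N = 0) {ρ : ℝ → ℝ} {PB : κ → ℝ → ℝ → ℝ} {R : κ → Fin m → ℝ × ℝ → ℝ}
    {Ad : ℝ → κ → ℝ → ℝ → ℝ → Prop} {df : κ → ℝ → ℝ → ℝ} (hJ : NoJB ρ PB R Ad df)
    (hF : NoFB ρ PB Ad df)
    (hsel : ∀ᵐ Q : ℝ, RowD P ρ Nᶜ Q → ∃ C c : ℝ, 0 ≤ C ∧ 0 < c ∧ ∀ e : ℝ, 0 < e →
      ∃ (k : ℝ → κ) (V : ℝ → Fin m → ℝ),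
        FamBox P (Lv P (Q, 0)) C (fun r => PB (k r)) (fun r => R (k r)) V ∧
        FamDg P (Lv P (Q, 0)) e (fun r => PB (k r)) ∧
        ∃ r₀ : ℝ, 0 < r₀ ∧ ∀ r : ℝ, 0 < r → r < r₀ → Ad c (k r) Q (Lv P (Q, 0)) r ∧
          df (k r) (Lv P (Q, 0)) r ≤ e * r) :
    MicW P ρ := by
  refine micW_of_fam hP hN ?_
  filter_upwards [hsel] with Q hQ hrow
  obtain ⟨C, c, hC, hc0, hsel⟩ := hQ hrow
  obtain ⟨g, hg⟩ : ∃ g, g = Lv P (Q, 0) := ⟨_, rfl⟩
  obtain ⟨h, hh⟩ : ∃ h, h = 1 - deriv ρ Q := ⟨_, rfl⟩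
  have hh0 : 0 < h := by rw [hh]; linarith [hrow.rlt]
  refine ⟨m, C, hC, fun β hβ => ?_⟩
  obtain ⟨s, hs, M, hM, εF, hεF, HF⟩ := hF c β h hc0 hβ hh0
  refine ⟨s, hs, fun T hT => ?_⟩
  obtain ⟨εJ, hεJ, HJ⟩ := hJ c β T h hc0 hβ hT hh0
  refine ⟨min εF εJ, lt_min hεF hεJ, fun δ hδ => ?_⟩
  obtain ⟨ε, hε⟩ : ∃ ε, ε = min εF εJ := ⟨_, rfl⟩
  have hε0 : 0 < ε := by rw [hε]; exact lt_min hεF hεJ
  rw [← hε]
  have hεF' : ε ≤ εF := by rw [hε]; exact min_le_left _ _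
  have hεJ' : ε ≤ εJ := by rw [hε]; exact min_le_right _ _
  obtain ⟨e, he⟩ : ∃ e, e = min (min (1 / 8) (β / 2)) (ε * δ) := ⟨_, rfl⟩
  have hεδ : 0 < ε * δ := mul_pos hε0 hδ
  have he0 : 0 < e := by
    rw [he]
    exact lt_min (lt_min (by norm_num) (by linarith)) hεδ
  have he1 : e ≤ min (1 / 8) (β / 2) := by rw [he]; exact min_le_left _ _
  have he2 : e ≤ ε * δ := by rw [he]; exact min_le_right _ _
  obtain ⟨k, V, hbox, hdg, r₀, hr₀, hdf⟩ := hsel e he0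
  obtain ⟨M', hM'⟩ : ∃ M', M' = M + (3 + 4 * (T + 1)) := ⟨_, rfl⟩
  have hM'0 : 0 < M' := by rw [hM']; positivity
  obtain ⟨r₂, hr₂, hnf⟩ := nfB_of hrow.rdif hrow.rlt hh.le (η := ε * δ) (M := M') hεδ hM'0
  have hg0 := hrow.g0
  have hg1 := hrow.g1
  have hQ0 := hrow.Q0
  have hQ1 := hrow.Q1
  rw [← hg] at hbox hdg hdf hg0 hg1 ⊢
  obtain ⟨ρ', hρ'⟩ : ∃ ρ', ρ' = min r₀ (min r₂ (min (g / 8) (min ((1 - g) / 8)
    (min (Q / 8) ((1 - Q) / 8))))) := ⟨_, rfl⟩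
  have hρ'0 : 0 < ρ' := by
    rw [hρ']
    exact lt_min hr₀ (lt_min hr₂ (lt_min (by linarith) (lt_min (by linarith)
      (lt_min (by linarith) (by linarith)))))
  refine ⟨fun r => PB (k r), fun r => R (k r), V, hbox, hdg.mono he1, ρ', hρ'0,
    fun r hr hr' => ?_⟩
  have m1 : r < r₀ := hr'.trans_le (by rw [hρ']; exact min_le_left _ _)
  have m2 : r < r₂ := hr'.trans_le (by rw [hρ']; exact (min_le_right _ _).trans (min_le_left _ _))
  have m3 : r < g / 8 := hr'.trans_le (by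
    rw [hρ']; exact (min_le_right _ _).trans ((min_le_right _ _).trans (min_le_left _ _)))
  have m4 : r < (1 - g) / 8 := hr'.trans_le (by
    rw [hρ']
    exact (min_le_right _ _).trans ((min_le_right _ _).trans ((min_le_right _ _).trans
      (min_le_left _ _))))
  have m5 : r < Q / 8 := hr'.trans_le (by
    rw [hρ']
    exact (min_le_right _ _).trans ((min_le_right _ _).trans ((min_le_right _ _).trans
      ((min_le_right _ _).trans (min_le_left _ _)))))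
  have m6 : r < (1 - Q) / 8 := hr'.trans_le (by
    rw [hρ']
    exact (min_le_right _ _).trans ((min_le_right _ _).trans ((min_le_right _ _).trans
      ((min_le_right _ _).trans (min_le_right _ _)))))
  have hnf := hnf r hr m2
  obtain ⟨hAd, hdfr⟩ := hdf r hr m1
  constructor
  · intro p X al be hX hc
    have hX0 : 0 < X := (mul_pos hδ hr).trans_le hX
    have e1 : ε * δ * r ≤ εF * X := by
      have e2 : ε * (δ * r) ≤ εF * X := mul_le_mul hεF' hX (mul_pos hδ hr).le hεF.le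
      linarith
    refine HF (k r) Q g r p X al be hr hX0 (by linarith) (by linarith) (by linarith)
      (by linarith) hAd (hc.mono hX0.le hεF') (fun Q₁ Q₂ h1 h2 h3 => ?_) ?_
    · have hMr : M * r ≤ M' * r := mul_le_mul_of_nonneg_right (by rw [hM']; linarith) hr.le
      exact (hnf Q₁ Q₂ (by linarith) h2 (by linarith)).trans (by linarith)
    · have e2 : e * r ≤ ε * δ * r := mul_le_mul_of_nonneg_right he2 hr.le
      linarith
  · intro y X lamN muN lam mu hX hc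
    have hX0 : 0 < X := (mul_pos hδ hr).trans_le hX
    have e1 : ε * δ * r ≤ εJ * X := by
      have e2 : ε * (δ * r) ≤ εJ * X := mul_le_mul hεJ' hX (mul_pos hδ hr).le hεJ.le
      linarith
    have hXr : X ≤ r := by linarith [hc.dep, hc.dep']
    have hrw := abs_le.1 hc.row
    have hTX : 4 * (T + 1) * X ≤ 4 * (T + 1) * r :=
      mul_le_mul_of_nonneg_left hXr (by positivity)
    have hMr : (3 + 4 * (T + 1)) * r ≤ M' * r :=
      mul_le_mul_of_nonneg_right (by rw [hM']; linarith) hr.le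
    have hex : (3 + 4 * (T + 1)) * r = 3 * r + 4 * (T + 1) * r := by ring
    refine HJ (k r) Q g r y X lamN muN lam mu hr (by linarith) (by linarith) (by linarith)
      (by linarith) hAd (hc.mono hεJ') (fun Q₁ Q₂ h1 h2 h3 => ?_) ?_
    · exact (hnf Q₁ Q₂ (by linarith [hrw.1]) h2 (by linarith [hrw.2])).trans (by linarith)
    · have e2 : e * r ≤ ε * δ * r := mul_le_mul_of_nonneg_right he2 hr.le
      linarith

end Pool.STR
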