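import Pool.Agent.H60.GEN.MicF

/-!
# Backward slopes at a joint cell

`reg C b R`: the largest function below the level `R` whose increase with the window, at a fixed
depth, is at most `C`, to the right of the window `b`. It is monotone in the window and in the depth
if `R` is. So these functions can be used as further levels of a joint cell. If `reg C b R` is affine
on the cell with a slope less than `C`, then it is almost equal to `R` at the centre of the cell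
(`reg_back`): the increase of `R` from any window of the box to the cell is at most `C` times the
distance (`back_cell`).

`JCB`: joint cells with these bounds, for the target and for all levels (`cell_at2`, `cell_fam2`).
-/

set_option autoImplicit false

namespace Pool.STR

open MeasureTheory Set Filter Topology Pool.LEV

/-! ### Regularization -/

/-- The values whose infimum is `reg C b R y`. -/
def regSet (C b : ℝ) (R : ℝ × ℝ → ℝ) (y : ℝ × ℝ) : Set ℝ :=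
  {z | ∃ w, b ≤ w ∧ w ≤ y.1 ∧ z = R (w, y.2) + C * (y.1 - w)}

/-- The largest function below `R` with slope at most `C` in the window, on the windows `≥ b`. -/
noncomputable def reg (C b : ℝ) (R : ℝ × ℝ → ℝ) (y : ℝ × ℝ) : ℝ := sInf (regSet C b R y)

/-- A level is monotone and bounded on a rectangle. -/
structure LvR (R : ℝ × ℝ → ℝ) (b B q₁ V A : ℝ) : Prop where
  mono : ∀ y y' : ℝ × ℝ, y ≤ y' → b ≤ y.1 → y'.1 ≤ B → 0 ≤ y.2 → y'.2 ≤ q₁ → R y ≤ R y'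
  bd : ∀ y : ℝ × ℝ, b ≤ y.1 → y.1 ≤ B → 0 ≤ y.2 → y.2 ≤ q₁ → |R y - V| ≤ A

variable {R : ℝ × ℝ → ℝ} {b B q₁ V A C : ℝ}

theorem LvR.sub (h : LvR R b B q₁ V A) {b' B' q' A' : ℝ} (hb : b ≤ b') (hB : B' ≤ B)
    (hq : q' ≤ q₁) (hA : A ≤ A') : LvR R b' B' q' V A' :=
  ⟨fun y y' h1 h2 h3 h4 h5 => h.mono y y' h1 (hb.trans h2) (h3.trans hB) h4 (h5.trans hq),
    fun y h1 h2 h3 h4 => (h.bd y (hb.trans h1) (h2.trans hB) h3 (h4.trans hq)).trans hA⟩

theorem LvBox.lvR {g r : ℝ} (h : LvBox R g V C r) :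
    LvR R (g - 2 * r) (g + 2 * r) r V (C * r) := by
  have hW : ∀ y : ℝ × ℝ, g - 2 * r ≤ y.1 → y.1 ≤ g + 2 * r → 0 ≤ y.2 → y.2 ≤ r → WBox g r y :=
    fun y h1 h2 h3 h4 => ⟨by rw [abs_le]; constructor <;> linarith, h3, h4⟩
  refine ⟨fun y y' h1 h2 h3 h4 h5 => h.mono y y' h1 ?_ ?_, fun y h1 h2 h3 h4 =>
    h.bd y (hW y h1 h2 h3 h4)⟩
  · exact hW y h2 (h1.1.trans h3) h4 (h1.2.trans h5)
  · exact hW y' (h2.trans h1.1) h3 (h4.trans h1.2) h5

theorem LvR.lvBox (h : LvR R b B q₁ V A) {x r C' : ℝ} (hb : b ≤ x - 2 * r) (hB : x + 2 * r ≤ B)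
    (hq : r ≤ q₁) (hA : A ≤ C' * r) : LvBox R x V C' r := by
  refine ⟨fun y y' h1 h2 h3 => h.mono y y' h1 ?_ ?_ h2.2.1 (h3.2.2.trans hq), fun y h1 =>
    (h.bd y ?_ ?_ h1.2.1 (h1.2.2.trans hq)).trans hA⟩
  · linarith [(abs_le.1 h2.1).1]
  · linarith [(abs_le.1 h3.1).2]
  · linarith [(abs_le.1 h1.1).1]
  · linarith [(abs_le.1 h1.1).2]

theorem regSet_ne {y : ℝ × ℝ} (hy : b ≤ y.1) : (regSet C b R y).Nonempty :=
  ⟨_, y.1, hy, le_rfl, rfl⟩

theorem LvR.reg_lb (h : LvR R b B q₁ V A) (hC : 0 ≤ C) {y : ℝ × ℝ} (h2 : y.1 ≤ B)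
    (h3 : 0 ≤ y.2) (h4 : y.2 ≤ q₁) : ∀ z ∈ regSet C b R y, R (b, y.2) ≤ z := by
  rintro z ⟨w, hw1, hw2, rfl⟩
  have h5 := h.mono (b, y.2) (w, y.2) ⟨hw1, le_rfl⟩ le_rfl (hw2.trans h2) h3 h4
  have h6 : 0 ≤ C * (y.1 - w) := mul_nonneg hC (by linarith)
  linarith

theorem LvR.reg_le' (h : LvR R b B q₁ V A) (hC : 0 ≤ C) {y : ℝ × ℝ} (h2 : y.1 ≤ B)
    (h3 : 0 ≤ y.2) (h4 : y.2 ≤ q₁) {w : ℝ} (hw : b ≤ w) (hw' : w ≤ y.1) :
    reg C b R y ≤ R (w, y.2) + C * (y.1 - w) :=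
  csInf_le ⟨_, h.reg_lb hC h2 h3 h4⟩ ⟨w, hw, hw', rfl⟩

theorem LvR.reg_le (h : LvR R b B q₁ V A) (hC : 0 ≤ C) {y : ℝ × ℝ} (h1 : b ≤ y.1) (h2 : y.1 ≤ B)
    (h3 : 0 ≤ y.2) (h4 : y.2 ≤ q₁) : reg C b R y ≤ R y := by
  have h5 := h.reg_le' hC h2 h3 h4 h1 le_rfl
  rwa [sub_self, mul_zero, add_zero] at h5

/-- The regularization is monotone and has the same bounds. -/
theorem LvR.rg (h : LvR R b B q₁ V A) (hC : 0 ≤ C) : LvR (reg C b R) b B q₁ V A := by
  constructor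
  · intro y y' h1 h2 h3 h4 h5
    refine le_csInf (regSet_ne (h2.trans h1.1)) ?_
    rintro z ⟨w, hw1, hw2, rfl⟩
    rcases le_or_gt w y.1 with h6 | h6
    · have h7 := h.reg_le' hC (h1.1.trans h3) h4 (h1.2.trans h5) hw1 h6
      have h8 := h.mono (w, y.2) (w, y'.2) ⟨le_rfl, h1.2⟩ hw1 (hw2.trans h3) h4 h5
      have h9 : C * (y.1 - w) ≤ C * (y'.1 - w) :=
        mul_le_mul_of_nonneg_left (by linarith [h1.1]) hC
      linarith
    · have h7 := h.reg_le hC h2 (h1.1.trans h3) h4 (h1.2.trans h5)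
      have h8 := h.mono y (w, y'.2) ⟨h6.le, h1.2⟩ h2 (hw2.trans h3) h4 h5
      have h9 : 0 ≤ C * (y'.1 - w) := mul_nonneg hC (by linarith)
      linarith
  · intro y h1 h2 h3 h4
    have h5 := h.reg_le hC h1 h2 h3 h4
    have h6 : R (b, y.2) ≤ reg C b R y :=
      le_csInf (regSet_ne h1) (h.reg_lb hC h2 h3 h4)
    have h7 := abs_le.1 (h.bd y h1 h2 h3 h4)
    have h8 := abs_le.1 (h.bd (b, y.2) le_rfl (h1.trans h2) h3 h4)
    rw [abs_le]
    constructor <;> linarith [h7.2, h8.1]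

/-- Where it is less than the level it increases with slope `C`. -/
theorem LvR.reg_grow (h : LvR R b B q₁ V A) (hC : 0 ≤ C) {y : ℝ × ℝ} {t : ℝ} (h1 : b ≤ y.1)
    (h2 : y.1 + t ≤ B) (h3 : 0 ≤ y.2) (h4 : y.2 ≤ q₁) (ht : 0 ≤ t)
    (hgap : C * t ≤ R y - reg C b R y) : reg C b R y + C * t ≤ reg C b R (y.1 + t, y.2) := by
  refine le_csInf (regSet_ne (y := (y.1 + t, y.2)) (by show b ≤ y.1 + t; linarith)) ?_
  rintro z ⟨w, hw1, hw2, rfl⟩
  simp only at hw2 ⊢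
  rcases le_or_gt w y.1 with h6 | h6
  · have h7 := h.reg_le' hC (by linarith) h3 h4 hw1 h6
    have h8 : C * (y.1 + t - w) = C * (y.1 - w) + C * t := by ring
    rw [h8]
    linarith
  · have h8 := h.mono y (w, y.2) ⟨h6.le, le_rfl⟩ h1 (hw2.trans h2) h3 h4
    have h9 : 0 ≤ C * (y.1 + t - w) := mul_nonneg hC (by linarith)
    linarith

/-- **If the regularization is affine with a small slope, it is the level.** -/
theorem LvR.reg_back (h : LvR R b B q₁ V A) {y : ℝ × ℝ} {T ε X lam mu : ℝ} (h1 : b ≤ y.1)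
    (h2 : y.1 + X ≤ B) (h3 : 0 ≤ y.2) (h4 : y.2 ≤ q₁) (hT : 0 ≤ T) (hX : 0 < X)
    (hε1 : ε < 1) (hl : lam ≤ T) (ha : Affn (reg (T + 1) b R) ε y X lam mu) :
    R y ≤ reg (T + 1) b R y + (T + 1) * (ε * X) := by
  have hC : 0 ≤ T + 1 := by linarith
  obtain ⟨G, hG⟩ : ∃ G, G = R y - reg (T + 1) b R y := ⟨_, rfl⟩
  have hG0 : 0 ≤ G := by
    have := h.reg_le hC h1 (by linarith) h3 h4
    linarith
  obtain ⟨t, ht⟩ : ∃ t, t = min X (G / (T + 1)) := ⟨_, rfl⟩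
  have hT1 : 0 < T + 1 := by linarith
  have ht0 : 0 ≤ t := by
    rw [ht]
    exact le_min hX.le (div_nonneg hG0 hC)
  have htX : t ≤ X := by rw [ht]; exact min_le_left _ _
  have htG : (T + 1) * t ≤ G := by
    have h5 : t ≤ G / (T + 1) := by rw [ht]; exact min_le_right _ _
    rw [le_div_iff₀ hT1] at h5
    linarith
  have h5 := h.reg_grow hC h1 (by linarith) h3 h4 ht0 (by rw [← hG]; exact htG)
  have h6 := ha (y.1 + t, y.2) (by
    rw [Prod.dist_eq, Real.dist_eq, dist_self]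
    simp only [add_sub_cancel_left]
    rw [abs_of_nonneg ht0]
    exact max_le htX hX.le)
  simp only [add_sub_cancel_left, sub_self, mul_zero, add_zero] at h6
  have h7 := (abs_le.1 h6).2
  have h8 : lam * t ≤ T * t := mul_le_mul_of_nonneg_right hl ht0
  have h9 : t ≤ ε * X := by
    have : (T + 1) * t = T * t + t := by ring
    linarith
  have h10 : t < X := by
    have : ε * X < 1 * X := mul_lt_mul_of_pos_right hε1 hX
    linarith
  have h11 : G / (T + 1) = t := by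
    rw [ht] at h10 ⊢
    rcases min_lt_iff.1 h10 with h12 | h12
    · exact absurd h12 (lt_irrefl _)
    · rw [min_eq_right h12.le]
  have h12 : G = (T + 1) * t := by
    rw [← h11]
    field_simp
  have h13 : (T + 1) * t ≤ (T + 1) * (ε * X) := mul_le_mul_of_nonneg_left h9 hC
  linarith

/-- **The backward slope of a level** at all places of the cell above the centre. -/
theorem LvR.back_cell (h : LvR R b B q₁ V A) {y : ℝ × ℝ} {T ε X lam mu lam' mu' : ℝ}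
    (h1 : b ≤ y.1) (h2 : y.1 + X ≤ B) (h3 : 0 ≤ y.2) (h4 : y.2 + X ≤ q₁) (hT : 0 ≤ T)
    (hX : 0 < X) (hε : 0 ≤ ε) (hε1 : ε < 1) (hl : lam ≤ T)
    (hm : mu ≤ T) (ha : Affn R ε y X lam mu)
    (hl' : lam' ≤ T) (ha' : Affn (reg (T + 1) b R) ε y X lam' mu') :
    ∀ y' : ℝ × ℝ, y ≤ y' → dist y' y ≤ X → ∀ κ : ℝ, 0 ≤ κ → b ≤ y'.1 - κ →
      R y' ≤ R (y'.1 - κ, y'.2) + (2 * T + 1) * κ + (T + 2) * (ε * X) := by
  intro y' hy hd κ hκ hb
  have hC : 0 ≤ T + 1 := by linarith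
  have hεX : 0 ≤ ε * X := mul_nonneg hε hX.le
  have hback := h.reg_back h1 h2 h3 (by linarith) hT hX hε1 hl' ha'
  have hd' := hd
  rw [Prod.dist_eq, Real.dist_eq, Real.dist_eq] at hd'
  have d1 := (abs_le.1 ((le_max_left _ _).trans hd')).2
  have d2 := (abs_le.1 ((le_max_right _ _).trans hd')).2
  have e1 := (abs_le.1 (ha y' hd)).2
  by_cases hc : dist (y'.1 - κ, y'.2) y ≤ X
  · have e2 := (abs_le.1 (ha (y'.1 - κ, y'.2) hc)).1
    simp only at e2
    have e3 : lam * κ ≤ T * κ := mul_le_mul_of_nonneg_right hl hκ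
    have e4 : T * κ ≤ (2 * T + 1) * κ := mul_le_mul_of_nonneg_right (by linarith) hκ
    have e5 : 2 * (ε * X) ≤ (T + 2) * (ε * X) := mul_le_mul_of_nonneg_right (by linarith) hεX
    have e6 : lam * (y'.1 - κ - y.1) = lam * (y'.1 - y.1) - lam * κ := by ring
    rw [e6] at e2
    linarith
  · have hk : X + (y'.1 - y.1) < κ := by
      by_contra hk
      push Not at hk
      refine hc ?_
      rw [Prod.dist_eq, Real.dist_eq, Real.dist_eq]
      refine max_le ?_ ((le_max_right _ _).trans hd')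
      simp only
      rw [abs_le]
      constructor <;> linarith
    have e2 := h.mono (y'.1 - κ, y.2) (y'.1 - κ, y'.2) ⟨le_rfl, hy.2⟩ hb
      (by simp only; linarith) h3 (by simp only; linarith)
    have e3 := h.reg_le' (y := y) hC (by linarith) h3 (by linarith) (w := y'.1 - κ) hb
      (by linarith)
    have e4 : lam * (y'.1 - y.1) ≤ T * (y'.1 - y.1) :=
      mul_le_mul_of_nonneg_right hl (by linarith [hy.1])
    have e5 : mu * (y'.2 - y.2) ≤ T * (y'.2 - y.2) :=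
      mul_le_mul_of_nonneg_right hm (by linarith [hy.2])
    have e6 : T * (y'.2 - y.2) ≤ T * κ := mul_le_mul_of_nonneg_left (by linarith [hy.1]) hT
    have e7 : (T + 1) * (y.1 - (y'.1 - κ)) = (T + 1) * κ - (T + 1) * (y'.1 - y.1) := by ring
    have e8 : (2 * T + 1) * κ = (T + 1) * κ + T * κ := by ring
    have e9 : (T + 2) * (ε * X) = (T + 1) * (ε * X) + ε * X := by ring
    have e10 : (T + 1) * (y'.1 - y.1) = T * (y'.1 - y.1) + (y'.1 - y.1) := by ring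
    have e11 := hy.1
    rw [e7, e10] at e3
    rw [e8, e9]
    linarith

/-! ### Joint cells with backward slopes -/

/-- **A joint cell with backward slopes.** At all places of the cell above its centre, the increase
of the levels from the left is at most `T` times the distance, up to `ε X`. -/
structure JCB {ι : Type*} (P : ℝ → ℝ → ℝ) (R : ι → ℝ × ℝ → ℝ) (Q g r ε β T : ℝ) (y : ℝ × ℝ)
    (X lamN muN : ℝ) (lam mu : ι → ℝ) : Prop
    extends JCell P R Q g r ε β T y X lamN muN lam mu where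
  win' : |y.1 - g| + X ≤ 7 / 8 * r
  bkN : ∀ y' : ℝ × ℝ, y ≤ y' → dist y' y ≤ X → ∀ κ : ℝ, 0 ≤ κ → g - 7 / 4 * r ≤ y'.1 - κ →
    Nw P y' ≤ Nw P (y'.1 - κ, y'.2) + T * κ + ε * X
  bk : ∀ j, ∀ y' : ℝ × ℝ, y ≤ y' → dist y' y ≤ X → ∀ κ : ℝ, 0 ≤ κ → g - 7 / 4 * r ≤ y'.1 - κ →
    R j y' ≤ R j (y'.1 - κ, y'.2) + T * κ + ε * X

theorem JCB.mono {ι : Type*} {P : ℝ → ℝ → ℝ} {R : ι → ℝ × ℝ → ℝ} {Q g r ε ε' β T : ℝ}
    {y : ℝ × ℝ} {X lamN muN : ℝ} {lam mu : ι → ℝ} (h : JCB P R Q g r ε β T y X lamN muN lam mu)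
    (hε : ε ≤ ε') : JCB P R Q g r ε' β T y X lamN muN lam mu where
  toJCell := h.toJCell.mono hε
  win' := h.win'
  bkN := fun y' h1 h2 κ h3 h4 => by
    have := mul_le_mul_of_nonneg_right hε h.pos.le
    linarith [h.bkN y' h1 h2 κ h3 h4]
  bk := fun j y' h1 h2 κ h3 h4 => by
    have := mul_le_mul_of_nonneg_right hε h.pos.le
    linarith [h.bk j y' h1 h2 κ h3 h4]

/-- **Cells of one threshold**: a threshold whose level increases on the box of size `r` has a cell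
(at the scale `t = 4 r`). -/
theorem cell_at2 {ι : Type*} [Fintype ι] {C ε₂ : ℝ} (hC : 0 ≤ C) (hε₂ : 0 < ε₂) :
    ∀ s : ℝ, 0 < s → ∃ T : ℝ, 0 < T ∧ ∀ ε : ℝ, 0 < ε → ∃ δ : ℝ, 0 < δ ∧
      ∀ (P' : ℝ → ℝ → ℝ) (R : ι → ℝ × ℝ → ℝ) (V : ι → ℝ) (VN Q g r t Q' : ℝ), Law P' → 0 < r →
        t = 4 * r → 8 * r < Q → 8 * r < 1 - Q → 8 * r < g → 8 * r < 1 - g → |Q' - Q| ≤ r →
        |Lv P' (Q', 0) - g| ≤ 3 / 2 * r → ε₂ * r ≤ Lv P' (Q', r) - Lv P' (Q', 0) →
        (∀ j, LvBox (R j) g (V j) C (2 * t)) →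
        (∀ y : ℝ × ℝ, g - 7 / 4 * t ≤ y.1 → y.1 ≤ g + t → 0 ≤ y.2 → y.2 ≤ t →
          |Nw P' y - VN| ≤ C * t) →
        (∃ (p : ℝ × ℝ) (X al be : ℝ), δ * t ≤ X ∧ FrCell P' Q t ε (ε₂ / 2) s p X al be) ∨
        ∃ (y : ℝ × ℝ) (X lamN muN : ℝ) (lam mu : ι → ℝ), δ * t ≤ X ∧
          JCB P' R Q g t ε (ε₂ / 2) T y X lamN muN lam mu := by
  intro s hs
  obtain ⟨C', hC'⟩ : ∃ C', C' = 8 * C := ⟨_, rfl⟩
  have hC'0 : 0 ≤ C' := by rw [hC']; positivity
  obtain ⟨s', hs'⟩ : ∃ s', s' = min s 1 := ⟨_, rfl⟩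
  have hs'0 : 0 < s' := by rw [hs']; exact lt_min hs one_pos
  have hs's : s' ≤ s := by rw [hs']; exact min_le_left _ _
  have hs'1 : s' ≤ 1 := by rw [hs']; exact min_le_right _ _
  obtain ⟨T, hT, hT1, hT2⟩ := slope_T (N := Fintype.card (Option ι × Bool)) (Nat.cast_nonneg _)
    hC'0 hs'0 hε₂
  refine ⟨2 * T + 1, by linarith, fun ε hε => ?_⟩
  obtain ⟨ε₁, hε₁⟩ : ∃ ε₁, ε₁ = min (min (s' / 16) (ε * s' ^ 2 / 32)) (ε * s' / (8 * (T + 2))) :=
    ⟨_, rfl⟩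
  have hε₁0 : 0 < ε₁ := by
    rw [hε₁]
    exact lt_min (lt_min (by positivity) (by positivity)) (by positivity)
  have hε₁1' : ε₁ ≤ s' / 16 := by
    rw [hε₁]; exact (min_le_left _ _).trans (min_le_left _ _)
  have hε₁1 : ε₁ ≤ s' / 8 := by linarith
  have hε₁l : ε₁ < 1 := by linarith
  have hε₁2 : ε₁ ≤ ε * s' ^ 2 / 32 := by
    rw [hε₁]; exact (min_le_left _ _).trans (min_le_right _ _)
  have hε₁5 : (T + 2) * ε₁ ≤ ε * s' / 8 := by
    have h1 : ε₁ ≤ ε * s' / (8 * (T + 2)) := by rw [hε₁]; exact min_le_right _ _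
    rw [le_div_iff₀ (by positivity)] at h1
    linarith
  have hss : ε * s' ^ 2 ≤ ε * s' := by
    refine mul_le_mul_of_nonneg_left ?_ hε.le
    rw [sq]
    exact mul_le_of_le_one_left hs'0.le hs'1
  have hes : 0 < ε * s' := mul_pos hε hs'0
  have hes1 : ε * s' ≤ ε * 1 := mul_le_mul_of_nonneg_left hs'1 hε.le
  have hε₁3 : ε₁ ≤ ε * s' / 8 := by linarith
  have hε₁4 : ε₁ ≤ ε := by linarith
  obtain ⟨δ, hδ, H⟩ := blowM (ι := Option ι × Bool) hε₂ hε₁0 hs'0 hT hC'0 hT2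
  refine ⟨s' / 32 * δ, by positivity, fun P' R V VN Q g r t Q' hL hr ht hQa hQb hga hgb hQ' hxg
    hinc hlv hN => ?_⟩
  have ht0 : 0 < t := by rw [ht]; linarith
  have hrt : r ≤ t := by rw [ht]; linarith
  obtain ⟨x, hx⟩ : ∃ x, x = Lv P' (Q', 0) := ⟨_, rfl⟩
  have hxg' : |x - g| ≤ 3 / 2 * r := by
    rw [hx]
    exact hxg
  have hxg2 := abs_le.1 hxg'
  -- the levels
  obtain ⟨b, hb⟩ : ∃ b, b = g - 7 / 4 * t := ⟨_, rfl⟩
  obtain ⟨L, hLd⟩ : ∃ L : Option ι → ℝ × ℝ → ℝ, L = fun o => o.elim (Nw P') R := ⟨_, rfl⟩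
  obtain ⟨VL, hVL⟩ : ∃ VL : Option ι → ℝ, VL = fun o => o.elim VN V := ⟨_, rfl⟩
  have hLv : ∀ o, LvR (L o) b (g + t) t (VL o) (2 * C * t) := by
    intro o
    have hCt : 0 ≤ C * t := mul_nonneg hC ht0.le
    cases o with
    | none =>
      rw [hLd, hVL]
      refine ⟨fun y y' h1 h2 h3 h4 h5 => ?_, fun y h1 h2 h3 h4 => ?_⟩
      · refine hL.mono ?_ ?_ ?_ h1.1 ?_ ?_
        · linarith
        · linarith
        · linarith [h1.1, h1.2]
        · linarith [h1.2]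
        · linarith
      · exact (hN y (by linarith) h2 h3 h4).trans (by linarith)
    | some j =>
      rw [hLd, hVL]
      refine (hlv j).lvR.sub ?_ ?_ ?_ ?_ <;> linarith
  obtain ⟨R', hR'⟩ : ∃ R' : Option ι × Bool → ℝ × ℝ → ℝ,
    R' = fun o => if o.2 then reg (T + 1) b (L o.1) else L o.1 := ⟨_, rfl⟩
  have hT1' : 0 ≤ T + 1 := by linarith
  have hlv' : ∀ j, LvBox (R' j) x (VL j.1) C' r := by
    rintro ⟨o, f⟩
    have h1 : LvR (R' (o, f)) b (g + t) t (VL o) (2 * C * t) := by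
      rw [hR']
      cases f
      · exact hLv o
      · exact (hLv o).rg hT1'
    refine h1.lvBox ?_ ?_ hrt ?_
    · linarith
    · linarith
    · rw [hC', ht]
      linarith
  rw [hx] at hlv'
  obtain ⟨p, X, al, be, c1, c2, c3, c4, c5, c6, c7, c8, c9, c10⟩ :=
    H (Lv P') R' (Lv_lip hL) (Lv_mono hL) Q' r (fun j => VL j.1) hr hinc hlv'
  have hX0 : 0 < X := lt_of_lt_of_le (mul_pos hδ hr) c2
  rw [← hx] at c5
  have hpQ : |p.1 - Q| ≤ 2 * r := by
    have := abs_sub_le p.1 Q' Q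
    linarith
  have hδX : s' / 32 * δ * t ≤ s' / 8 * X := by
    have h1 := mul_le_mul_of_nonneg_left c2 (show (0 : ℝ) ≤ s' / 8 by positivity)
    have h4 : s' / 32 * δ * t = s' / 8 * (δ * r) := by rw [ht]; ring
    rw [h4]
    exact h1
  have hsX : s' / 8 * X ≤ X := mul_le_of_le_one_left hX0.le (by linarith)
  have hsX0 : 0 < s' / 8 * X := by positivity
  rcases le_or_gt al s' with hal | hal
  · left
    exact ⟨p, X, al, be, hδX.trans hsX, hpQ.trans (by linarith), c3, c4.trans hrt, c6,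
      hal.trans hs's, c7, c8, c9.shrink le_rfl (mul_le_mul_of_nonneg_right hε₁4 hX0.le)⟩
  · right
    rcases c10 with c10 | c10
    · exact absurd c10 (not_le.2 hal)
    have hR0 : ∀ o, R' (o, false) = L o := fun o => by rw [hR']; rfl
    have hR1 : ∀ o, R' (o, true) = reg (T + 1) b (L o) := fun o => by rw [hR']; rfl
    have c11 : ∀ j, ∃ lam mu : ℝ, 0 ≤ lam ∧ lam ≤ T ∧ 0 ≤ mu ∧ mu ≤ T ∧
        Affn (R j) ε₁ (Lv P' p - p.2, p.2) X lam mu := by
      intro j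
      have h1 := c10 (some j, false)
      rw [hR0, hLd] at h1
      exact h1
    obtain ⟨t₁, ht₁⟩ : ∃ t₁, t₁ = 4 / 3 * r := ⟨_, rfl⟩
    have ht₁t : t₁ ≤ t := by rw [ht, ht₁]; linarith
    obtain ⟨lamN, muN, lam, mu, hJ⟩ := jcell_of hL hr ht₁ hQa hQb hga hgb hs'0 hs'1 hT1 hε₁0 hε₁1
      hε₁2 hε₁3 hX0 hpQ c3 c4 hxg' c5 hal (half_pos hε₂).le c7 c8 c9 c11
    -- the backward slopes
    have hwd := abs_le.1 (show |Lv P' p - p.2 - x| ≤ 2 * r - X by linarith)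
    have hXr : X ≤ r := by linarith
    have hback : ∀ o, ∀ y' : ℝ × ℝ, (Lv P' p - p.2, p.2) ≤ y' →
        dist y' (Lv P' p - p.2, p.2) ≤ s' / 8 * X → ∀ κ : ℝ, 0 ≤ κ → g - 7 / 4 * t ≤ y'.1 - κ →
        L o y' ≤ L o (y'.1 - κ, y'.2) + (2 * T + 1) * κ + ε * (s' / 8 * X) := by
      intro o y' h1 h2 κ h3 h4
      obtain ⟨lam₁, mu₁, m1, m2, m3, m4, m5⟩ := c10 (o, false)
      obtain ⟨lam₂, mu₂, m6, m7, m8, m9, m10⟩ := c10 (o, true)
      rw [hR0] at m5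
      rw [hR1] at m10
      have h5 := (hLv o).back_cell (y := (Lv P' p - p.2, p.2)) (by simp only; linarith)
        (by simp only; linarith) (by simp only; linarith) (by simp only; linarith) hT.le hX0
        hε₁0.le hε₁l m2 m4 m5 m7 m10 y' h1 (h2.trans hsX) κ h3 (by rw [hb]; exact h4)
      have h6 : (T + 2) * (ε₁ * X) ≤ ε * (s' / 8 * X) := by
        have := mul_le_mul_of_nonneg_right hε₁5 hX0.le
        linarith
      linarith
    refine ⟨(Lv P' p - p.2, p.2), s' / 8 * X, lamN, muN, lam, mu, hδX, ⟨?_, ?_, ?_, ?_⟩⟩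
    · exact
        { pos := hJ.pos
          row := hJ.row.trans (by linarith)
          win := hJ.win.trans (by linarith)
          dep := hJ.dep
          dep' := hJ.dep'.trans ht₁t
          aff := hJ.aff
          one := hJ.one
          gam := hJ.gam
          top := hJ.top.trans (by linarith)
          affs := hJ.affs
          lam0 := hJ.lam0
          lamT := fun j => (hJ.lamT j).trans (by linarith)
          mu0 := hJ.mu0
          muT := fun j => (hJ.muT j).trans (by linarith) }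
    · show |Lv P' p - p.2 - g| + s' / 8 * X ≤ 7 / 8 * t
      have h1 := abs_sub_le (Lv P' p - p.2) x g
      rw [ht]
      linarith
    · intro y' h1 h2 κ h3 h4
      have h5 := hback none y' h1 h2 κ h3 h4
      rw [hLd] at h5
      exact h5
    · intro j y' h1 h2 κ h3 h4
      have h5 := hback (some j) y' h1 h2 κ h3 h4
      rw [hLd] at h5
      exact h5

/-! ### The bound of the target on the box -/

/-- The diagonal threshold near a row with a positive derivative. -/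
theorem diag_bdB {P : ℝ → ℝ → ℝ} (hP : Law P) {Q g : ℝ} (hQ0 : 0 < Q) (hQ1 : Q < 1)
    (hg : g = Lv P (Q, 0)) (hg0 : 0 < g) (hg1 : g < 1)
    (hd : DifferentiableAt ℝ (fun Q => Lv P (Q, 0)) Q)
    (hpos : 0 < deriv (fun Q => Lv P (Q, 0)) Q) : ∃ C : ℝ, 0 < C ∧ ∃ r₀ : ℝ, 0 < r₀ ∧
      ∀ r : ℝ, 0 < r → r < r₀ → ∀ a : ℝ, |a - g| ≤ r → |P a a - Q| ≤ C * r := by
  obtain ⟨d, hdd⟩ : ∃ d, d = deriv (fun Q => Lv P (Q, 0)) Q := ⟨_, rfl⟩
  rw [← hdd] at hpos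
  have h1 := hd.hasDerivAt.isLittleO.def (show 0 < d / 2 by positivity)
  obtain ⟨η, hη, h2⟩ := Metric.eventually_nhds_iff.1 h1
  have key : ∀ x : ℝ, |x - Q| < η → |Lv P (x, 0) - g - d * (x - Q)| ≤ d / 2 * |x - Q| := by
    intro x hx
    have h3 := h2 (y := x) (by rw [Real.dist_eq]; exact hx)
    rw [Real.norm_eq_abs, Real.norm_eq_abs, smul_eq_mul, ← hdd, mul_comm (x - Q) d, ← hg] at h3
    exact h3
  refine ⟨4 / d, by positivity, min (min g (1 - g)) (min (d / 8 * η) (min (d / 8 * Q)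
    (d / 8 * (1 - Q)))), ?_, fun r hr hr' a ha => ?_⟩
  · refine lt_min (lt_min hg0 (by linarith)) (lt_min (by positivity) (lt_min (by positivity) ?_))
    exact mul_pos (by positivity) (by linarith)
  have m1 : r < g := hr'.trans_le ((min_le_left _ _).trans (min_le_left _ _))
  have m2 : r < 1 - g := hr'.trans_le ((min_le_left _ _).trans (min_le_right _ _))
  have m3 : r < d / 8 * η := hr'.trans_le ((min_le_right _ _).trans (min_le_left _ _))
  have m4 : r < d / 8 * Q := hr'.trans_le ((min_le_right _ _).trans ((min_le_right _ _).trans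
    (min_le_left _ _)))
  have m5 : r < d / 8 * (1 - Q) := hr'.trans_le ((min_le_right _ _).trans
    ((min_le_right _ _).trans (min_le_right _ _)))
  obtain ⟨D, hD⟩ : ∃ D, D = 4 / d * r := ⟨_, rfl⟩
  have hdD : d * D = 4 * r := by
    rw [hD]
    field_simp
  have hD0 : 0 < D := by rw [hD]; positivity
  have hDη : D < η := by
    by_contra hc
    push Not at hc
    have := mul_le_mul_of_nonneg_left hc hpos.le
    linarith
  have hDQ : D < Q := by
    by_contra hc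
    push Not at hc
    have := mul_le_mul_of_nonneg_left hc hpos.le
    linarith
  have hDQ1 : D < 1 - Q := by
    by_contra hc
    push Not at hc
    have := mul_le_mul_of_nonneg_left hc hpos.le
    linarith
  obtain ⟨ha1, ha2⟩ := abs_le.1 ha
  rw [← hD, abs_le]
  constructor
  · by_contra hc
    push Not at hc
    have h3 := key (Q - D) (by rw [sub_sub_cancel_left, abs_neg, abs_of_pos hD0]; exact hDη)
    rw [sub_sub_cancel_left, abs_neg, abs_of_pos hD0] at h3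
    have h4 := (abs_le.1 h3).2
    have h5 : cl (Q - D) ≤ P a (a - cl 0) := by
      refine le_of_lev_lt hP (cl_nonneg _) (cl_le_one _) ?_ (by linarith)
      change Lv P (Q - D, 0) < a
      have e1 : d * -D = -(4 * r) := by rw [mul_neg, hdD]
      have e2 : d / 2 * D = 2 * r := by
        rw [div_mul_eq_mul_div, hdD]
        ring
      rw [e1, e2] at h4
      linarith
    rw [cl_of_mem (by linarith) (by linarith), cl_of_mem le_rfl zero_le_one, sub_zero] at h5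
    linarith
  · by_contra hc
    push Not at hc
    have h3 := key (Q + D) (by rw [add_sub_cancel_left, abs_of_pos hD0]; exact hDη)
    rw [add_sub_cancel_left, abs_of_pos hD0] at h3
    have h4 := (abs_le.1 h3).1
    have h5 : Lv P (Q + D, 0) ≤ a := by
      refine lev_le (P := P) (Q := cl (Q + D)) (q := cl 0) ⟨?_, by linarith, Or.inl ?_⟩
      · rw [cl_of_mem le_rfl zero_le_one]
        linarith
      · rw [cl_of_mem le_rfl zero_le_one, sub_zero, cl_of_mem (by linarith) (by linarith)]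
        linarith
    have e2 : d / 2 * D = 2 * r := by
      rw [div_mul_eq_mul_div, hdD]
      ring
    rw [hdD, e2] at h4
    linarith

/-- The bound of the family on the box of the row. -/
theorem fam_bd {P P' : ℝ → ℝ → ℝ} (hP : Law P) (hL : Law P') {Q g C e t : ℝ} (ht : 0 < t)
    (hC : 0 ≤ C) (hbd : ∀ a : ℝ, |a - g| ≤ 4 * t → |P a a - Q| ≤ C * (4 * t))
    (hg0 : 2 * t < g) (hg1 : 2 * t < 1 - g) (he0 : 0 ≤ e) (he : e ≤ 1 / 8)
    (hle : ∀ a w : ℝ, g - 4 * t ≤ w → w ≤ a → a ≤ g + 4 * t → P' a w ≤ P a w)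
    (hdg : ∀ x : ℝ, |x - g| ≤ 2 * t → ∃ x' : ℝ, x ≤ x' ∧ x' ≤ x + e * t ∧
      P x' x' ≤ P' x' x' + e * t) :
    ∀ y : ℝ × ℝ, g - 7 / 4 * t ≤ y.1 → y.1 ≤ g + t → 0 ≤ y.2 → y.2 ≤ t →
      |Nw P' y - Q| ≤ (4 * C + 1) * t := by
  intro y h1 h2 h3 h4
  have het : e * t ≤ 1 / 8 * t := mul_le_mul_of_nonneg_right he ht.le
  have het0 : 0 ≤ e * t := mul_nonneg he0 ht.le
  have hCt : 0 ≤ C * t := mul_nonneg hC ht.le
  show |P' (y.1 + y.2) y.1 - Q| ≤ (4 * C + 1) * t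
  rw [abs_le]
  constructor
  · obtain ⟨x', k1, k2, k3⟩ := hdg (y.1 - e * t) (by rw [abs_le]; constructor <;> linarith)
    have k4 : P' x' x' ≤ P' (y.1 + y.2) y.1 :=
      hL.mono (by linarith) le_rfl (by linarith) (by linarith) (by linarith) (by linarith)
    have k5 := (abs_le.1 (hbd x' (by rw [abs_le]; constructor <;> linarith))).1
    linarith
  · have k1 := hle (y.1 + y.2) y.1 (by linarith) (by linarith) (by linarith)
    have k2 : P (y.1 + y.2) y.1 ≤ P (y.1 + y.2) (y.1 + y.2) :=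
      hP.mono (by linarith) (by linarith) le_rfl (by linarith) le_rfl (by linarith)
    have k3 := (abs_le.1 (hbd (y.1 + y.2) (by rw [abs_le]; constructor <;> linarith))).2
    linarith

/-! ### Families -/

/-- **Cells of families, with backward slopes.** -/
theorem cell_fam2 {ι : Type*} [Fintype ι] {P : ℝ → ℝ → ℝ} (hP : Law P) {Q g C : ℝ}
    (hQ0 : 0 < Q) (hQ1 : Q < 1) (hg : g = Lv P (Q, 0)) (hg0 : 0 < g) (hg1 : g < 1) (hC : 0 ≤ C)
    (hd : DifferentiableAt ℝ (fun Q => Lv P (Q, 0)) Q)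
    (hpos : 0 < deriv (fun Q => Lv P (Q, 0)) Q)
    (hW : ¬ WfU P Q) : ∃ β : ℝ, 0 < β ∧ ∀ s : ℝ, 0 < s → ∃ T : ℝ, 0 < T ∧ ∀ ε : ℝ, 0 < ε →
      ∃ δ : ℝ, 0 < δ ∧ ∀ (P' : ℝ → ℝ → ℝ → ℝ) (R : ℝ → ι → ℝ × ℝ → ℝ) (V : ℝ → ι → ℝ),
        FamBox P g C P' R V → FamDg P g (min (1 / 24) (β / 12)) P' →
        ∀ r₁ : ℝ, 0 < r₁ → ∃ r : ℝ, 0 < r ∧ r < r₁ ∧
        ((∃ (p : ℝ × ℝ) (X al be : ℝ), δ * r ≤ X ∧ FrCell (P' r) Q r ε β s p X al be) ∨
        ∃ (y : ℝ × ℝ) (X lamN muN : ℝ) (lam mu : ι → ℝ), δ * r ≤ X ∧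
          JCB (P' r) (R r) Q g r ε β T y X lamN muN lam mu) := by
  obtain ⟨C₀, hC₀, r₀, hr₀, hbd⟩ := diag_bdB hP hQ0 hQ1 hg hg0 hg1 hd hpos
  unfold WfU at hW
  push Not at hW
  obtain ⟨ε₀, hε₀, hW⟩ := hW
  obtain ⟨C', hC'⟩ : ∃ C', C' = max C (4 * C₀ + 1) := ⟨_, rfl⟩
  have hCC : C ≤ C' := by rw [hC']; exact le_max_left _ _
  have hCC' : 4 * C₀ + 1 ≤ C' := by rw [hC']; exact le_max_right _ _
  refine ⟨ε₀ / 4, by positivity, fun s hs => ?_⟩
  obtain ⟨T, hT, H⟩ := cell_at2 (ι := ι) (C := C') (ε₂ := ε₀ / 2) (hC.trans hCC)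
    (half_pos hε₀) s hs
  refine ⟨T, hT, fun ε hε => ?_⟩
  obtain ⟨δ, hδ, H⟩ := H ε hε
  refine ⟨δ, hδ, ?_⟩
  rintro P' R V ⟨r₂, hr₂, hbox⟩ ⟨r₃, hr₃, hdg⟩ r₁ hr₁
  obtain ⟨e, he⟩ : ∃ e, e = min (1 / 24) (ε₀ / 4 / 12) := ⟨_, rfl⟩
  rw [← he] at hdg
  have he0 : 0 < e := by rw [he]; exact lt_min (by norm_num) (by positivity)
  have he1 : e ≤ 1 / 24 := by rw [he]; exact min_le_left _ _
  have he2 : e ≤ ε₀ / 48 := by
    rw [he]
    exact (min_le_right _ _).trans (by linarith)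
  obtain ⟨ρ, hρ⟩ : ∃ ρ, ρ = min (min r₁ r₀ / 16) (min (min r₂ r₃ / 16) (min (min Q (1 - Q) / 16)
    (min g (1 - g) / 16))) := ⟨_, rfl⟩
  have hρ0 : 0 < ρ := by
    rw [hρ]
    refine lt_min ?_ (lt_min ?_ (lt_min ?_ ?_))
    · exact div_pos (lt_min hr₁ hr₀) (by norm_num)
    · exact div_pos (lt_min hr₂ hr₃) (by norm_num)
    · exact div_pos (lt_min hQ0 (by linarith)) (by norm_num)
    · exact div_pos (lt_min hg0 (by linarith)) (by norm_num)
  obtain ⟨r, hr, hrρ, Q', hQ', hgr⟩ := hW ρ hρ0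
  have m1 : 16 * r < min r₁ r₀ := by
    have : r < min r₁ r₀ / 16 := hrρ.trans_le (by rw [hρ]; exact min_le_left _ _)
    linarith
  have m2 : 16 * r < min r₂ r₃ := by
    have : r < min r₂ r₃ / 16 := hrρ.trans_le (by
      rw [hρ]; exact (min_le_right _ _).trans (min_le_left _ _))
    linarith
  have m3 : 16 * r < min Q (1 - Q) := by
    have : r < min Q (1 - Q) / 16 := hrρ.trans_le (by
      rw [hρ]; exact (min_le_right _ _).trans ((min_le_right _ _).trans (min_le_left _ _)))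
    linarith
  have m4 : 16 * r < min g (1 - g) := by
    have : r < min g (1 - g) / 16 := hrρ.trans_le (by
      rw [hρ]; exact (min_le_right _ _).trans ((min_le_right _ _).trans (min_le_right _ _)))
    linarith
  have l1 : 16 * r < r₁ := m1.trans_le (min_le_left _ _)
  have l2 : 16 * r < r₀ := m1.trans_le (min_le_right _ _)
  have l3 : 16 * r < r₂ := m2.trans_le (min_le_left _ _)
  have l4 : 16 * r < r₃ := m2.trans_le (min_le_right _ _)
  have l5 : 16 * r < Q := m3.trans_le (min_le_left _ _)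
  have l6 : 16 * r < 1 - Q := m3.trans_le (min_le_right _ _)
  have l7 : 16 * r < g := m4.trans_le (min_le_left _ _)
  have l8 : 16 * r < 1 - g := m4.trans_le (min_le_right _ _)
  obtain ⟨t, ht⟩ : ∃ t, t = 4 * r := ⟨_, rfl⟩
  obtain ⟨t₁, ht₁⟩ : ∃ t₁, t₁ = 4 / 3 * r := ⟨_, rfl⟩
  obtain ⟨e₁, he₁⟩ : ∃ e₁, e₁ = 3 * e := ⟨_, rfl⟩
  have ht0 : 0 < t := by rw [ht]; linarith
  have htt : t = 3 * t₁ := by rw [ht, ht₁]; ring
  have ht₁0 : 0 < t₁ := by rw [ht₁]; linarith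
  have hee : e₁ * t₁ = e * t := by rw [he₁, htt]; ring
  obtain ⟨hL, hle, hlv⟩ := hbox t ht0 (by rw [ht]; linarith)
  have hdg := hdg t ht0 (by rw [ht]; linarith)
  have hQa : 8 * r < Q := by linarith
  have hQb : 8 * r < 1 - Q := by linarith
  have hga : 8 * r < g := by linarith
  have hgb : 8 * r < 1 - g := by linarith
  have e1a : 0 < e₁ := by rw [he₁]; linarith
  have e1b : e₁ ≤ 1 / 8 := by rw [he₁]; linarith
  have e1c : e₁ ≤ ε₀ / 8 := by rw [he₁]; linarith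
  obtain ⟨hxg, hinc⟩ := fam_scale hP hL hQa hQb hg hga hgb hr ht₁ e1a e1b e1c hQ' hgr
    (fun a w h1 h2 h3 => hle a w (by linarith) h2 (by linarith))
    (fun x hx => by
      rw [hee]
      exact hdg x (hx.trans (by linarith)))
  have het1 : e * t ≤ 1 / 6 * r := by
    have h1 : e * t ≤ 1 / 24 * t := mul_le_mul_of_nonneg_right he1 ht0.le
    linarith
  rw [hee] at hxg
  have hCt : C * (2 * t) ≤ C' * (2 * t) := mul_le_mul_of_nonneg_right hCC (by linarith)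
  refine ⟨t, ht0, by rw [ht]; linarith, ?_⟩
  have hres := H (P' t) (R t) (V t) Q Q g r t Q' hL hr ht hQa hQb hga hgb hQ' (by linarith) hinc
    (fun j => ⟨(hlv j).mono, fun y hy => ((hlv j).bd y hy).trans hCt⟩) (by
      intro y h1 h2 h3 h4
      refine (fam_bd hP hL ht0 hC₀.le (fun a ha => hbd (4 * t) (by linarith) (by
        rw [ht]; linarith) a ha) (by rw [ht]; linarith) (by rw [ht]; linarith) he0.le
        (by linarith) hle hdg y h1 h2 h3 h4).trans ?_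
      exact mul_le_mul_of_nonneg_right hCC' ht0.le)
  have e4 : ε₀ / 2 / 2 = ε₀ / 4 := by ring
  rw [e4] at hres
  exact hres

/-! ### The box form -/

/-- **No joint cells, box form**, with backward slopes. -/
def NoJB2 {κ : Type*} {m : ℕ} (ρ : ℝ → ℝ) (PB : κ → ℝ → ℝ → ℝ) (R : κ → Fin m → ℝ × ℝ → ℝ)
    (Ad : ℝ → κ → ℝ → ℝ → ℝ → Prop) (df : κ → ℝ → ℝ → ℝ) : Prop :=
  ∀ c β T h : ℝ, 0 < c → 0 < β → 0 < T → 0 < h → ∃ ε : ℝ, 0 < ε ∧
    ∀ (k : κ) (Q g r : ℝ) (y : ℝ × ℝ) (X lamN muN : ℝ) (lam mu : Fin m → ℝ), 0 < r →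
      8 * r < g → 8 * r < 1 - g → 8 * r < Q → 8 * r < 1 - Q → Ad c k Q g r →
      JCB (PB k) (R k) Q g r ε β T y X lamN muN lam mu →
      NfB ρ h (ε * X) (Nw (PB k) y - 4 * (T + 1) * X) (Nw (PB k) y + 4 * (T + 1) * X) →
      df k g r ≤ ε * X → False

theorem NoJB.two {κ : Type*} {m : ℕ} {ρ : ℝ → ℝ} {PB : κ → ℝ → ℝ → ℝ}
    {R : κ → Fin m → ℝ × ℝ → ℝ} {Ad : ℝ → κ → ℝ → ℝ → ℝ → Prop} {df : κ → ℝ → ℝ → ℝ}
    (h : NoJB ρ PB R Ad df) : NoJB2 ρ PB R Ad df := by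
  intro c β T h' h1 h2 h3 h4
  obtain ⟨ε, hε, H⟩ := h c β T h' h1 h2 h3 h4
  exact ⟨ε, hε, fun k Q g r y X lamN muN lam mu k1 k2 k3 k4 k5 k6 k7 k8 k9 =>
    H k Q g r y X lamN muN lam mu k1 k2 k3 k4 k5 k6 k7.toJCell k8 k9⟩

/-- **The micro input from the box forms**, with backward slopes. At almost every row, for every
`e`, a selection of families, which are near the threshold `P` and have defects at most `e r`. -/
theorem micW_of_box2 {κ : Type*} {m : ℕ} {P : ℝ → ℝ → ℝ} (hP : Law P) {N : Set ℝ}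
    (hN : volume N = 0) {ρ : ℝ → ℝ} {PB : κ → ℝ → ℝ → ℝ} {R : κ → Fin m → ℝ × ℝ → ℝ}
    {Ad : ℝ → κ → ℝ → ℝ → ℝ → Prop} {df : κ → ℝ → ℝ → ℝ} (hJ : NoJB2 ρ PB R Ad df)
    (hF : NoFB ρ PB Ad df)
    (hsel : ∀ᵐ Q : ℝ, RowD P ρ Nᶜ Q → ∃ C c : ℝ, 0 ≤ C ∧ 0 < c ∧ ∀ e : ℝ, 0 < e →
      ∃ (k : ℝ → κ) (V : ℝ → Fin m → ℝ),
        FamBox P (Lv P (Q, 0)) C (fun r => PB (k r)) (fun r => R (k r)) V ∧
        FamDg P (Lv P (Q, 0)) e (fun r => PB (k r)) ∧
        ∃ r₀ : ℝ, 0 < r₀ ∧ ∀ r : ℝ, 0 < r → r < r₀ → Ad c (k r) Q (Lv P (Q, 0)) r ∧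
          df (k r) (Lv P (Q, 0)) r ≤ e * r) :
    MicW P ρ := by
  have hgm : Monotone (fun Q => Lv P (Q, 0)) := fun x y hxy => Lv_mono hP ⟨hxy, le_rfl⟩
  filter_upwards [ae_notMem_of_null hgm hN, hsel] with Q hQ hQs a1 b1 c1 d1 e1 f1 g1
  have hlt := lv_lt_one hP d1 e1
  have hrow : RowD P ρ Nᶜ Q := ⟨a1, b1, c1, hlt, hQ d1 e1, d1, e1, f1, g1⟩
  obtain ⟨C, c, hC, hc0, hsel⟩ := hQs hrow
  by_contra hW
  obtain ⟨g, hg⟩ : ∃ g, g = Lv P (Q, 0) := ⟨_, rfl⟩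
  obtain ⟨h, hh⟩ : ∃ h, h = 1 - deriv ρ Q := ⟨_, rfl⟩
  have hh0 : 0 < h := by rw [hh]; linarith [hrow.rlt]
  have hg0 := hrow.g0
  have hg1 := hrow.g1
  have hQ0 := hrow.Q0
  have hQ1 := hrow.Q1
  rw [← hg] at hg0 hg1 hsel
  obtain ⟨β, hβ, H⟩ := cell_fam2 (ι := Fin m) hP hQ0 hQ1 hg hg0 hg1 hC d1 e1 hW
  obtain ⟨s, hs, M, hM, εF, hεF, HF⟩ := hF c β h hc0 hβ hh0
  obtain ⟨T, hT, H⟩ := H s hs
  obtain ⟨εJ, hεJ, HJ⟩ := hJ c β T h hc0 hβ hT hh0
  obtain ⟨ε, hε⟩ : ∃ ε, ε = min εF εJ := ⟨_, rfl⟩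
  have hε0 : 0 < ε := by rw [hε]; exact lt_min hεF hεJ
  have hεF' : ε ≤ εF := by rw [hε]; exact min_le_left _ _
  have hεJ' : ε ≤ εJ := by rw [hε]; exact min_le_right _ _
  obtain ⟨δ, hδ, H⟩ := H ε hε0
  have hεδ : 0 < ε * δ := mul_pos hε0 hδ
  obtain ⟨e, he⟩ : ∃ e, e = min (min (1 / 24) (β / 12)) (ε * δ) := ⟨_, rfl⟩
  have he0 : 0 < e := by
    rw [he]
    exact lt_min (lt_min (by norm_num) (by positivity)) hεδ
  have he1 : e ≤ min (1 / 24) (β / 12) := by rw [he]; exact min_le_left _ _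
  have he2 : e ≤ ε * δ := by rw [he]; exact min_le_right _ _
  obtain ⟨k, V, hbox, hdg, r₀, hr₀, hdf⟩ := hsel e he0
  obtain ⟨M', hM'⟩ : ∃ M', M' = M + (3 + 4 * (T + 1)) := ⟨_, rfl⟩
  have hM'0 : 0 < M' := by rw [hM']; positivity
  obtain ⟨r₂, hr₂, hnf⟩ := nfB_of hrow.rdif hrow.rlt hh.le (η := ε * δ) (M := M') hεδ hM'0
  obtain ⟨ρ', hρ'⟩ : ∃ ρ', ρ' = min (min r₀ r₂) (min (min (g / 8) ((1 - g) / 8))
    (min (Q / 8) ((1 - Q) / 8))) := ⟨_, rfl⟩
  have hρ'0 : 0 < ρ' := by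
    rw [hρ']
    exact lt_min (lt_min hr₀ hr₂) (lt_min (lt_min (by linarith) (by linarith))
      (lt_min (by linarith) (by linarith)))
  obtain ⟨r, hr, hr', Hc⟩ := H (fun r => PB (k r)) (fun r => R (k r)) V hbox (hdg.mono he1)
    ρ' hρ'0
  have m0 := hr'.trans_le (hρ'.le.trans (min_le_left _ _))
  have m0' := hr'.trans_le (hρ'.le.trans (min_le_right _ _))
  have m1 : r < r₀ := m0.trans_le (min_le_left _ _)
  have m2 : r < r₂ := m0.trans_le (min_le_right _ _)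
  have m3 : r < g / 8 := (m0'.trans_le (min_le_left _ _)).trans_le (min_le_left _ _)
  have m4 : r < (1 - g) / 8 := (m0'.trans_le (min_le_left _ _)).trans_le (min_le_right _ _)
  have m5 : r < Q / 8 := (m0'.trans_le (min_le_right _ _)).trans_le (min_le_left _ _)
  have m6 : r < (1 - Q) / 8 := (m0'.trans_le (min_le_right _ _)).trans_le (min_le_right _ _)
  have hnf := hnf r hr m2
  obtain ⟨hAd, hdfr⟩ := hdf r hr m1
  rcases Hc with ⟨p, X, al, be, hX, hc⟩ | ⟨y, X, lamN, muN, lam, mu, hX, hc⟩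
  · have hX0 : 0 < X := (mul_pos hδ hr).trans_le hX
    have e1 : ε * δ * r ≤ εF * X := by
      have e2 : ε * (δ * r) ≤ εF * X := mul_le_mul hεF' hX (mul_pos hδ hr).le hεF.le
      linarith
    refine HF (k r) Q g r p X al be hr hX0 (by linarith) (by linarith) (by linarith)
      (by linarith) hAd (hc.mono hX0.le hεF') (fun Q₁ Q₂ h1 h2 h3 => ?_) ?_
    · have hMr : M * r ≤ M' * r := mul_le_mul_of_nonneg_right (by rw [hM']; linarith) hr.le
      exact (hnf Q₁ Q₂ (by linarith) h2 (by linarith)).trans (by linarith)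
    · have e2 : e * r ≤ ε * δ * r := mul_le_mul_of_nonneg_right he2 hr.le
      linarith
  · have hX0 : 0 < X := (mul_pos hδ hr).trans_le hX
    have e1 : ε * δ * r ≤ εJ * X := by
      have e2 : ε * (δ * r) ≤ εJ * X := mul_le_mul hεJ' hX (mul_pos hδ hr).le hεJ.le
      linarith
    have hXr : X ≤ r := by linarith [hc.dep, hc.dep']
    have hrw := abs_le.1 hc.row
    have hTX : 4 * (T + 1) * X ≤ 4 * (T + 1) * r :=
      mul_le_mul_of_nonneg_left hXr (by positivity)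
    have hMr : (3 + 4 * (T + 1)) * r ≤ M' * r :=
      mul_le_mul_of_nonneg_right (by rw [hM']; linarith) hr.le
    have hex : (3 + 4 * (T + 1)) * r = 3 * r + 4 * (T + 1) * r := by ring
    refine HJ (k r) Q g r y X lamN muN lam mu hr (by linarith) (by linarith) (by linarith)
      (by linarith) hAd (hc.mono hεJ') (fun Q₁ Q₂ h1 h2 h3 => ?_) ?_
    · exact (hnf Q₁ Q₂ (by linarith [hrw.1]) h2 (by linarith [hrw.2])).trans (by linarith)
    · have e2 : e * r ≤ ε * δ * r := mul_le_mul_of_nonneg_right he2 hr.le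
      linarith

end Pool.STR
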