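import Pool.Agent.H60.GEN.Sel
import Pool.Agent.H1.GEN.One

/-!
# The top of the micro statement

`CellN n`: for every class as in the exactness theorem, with the threshold `P` of the labels of the
last coordinate and its rate `r`, there are charts and orders (`Pool.STR.CellD`) without joint cells
and without front cells. In the proof one may pass to a subclass (`P` and `r` are also the numbers
of the subclass), and the further properties `Ad'` of the selected charts may be any statements
about the class. `mic_of`: this gives `Mic n`.
-/

set_option autoImplicit false

namespace Pool.ONE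

open Set Pool.KA Pool.GEN Pool.STR Pool.LEV Pool.ALL

/-- **Charts without cells.** -/
def CellN (n : ℕ) : Prop := LocN n fun P r => ∃ E : CellD P r, E.NoJ ∧ E.NoF

/-- **The micro statement from the cells.** -/
theorem mic_of {n : ℕ} (h : CellN n) : Mic n := by
  refine LocN.mono h fun P r h1 h2 h3 _ _ h6 => ?_
  obtain ⟨E, hJ, hF⟩ := h6
  exact E.mic h1 (fun a h0 h1' => ⟨h0.trans (h2 a a h0 le_rfl h1').1, (h2 a a h0 le_rfl h1').2⟩)
    h3 hJ hF

end Pool.ONE
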