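import Pool.Agent.H60.GEN.MicT
import Pool.Agent.H29.REC.Iso

/-!
# Two kits: the standard system and the fattest boxes

`NumK P ρ`: the numbers of a class. For every order `o` of the coordinates: the thresholds `be o j` of
the other coordinates, and the thresholds `PT o b` of the target over the order `o`, for the
standard boxes (`b = false`) and for the fattest boxes (`b = true`); `P` is the threshold of the
target over all orders, and at almost every window below nonfull rows some order is right (`hG`).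
`Gs o` are the windows at which further facts about the order `o` are known.

`NumK.two`: the data `CellD` with the orders `(o, b)`. At the windows where all diagonals of the
order have the slope one, `b = false`, and the thresholds are those of the standard system; at the
other windows `b = true`, and the thresholds of the other coordinates are those of the fattest boxes
(`Pool.RTS.iso`) over the diagonals.

`noJB2_split`, `noFB_split`: the two kinds of charts can be dealt with separately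
(`NumK.noJ_two`, `NumK.noF_two`).
-/

set_option autoImplicit false

namespace Pool.STR

open MeasureTheory Set Filter Topology Pool.LEV Pool.RTS

/-! ### Splitting of the families -/

section split

variable {κ : Type*} {κ' : Bool → Type*} {m : ℕ} {ρ : ℝ → ℝ} {PB : κ → ℝ → ℝ → ℝ}
  {R : κ → Fin m → ℝ × ℝ → ℝ} {Ad : ℝ → κ → ℝ → ℝ → ℝ → Prop} {df : κ → ℝ → ℝ → ℝ}

/-- **Two kinds of families**: no joint cells. -/
theorem noJB2_split (i : ∀ b, κ' b → κ) (hi : ∀ k, ∃ b k', i b k' = k)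
    (h : ∀ b, NoJB2 ρ (fun k => PB (i b k)) (fun k => R (i b k)) (fun c k => Ad c (i b k))
      (fun k => df (i b k))) : NoJB2 ρ PB R Ad df := by
  intro c β T h' h1 h2 h3 h4
  obtain ⟨ε, hε, H⟩ := h true c β T h' h1 h2 h3 h4
  obtain ⟨ε', hε', H'⟩ := h false c β T h' h1 h2 h3 h4
  refine ⟨min ε ε', lt_min hε hε', fun k Q g r y X lamN muN lam mu k1 k2 k3 k4 k5 k6 k7 k8 k9 => ?_⟩
  have hX := k7.pos
  obtain ⟨b, k', rfl⟩ := hi k
  have e1 : min ε ε' * X ≤ ε * X := mul_le_mul_of_nonneg_right (min_le_left _ _) hX.le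
  have e2 : min ε ε' * X ≤ ε' * X := mul_le_mul_of_nonneg_right (min_le_right _ _) hX.le
  cases b with
  | true =>
    exact H k' Q g r y X lamN muN lam mu k1 k2 k3 k4 k5 k6 (k7.mono (min_le_left _ _))
      (fun Q₁ Q₂ a1 a2 a3 => (k8 Q₁ Q₂ a1 a2 a3).trans (by linarith)) (k9.trans e1)
  | false =>
    exact H' k' Q g r y X lamN muN lam mu k1 k2 k3 k4 k5 k6 (k7.mono (min_le_right _ _))
      (fun Q₁ Q₂ a1 a2 a3 => (k8 Q₁ Q₂ a1 a2 a3).trans (by linarith)) (k9.trans e2)

/-- **Two kinds of families**: no front cells. -/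
theorem noFB_split (i : ∀ b, κ' b → κ) (hi : ∀ k, ∃ b k', i b k' = k)
    (h : ∀ b, NoFB ρ (fun k => PB (i b k)) (fun c k => Ad c (i b k)) (fun k => df (i b k))) :
    NoFB ρ PB Ad df := by
  intro c β h' h1 h2 h3
  obtain ⟨s, hs, M, hM, ε, hε, H⟩ := h true c β h' h1 h2 h3
  obtain ⟨s', hs', M', hM', ε', hε', H'⟩ := h false c β h' h1 h2 h3
  refine ⟨min s s', lt_min hs hs', max M M', lt_max_of_lt_left hM, min ε ε', lt_min hε hε',
    fun k Q g r p X al be hr hX k3 k4 k5 k6 k7 k8 k9 k10 => ?_⟩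
  obtain ⟨b, k', rfl⟩ := hi k
  have e1 : min ε ε' * X ≤ ε * X := mul_le_mul_of_nonneg_right (min_le_left _ _) hX.le
  have e2 : min ε ε' * X ≤ ε' * X := mul_le_mul_of_nonneg_right (min_le_right _ _) hX.le
  have m1 : M * r ≤ max M M' * r := mul_le_mul_of_nonneg_right (le_max_left _ _) hr.le
  have m2 : M' * r ≤ max M M' * r := mul_le_mul_of_nonneg_right (le_max_right _ _) hr.le
  have k8' : ∀ s'' : ℝ, min s s' ≤ s'' → ∀ ε'' : ℝ, min ε ε' ≤ ε'' →
      FrCell (PB (i b k')) Q r ε'' β s'' p X al be := fun s'' a1 ε'' a2 =>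
    ⟨k8.row, k8.dep, k8.dep', k8.al0, k8.als.trans a1, k8.be0, k8.sum, (k8.mono hX.le a2).aff⟩
  cases b with
  | true =>
    exact H k' Q g r p X al be hr hX k3 k4 k5 k6 k7 (k8' s (min_le_left _ _) ε (min_le_left _ _))
      (fun Q₁ Q₂ a1 a2 a3 => (k9 Q₁ Q₂ (by linarith) a2 (by linarith)).trans (by linarith))
      (k10.trans e1)
  | false =>
    exact H' k' Q g r p X al be hr hX k3 k4 k5 k6 k7
      (k8' s' (min_le_right _ _) ε' (min_le_right _ _))
      (fun Q₁ Q₂ a1 a2 a3 => (k9 Q₁ Q₂ (by linarith) a2 (by linarith)).trans (by linarith))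
      (k10.trans e2)

end split

/-! ### The numbers -/

/-- **The numbers of a class** with the threshold `P` and the rate `ρ` of the target. -/
structure NumK (P : ℝ → ℝ → ℝ) (ρ : ℝ → ℝ) where
  /-- the orders -/
  O : Type
  cO : Countable O
  /-- the number of the other coordinates -/
  m : ℕ
  /-- the thresholds of the other coordinates -/
  be : O → Fin m → ℝ → ℝ → ℝ
  /-- the thresholds of the target over the order, for the standard and for the fattest boxes -/
  PT : O → Bool → ℝ → ℝ → ℝ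
  hbe : ∀ o j, Law (be o j)
  lbe : ∀ o j (a w : ℝ), 0 ≤ w → w ≤ a → a ≤ 1 → a ≤ be o j a w ∧ be o j a w ≤ 1
  hPT : ∀ o b, Law (PT o b)
  lPT : ∀ o b (a w : ℝ), 0 ≤ w → w ≤ a → a ≤ 1 → a ≤ PT o b a w ∧ PT o b a w ≤ 1
  hle : ∀ o b, LeT (PT o b) P
  /-- the good windows of an order -/
  Gs : O → Set ℝ
  hG : ∀ᵐ g : ℝ, 0 < g → g < 1 →
    (∃ a', g < a' ∧ a' ≤ 1 ∧ ρ 1 - ρ (P a' a') < 1 - P a' a') →
      ∃ o, g ∈ Gs o ∧ ∀ b a', g < a' → a' ≤ 1 → P g g ≤ PT o b a' a'

namespace NumK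

variable {P : ℝ → ℝ → ℝ} {ρ : ℝ → ℝ} (nk : NumK P ρ)

/-- The diagonals of the other coordinates. -/
def dj (o : nk.O) (j : Fin nk.m) (a : ℝ) : ℝ := nk.be o j a a

/-- The diagonals of the target. -/
def dN (o : nk.O) (b : Bool) (a : ℝ) : ℝ := nk.PT o b a a

theorem diag_j (o : nk.O) (j : Fin nk.m) : Diag (nk.dj o j) :=
  diag_of (D := nk.be o j) (nk.hbe o j) (fun a h0 h1 => (nk.lbe o j a a h0 le_rfl h1).1)
    fun a h0 h1 => (nk.lbe o j a a h0 le_rfl h1).2

theorem diag_N (o : nk.O) (b : Bool) : Diag (nk.dN o b) :=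
  diag_of (D := nk.PT o b) (nk.hPT o b) (fun a h0 h1 => (nk.lPT o b a a h0 le_rfl h1).1)
    fun a h0 h1 => (nk.lPT o b a a h0 le_rfl h1).2

/-- **The fast windows**: the diagonal of some other coordinate has not the slope one. -/
def Fast (o : nk.O) (g : ℝ) : Prop := ∃ j, deriv (nk.dj o j) g ≠ 1

/-- The windows at which the order is right. -/
def Gd (o : nk.O) : Set ℝ :=
  {g | g ∈ nk.Gs o ∧ ∀ b a', g < a' → a' ≤ 1 → P g g ≤ nk.PT o b a' a'}

/-- The levels in the two kits. -/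
noncomputable def be2 (o : nk.O) (j : Fin nk.m) : Bool → ℝ → ℝ → ℝ
  | false => nk.be o j
  | true => iso (nk.dj o j)

/-- The windows of the two kits. -/
def G2 (o : nk.O) : Bool → Set ℝ
  | false => {g | g ∈ nk.Gd o ∧ ¬ nk.Fast o g}
  | true => {g | g ∈ nk.Gd o ∧ nk.Fast o g}

theorem law_be2 (o : nk.O) (j : Fin nk.m) (b : Bool) : Law (nk.be2 o j b) := by
  cases b with
  | false => exact nk.hbe o j
  | true => exact iso_law (nk.diag_j o j)

/-- The bounds of the levels. -/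
theorem bd_be2 (o : nk.O) (j : Fin nk.m) (b : Bool) {a w : ℝ} (h0 : 0 ≤ w) (h1 : w ≤ a)
    (h2 : a ≤ 1) : a ≤ nk.be2 o j b a w ∧ nk.be2 o j b a w ≤ 1 := by
  cases b with
  | false => exact nk.lbe o j a w h0 h1 h2
  | true => exact ⟨iso_low (nk.diag_j o j) h0 h1 h2, iso_le_one _ _ _⟩

theorem dia_be2 (o : nk.O) (j : Fin nk.m) (b : Bool) {a : ℝ} (h0 : 0 ≤ a) (h1 : a ≤ 1) :
    nk.be2 o j b a a = nk.dj o j a := by
  cases b with
  | false => rfl
  | true => exact iso_dia (nk.diag_j o j) h0 h1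

theorem G2_sub (o : nk.O) (b : Bool) : nk.G2 o b ⊆ nk.Gd o := by
  cases b with
  | false => exact fun _ h => h.1
  | true => exact fun _ h => h.1

theorem G2_good (o : nk.O) (b : Bool) : nk.G2 o b ⊆ nk.Gs o := fun _ h => (nk.G2_sub o b h).1

/-- **The data of the two kits.** The charts `α`, the properties `Ad'` of the selected charts and
the defects `df` are free. -/
noncomputable def two (α : Type) (cα : Countable α)
    (Ad' : ℝ → α × (nk.O × Bool) → ℝ → ℝ → ℝ → Prop) (df : α × (nk.O × Bool) → ℝ → ℝ → ℝ)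
    (N : Set ℝ) (hN : volume N = 0)
    (hch : ∀ᵐ Q : ℝ, RowD P ρ Nᶜ Q → ∀ o : nk.O × Bool, Lv P (Q, 0) ∈ nk.G2 o.1 o.2 →
      ∃ c : ℝ, 0 < c ∧ ∀ c' : ℝ, 0 < c' → c' ≤ c → ∀ e : ℝ, 0 < e →
        ∃ (k : ℝ → α) (r₀ : ℝ), 0 < r₀ ∧ ∀ r : ℝ, 0 < r → r < r₀ →
          Ad' c' (k r, o) Q (Lv P (Q, 0)) r ∧ df (k r, o) (Lv P (Q, 0)) r ≤ e * r) :
    CellD P ρ where
  α := α
  O := nk.O × Bool
  J := Option (Fin nk.m)
  cα := cα
  cO := by
    have := nk.cO
    infer_instance
  fJ := inferInstance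
  m := nk.m
  PB k := nk.PT k.2.1 k.2.2
  be k j := nk.be2 k.2.1 j k.2.2
  D o j := j.elim (nk.dN o.1 o.2) (nk.dj o.1)
  f _ j := some j
  G o := nk.G2 o.1 o.2
  Ad' := Ad'
  df := df
  N := N
  hPB k := nk.hPT _ _
  hle k := nk.hle _ _
  hbe k j := nk.law_be2 _ _ _
  hdia x o j a h0 h1 := nk.dia_be2 o.1 j o.2 h0 h1
  hDm o j x y h0 h1 h2 := by
    cases j with
    | none => exact (nk.diag_N o.1 o.2).mono h0 h1 h2
    | some j => exact (nk.diag_j o.1 j).mono h0 h1 h2
  hD0 o j x h0 h1 := by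
    cases j with
    | none => exact h0.trans ((nk.diag_N o.1 o.2).low h0 h1)
    | some j => exact h0.trans ((nk.diag_j o.1 j).low h0 h1)
  hD1 o j x h0 h1 := by
    cases j with
    | none => exact (nk.diag_N o.1 o.2).up h0 h1
    | some j => exact (nk.diag_j o.1 j).up h0 h1
  hG := by
    filter_upwards [nk.hG] with g hg h0 h1 h2
    obtain ⟨o, ho⟩ := hg h0 h1 h2
    by_cases h : nk.Fast o g
    · exact ⟨(o, true), ho, h⟩
    · exact ⟨(o, false), ho, h⟩
  hPG x o g hg h0 h1 a' h2 h3 := (nk.G2_sub o.1 o.2 hg).2 o.2 a' h2 h3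
  hN := hN
  hch := hch

variable {α : Type} {cα : Countable α} {Ad' : ℝ → α × (nk.O × Bool) → ℝ → ℝ → ℝ → Prop}
  {df : α × (nk.O × Bool) → ℝ → ℝ → ℝ} {N : Set ℝ} {hN : volume N = 0}
  {hch : ∀ᵐ Q : ℝ, RowD P ρ Nᶜ Q → ∀ o : nk.O × Bool, Lv P (Q, 0) ∈ nk.G2 o.1 o.2 →
      ∃ c : ℝ, 0 < c ∧ ∀ c' : ℝ, 0 < c' → c' ≤ c → ∀ e : ℝ, 0 < e →
        ∃ (k : ℝ → α) (r₀ : ℝ), 0 < r₀ ∧ ∀ r : ℝ, 0 < r → r < r₀ →
          Ad' c' (k r, o) Q (Lv P (Q, 0)) r ∧ df (k r, o) (Lv P (Q, 0)) r ≤ e * r}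

/-- **No joint cells** in the two kits. -/
theorem noJ_two
    (hA : NoJB2 ρ (fun k : α × nk.O => nk.PT k.2 false) (fun k j => Nw (nk.be k.2 j))
      (fun c k => (nk.two α cα Ad' df N hN hch).Ad c (k.1, (k.2, false)))
      (fun k => (nk.two α cα Ad' df N hN hch).dfr (k.1, (k.2, false))))
    (hB : NoJB2 ρ (fun k : α × nk.O => nk.PT k.2 true) (fun k j => Nw (iso (nk.dj k.2 j)))
      (fun c k => (nk.two α cα Ad' df N hN hch).Ad c (k.1, (k.2, true)))
      (fun k => (nk.two α cα Ad' df N hN hch).dfr (k.1, (k.2, true)))) :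
    (nk.two α cα Ad' df N hN hch).NoJ := by
  refine noJB2_split (κ' := fun _ => α × nk.O) (fun b k => (k.1, (k.2, b)))
    (fun k => ⟨k.2.2, (k.1, k.2.1), rfl⟩) fun b => ?_
  cases b with
  | false => exact hA
  | true => exact hB

/-- **No front cells** in the two kits. -/
theorem noF_two
    (hA : NoFB ρ (fun k : α × nk.O => nk.PT k.2 false)
      (fun c k => (nk.two α cα Ad' df N hN hch).Ad c (k.1, (k.2, false)))
      (fun k => (nk.two α cα Ad' df N hN hch).dfr (k.1, (k.2, false))))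
    (hB : NoFB ρ (fun k : α × nk.O => nk.PT k.2 true)
      (fun c k => (nk.two α cα Ad' df N hN hch).Ad c (k.1, (k.2, true)))
      (fun k => (nk.two α cα Ad' df N hN hch).dfr (k.1, (k.2, true)))) :
    (nk.two α cα Ad' df N hN hch).NoF := by
  refine noFB_split (κ' := fun _ => α × nk.O) (fun b k => (k.1, (k.2, b)))
    (fun k => ⟨k.2.2, (k.1, k.2.1), rfl⟩) fun b => ?_
  cases b with
  | false => exact hA
  | true => exact hB

/-- The threshold of the target is not negative. -/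
theorem nn_two (k : α × (nk.O × Bool)) (a : ℝ) (h0 : 0 ≤ a) (h1 : a ≤ 1) :
    0 ≤ (nk.two α cα Ad' df N hN hch).PB k a a :=
  h0.trans (nk.lPT k.2.1 k.2.2 a a h0 le_rfl h1).1

end NumK

end Pool.STR
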