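import Pool.Agent.H60.GEN.KpI
import Pool.Agent.H82.GEN.PlayR

/-!
# `KP m` from the open statements about one class, third form

`PkT.rwH_chg`: the windows of the nonfull rows of `rt r h` have the properties `RwH`.
`ClassJ H hTop hF h`: the exactness statements of the rows (I) and the static chains of the rows (II),
for the rows with deficit more than `h`. `kp_of_classJ`: `KP m` from `ClassM`, `ClassJ` and `TopW`.
-/

set_option autoImplicit false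

namespace Pool.PKG

open MeasureTheory Set Filter Topology
open Pool.Agent.H49.Ent Pool.Agent.H32.Dense Pool.STK Pool.KA Pool.KSAT Pool.K2S Pool.PB
open Pool.GEN Pool.S6C Pool.STAT Pool.CHT Pool.GRW Pool.ONE Pool.STA
open Pool.LBT (LSys ThrOf)
open Pool.LEV (Law Lv)
open Pool.ALL (RateOf)
open Pool.TOP (TopS)
open Pool.STR (NumI LeT CellD Rle RowD Mac TopW StaAt IsoAt ThinAt SteepAt ae_rowD ae_dia)

variable {n : ℕ} {hn : 2 ≤ n} {S : PCl n} {P : ℝ → ℝ → ℝ} {r : ℝ → ℝ}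
  {P' : ℕ → List (Fin n) × Fin n → ℝ → ℝ → ℝ} {Λ : Finset (Fin n) → Fin n → ℝ → ℝ → ℝ}
  {PB : ℕ → List (Fin n) × Fin n → ℝ → ℝ → ℝ}

/-- **The windows of the nonfull rows of `rt r h`.** -/
theorem PkT.rwH_chg (H : PkT hn S P r P' Λ PB) (hTop : TopS n) (hF : FZX (n - 1)) (h : ℝ)
    (o : Od n) : ∀ᵐ g : ℝ, ((H.nk hTop hF).chg (H.rle h) H.up).RwD o g →
      RwH H hTop hF h o g := by
  filter_upwards [NumI.rwD_chg (nk := H.nk hTop hF) (H.rle h) H.up (H.tgs.law ()) o,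
    ae_dia (H.tgs.law ()) (rt_deriv (h := h) H.rate.lip H.rate.mono)] with g h1 h2 R
  have R' := h1 R
  have hdg : (H.nk hTop hF).dg o (n - 1) = fun a => P a a := (H.nk hTop hF).dg_m o
  have hone : 1 ≤ deriv (fun a => P a a) g := by
    have h3 := R'.one (n - 1) le_rfl
    rwa [hdg] at h3
  have hdif : DifferentiableAt ℝ (fun a => P a a) g := by
    have h3 := R'.dif (n - 1) le_rfl
    rwa [hdg] at h3
  have h4 := h2 R'.g0 R'.g1 hdif (by linarith)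
  refine ⟨R', ?_⟩
  have hd := R.rlt
  rw [h4.deriv] at hd
  unfold rtd at hd
  by_contra hcon
  rw [if_pos (not_lt.1 hcon)] at hd
  exact lt_irrefl _ hd

theorem NoRE.noRr {H : PkT hn S P r P' Λ PB} {hTop : TopS n} {hF : FZX (n - 1)} {h : ℝ}
    (hR : NoRE H hTop hF h) : NoRr H hTop hF (H.rle h) := fun o => by
  filter_upwards [hR o, H.rwH_chg hTop hF h o] with g h1 h2 R
  exact h1 (h2 R)

/-- **The open statements on the strategy**: exactness in the rows (I), static chains in the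
rows (II), for the rows with deficit more than `h`. -/
structure ClassJ (H : PkT hn S P r P' Λ PB) (hTop : TopS n) (hF : FZX (n - 1)) (h : ℝ) : Prop where
  exc : ∃ W : Od n → Set ℝ, (∀ o, MeasurableSet (W o)) ∧
    (∀ o, ∀ᵐ g : ℝ, g ∈ Gs P r P' Λ o → 0 < g → g < 1 → g ∈ W o) ∧ ExcJ H hTop hF (H.rle h) W
  nor : NoRE H hTop hF h

theorem ClassJ.play {H : PkT hn S P r P' Λ PB} {hTop : TopS n} {hF : FZX (n - 1)} {h : ℝ}
    (hC : ClassJ H hTop hF h) :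
    ∃ q : ((H.nk hTop hF).chg (H.rle h) H.up).Par, NumI.Play q.cell := by
  obtain ⟨W, h1, h2, h3⟩ := hC.exc
  exact ⟨triv _, H.playX_of hTop hF (H.rle h) h1 h2 h3 hC.nor.noRr _⟩

/-- **`KP m` from the open statements about one class**, third form. -/
theorem kp_of_classJ {m : ℕ} (hm : 1 ≤ m) (η : ℕ → ℝ → ℝ) (hη : ∀ n D, 0 < D → 0 < η n D)
    (hη1 : ∀ n D, 0 < D → η n D ≤ 1)
    (hG : ∀ n : ℕ, 2 ≤ n → n ≤ m → (∀ k, 2 ≤ k → k < n → Ext0 k) →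
      ∀ (hn : 2 ≤ n) (_ : ∀ k, 1 ≤ k → k < n → FZX k) (hF : FZX (n - 1)) (hTop : TopS n)
      (D : ℝ), 0 < D → D ≤ 1 → Ext n ((1 + η n D) * D) → ∀ (S : PCl n) (P : ℝ → ℝ → ℝ)
      (r : ℝ → ℝ) (P' : ℕ → List (Fin n) × Fin n → ℝ → ℝ → ℝ)
      (Λ : Finset (Fin n) → Fin n → ℝ → ℝ → ℝ)
      (PB : ℕ → List (Fin n) × Fin n → ℝ → ℝ → ℝ) (H : PkT hn S P r P' Λ PB),
      ClassM H hTop hF ((1 - η n D) * D))
    (hR : ∀ n : ℕ, 2 ≤ n → n ≤ m → (∀ k, 2 ≤ k → k < n → Ext0 k) → LocE n (η n) MicRt →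
      ∀ (hn : 2 ≤ n) (_ : ∀ k, 1 ≤ k → k < n → FZX k) (hF : FZX (n - 1)) (hTop : TopS n)
      (D : ℝ), 0 < D → D ≤ 1 → Ext n ((1 + η n D) * D) → ∀ (S : PCl n) (P : ℝ → ℝ → ℝ)
      (r : ℝ → ℝ) (P' : ℕ → List (Fin n) × Fin n → ℝ → ℝ → ℝ)
      (Λ : Finset (Fin n) → Fin n → ℝ → ℝ → ℝ)
      (PB : ℕ → List (Fin n) × Fin n → ℝ → ℝ → ℝ) (H : PkT hn S P r P' Λ PB),
      ClassJ H hTop hF ((1 - η n D) * D))
    (hT : ∀ n, 2 ≤ n → n ≤ m → (∀ k, 2 ≤ k → k < n → Ext0 k) →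
      LocE n (η n) fun P r _ => TopW P r) : KP m := by
  have hG' := fun n h1 h2 h3 hn hZ hF hTop D d1 d2 d3 S P r P' Λ PB H =>
    (hG n h1 h2 h3 hn hZ hF hTop D d1 d2 d3 S P r P' Λ PB H).goalM
  have hR' := fun n h1 h2 h3 hM hn hZ hF hTop D d1 d2 d3 S P r P' Λ PB H =>
    (hR n h1 h2 h3 hM hn hZ hF hTop D d1 d2 d3 S P r P' Λ PB H).play
  have hC : ∀ n, 2 ≤ n → n ≤ m → (∀ k, 2 ≤ k → k < n → Ext0 k) → CellE n (η n) :=
    fun n h1 h2 h3 => cellE_ofI h3 (hG' n h1 h2 h3) (hR' n h1 h2 h3)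
  exact kp_indE hm η hη (fun n h1 h2 h3 => (hC n h1 h2 h3).mic (hη1 n))
    (fun n h1 h2 h3 => (hC n h1 h2 h3).sta (hη1 n)) fun n h1 h2 h3 =>
      jmpE_of_top (hη1 n) ((hC n h1 h2 h3).mic (hη1 n)) ((hC n h1 h2 h3).sta (hη1 n))
        (hT n h1 h2 h3)

end Pool.PKG
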