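import Pool.Agent.H39.GEN.MicW

/-!
# From a smaller threshold to a larger one

`P'` is a smaller threshold function (a restricted family of labels, e.g. the chains of one order
with restricted sides) and `P` a larger one. If the two agree on the diagonal on a set of density
one at the diagonal level of `Q`, then the diagonal levels agree near `Q` up to `o(r)`, and the
uniform freedom from the window of `P'` gives the one of `P` (`wfu_of_dns`). If the sets, one for
every order, cover almost all radii, then almost every row with a positive diagonal derivative has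
such an order (`micW_of_ord`).
-/

set_option autoImplicit false

namespace Pool.STR

open MeasureTheory Set Filter Topology Pool.LEV
open scoped ENNReal

/-- The thresholds agree on the diagonal at radii arbitrarily close to every radius near `x₀`, on
the upper side. -/
def DnsR (P P' : ℝ → ℝ → ℝ) (x₀ : ℝ) : Prop :=
  ∀ e : ℝ, 0 < e → ∃ r₁ : ℝ, 0 < r₁ ∧ ∀ r : ℝ, 0 < r → r < r₁ → ∀ x : ℝ, |x - x₀| ≤ r →
    0 ≤ x → x ≤ 1 → ∃ x' : ℝ, x ≤ x' ∧ x' ≤ x + e * r ∧ (x' ≤ 1 → P x' x' ≤ P' x' x')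

/-- `P'` is smaller than `P`. -/
def LeT (P' P : ℝ → ℝ → ℝ) : Prop := ∀ a w : ℝ, 0 < w → w ≤ a → a ≤ 1 → P' a w ≤ P a w

/-- The levels of the smaller threshold are larger. -/
theorem lv_anti {P P' : ℝ → ℝ → ℝ} (hP' : Law P') (h : LeT P' P) (p : ℝ × ℝ) :
    Lv P p ≤ Lv P' p := by
  refine le_csInf ⟨1, one_mem (cl_le_one _)⟩ ?_
  rintro a ⟨h1, h2, h3⟩
  have h0 : 0 ≤ cl p.2 := cl_nonneg _
  rcases h3 with h3 | h3
  swap
  · rw [h3]
    exact lev_le_one (cl_le_one _)
  rcases eq_or_lt_of_le h2 with h4 | h4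
  · rw [h4]
    exact lev_le_one (cl_le_one _)
  refine le_of_forall_pos_le_add fun e he => ?_
  obtain ⟨d, hd⟩ : ∃ d, d = min e (1 - a) := ⟨_, rfl⟩
  have hd0 : 0 < d := by rw [hd]; exact lt_min he (by linarith)
  have hde : d ≤ e := by rw [hd]; exact min_le_left _ _
  have hd1 : d ≤ 1 - a := by rw [hd]; exact min_le_right _ _
  refine (lev_le (P := P) (Q := cl p.1) (q := cl p.2) (a := a + d)
    ⟨by linarith, by linarith, Or.inl ?_⟩).trans (by linarith)
  exact (h3.trans (hP'.mono (by linarith) (by linarith) (by linarith) (by linarith)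
    (by linarith) (by linarith))).trans
    (h (a + d) (a + d - cl p.2) (by linarith) (by linarith) (by linarith))

/-- The diagonal levels agree near `Q`. -/
theorem lv_close {P P' : ℝ → ℝ → ℝ} (hP : Law P) {Q : ℝ} (hd : DnsR P P' (Lv P (Q, 0))) {e : ℝ}
    (he : 0 < e) : ∃ r₁ : ℝ, 0 < r₁ ∧ ∀ r : ℝ, 0 < r → r < r₁ → ∀ Q' : ℝ, |Q' - Q| ≤ r →
      Lv P' (Q', 0) ≤ Lv P (Q', 0) + e * r := by
  obtain ⟨r₁, hr₁, h1⟩ := hd (e / (4 * (1 + e))) (by positivity)
  refine ⟨r₁ / (1 + e), by positivity, fun r hr hr' Q' hQ' => ?_⟩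
  rw [lt_div_iff₀ (by positivity)] at hr'
  have her : 0 < e * r := mul_pos he hr
  have hc0 : cl 0 = 0 := cl_of_mem le_rfl zero_le_one
  have hL1 : Lv P' (Q', 0) ≤ 1 := lev_le_one (cl_le_one _)
  have h0 : 0 ≤ Lv P (Q', 0) := (cl_nonneg _).trans (le_lev (cl_le_one _))
  by_cases hx1 : 1 < Lv P (Q', 0) + e * r / 4
  · linarith
  push Not at hx1
  have h2 : |Lv P (Q', 0) - Lv P (Q, 0)| ≤ r := by
    have := (Lv_lip hP).dist_le_mul (Q', 0) (Q, 0)
    rw [NNReal.coe_one, one_mul, Real.dist_eq, Prod.dist_eq] at this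
    refine this.trans ?_
    simp only [dist_self, Real.dist_eq]
    exact max_le hQ' hr.le
  obtain ⟨x', h3, h4, h5⟩ := h1 (r * (1 + e)) (by positivity) hr' (Lv P (Q', 0) + e * r / 4)
    (by
      have : |Lv P (Q', 0) + e * r / 4 - Lv P (Q, 0)| ≤ |Lv P (Q', 0) - Lv P (Q, 0)| +
          |e * r / 4| := by
        refine le_trans (le_of_eq ?_) (abs_add_le _ _)
        ring_nf
      rw [abs_of_pos (by positivity : 0 < e * r / 4)] at this
      nlinarith) (by linarith) hx1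
  have h6 : e / (4 * (1 + e)) * (r * (1 + e)) = e * r / 4 := by
    field_simp
  rw [h6] at h4
  by_cases hx' : 1 < x'
  · linarith
  push Not at hx'
  have h7 : cl Q' ≤ P x' (x' - cl 0) := by
    refine le_of_lev_lt hP (cl_nonneg _) (cl_le_one _) ?_ hx'
    change Lv P (Q', 0) < x'
    linarith
  have h8 : Lv P' (Q', 0) ≤ x' := by
    refine lev_le (P := P') (Q := cl Q') (q := cl 0) ⟨?_, hx', Or.inl ?_⟩
    · rw [hc0]
      linarith
    · rw [hc0, sub_zero] at h7 ⊢
      exact h7.trans (h5 hx')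
  linarith

/-- **Row 390**: the freedom from the window passes to the larger threshold. -/
theorem wfu_of_dns {P P' : ℝ → ℝ → ℝ} (hP : Law P) (hP' : Law P') (hle : LeT P' P) {Q : ℝ}
    (hd : DnsR P P' (Lv P (Q, 0))) (h : WfU P' Q) : WfU P Q := by
  intro e he
  obtain ⟨r₁, hr₁, h1⟩ := h (e / 2) (half_pos he)
  obtain ⟨r₂, hr₂, h2⟩ := lv_close hP hd (half_pos he)
  refine ⟨min r₁ r₂, lt_min hr₁ hr₂, fun r hr hr' Q' hQ' => ?_⟩
  have h3 := h1 r hr (hr'.trans_le (min_le_left _ _)) Q' hQ'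
  have h4 := h2 r hr (hr'.trans_le (min_le_right _ _)) Q' hQ'
  have h5 := lv_anti hP' hle (Q', r)
  linarith

/-- At such a row the diagonal levels are equal. -/
theorem lv_eq_of_dns {P P' : ℝ → ℝ → ℝ} (hP : Law P) (hP' : Law P') (hle : LeT P' P) {Q : ℝ}
    (hd : DnsR P P' (Lv P (Q, 0))) : Lv P' (Q, 0) = Lv P (Q, 0) := by
  refine le_antisymm ?_ (lv_anti hP' hle _)
  obtain ⟨r₁, hr₁, h1⟩ := lv_close hP hd one_pos
  refine le_of_forall_pos_le_add fun e he => ?_
  have h2 : 0 < min e (r₁ / 2) := lt_min he (half_pos hr₁)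
  have h3 : min e (r₁ / 2) < r₁ := (min_le_right _ _).trans_lt (half_lt_self hr₁)
  have h4 := h1 (min e (r₁ / 2)) h2 h3 Q (by rw [sub_self, abs_zero]; exact h2.le)
  have h5 : min e (r₁ / 2) ≤ e := min_le_left _ _
  linarith

/-- At such a row the derivatives of the diagonal levels are equal. -/
theorem deriv_of_dns {P P' : ℝ → ℝ → ℝ} (hP : Law P) (hP' : Law P') (hle : LeT P' P) {Q d : ℝ}
    (hd : DnsR P P' (Lv P (Q, 0))) (h : HasDerivAt (fun Q => Lv P (Q, 0)) d Q) :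
    HasDerivAt (fun Q => Lv P' (Q, 0)) d Q := by
  have h1 : HasDerivAt (fun Q => Lv P' (Q, 0) - Lv P (Q, 0)) 0 Q := by
    rw [hasDerivAt_iff_isLittleO]
    refine Asymptotics.isLittleO_iff.2 fun c hc => ?_
    obtain ⟨r₁, hr₁, h2⟩ := lv_close hP hd hc
    refine Metric.eventually_nhds_iff.2 ⟨r₁, hr₁, fun Q' hQ' => ?_⟩
    have h3 : Lv P' (Q, 0) - Lv P (Q, 0) = 0 := sub_eq_zero.2 (lv_eq_of_dns hP hP' hle hd)
    have h4 := lv_anti hP' hle (Q', 0)
    rw [h3, sub_zero, smul_zero, sub_zero, Real.norm_eq_abs, Real.norm_eq_abs,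
      abs_of_nonneg (by linarith)]
    rcases eq_or_ne Q' Q with rfl | hne
    · rw [h3, sub_self, abs_zero, mul_zero]
    · have h5 : 0 < |Q' - Q| := abs_pos.2 (sub_ne_zero.2 hne)
      have h6 := h2 |Q' - Q| h5 (by rwa [Real.dist_eq] at hQ') Q' le_rfl
      linarith
  have h2 := h1.add h
  rw [zero_add] at h2
  refine h2.congr_of_eventuallyEq (Eventually.of_forall fun x => ?_)
  simp

/-- A point of density is good. -/
theorem dnsR_of_density {P P' : ℝ → ℝ → ℝ} {W : Set ℝ} {x₀ : ℝ} (hx₀ : 0 < x₀) (hx₀' : x₀ < 1)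
    (hW : Tendsto (fun r => volume (W ∩ Metric.closedBall x₀ r) / volume (Metric.closedBall x₀ r))
      (𝓝[>] 0) (𝓝 1)) (h : ∀ a ∈ W, 0 < a → a < 1 → P a a ≤ P' a a) : DnsR P P' x₀ := by
  intro e he
  obtain ⟨e₁, he₁, he₁0, he₁e, he₁1⟩ : ∃ e₁, e₁ = min e 1 ∧ 0 < e₁ ∧ e₁ ≤ e ∧ e₁ ≤ 1 :=
    ⟨_, rfl, lt_min he one_pos, min_le_left _ _, min_le_right _ _⟩
  have h1 : ∀ᶠ r in 𝓝[>] (0 : ℝ), ENNReal.ofReal (1 - e₁ / 4) <
      volume (W ∩ Metric.closedBall x₀ r) / volume (Metric.closedBall x₀ r) := by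
    refine hW.eventually_const_lt ?_
    rw [ENNReal.ofReal_lt_one]
    linarith
  obtain ⟨r₀, hr₀, h2⟩ := mem_nhdsGT_iff_exists_Ioo_subset.1 h1
  have hr₀' : (0 : ℝ) < r₀ := hr₀
  refine ⟨min (r₀ / 2) (min (x₀ / 2) ((1 - x₀) / 4)), lt_min (half_pos hr₀')
    (lt_min (half_pos hx₀) (by linarith)), fun r hr hr'' x hx _ _ => ?_⟩
  have hr' : r < r₀ / 2 := hr''.trans_le (min_le_left _ _)
  have hr1 : r < x₀ / 2 := hr''.trans_le ((min_le_right _ _).trans (min_le_left _ _))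
  have hr2 : r < (1 - x₀) / 4 := hr''.trans_le ((min_le_right _ _).trans (min_le_right _ _))
  have hxx := abs_le.1 hx
  have h3 := h2 (show 2 * r ∈ Ioo 0 r₀ from ⟨by linarith, by linarith⟩)
  simp only [Set.mem_ofPred_eq, Real.volume_closedBall] at h3
  by_contra hcon
  push Not at hcon
  have h4 : W ∩ Metric.closedBall x₀ (2 * r) ⊆
      Icc (x₀ - 2 * r) x ∪ Icc (x + e₁ * r) (x₀ + 2 * r) := by
    rintro y ⟨hy, hyb⟩
    rw [Metric.mem_closedBall, Real.dist_eq, abs_le] at hyb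
    by_cases hy1 : y ≤ x
    · exact Or.inl ⟨by linarith, hy1⟩
    push Not at hy1
    right
    refine ⟨?_, by linarith⟩
    by_contra hy2
    push Not at hy2
    obtain ⟨h5, h6⟩ := hcon y hy1.le
      (by nlinarith [mul_le_mul_of_nonneg_right he₁e hr.le])
    exact absurd (h y hy (by linarith [hxx.1]) (lt_of_lt_of_le hy2 (by
      have : e₁ * r ≤ 1 * r := mul_le_mul_of_nonneg_right he₁1 hr.le
      linarith [hxx.2]))) (not_le.2 h6)
  have her : e₁ * r ≤ 1 * r := mul_le_mul_of_nonneg_right he₁1 hr.le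
  have hep : 0 < e₁ * r := mul_pos he₁0 hr
  have h5 : volume (W ∩ Metric.closedBall x₀ (2 * r)) ≤
      ENNReal.ofReal ((1 - e₁ / 4) * (2 * (2 * r))) := by
    refine (measure_mono h4).trans ((measure_union_le _ _).trans ?_)
    rw [Real.volume_Icc, Real.volume_Icc, ← ENNReal.ofReal_add (by linarith) (by linarith)]
    refine ENNReal.ofReal_le_ofReal ?_
    nlinarith
  have h6 : ENNReal.ofReal (2 * (2 * r)) ≠ 0 := by
    rw [Ne, ENNReal.ofReal_eq_zero, not_le]
    linarith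
  have h7 : volume (W ∩ Metric.closedBall x₀ (2 * r)) / ENNReal.ofReal (2 * (2 * r)) ≤
      ENNReal.ofReal (1 - e₁ / 4) := by
    refine ENNReal.div_le_of_le_mul ?_
    rwa [← ENNReal.ofReal_mul (by linarith)]
  exact absurd h3 (not_lt.2 h7)

/-- **Null sets of radii carry no rows with a positive derivative.** -/
theorem ae_notMem_of_null {f : ℝ → ℝ} (hf : Monotone f) {N : Set ℝ} (hN : volume N = 0) :
    ∀ᵐ Q : ℝ, DifferentiableAt ℝ f Q → 0 < deriv f Q → f Q ∉ N := by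
  obtain ⟨N', hN', hm, h0⟩ : ∃ N', N ⊆ N' ∧ MeasurableSet N' ∧ volume N' = 0 :=
    ⟨toMeasurable volume N, subset_toMeasurable _ _, measurableSet_toMeasurable _ _, by
      rw [measure_toMeasurable, hN]⟩
  obtain ⟨s, hs⟩ : ∃ s : Set ℝ, s = {Q | DifferentiableAt ℝ f Q} ∩ ({Q | 0 < deriv f Q} ∩
    f ⁻¹' N') := ⟨_, rfl⟩
  have hsm : MeasurableSet s := by
    rw [hs]
    refine (measurableSet_of_differentiableAt ℝ f).inter ((measurableSet_lt measurable_const
      (measurable_deriv f)).inter (hf.measurable hm))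
  have hinj : InjOn f s := by
    have key : ∀ x ∈ s, ∀ y ∈ s, x < y → f x ≠ f y := by
      intro x hx y _ hxy he
      rw [hs] at hx
      obtain ⟨h1, h2, -⟩ := hx
      have h3 : HasDerivWithinAt f (deriv f x) (Ici x) x := h1.hasDerivAt.hasDerivWithinAt
      have h4 : HasDerivWithinAt f 0 (Ici x) x := by
        have h5 : HasDerivWithinAt (fun _ : ℝ => f x) 0 (Ici x) x :=
          hasDerivWithinAt_const x (Ici x) (f x)
        refine h5.congr_of_eventuallyEq ?_ rfl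
        have h6 : Icc x y ∈ 𝓝[Ici x] x := Icc_mem_nhdsGE hxy
        filter_upwards [h6] with z hz
        exact le_antisymm ((hf hz.2).trans he.ge) (hf hz.1)
      have h7 := (uniqueDiffWithinAt_Ici x).eq_deriv _ h3 h4
      have h2' : 0 < deriv f x := h2
      linarith
    intro x hx y hy he
    rcases lt_trichotomy x y with h | h | h
    · exact absurd he (key x hx y hy h)
    · exact h
    · exact absurd he.symm (key y hy x hx h)
  have h1 := lintegral_image_eq_lintegral_abs_deriv_mul hsm (f := f) (f' := deriv f)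
    (fun x hx => by
      rw [hs] at hx
      have h2 : DifferentiableAt ℝ f x := hx.1
      exact h2.hasDerivAt.hasDerivWithinAt) hinj (fun _ => 1)
  have h2 : f '' s ⊆ N' := by
    rintro _ ⟨x, hx, rfl⟩
    rw [hs] at hx
    exact hx.2.2
  rw [lintegral_const, Measure.restrict_apply_univ, measure_mono_null h2 h0, mul_zero] at h1
  have hme : Measurable fun x => ENNReal.ofReal |deriv f x| * 1 :=
    (ENNReal.measurable_ofReal.comp (measurable_deriv f).norm).mul measurable_const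
  have h3 : ∀ᵐ x ∂volume.restrict s, ENNReal.ofReal |deriv f x| * 1 = 0 :=
    (lintegral_eq_zero_iff hme).1 h1.symm
  filter_upwards [(ae_restrict_iff' hsm).1 h3] with Q hQ h4 h5 h6
  have h7 : Q ∈ s := by
    rw [hs]
    exact ⟨h4, h5, hN' h6⟩
  have h8 := hQ h7
  rw [mul_one, ENNReal.ofReal_eq_zero, abs_of_pos h5] at h8
  linarith

/-- The micro input for the threshold `P'`, for the rows whose diagonal level lies in `W`. -/
def MicOn (P' : ℝ → ℝ → ℝ) (ρ : ℝ → ℝ) (W : Set ℝ) : Prop :=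
  ∀ᵐ Q : ℝ, 0 < Q → Q < 1 → 0 < Lv P' (Q, 0) → Lv P' (Q, 0) < 1 → Lv P' (Q, 0) ∈ W →
    DifferentiableAt ℝ (fun Q => Lv P' (Q, 0)) Q → 0 < deriv (fun Q => Lv P' (Q, 0)) Q →
    DifferentiableAt ℝ ρ Q → deriv ρ Q < 1 → WfU P' Q

theorem MicW.on {P' : ℝ → ℝ → ℝ} {ρ : ℝ → ℝ} (h : MicW P' ρ) (W : Set ℝ) : MicOn P' ρ W := by
  filter_upwards [h] with Q hQ a b c _ _ d e f g
  exact hQ a b c d e f g

/-- **One order per row.** If almost every radius belongs to one of the sets `W s`, on which the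
diagonal threshold is the one of the order `s`, then the micro input of the orders gives the micro
input. -/
theorem micW_of_ord {ι : Type*} [Countable ι] {P : ℝ → ℝ → ℝ} (hP : Law P)
    {P' : ι → ℝ → ℝ → ℝ} (hP' : ∀ s, Law (P' s)) (hle : ∀ s, LeT (P' s) P) {W : ι → Set ℝ}
    (hW : ∀ᵐ a : ℝ, 0 < a → a < 1 → ∃ s, a ∈ W s)
    (hd : ∀ s, ∀ a ∈ W s, 0 < a → a < 1 → P a a ≤ P' s a a) {ρ : ℝ → ℝ}
    (hM : ∀ s, MicOn (P' s) ρ (W s)) : MicW P ρ := by
  have hgm : Monotone (fun Q => Lv P (Q, 0)) := fun x y hxy => Lv_mono hP ⟨hxy, le_rfl⟩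
  have h1 : ∀ᵐ a : ℝ, (0 < a → a < 1 → ∃ s, a ∈ W s) ∧ ∀ s, a ∈ W s →
      Tendsto (fun r => volume (W s ∩ Metric.closedBall a r) / volume (Metric.closedBall a r))
        (𝓝[>] 0) (𝓝 1) := by
    filter_upwards [hW, ae_all_iff.2 fun s =>
      ae_imp_of_ae_restrict (Besicovitch.ae_tendsto_measure_inter_div volume (W s))] with a h h'
    exact ⟨h, h'⟩
  filter_upwards [ae_notMem_of_null hgm (ae_iff.1 h1), ae_all_iff.2 hM] with Q hQ hQM a b c d e f g
  have h2 := hQ d e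
  simp only [not_not] at h2
  obtain ⟨h3, h4⟩ := h2
  have hlt : Lv P (Q, 0) < 1 := by
    refine lt_of_le_of_ne (lev_le_one (cl_le_one _)) fun he => ?_
    have h5 : HasDerivWithinAt (fun Q => Lv P (Q, 0)) (deriv (fun Q => Lv P (Q, 0)) Q) (Ici Q) Q :=
      d.hasDerivAt.hasDerivWithinAt
    have h6 : HasDerivWithinAt (fun Q => Lv P (Q, 0)) 0 (Ici Q) Q := by
      refine (hasDerivWithinAt_const Q (Ici Q) (1 : ℝ)).congr (fun z hz => ?_) he
      exact le_antisymm (lev_le_one (cl_le_one _)) (he.ge.trans (hgm hz))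
    have h7 := (uniqueDiffWithinAt_Ici Q).eq_deriv _ h5 h6
    linarith
  obtain ⟨s, hs⟩ := h3 c hlt
  have h5 : DnsR P (P' s) (Lv P (Q, 0)) := dnsR_of_density c hlt (h4 s hs) (hd s)
  have h6 := lv_eq_of_dns hP (hP' s) (hle s) h5
  have h7 := deriv_of_dns hP (hP' s) (hle s) h5 d.hasDerivAt
  refine wfu_of_dns hP (hP' s) (hle s) h5 (hQM s a b (by rw [h6]; exact c) (by rw [h6]; exact hlt)
    (by rw [h6]; exact hs) h7.differentiableAt (by rw [h7.deriv]; exact e) f g)

end Pool.STR
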