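import Pool.Agent.H39.GEN.RowC
import Pool.Agent.H60.GEN.Ord

/-!
# The micro input from cells

`micOn_of_cell`: if almost no row has a joint cell (`NoJ`) and almost no row has a front cell
(`NoF`), then almost all rows are uniformly free from the window. The other levels are monotone
functions of the window and of the depth between the values of their diagonal. For almost every row
with a positive derivative of the diagonal level the diagonals of the other levels are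
differentiable at this level; so this may be used in the proofs of `NoJ` and `NoF`.
-/

set_option autoImplicit false

namespace Pool.STR

open MeasureTheory Set Filter Topology Pool.LEV

/-- The diagonal threshold is differentiable at almost every window. -/
theorem diag_aeC {P : ℝ → ℝ → ℝ} (hP : Law P) :
    ∀ᵐ w : ℝ, 0 < w → w < 1 → DifferentiableAt ℝ (fun w => P w w) w := by
  have h1 : Monotone fun w : ℝ => P (cl w) (cl w) := fun x y hxy =>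
    hP.mono (cl_nonneg _) le_rfl (cl_mono hxy) (cl_mono hxy) le_rfl (cl_le_one _)
  filter_upwards [h1.ae_differentiableAt] with w hw h0 h1
  refine hw.congr_of_eventuallyEq ?_
  filter_upwards [Ioo_mem_nhds h0 h1] with x hx
  rw [cl_of_mem hx.1.le hx.2.le]

/-- The data of a row: nonfull, with a positive derivative of the diagonal level. -/
structure RowD (P : ℝ → ℝ → ℝ) (ρ : ℝ → ℝ) (W : Set ℝ) (Q : ℝ) : Prop where
  Q0 : 0 < Q
  Q1 : Q < 1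
  g0 : 0 < Lv P (Q, 0)
  g1 : Lv P (Q, 0) < 1
  mem : Lv P (Q, 0) ∈ W
  dif : DifferentiableAt ℝ (fun Q => Lv P (Q, 0)) Q
  dpos : 0 < deriv (fun Q => Lv P (Q, 0)) Q
  rdif : DifferentiableAt ℝ ρ Q
  rlt : deriv ρ Q < 1

/-- **A front cell** of the row `Q` at the scale `r`: the level of the target is affine on a cell
of size `X`, with a slope at most `s` in the row and at least `β` in the depth. -/
structure FrCell (P : ℝ → ℝ → ℝ) (Q r ε β s : ℝ) (p : ℝ × ℝ) (X al be : ℝ) : Prop where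
  row : |p.1 - Q| ≤ 2 * r
  dep : X ≤ p.2
  dep' : p.2 + X ≤ r
  al0 : 0 ≤ al
  als : al ≤ s
  be0 : β ≤ be
  sum : al + be ≤ 1
  aff : Affn (Lv P) ε p X al be

theorem FrCell.mono {P : ℝ → ℝ → ℝ} {Q r ε ε' β s X al be : ℝ} {p : ℝ × ℝ}
    (h : FrCell P Q r ε β s p X al be) (hX : 0 ≤ X) (hε : ε ≤ ε') :
    FrCell P Q r ε' β s p X al be :=
  ⟨h.row, h.dep, h.dep', h.al0, h.als, h.be0, h.sum,
    h.aff.shrink le_rfl (mul_le_mul_of_nonneg_right hε hX)⟩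

theorem JCell.mono {ι : Type*} {P : ℝ → ℝ → ℝ} {R : ι → ℝ × ℝ → ℝ} {Q g r ε ε' β T : ℝ}
    {y : ℝ × ℝ} {X lamN muN : ℝ} {lam mu : ι → ℝ}
    (h : JCell P R Q g r ε β T y X lamN muN lam mu) (hε : ε ≤ ε') :
    JCell P R Q g r ε' β T y X lamN muN lam mu :=
  ⟨h.pos, h.row, h.win, h.dep, h.dep',
    h.aff.shrink le_rfl (mul_le_mul_of_nonneg_right hε h.pos.le), h.one, h.gam, h.top,
    fun j => (h.affs j).shrink le_rfl (mul_le_mul_of_nonneg_right hε h.pos.le), h.lam0, h.lamT,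
    h.mu0, h.muT⟩

/-- **No joint cells**, for almost every row: the tolerance `ε` is chosen after the slopes. -/
def NoJ {ι : Type*} (P : ℝ → ℝ → ℝ) (R : ι → ℝ × ℝ → ℝ) (D : ι → ℝ → ℝ) (ρ : ℝ → ℝ)
    (W : Set ℝ) : Prop :=
  ∀ᵐ Q : ℝ, RowD P ρ W Q → (∀ j, DifferentiableAt ℝ (D j) (Lv P (Q, 0))) →
    ∀ β T : ℝ, 0 < β → 0 < T → ∃ ε : ℝ, 0 < ε ∧ ∀ δ : ℝ, 0 < δ → ∃ r₁ : ℝ, 0 < r₁ ∧
      ∀ r : ℝ, 0 < r → r < r₁ → ∀ (y : ℝ × ℝ) (X lamN muN : ℝ) (lam mu : ι → ℝ), δ * r ≤ X →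
        ¬ JCell P R Q (Lv P (Q, 0)) r ε β T y X lamN muN lam mu

/-- **No front cells**, for almost every row. -/
def NoF {ι : Type*} (P : ℝ → ℝ → ℝ) (D : ι → ℝ → ℝ) (ρ : ℝ → ℝ) (W : Set ℝ) : Prop :=
  ∀ᵐ Q : ℝ, RowD P ρ W Q → (∀ j, DifferentiableAt ℝ (D j) (Lv P (Q, 0))) →
    ∀ β : ℝ, 0 < β → ∃ s : ℝ, 0 < s ∧ ∃ ε : ℝ, 0 < ε ∧ ∀ δ : ℝ, 0 < δ → ∃ r₁ : ℝ, 0 < r₁ ∧
      ∀ r : ℝ, 0 < r → r < r₁ → ∀ (p : ℝ × ℝ) (X al be : ℝ), δ * r ≤ X →
        ¬ FrCell P Q r ε β s p X al be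

/-- The other levels: monotone functions of the window and of the depth, between the values of
their diagonal. -/
structure Levs {ι : Type*} (R : ι → ℝ × ℝ → ℝ) (D : ι → ℝ → ℝ) : Prop where
  mono : ∀ j (y y' : ℝ × ℝ), y ≤ y' → 0 ≤ y.1 → 0 ≤ y.2 → y'.1 + y'.2 ≤ 1 → R j y ≤ R j y'
  lo : ∀ j (y : ℝ × ℝ), 0 ≤ y.1 → 0 ≤ y.2 → y.1 + y.2 ≤ 1 → D j y.1 ≤ R j y
  up : ∀ j (y : ℝ × ℝ), 0 ≤ y.1 → 0 ≤ y.2 → y.1 + y.2 ≤ 1 → R j y ≤ D j (y.1 + y.2)
  dif : ∀ j, ∀ᵐ w : ℝ, 0 < w → w < 1 → DifferentiableAt ℝ (D j) w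

/-- Two-sided thresholds are such levels. -/
theorem levs_law {ι : Type*} {L : ι → ℝ → ℝ → ℝ} (h : ∀ j, Law (L j)) :
    Levs (fun j => Nw (L j)) (fun j w => L j w w) := by
  refine ⟨fun j y y' hy h0 h1 h2 => ?_, fun j y h0 h1 h2 => ?_, fun j y h0 h1 h2 => ?_,
    fun j => diag_aeC (h j)⟩
  · have c1 : y.1 ≤ y'.1 := hy.1
    have c2 : y.2 ≤ y'.2 := hy.2
    exact (h j).mono h0 (by linarith) (by linarith) c1 (by linarith) h2
  · exact (h j).mono h0 le_rfl (by linarith) le_rfl (by linarith) h2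
  · exact (h j).mono h0 (by linarith) le_rfl (by linarith) le_rfl h2

/-- **The micro input from cells.** -/
theorem micOn_of_cell {ι : Type*} [Fintype ι] {P : ℝ → ℝ → ℝ} (hP : Law P)
    {R : ι → ℝ × ℝ → ℝ} {D : ι → ℝ → ℝ} (hR : Levs R D) {ρ : ℝ → ℝ} {W : Set ℝ}
    (hJ : NoJ P R D ρ W) (hF : NoF P D ρ W) : MicOn P ρ W := by
  have hgm : Monotone (fun Q => Lv P (Q, 0)) := fun x y hxy => Lv_mono hP ⟨hxy, le_rfl⟩
  have h1 : ∀ᵐ w : ℝ, ∀ j, 0 < w → w < 1 → DifferentiableAt ℝ (D j) w := ae_all_iff.2 hR.dif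
  filter_upwards [ae_notMem_of_null hgm (ae_iff.1 h1), hJ, hF] with Q hQ hQJ hQF a b c c' c'' d e
    f g
  have h2 := hQ d e
  simp only [not_not] at h2
  have hdif : ∀ j, DifferentiableAt ℝ (D j) (Lv P (Q, 0)) := fun j => h2 j c c'
  have hrow : RowD P ρ W Q := ⟨a, b, c, c', c'', d, e, f, g⟩
  by_contra hcon
  obtain ⟨x, hx⟩ : ∃ x, x = Lv P (Q, 0) := ⟨_, rfl⟩
  rw [← hx] at hdif c c'
  -- the bound of the levels
  obtain ⟨C, hC, hbox⟩ : ∃ C : ℝ, 0 ≤ C ∧ ∃ r₀ : ℝ, 0 < r₀ ∧ ∀ r : ℝ, 0 < r → r < r₀ → ∀ j,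
      LvBox (R j) x (D j x) C r := by
    obtain ⟨r₀, hr₀⟩ : ∃ r₀, r₀ = min (x / 2) ((1 - x) / 3) := ⟨_, rfl⟩
    have k0 : 0 < r₀ := by
      rw [hr₀]
      exact lt_min (by linarith) (by linarith)
    have k1 : r₀ ≤ x / 2 := by rw [hr₀]; exact min_le_left _ _
    have k2 : r₀ ≤ (1 - x) / 3 := by rw [hr₀]; exact min_le_right _ _
    have hin : ∀ y, WBox x r₀ y → 0 ≤ y.1 ∧ 0 ≤ y.2 ∧ y.1 + y.2 ≤ 1 := by
      rintro y ⟨a1, a2, a3⟩
      rw [abs_le] at a1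
      exact ⟨by linarith [a1.1], a2, by linarith [a1.2]⟩
    have hex : ∀ j, ∃ r₁ : ℝ, 0 < r₁ ∧ ∀ r : ℝ, 0 < r → r < r₁ →
        LvBox (R j) x (D j x) (3 * (|deriv (D j) x| + 1)) r := fun j =>
      lvBox_diag k0 (hdif j).hasDerivAt
        (fun y y' hy h h' => hR.mono j y y' hy (hin y h).1 (hin y h).2.1 (hin y' h').2.2)
        (fun y h => hR.lo j y (hin y h).1 (hin y h).2.1 (hin y h).2.2)
        (fun y h => hR.up j y (hin y h).1 (hin y h).2.1 (hin y h).2.2)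
    choose r₁ hr₁ hb using hex
    obtain ⟨r₂, hr₂, hr₂'⟩ : ∃ r₂ : ℝ, 0 < r₂ ∧ ∀ j, r₂ ≤ r₁ j := by
      rcases isEmpty_or_nonempty ι with hι | hι
      · exact ⟨1, one_pos, fun j => isEmptyElim j⟩
      · obtain ⟨j₀, hj₀⟩ := Finite.exists_min r₁
        exact ⟨r₁ j₀, hr₁ j₀, hj₀⟩
    refine ⟨∑ j, 3 * (|deriv (D j) x| + 1), Finset.sum_nonneg fun j _ => by positivity, r₂, hr₂,
      fun r h0 h1 j => ?_⟩
    obtain ⟨m1, m2⟩ := hb j r h0 (h1.trans_le (hr₂' j))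
    refine ⟨m1, fun y hy => (m2 y hy).trans (mul_le_mul_of_nonneg_right ?_ h0.le)⟩
    exact Finset.single_le_sum (f := fun j => 3 * (|deriv (D j) x| + 1))
      (fun j _ => by positivity) (Finset.mem_univ j)
  obtain ⟨β, hβ, H⟩ := cell_row (V := fun j => D j x) hP a b hx c c' hC hbox hcon
  rw [hx] at hdif
  obtain ⟨s, hs, εF, hεF, HF⟩ := hQF hrow hdif β hβ
  obtain ⟨T, hT, H⟩ := H s hs
  obtain ⟨εJ, hεJ, HJ⟩ := hQJ hrow hdif β T hβ hT
  obtain ⟨δ, hδ, H⟩ := H (min εF εJ) (lt_min hεF hεJ)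
  obtain ⟨rF, hrF, HF⟩ := HF δ hδ
  obtain ⟨rJ, hrJ, HJ⟩ := HJ δ hδ
  obtain ⟨r, hr, hr', H⟩ := H (min rF rJ) (lt_min hrF hrJ)
  rcases H with ⟨p, X, al, be, k1, k2, k3, k4, k5, k6, k7, k8, k9⟩ |
    ⟨y, X, lamN, muN, lam, mu, k1, k2⟩
  · have hX : 0 ≤ X := (mul_pos hδ hr).le.trans k2
    have hc : FrCell P Q r (min εF εJ) β s p X al be := ⟨k1, k3, k4, k5, k6, k7, k8, k9⟩
    exact HF r hr (hr'.trans_le (min_le_left _ _)) p X al be k2 (hc.mono hX (min_le_left _ _))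
  · rw [hx] at k2
    exact HJ r hr (hr'.trans_le (min_le_right _ _)) y X lamN muN lam mu k1
      (k2.mono (min_le_right _ _))

/-- **The micro input from the cells of the orders.** For every order `s` the threshold `P' s` of
the chains of this order, with restricted sides, is smaller than `P`, and equal to it on the
diagonal at the radii of `W s`; almost every radius is in one of the sets `W s`. If almost no row
of `P' s` with its radius in `W s` has a joint cell or a front cell, then almost all rows of `P` are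
free from the window. -/
theorem micW_of_cell {κ : Type*} [Countable κ] {ι : κ → Type*} [∀ s, Fintype (ι s)]
    {P : ℝ → ℝ → ℝ} (hP : Law P) {P' : κ → ℝ → ℝ → ℝ} (hP' : ∀ s, Law (P' s))
    (hle : ∀ s, LeT (P' s) P) {W : κ → Set ℝ} (hW : ∀ᵐ a : ℝ, 0 < a → a < 1 → ∃ s, a ∈ W s)
    (hd : ∀ s, ∀ a ∈ W s, 0 < a → a < 1 → P a a ≤ P' s a a)
    {R : ∀ s, ι s → ℝ × ℝ → ℝ} {D : ∀ s, ι s → ℝ → ℝ} (hR : ∀ s, Levs (R s) (D s))
    {ρ : ℝ → ℝ} (hJ : ∀ s, NoJ (P' s) (R s) (D s) ρ (W s)) (hF : ∀ s, NoF (P' s) (D s) ρ (W s)) :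
    MicW P ρ :=
  micW_of_ord hP hP' hle hW hd fun s => micOn_of_cell (hP' s) (hR s) (hJ s) (hF s)

end Pool.STR
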