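import Pool.Agent.H60.GEN.TopI
import Pool.Agent.H77.STAT.StaT

/-!
# The strategy of a class at the rows of large deficit

`ae_dia`: properties of almost all rows at almost all windows where the diagonal has a positive
derivative. `NumI.plN_chg`: strategies at the windows of the rows of a larger rate.

`RwH`: the window of a row with deficit more than `h`. `GmT`: at almost all these windows there is a
strategy. `PkT.playE`: this gives `Play` for the rows with deficit more than `h`.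
`RowsTE`, `NoRE`: the statements `RowsT`, `NoR` at these windows only; `PkT.play_ofE`.
-/

set_option autoImplicit false

namespace Pool.STR

open MeasureTheory Set Filter Topology Pool.LEV Pool.RTS

/-- Properties of almost all rows, at almost all windows. -/
theorem ae_dia {P : ℝ → ℝ → ℝ} (hP : Law P) {p : ℝ → Prop} (h : ∀ᵐ Q : ℝ, p Q) :
    ∀ᵐ g : ℝ, 0 < g → g < 1 → DifferentiableAt ℝ (fun a => P a a) g →
      0 < deriv (fun a => P a a) g → p (P g g) := by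
  have hm : Monotone fun w : ℝ => P (max 0 (min w 1)) (max 0 (min w 1)) := fun x y hxy =>
    hP.mono (le_max_left _ _) le_rfl (max_le_max le_rfl (min_le_min_right 1 hxy))
      (max_le_max le_rfl (min_le_min_right 1 hxy)) le_rfl (max_le zero_le_one (min_le_right _ _))
  have hcl : ∀ x : ℝ, 0 ≤ x → x ≤ 1 → max 0 (min x 1) = x := fun x h0 h1 => by
    rw [min_eq_left h1, max_eq_right h0]
  filter_upwards [ae_notMem_of_null hm (ae_iff.1 h)] with g h1 h2 h3 h4 h5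
  have he : (fun w : ℝ => P (max 0 (min w 1)) (max 0 (min w 1))) =ᶠ[𝓝 g] fun w => P w w := by
    filter_upwards [Ioo_mem_nhds h2 h3] with x hx
    rw [hcl x hx.1.le hx.2.le]
  have h6 := h1 (h4.congr_of_eventuallyEq he) (by rw [he.deriv_eq]; exact h5)
  rw [hcl g h2.le h3.le] at h6
  simp only [not_not] at h6
  exact h6

namespace NumI

variable {P : ℝ → ℝ → ℝ} {r ρ : ℝ → ℝ} {nk : NumI P r}

/-- **The strategies for a larger rate.** -/
theorem plN_chg (h : Rle r ρ) (hP1 : ∀ a : ℝ, 0 ≤ a → a ≤ 1 → P a a ≤ 1) (hP : Law P)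
    {W : nk.O → Set ℝ} {Att : nk.O → Set (ℝ × ℝ)} (h1 : ∀ o, MeasurableSet (W o))
    (h2 : ∀ o, ∀ᵐ g : ℝ, g ∈ nk.Gs o → 0 < g → g < 1 → g ∈ W o) (h3 : ∀ o, AttN (Att o))
    (h4 : ∀ o, ∀ᵐ g : ℝ, g ∈ nk.Gs o → 0 < g → g < 1 → ∀ j, nk.D o j g < 1)
    (h5 : ∀ o, ∀ᵐ g : ℝ, nk.RwD o g → DifferentiableAt ℝ ρ (P g g) → deriv ρ (P g g) < 1 →
      GmI (fun _ : Unit => nk.Lc o) (fun _ _ _ => True) nk.m
        (fun i => nk.sg o g (i + 1)) g (W o) (fun _ => Att o)) : (nk.chg h hP1).PlN W Att := by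
  refine ⟨h1, h2, h3, h4, fun o => ?_⟩
  filter_upwards [h5 o, ae_dia hP h.lip.ae_differentiableAt_real] with g k1 k2 R
  have hone : 1 ≤ deriv (fun a => P a a) g := by
    have e1 : (nk.chg h hP1).dg o nk.m = fun a => P a a := (nk.chg h hP1).dg_m o
    have e2 := R.one nk.m le_rfl
    rwa [e1] at e2
  have hdif : DifferentiableAt ℝ (fun a => P a a) g := by
    have e1 : (nk.chg h hP1).dg o nk.m = fun a => P a a := (nk.chg h hP1).dg_m o
    have e2 := R.dif nk.m le_rfl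
    rwa [e1] at e2
  have k3 := k2 R.g0 R.g1 hdif (by linarith)
  exact k1 ⟨R.mem, R.g0, R.g1, R.val, R.dif, R.one, R.lt, k3,
    (h.deriv_le k3 R.rdif).trans_lt R.rlt⟩ R.rdif R.rlt

end NumI

end Pool.STR

namespace Pool.PKG

open MeasureTheory Set Filter Topology
open Pool.Agent.H49.Ent Pool.Agent.H32.Dense Pool.STK Pool.KA Pool.KSAT Pool.K2S Pool.PB
open Pool.GEN Pool.S6C Pool.STAT Pool.CHT Pool.GRW Pool.ONE Pool.STA
open Pool.LBT (LSys ThrOf)
open Pool.LEV (Law)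
open Pool.ALL (RateOf)
open Pool.TOP (TopS)
open Pool.RTS (iso iso_dia diag_thr Diag)
open Pool.STR (NumI LeT CellD AttN StaAt ae_dia)
open Pool.FRN (AttC UpA Wgd attN_attC)
open Pool.TRC (JatN)
open Pool.STAT.GRD (JatE)

variable {n : ℕ} {hn : 2 ≤ n} {S : PCl n} {P : ℝ → ℝ → ℝ} {r : ℝ → ℝ}
  {P' : ℕ → List (Fin n) × Fin n → ℝ → ℝ → ℝ} {Λ : Finset (Fin n) → Fin n → ℝ → ℝ → ℝ}
  {PB : ℕ → List (Fin n) × Fin n → ℝ → ℝ → ℝ}

/-- **The window of a row with deficit more than `h`.** -/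
structure RwH (H : PkT hn S P r P' Λ PB) (hTop : TopS n) (hF : FZX (n - 1)) (h : ℝ) (o : Od n)
    (g : ℝ) : Prop where
  rwd : (H.nk hTop hF).RwD o g
  defi : deriv r (P g g) < 1 - h

/-- **A strategy** at almost all windows of rows with deficit more than `h`, where `p` holds. -/
def GmT (H : PkT hn S P r P' Λ PB) (hTop : TopS n) (hF : FZX (n - 1)) (h : ℝ) (W : Od n → Set ℝ)
    (p : ℝ → Prop) : Prop :=
  ∀ o : Od n, ∀ᵐ g : ℝ, RwH H hTop hF h o g → p (deriv (fun a => P a a) g) →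
    STR.GmI (fun _ : Unit => (H.nk hTop hF).Lc o) (fun _ _ _ => True) (n - 1)
      (fun i => (H.nk hTop hF).sg o g (i + 1)) g (W o) (fun _ => AttI (P' o.2))

/-- **The strategy of a class** for the rows with deficit more than `h`. -/
theorem PkT.playE (H : PkT hn S P r P' Λ PB) (hTop : TopS n) (hF : FZX (n - 1)) {h : ℝ}
    {W : Od n → Set ℝ} (hWm : ∀ o, MeasurableSet (W o))
    (hWf : ∀ o, ∀ᵐ g : ℝ, g ∈ Gs P r P' Λ o → 0 < g → g < 1 → g ∈ W o)
    (hI : GmT H hTop hF h W fun x => x = 1) (hII : GmT H hTop hF h W fun x => 1 < x)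
    (q : ((H.nk hTop hF).chg (H.rle h) H.up).Par) : NumI.Play q.cell := by
  refine NumI.PlN.play (W := W) (Att := fun o : Od n => AttI (P' o.2)) ?_ q
  refine NumI.plN_chg (H.rle h) H.up (H.tgs.law ()) hWm hWf
    (fun o : Od n => attN_attI (H.cht o.2))
    (fun o => ?_) fun (o : Od n) => ?_
  · refine ae_of_all _ fun g hg h0 h1 j => ?_
    obtain ⟨α, Q, c, F⟩ := H.toPk.fac hTop hF hg
    have h2 := F.le j j.2 g g h0 le_rfl F.gα
    have h3 := (tht_pos o.2).trans F.thc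
    exact lt_of_le_of_lt h2 (by linarith)
  · filter_upwards [hI o, hII o, ae_dia (H.tgs.law ()) (rt_deriv (h := h) H.rate.lip H.rate.mono)]
      with g h1 h2 h3 R _ hd
    have hdg : (H.nk hTop hF).dg o (n - 1) = fun a => P a a := (H.nk hTop hF).dg_m o
    have hone : 1 ≤ deriv (fun a => P a a) g := by
      have h3 := R.one (n - 1) le_rfl
      rwa [hdg] at h3
    have hdif : DifferentiableAt ℝ (fun a => P a a) g := by
      have h3 := R.dif (n - 1) le_rfl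
      rwa [hdg] at h3
    have h4 := h3 R.g0 R.g1 hdif (by linarith)
    have h5 : deriv r (P g g) < 1 - h := by
      rw [h4.deriv] at hd
      unfold rtd at hd
      by_contra hcon
      rw [if_pos (not_lt.1 hcon)] at hd
      exact lt_irrefl _ hd
    rcases hone.eq_or_lt with h6 | h6
    · exact h1 ⟨R, h5⟩ h6.symm
    · exact h2 ⟨R, h5⟩ h6

/-- **Rows (I)** with deficit more than `h`. -/
def RowsTE (H : PkT hn S P r P' Λ PB) (hTop : TopS n) (hF : FZX (n - 1)) (h : ℝ)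
    (W : Od n → Set ℝ) : Prop :=
  ∀ o : Od n, ∀ᵐ g : ℝ, RwH H hTop hF h o g → deriv (fun a => P a a) g = 1 →
    ∀ E ρJ ρ' : ℝ, 0 < E → 0 < ρJ → 0 < ρ' → (∀ i ≤ n - 1, (H.nk hTop hF).dg o i g + E < 1) →
      JatE S (cc hn o.1.1) (n - 1) ((H.nk hTop hF).Li o) g (AttI (P' o.2)) ρJ E
        (tht o.2 * g / 8 / 2) ρ' →
      RowsI S (ee hn o) (n - 1) ((H.nk hTop hF).Li o) ((H.nk hTop hF).pst o g)
        ((H.nk hTop hF).sg o g) g (W o) (AttI (P' o.2)) ρJ E (tht o.2 * g / 8 / 2) ρ'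

/-- **No rough coordinate in the rows (II)** with deficit more than `h`. -/
def NoRE (H : PkT hn S P r P' Λ PB) (hTop : TopS n) (hF : FZX (n - 1)) (h : ℝ) : Prop :=
  ∀ o : Od n, ∀ᵐ g : ℝ, RwH H hTop hF h o g → 1 < deriv (fun a => P a a) g →
    ∀ i < n - 1, StaAt (LL hn P P' o (i + 1)) g

theorem RowsT.rowsTE {H : PkT hn S P r P' Λ PB} {hTop : TopS n} {hF : FZX (n - 1)}
    {W : Od n → Set ℝ} (hR : RowsT H hTop hF W) (h : ℝ) : RowsTE H hTop hF h W := fun o => by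
  filter_upwards [hR o] with g h1 R
  exact h1 R.rwd

theorem NoR.noRE {H : PkT hn S P r P' Λ PB} {hTop : TopS n} {hF : FZX (n - 1)}
    (hR : NoR H hTop hF) (h : ℝ) : NoRE H hTop hF h := fun o => by
  filter_upwards [hR o] with g h1 R
  exact h1 R.rwd

theorem GmT.mono_W {H : PkT hn S P r P' Λ PB} {hTop : TopS n} {hF : FZX (n - 1)} {h : ℝ}
    {W W' : Od n → Set ℝ} {p : ℝ → Prop} (hG : GmT H hTop hF h W p) (hW : ∀ o, W' o ⊆ W o) :
    GmT H hTop hF h W' p := fun o => by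
  filter_upwards [hG o] with g h1 R h2
  exact gmI_mono (h1 R h2) (hW o)

/-- **Rows (II)** from the static chains. -/
theorem NoRE.gmT {H : PkT hn S P r P' Λ PB} {hTop : TopS n} {hF : FZX (n - 1)} {h : ℝ}
    (hR : NoRE H hTop hF h) {W : Od n → Set ℝ} (hWG : ∀ o, W o ⊆ Gs P r P' Λ o)
    (hWP : ∀ o, ∀ b ∈ W o, 0 < b → b < 1 → PT hn PB o b b = P b b) :
    GmT H hTop hF h W fun x => 1 < x := by
  intro o
  filter_upwards [hR o] with g h1 R h2
  exact H.gmI_sta hTop hF R.rwd (h1 R h2) (hWG o) (hWP o)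

/-- **Rows (I)** from the rows over the fattest boxes. -/
theorem RowsTE.gmT {H : PkT hn S P r P' Λ PB} {hTop : TopS n} {hF : FZX (n - 1)} {h : ℝ}
    {W : Od n → Set ℝ} (hI : RowsTE H hTop hF h W) (hWG : ∀ o, W o ⊆ Gs P r P' Λ o)
    (hWP : ∀ o, ∀ b ∈ W o, 0 < b → b < 1 → PT hn PB o b b = P b b) :
    GmT H hTop hF h W fun x => x = 1 := by
  have hlaw := H.tgs.law ()
  have hP01 : ∀ a : ℝ, 0 ≤ a → a ≤ 1 → a ≤ P a a ∧ P a a ≤ 1 := fun a h0 h1 =>
    ⟨H.tgs.low () a a h0 le_rfl h1, H.tgs.up () a a h0 le_rfl h1⟩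
  intro o
  filter_upwards [hI o] with g h1 R' h3
  have R := R'.rwd
  have hdia : ∀ i ≤ n - 1, ∀ a, 0 ≤ a → a ≤ 1 →
      LL hn P P' o (i + 1) a a = (H.nk hTop hF).dg o i a := fun i hi a _ _ =>
    (H.dg_eq hTop hF o hi a).symm
  have hexin : ExIn S (ee hn o) (n - 1) (LL hn P P' o) (W o) := fun w hw =>
    H.toPk.exIn hF o w (hWG o hw)
  obtain ⟨α, Q, c, F⟩ := H.toPk.fac hTop hF R.mem
  obtain ⟨E, ρJ, hE, hρJ, htop, hJat⟩ := F.jatE H.toPk
  obtain ⟨E', ρ', hE', hρ', htop', hJat'⟩ := H.jatI hTop hF F hE hρJ htop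
    (hJat ρJ le_rfl)
  refine NumI.gmI_lab (H.ctx o) hexin R hdia ?_
  refine NumI.labI_one hlaw hP01 (H.ctx o) H.tmh R hdia (hWP o) h3 hρ' hE'.le htop'
    hJat' fun ρ'' hρ'' hJE => ?_
  exact h1 R' h3 E' ρ' ρ'' hE' hρ' hρ'' htop' hJE

/-- Smaller sets of windows. -/
theorem RowsTE.mono_W {H : PkT hn S P r P' Λ PB} {hTop : TopS n} {hF : FZX (n - 1)} {h : ℝ}
    {W W' : Od n → Set ℝ} (hI : RowsTE H hTop hF h W) (hW : ∀ o, W' o ⊆ W o) :
    RowsTE H hTop hF h W' := fun o => by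
  filter_upwards [hI o] with g k1 k2 k3 E ρJ ρ' k4 k5 k6 k7 k8
  exact (k1 k2 k3 E ρJ ρ' k4 k5 k6 k7 k8).mono_W (hW o)

/-- **The strategy of a class** for the rows with deficit more than `h`, from the rows (I) and the
static chains. -/
theorem PkT.play_ofE (H : PkT hn S P r P' Λ PB) (hTop : TopS n) (hF : FZX (n - 1)) {h : ℝ}
    {W : Od n → Set ℝ} (hWm : ∀ o, MeasurableSet (W o))
    (hWf : ∀ o, ∀ᵐ g : ℝ, g ∈ Gs P r P' Λ o → 0 < g → g < 1 → g ∈ W o)
    (hI : RowsTE H hTop hF h W) (hR : NoRE H hTop hF h)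
    (q : ((H.nk hTop hF).chg (H.rle h) H.up).Par) : NumI.Play q.cell := by
  obtain ⟨W', h1, h2, h3, h4, h5⟩ := H.exW hTop hF hWm hWf
  exact H.playE hTop hF h1 h2 ((hI.mono_W h3).gmT h4 h5) (hR.gmT h4 h5) q

end Pool.PKG
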