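import Pool.Agent.H60.GEN.CelE

/-!
# Static thresholds only at the windows of nonfull rows

`NumI.MacR`: the statement `MacSta` is needed only at (almost all) rows which are not full.
`NumI.rows`: the numbers with one more order, whose windows are those at which the row is full; there
nothing has to be proved. `NumI.full_rows`: the charts and orders of `FullI` with `MacR` in place of
`MacSta`. `NumI.full_rowsE`: the same for a larger rate.
-/

set_option autoImplicit false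

namespace Pool.STR

open MeasureTheory Set Filter Topology Pool.LEV Pool.RTS

namespace NumI

variable {P : ℝ → ℝ → ℝ} {ρ : ℝ → ℝ} (nk : NumI P ρ)

/-- The windows of the rows which are not full. -/
def NfW (P : ℝ → ℝ → ℝ) (ρ : ℝ → ℝ) : Set ℝ := {g | ∃ Q, RowD P ρ univ Q ∧ Lv P (Q, 0) = g}

/-- **Static thresholds at the nonfull rows** with macroscopic gain. -/
def MacR : Prop := ∀ o : nk.O, ∀ᵐ Q : ℝ, RowD P ρ univ Q → Lv P (Q, 0) ∈ nk.Gs o →
  nk.PT o (Lv P (Q, 0)) (Lv P (Q, 0)) < 1 → Mac (nk.PT o) (Lv P (Q, 0)) →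
    StaAt (nk.PT o) (Lv P (Q, 0))

/-- The diagonal of the threshold. -/
theorem diagP (hP : Law P) (hP01 : ∀ a w : ℝ, 0 ≤ w → w ≤ a → a ≤ 1 → a ≤ P a w ∧ P a w ≤ 1) :
    Diag fun a => P a a :=
  diag_of (D := P) hP (fun a h0 h1 => (hP01 a a h0 le_rfl h1).1)
    fun a h0 h1 => (hP01 a a h0 le_rfl h1).2

/-- **One more order** at the windows of the full rows. -/
noncomputable def rows (hP : Law P)
    (hP01 : ∀ a w : ℝ, 0 ≤ w → w ≤ a → a ≤ 1 → a ≤ P a w ∧ P a w ≤ 1) : NumI P ρ where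
  O := Option nk.O
  cO := by
    have := nk.cO
    infer_instance
  m := nk.m
  D o := o.elim (fun _ a => P a a) nk.D
  PT o := o.elim (iso fun a => P a a) nk.PT
  hD o j := by
    cases o with
    | none =>
      show Diag fun a => P a a
      exact diagP hP hP01
    | some o => exact nk.hD o j
  hPT o := by
    cases o with
    | none => exact iso_law (diagP hP hP01)
    | some o => exact nk.hPT o
  lPT o a w h0 h1 h2 := by
    cases o with
    | none => exact ⟨iso_low (diagP hP hP01) h0 h1 h2, iso_le_one _ _ _⟩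
    | some o => exact nk.lPT o a w h0 h1 h2
  hle o a w h0 h1 h2 := by
    cases o with
    | none => exact iso_least hP (fun _ _ _ => rfl) h0.le h1 h2
    | some o => exact nk.hle o a w h0 h1 h2
  Gs o := o.elim (NfW P ρ)ᶜ fun o => nk.Gs o ∩ NfW P ρ
  hG := by
    filter_upwards [nk.hG] with g h1 h2 h3 h4
    by_cases h5 : g ∈ NfW P ρ
    · obtain ⟨o, ho⟩ := h1 h2 h3 h4
      exact ⟨some o, ho, h5⟩
    · exact ⟨none, h5⟩
  hPG := by
    filter_upwards [nk.hPG] with g h1 o ho h2 h3 a' h4 h5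
    cases o with
    | none =>
      show P g g ≤ iso (fun a => P a a) a' a'
      rw [iso_dia (diagP hP hP01) (by linarith) h5]
      exact hP.mono h2.le le_rfl h4.le h4.le le_rfl h5
    | some o => exact h1 o ho.1 h2 h3 a' h4 h5

variable {nk} {hP : Law P}
  {hP01 : ∀ a w : ℝ, 0 ≤ w → w ≤ a → a ≤ 1 → a ≤ P a w ∧ P a w ≤ 1}

/-- **Static thresholds** at all good windows of the larger family of orders. -/
theorem macSta_rows (hM : nk.MacR) : (nk.rows hP hP01).MacSta := by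
  have hgm : Monotone (fun Q => Lv P (Q, 0)) := fun x y hxy => Lv_mono hP ⟨hxy, le_rfl⟩
  intro o
  cases o with
  | none =>
    refine ae_of_all _ fun g h0 h1 _ _ h4 h5 => ?_
    exfalso
    have h6 : iso (fun a => P a a) g g = P g g := iso_dia (diagP hP hP01) h0.le h1.le
    have h4' : P g g < 1 := by
      rw [← h6]
      exact h4
    obtain ⟨v, hv⟩ : ∃ v, v = min ((1 - g) / 2) ((1 - P g g) / 2) := ⟨_, rfl⟩
    have hv0 : 0 < v := by rw [hv]; exact lt_min (by linarith) (by linarith)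
    have hv1 : v ≤ (1 - g) / 2 := by rw [hv]; exact min_le_left _ _
    have hv2 : v ≤ (1 - P g g) / 2 := by rw [hv]; exact min_le_right _ _
    have h7 := h5 (g + v) (by linarith) (by linarith) (by
      show iso (fun a => P a a) g g + (g + v - g) < 1
      rw [h6]
      linarith)
    have h8 : iso (fun a => P a a) (g + v) g ≤ P g g + (g + v - g) := iso_le _ _ _
    have h7' : iso (fun a => P a a) g g + (g + v - g) < iso (fun a => P a a) (g + v) g := h7
    rw [h6] at h7'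
    linarith
  | some o =>
    obtain ⟨B, hB⟩ : ∃ B : Set ℝ, B = {Q | ¬ (RowD P ρ univ Q → Lv P (Q, 0) ∈ nk.Gs o →
      nk.PT o (Lv P (Q, 0)) (Lv P (Q, 0)) < 1 → Mac (nk.PT o) (Lv P (Q, 0)) →
        StaAt (nk.PT o) (Lv P (Q, 0)))} := ⟨_, rfl⟩
    have hB0 : volume B = 0 := by
      rw [hB]
      exact ae_iff.1 (hM o)
    have h1 : volume ((fun Q => Lv P (Q, 0)) ''
        {Q | Q ∈ B ∧ DifferentiableAt ℝ (fun Q => Lv P (Q, 0)) Q}) = 0 :=
      addHaar_image_eq_zero_of_differentiableOn_of_addHaar_eq_zero volume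
        (fun Q hQ => hQ.2.differentiableWithinAt)
        (measure_mono_null (fun Q hQ => hQ.1) hB0)
    filter_upwards [measure_eq_zero_iff_ae_notMem.1 h1] with g hg h2 h3 h4 h5 h6 h7
    obtain ⟨Q, hrow, rfl⟩ := h5.2
    by_contra hcon
    refine hg ⟨Q, ⟨?_, hrow.dif⟩, rfl⟩
    rw [hB]
    exact fun h8 => hcon (h8 hrow h5.1 h6 h7)

/-- Static thresholds at almost all good windows give the statement at the rows. -/
theorem MacSta.macR (hP : Law P) (hρ : LipschitzWith 1 ρ) (hM : nk.MacSta) : nk.MacR := by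
  have hgm : Monotone (fun Q => Lv P (Q, 0)) := fun x y hxy => Lv_mono hP ⟨hxy, le_rfl⟩
  intro o
  filter_upwards [ae_notMem_of_null hgm (ae_iff.1 (hM o))] with Q hQ hrow h1 h2 h3
  have h4 := hQ hrow.dif hrow.dpos
  simp only [not_not] at h4
  refine h4 hrow.g0 hrow.g1 ?_ h1 h2 h3
  -- a nonfull row above
  obtain ⟨cR, hcR, hR⟩ := adR_of hP hρ hrow
  obtain ⟨r₀, hr₀, h5⟩ := hR cR hcR le_rfl
  have hg1 := hrow.g1
  have hg0 := hrow.g0
  obtain ⟨g, hg⟩ : ∃ g, g = Lv P (Q, 0) := ⟨_, rfl⟩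
  rw [← hg] at hg0 hg1 h5 ⊢
  obtain ⟨r, hr⟩ : ∃ r, r = min (r₀ / 2) ((1 - g) / 8) := ⟨_, rfl⟩
  have hr0 : 0 < r := by rw [hr]; exact lt_min (by linarith) (by linarith)
  have hr1 : r < r₀ := by
    have : r ≤ r₀ / 2 := by rw [hr]; exact min_le_left _ _
    linarith
  have hr2 : r ≤ (1 - g) / 8 := by rw [hr]; exact min_le_right _ _
  have h2 := h5 r hr0 hr1
  have h3 := h2.row (g + r) (by rw [add_sub_cancel_left, abs_of_pos hr0]; linarith)
  have h4 := h2.pos (P (g + r) (g + r)) (by linarith)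
  exact ⟨g + r, by linarith, by linarith, by linarith⟩

namespace Par

/-- **The parameters with one more order**, whose charts have no property. -/
def rows (p : nk.Par) (hP : Law P)
    (hP01 : ∀ a w : ℝ, 0 ≤ w → w ≤ a → a ≤ 1 → a ≤ P a w ∧ P a w ≤ 1) :
    (nk.rows hP hP01).Par where
  α := p.α
  cα := p.cα
  Ad' c k Q g r := k.2.elim False fun o => p.Ad' c (k.1, o) Q g r
  df k g r := k.2.elim 0 fun o => p.df (k.1, o) g r
  N := p.N
  hN := p.hN
  hch := by
    filter_upwards [p.hch] with Q h1 h2 o ho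
    cases o with
    | none =>
      exfalso
      exact ho.1 ⟨Q, { h2 with mem := mem_univ _ }, rfl⟩
    | some o => exact h1 h2 o ⟨ho.1.1, ho.2⟩

variable {p : nk.Par}

theorem ad_rows {c : ℝ} {x : p.α} {o : nk.O} {Q g s : ℝ}
    (h1 : (p.rows hP hP01).cell.Ad c (x, some o) Q g s) : p.cell.Ad c (x, o) Q g s :=
  ⟨h1.1, h1.2.1, h1.2.2.1, ⟨h1.2.2.2.1.1.1, h1.2.2.2.1.2⟩, h1.2.2.2.2⟩

theorem ads_rows {c e : ℝ} {x : p.α} {o : nk.O} {Q g s S : ℝ}
    (h1 : (p.rows hP hP01).cell.AdS c e (x, some o) Q g s S) : p.cell.AdS c e (x, o) Q g s S :=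
  ⟨⟨ad_rows h1.ade.ad, h1.ade.e0, h1.ade.e1, h1.ade.lv, h1.ade.dg, h1.ade.sl, h1.ade.dj⟩,
    h1.val, h1.S1, h1.cS, h1.dgP, h1.dgB, h1.iso⟩

/-- **No boxes.** -/
theorem noBS_rows (hp : p.cell.NoBS) : (p.rows hP hP01).cell.NoBS := by
  intro c β δ hc hβ hδ
  obtain ⟨ε, hε, hε1, M, hM, H⟩ := hp c β δ hc hβ hδ
  refine ⟨ε, hε, hε1, M, hM, ?_⟩
  rintro ⟨x, o⟩ Q g s S k1 k2 k3 k4 k5 k6 k7 k8 k9 k10
  cases o with
  | none => exact k7.ade.ad.2.2.2.2
  | some o => exact H (x, o) Q g s S k1 k2 k3 k4 k5 k6 (ads_rows k7) k8 k9 k10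

/-- **No joint cells.** -/
theorem noJS_rows (hp : p.cell.NoJS) : (p.rows hP hP01).cell.NoJS := by
  intro c β T δ h1 h2 h3 h4
  obtain ⟨ε, hε, H⟩ := hp c β T δ h1 h2 h3 h4
  refine ⟨ε, hε, ?_⟩
  rintro ⟨⟨x, o⟩, e⟩ Q g s y X lamN muN lam mu k1 k2 k3 k4 k5 k6 k7 k8 k9
  obtain ⟨S, hS⟩ := k6
  cases o with
  | none => exact hS.ade.ad.2.2.2.2
  | some o => exact H ((x, o), e) Q g s y X lamN muN lam mu k1 k2 k3 k4 k5 ⟨S, ads_rows hS⟩ k7 k8 k9

/-- **The strategy.** -/
theorem play_rows (hq : Play p.cell) : Play (p.rows hP hP01).cell := by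
  obtain ⟨W', Att, Z, p1, p2, p3, p4, p5, p6⟩ := hq
  refine ⟨fun o => o.elim univ W', fun o x => o.elim univ fun o => Att o x, Z, fun o => ?_,
    fun o => ?_, fun o x => ?_, p4, ?_, ?_⟩
  · cases o with
    | none => exact MeasurableSet.univ
    | some o => exact p1 o
  · cases o with
    | none => exact ae_of_all _ fun g _ _ _ => mem_univ _
    | some o =>
      filter_upwards [p2 o] with g hg h
      exact hg ⟨h.1.1, h.2⟩
  · cases o with
    | none => exact fun u v _ => ae_of_all _ fun t _ _ => mem_univ _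
    | some o => exact p3 o x
  · filter_upwards [p5] with Q hQ hrow o ho j
    cases o with
    | none =>
      exfalso
      exact ho.1 ⟨Q, { hrow with mem := mem_univ _ }, rfl⟩
    | some o => exact hQ hrow o ⟨ho.1.1, ho.2⟩ j
  · filter_upwards [p6] with Q hQ hrow o c g hO hσ
    cases o with
    | none =>
      exfalso
      have h1 := hO.mem.1
      rw [hO.eq] at h1
      exact h1 ⟨Q, { hrow with mem := mem_univ _ }, rfl⟩
    | some o =>
      have hO' : p.cell.RowO W' Q o c g :=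
        ⟨hO.eq, hO.g0, hO.g1, hO.val, ⟨hO.mem.1.1, hO.mem.2⟩, hO.dns, hO.dif, hO.der, hO.difD,
          hO.c0⟩
      have h1 := hQ hrow o c g hO' hσ
      intro s
      obtain ⟨ε, hε, e, he, r₁, hr₁, K, H⟩ := h1 s
      exact ⟨ε, hε, e, he, r₁, hr₁, K, fun x r b k1 k2 k3 k4 k5 k6 k7 =>
        H x r b k1 k2 k3 ⟨ad_rows k4.1, k4.2⟩ k5 k6 k7⟩

end Par

/-- **The charts and orders of `FullI`**, with static thresholds at the nonfull rows only. -/
theorem full_rows (hP : Law P)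
    (hP01 : ∀ a w : ℝ, 0 ≤ w → w ≤ a → a ≤ 1 → a ≤ P a w ∧ P a w ≤ 1)
    (p q : nk.Par) (hJ : p.cell.NoJS ∨ p.cell.NoBS) (hq : Play q.cell) (hM : nk.MacR) :
    ∃ E' : CellD P ρ, E'.FullI :=
  Par.full hP hP01 (p.rows hP hP01) (q.rows hP hP01) (hJ.imp Par.noJS_rows Par.noBS_rows)
    (Par.play_rows hq) (macSta_rows hM)

/-- Static thresholds at the nonfull rows, for a larger rate. -/
theorem macR_chg {r : ℝ → ℝ} {nk : NumI P r} (h : Rle r ρ)
    (hP : ∀ a : ℝ, 0 ≤ a → a ≤ 1 → P a a ≤ 1) (hM : nk.MacR) : (nk.chg h hP).MacR := by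
  intro o
  filter_upwards [hM o, h.lip.ae_differentiableAt_real] with Q h1 h2 h3
  exact h1 (h.row h2 h3)

/-- **The same for a larger rate**: no boxes for the larger rate, the strategy and the static
thresholds for the rate. -/
theorem full_rowsE {r : ℝ → ℝ} {nk : NumI P r} (h : Rle r ρ)
    (hP1 : ∀ a : ℝ, 0 ≤ a → a ≤ 1 → P a a ≤ 1) (hP : Law P)
    (hP01 : ∀ a w : ℝ, 0 ≤ w → w ≤ a → a ≤ 1 → a ≤ P a w ∧ P a w ≤ 1)
    (p : (nk.chg h hP1).Par) (q : nk.Par) (hJ : p.cell.NoJS ∨ p.cell.NoBS) (hq : Play q.cell)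
    (hM : nk.MacR) : ∃ E' : CellD P ρ, E'.FullI :=
  full_rows hP hP01 p (q.chg h hP1) hJ (Par.play_chg hq) (macR_chg h hP1 hM)

end NumI

end Pool.STR
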