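import Mathlib

/-!
# Small increments on the boxes of almost every window

`ae_small_box`: monotone functions `t k` whose oscillation is at most `C 2 ^ (-k)`. At almost every
window `g` the increase of `t k` over the box of size `M 2 ^ (-k)` around `g` is at most
`e 2 ^ (-k)` for all large `k`, for every `e > 0`. (The average of the increase over all windows is
at most `2 M C 4 ^ (-k)`.) `ae_small_scale`: the same for functions `t r` which depend on a real
scale `r` and are monotone in it.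
-/

set_option autoImplicit false

namespace Pool.STR

open MeasureTheory Set Filter Topology
open scoped ENNReal

/-- The integral of the increase of a monotone function with bounded oscillation. -/
theorem integral_incr {t : ℝ → ℝ} (ht : Monotone t) {B h N : ℝ} (hB : ∀ x y, t x - t y ≤ B)
    (hh : 0 ≤ h) : ∫ g in (-N)..N, (t (g + h) - t (g - h)) ≤ 2 * h * B := by
  have hi : ∀ a b, IntervalIntegrable t volume a b := fun a b => ht.intervalIntegrable
  have hi1 : IntervalIntegrable (fun g => t (g + h)) volume (-N) N :=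
    Monotone.intervalIntegrable fun x y hxy => ht (by linarith)
  have hi2 : IntervalIntegrable (fun g => t (g - h)) volume (-N) N :=
    Monotone.intervalIntegrable fun x y hxy => ht (by linarith)
  rw [intervalIntegral.integral_sub hi1 hi2, intervalIntegral.integral_comp_add_right,
    intervalIntegral.integral_comp_sub_right,
    intervalIntegral.integral_interval_sub_interval_comm' (hi _ _) (hi _ _) (hi _ _)]
  have h2 : (∫ x in (N - h)..(N + h), t x) ≤ ∫ _ in (N - h)..(N + h), (t (-N - h) + B) := by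
    refine intervalIntegral.integral_mono_on (by linarith) (hi _ _)
      intervalIntegrable_const fun x _ => ?_
    have := hB x (-N - h)
    linarith
  have h3 : (∫ _ in (-N - h)..(-N + h), t (-N - h)) ≤ ∫ x in (-N - h)..(-N + h), t x := by
    refine intervalIntegral.integral_mono_on (by linarith) intervalIntegrable_const
      (hi _ _) fun x hx => ht hx.1
  rw [intervalIntegral.integral_const, smul_eq_mul] at h2 h3
  linarith

/-- The windows with a large increase. -/
theorem volume_incr {t : ℝ → ℝ} (ht : Monotone t) {B h N e : ℝ} (hB : ∀ x y, t x - t y ≤ B)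
    (hh : 0 ≤ h) (hN : 0 ≤ N) (he : 0 < e) :
    volume {g : ℝ | g ∈ Ioc (-N) N ∧ e ≤ t (g + h) - t (g - h)} ≤
      ENNReal.ofReal (2 * h * B / e) := by
  have hmeas : Measurable fun g => t (g + h) - t (g - h) :=
    (ht.measurable.comp (measurable_id.add_const h)).sub
      (ht.measurable.comp (measurable_id.sub_const h))
  have hnn : ∀ g, 0 ≤ t (g + h) - t (g - h) := fun g => sub_nonneg.2 (ht (by linarith))
  have hi1 : IntervalIntegrable (fun g => t (g + h)) volume (-N) N :=
    Monotone.intervalIntegrable fun x y hxy => ht (by linarith)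
  have hi2 : IntervalIntegrable (fun g => t (g - h)) volume (-N) N :=
    Monotone.intervalIntegrable fun x y hxy => ht (by linarith)
  have hi : Integrable (fun g => t (g + h) - t (g - h)) (volume.restrict (Ioc (-N) N)) :=
    (intervalIntegrable_iff_integrableOn_Ioc_of_le (by linarith)).1 (hi1.sub hi2)
  have h1 := mul_meas_ge_le_integral_of_nonneg (μ := volume.restrict (Ioc (-N) N))
    (Eventually.of_forall hnn) hi e
  have h2 := integral_incr ht (N := N) hB hh
  rw [intervalIntegral.integral_of_le (by linarith)] at h2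
  have h3 : (volume.restrict (Ioc (-N) N)) {x | e ≤ t (x + h) - t (x - h)} =
      volume {g : ℝ | g ∈ Ioc (-N) N ∧ e ≤ t (g + h) - t (g - h)} := by
    rw [Measure.restrict_apply (measurableSet_le measurable_const hmeas), inter_comm]
    rfl
  have hfin : volume {g : ℝ | g ∈ Ioc (-N) N ∧ e ≤ t (g + h) - t (g - h)} ≠ ∞ := by
    refine ne_top_of_le_ne_top ?_ (measure_mono fun g hg => hg.1)
    exact measure_Ioc_lt_top.ne
  rw [measureReal_def, h3] at h1
  rw [← ENNReal.ofReal_toReal hfin]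
  refine ENNReal.ofReal_le_ofReal ?_
  rw [le_div_iff₀ he]
  linarith

/-- **Small increments.** -/
theorem ae_small_box {t : ℕ → ℝ → ℝ} (ht : ∀ k, Monotone (t k)) {C M : ℝ} (hC : 0 ≤ C)
    (hM : 0 ≤ M) (hB : ∀ k x y, t k x - t k y ≤ C * (1 / 2) ^ k) :
    ∀ᵐ g : ℝ, ∀ e : ℝ, 0 < e → ∀ᶠ k : ℕ in atTop,
      t k (g + M * (1 / 2) ^ k) - t k (g - M * (1 / 2) ^ k) ≤ e * (1 / 2) ^ k := by
  have key : ∀ N j : ℕ, ∀ᵐ g : ℝ, ∀ᶠ k : ℕ in atTop, g ∉ {g : ℝ | g ∈ Ioc (-(N : ℝ)) N ∧
      1 / ((j : ℝ) + 1) * (1 / 2) ^ k ≤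
        t k (g + M * (1 / 2) ^ k) - t k (g - M * (1 / 2) ^ k)} := by
    intro N j
    refine ae_eventually_notMem ?_
    have h1 : ∀ k : ℕ, volume {g : ℝ | g ∈ Ioc (-(N : ℝ)) N ∧ 1 / ((j : ℝ) + 1) * (1 / 2) ^ k ≤
        t k (g + M * (1 / 2) ^ k) - t k (g - M * (1 / 2) ^ k)} ≤
        ENNReal.ofReal (2 * M * C * ((j : ℝ) + 1) * (1 / 2) ^ k) := by
      intro k
      have hp : (0 : ℝ) < (1 / 2) ^ k := by positivity
      have h2 := volume_incr (ht k) (hB k) (h := M * (1 / 2) ^ k) (N := N) (by positivity)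
        (Nat.cast_nonneg N) (e := 1 / ((j : ℝ) + 1) * (1 / 2) ^ k) (by positivity)
      refine h2.trans (ENNReal.ofReal_le_ofReal (le_of_eq ?_))
      field_simp
    refine ne_top_of_le_ne_top ?_ (ENNReal.tsum_le_tsum h1)
    rw [← ENNReal.ofReal_tsum_of_nonneg (fun k => by positivity)
      ((summable_geometric_of_lt_one (by norm_num) (by norm_num)).mul_left _)]
    exact ENNReal.ofReal_ne_top
  have h2 : ∀ᵐ g : ℝ, ∀ N j : ℕ, ∀ᶠ k : ℕ in atTop, g ∉ {g : ℝ | g ∈ Ioc (-(N : ℝ)) N ∧
      1 / ((j : ℝ) + 1) * (1 / 2) ^ k ≤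
        t k (g + M * (1 / 2) ^ k) - t k (g - M * (1 / 2) ^ k)} :=
    ae_all_iff.2 fun N => ae_all_iff.2 fun j => key N j
  filter_upwards [h2] with g hg e he
  obtain ⟨N, hN⟩ := exists_nat_gt |g|
  obtain ⟨j, hj⟩ := exists_nat_one_div_lt he
  filter_upwards [hg N j] with k hk
  by_contra hcon
  push Not at hcon
  refine hk ⟨?_, ?_⟩
  · rw [abs_lt] at hN
    exact ⟨hN.1, hN.2.le⟩
  · have : 1 / ((j : ℝ) + 1) * (1 / 2) ^ k ≤ e * (1 / 2) ^ k :=
      mul_le_mul_of_nonneg_right hj.le (by positivity)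
    linarith

/-- **Small increments at all scales**, for increments `I r a b` which are monotone in the scale
`r`, in `a` and in `b`, and are bounded on the dyadic scales by increments of monotone functions. -/
theorem ae_small_scale {I : ℝ → ℝ → ℝ → ℝ} {t : ℕ → ℝ → ℝ} (ht : ∀ k, Monotone (t k)) {C M : ℝ}
    (hC : 0 ≤ C) (hM : 0 ≤ M) (hB : ∀ k x y, t k x - t k y ≤ C * (1 / 2) ^ k)
    (hI : ∀ (k : ℕ) (r a b a' b' : ℝ), 0 < r → r ≤ (1 / 2) ^ k → a' ≤ a → a ≤ b → b ≤ b' →
      I r a b ≤ t k b' - t k a') :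
    ∀ᵐ g : ℝ, ∀ e : ℝ, 0 < e → ∃ r₀ : ℝ, 0 < r₀ ∧ ∀ r : ℝ, 0 < r → r < r₀ → ∀ a b : ℝ,
      g - M * r ≤ a → a ≤ b → b ≤ g + M * r → I r a b ≤ e * r := by
  filter_upwards [ae_small_box ht hC hM hB] with g hg e he
  obtain ⟨K, hK⟩ := eventually_atTop.1 (hg (e / 2) (half_pos he))
  refine ⟨(1 / 2) ^ K, by positivity, fun r hr hr' a b h1 h2 h3 => ?_⟩
  -- the dyadic scale
  obtain ⟨k, hk1, hk2⟩ : ∃ k : ℕ, r ≤ (1 / 2) ^ k ∧ (1 / 2) ^ (k + 1) < r := by
    have hex : ∃ n : ℕ, (1 / 2 : ℝ) ^ n < r := exists_pow_lt_of_lt_one hr (by norm_num)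
    classical
    refine ⟨Nat.find hex - 1, ?_, ?_⟩
    · by_contra hcon
      push Not at hcon
      have h4 : Nat.find hex ≠ 0 := by
        intro h0
        have := Nat.find_spec hex
        rw [h0, pow_zero] at this
        have h5 : (1 / 2 : ℝ) ^ K ≤ 1 := pow_le_one₀ (by norm_num) (by norm_num)
        linarith
      exact Nat.find_min hex (by omega) hcon
    · have h4 : Nat.find hex ≠ 0 := by
        intro h0
        have := Nat.find_spec hex
        rw [h0, pow_zero] at this
        have h5 : (1 / 2 : ℝ) ^ K ≤ 1 := pow_le_one₀ (by norm_num) (by norm_num)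
        linarith
      rw [Nat.sub_add_cancel (Nat.pos_of_ne_zero h4)]
      exact Nat.find_spec hex
  have hkK : K ≤ k := by
    by_contra hcon
    push Not at hcon
    have h4 : (1 / 2 : ℝ) ^ K ≤ (1 / 2) ^ (k + 1) :=
      pow_le_pow_of_le_one (by norm_num) (by norm_num) (by omega)
    linarith
  have h4 := hK k hkK
  have h5 : M * r ≤ M * (1 / 2) ^ k := mul_le_mul_of_nonneg_left hk1 hM
  have h6 := hI k r a b (g - M * (1 / 2) ^ k) (g + M * (1 / 2) ^ k) hr hk1 (by linarith) h2
    (by linarith)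
  have h7 : (1 / 2 : ℝ) ^ k = 2 * (1 / 2) ^ (k + 1) := by rw [pow_succ]; ring
  have h8 : e / 2 * (1 / 2) ^ k ≤ e * r := by
    rw [h7]
    have := mul_le_mul_of_nonneg_left hk2.le he.le
    linarith
  linarith

end Pool.STR
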