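import Pool.Agent.H60.GEN.RowI
import Pool.Agent.H60.GEN.TopE
import Pool.Agent.H39.GEN.CnumI

/-!
# The statements about one class, with static thresholds at the nonfull rows

`ae_rowD`: properties of almost all windows at almost all rows. `derP_ae`: at almost all windows where
two thresholds agree on the diagonal their diagonals have the same derivative.
`macR_two`: the statement `NumI.MacR` from the gain property `DPS 2` where the slope of the diagonal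
is at most `2`, and from any argument about the nonfull rows where it is larger.

`GoalR`: as `GoalE`, with `MacR` in place of `MacSta`. `cellE_ofR`, `kp_goalR`: they give `CellE` and
`KP m`.
-/

set_option autoImplicit false

namespace Pool.STR

open MeasureTheory Set Filter Topology Pool.LEV Pool.RTS

variable {P : ℝ → ℝ → ℝ} {ρ : ℝ → ℝ}

/-- Properties of almost all windows at almost all rows. -/
theorem ae_rowD (hP : Law P) {p : ℝ → Prop} (h : ∀ᵐ g : ℝ, p g) {W : Set ℝ} :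
    ∀ᵐ Q : ℝ, RowD P ρ W Q → p (Lv P (Q, 0)) := by
  have hgm : Monotone (fun Q => Lv P (Q, 0)) := fun x y hxy => Lv_mono hP ⟨hxy, le_rfl⟩
  filter_upwards [ae_notMem_of_null hgm (ae_iff.1 h)] with Q hQ hrow
  have h1 := hQ hrow.dif hrow.dpos
  simp only [not_not] at h1
  exact h1

/-- Two functions which agree on a set have the same derivative at almost all its points. -/
theorem der_ae {f g : ℝ → ℝ} {E : Set ℝ} (h : ∀ x ∈ E, f x = g x) :
    ∀ᵐ x : ℝ, x ∈ E → DifferentiableAt ℝ f x → DifferentiableAt ℝ g x → deriv f x = deriv g x := by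
  have h1 : {x ∈ E | 𝓝[E ∩ Ioi x] x = ⊥}.Countable := countable_setOfPred_isolated_right_within
  filter_upwards [h1.ae_notMem volume] with x hx hxE hf hg
  have h2 : (𝓝[E ∩ Ioi x] x).NeBot := ⟨fun h2 => hx ⟨hxE, h2⟩⟩
  have h3 : AccPt x (𝓟 E) := by
    rw [accPt_principal_iff_nhdsWithin]
    refine h2.mono (nhdsWithin_mono x fun y hy => ⟨hy.1, ?_⟩)
    simp only [mem_singleton_iff]
    exact (ne_of_gt hy.2)
  have h4 : UniqueDiffWithinAt ℝ E x := uniqueDiffWithinAt_iff_accPt.2 h3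
  have h5 : HasDerivWithinAt g (deriv f x) E x :=
    hf.hasDerivAt.hasDerivWithinAt.congr (fun y hy => (h y hy).symm) (h x hxE).symm
  rw [← h5.derivWithin h4, ← hg.hasDerivAt.hasDerivWithinAt.derivWithin h4]

namespace NumI

variable {nk : NumI P ρ}

/-- **The slope of the target** over the right order. -/
theorem derT_ae (hP : Law P) (o : nk.O) : ∀ᵐ g : ℝ, g ∈ nk.Gs o → 0 < g → g < 1 →
      nk.PT o g g = P g g ∧ deriv (fun a => nk.PT o a a) g = deriv (fun a => P a a) g := by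
  have hd1 := dia_ae (nk.hPT o)
  have hd2 := dia_ae hP
  -- the thresholds agree
  have hag : ∀ᵐ g : ℝ, g ∈ nk.Gs o → 0 < g → g < 1 → nk.PT o g g = P g g := by
    filter_upwards [hd1, nk.hPG] with g h1 h2 h3 h4 h5
    refine le_antisymm (nk.hle o g g h4 le_rfl h5.le) ?_
    have h6 : Tendsto (fun a => nk.PT o a a) (𝓝[>] g) (𝓝 (nk.PT o g g)) :=
      (h1 h4 h5).continuousAt.tendsto.mono_left nhdsWithin_le_nhds
    refine ge_of_tendsto h6 ?_
    filter_upwards [Ioo_mem_nhdsGT h5] with y hy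
    exact h2 o h3 h4 h5 y hy.1 hy.2.le
  obtain ⟨E, hE⟩ : ∃ E : Set ℝ, E = {g | nk.PT o g g = P g g} := ⟨_, rfl⟩
  have h3 := der_ae (f := fun a => nk.PT o a a) (g := fun a => P a a) (E := E) fun x hx => by
    rw [hE] at hx
    exact hx
  filter_upwards [hd1, hd2, hag, h3] with g k1 k2 k3 k4 h0 h1 h2
  have k5 := k3 h0 h1 h2
  exact ⟨k5, k4 (by rw [hE]; exact k5) (k1 h1 h2) (k2 h1 h2)⟩

/-- **The slopes at most `2` and the others**, at the nonfull rows. -/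
theorem macR_two (hP : Law P) (PN : nk.O → ℝ → ℝ → ℝ)
    (hle : ∀ o (a w : ℝ), 0 ≤ w → w ≤ a → a ≤ 1 → nk.PT o a w ≤ PN o a w)
    (h1 : ∀ o : nk.O, ∀ᵐ Q : ℝ, RowD P ρ univ Q → ∀ g, g = Lv P (Q, 0) → g ∈ nk.Gs o →
      nk.PT o g g < 1 → Mac (nk.PT o) g → deriv (fun a => nk.PT o a a) g ≤ 2 →
        DPS 2 (PN o) (nk.PT o) g)
    (h2 : ∀ o : nk.O, ∀ᵐ Q : ℝ, RowD P ρ univ Q → ∀ g, g = Lv P (Q, 0) → g ∈ nk.Gs o →
      nk.PT o g g < 1 → Mac (nk.PT o) g → 2 < deriv (fun a => nk.PT o a a) g →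
        StaAt (nk.PT o) g) :
    nk.MacR := by
  intro o
  filter_upwards [h1 o, h2 o, ae_rowD (ρ := ρ) (W := univ) hP (steep_ae (nk.hPT o) 2)] with Q k1 k2
    k3 hrow ho a1 a2
  obtain ⟨g, hg⟩ : ∃ g, g = Lv P (Q, 0) := ⟨_, rfl⟩
  have hg0 := hrow.g0
  have hg1 := hrow.g1
  have k1 := k1 hrow g hg
  have k2 := k2 hrow g hg
  have k3 := k3 hrow
  rw [← hg] at hg0 hg1 k3 ho a1 a2 ⊢
  rcases le_or_gt (deriv (fun a => nk.PT o a a) g) 2 with h | h
  · exact (k3 hg0 hg1 ((k1 ho a1 a2 h).stk hg0 hg1 a1 a2 (hle o))).2.2 h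
  · exact k2 ho a1 a2 h

/-- **No rows with a slope larger than `2`**: the second hypothesis of `macR_two`. -/
theorem steep_none (hP : Law P) (h : ∀ᵐ Q : ℝ, RowD P ρ univ Q → deriv (fun a => P a a) (Lv P (Q, 0)) ≤ 2) (o : nk.O) :
    ∀ᵐ Q : ℝ, RowD P ρ univ Q → ∀ g, g = Lv P (Q, 0) → g ∈ nk.Gs o →
      nk.PT o g g < 1 → Mac (nk.PT o) g → 2 < deriv (fun a => nk.PT o a a) g →
        StaAt (nk.PT o) g := by
  filter_upwards [h, ae_rowD (ρ := ρ) (W := univ) hP (nk.derT_ae hP o)] with Q h1 h2 hrow g hg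
    ho _ _ h3
  exfalso
  have h4 := h1 hrow
  have h5 := h2 hrow
  rw [← hg] at h4 h5
  have h6 := (h5 ho (by rw [hg]; exact hrow.g0) (by rw [hg]; exact hrow.g1)).2
  rw [h6] at h3
  linarith

end NumI

end Pool.STR

namespace Pool.PKG

open MeasureTheory Set Filter Topology
open Pool.Agent.H49.Ent Pool.Agent.H32.Dense Pool.STK Pool.KA Pool.KSAT Pool.K2S Pool.PB
open Pool.GEN Pool.S6C Pool.STAT Pool.CHT Pool.GRW Pool.ONE Pool.STA
open Pool.LBT (LSys ThrOf)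
open Pool.LEV (Law)
open Pool.ALL (RateOf)
open Pool.TOP (TopS)
open Pool.STR (NumI LeT CellD Rle)

variable {n : ℕ}

/-- **The three statements about one class**, for the rows of `ρ`, with static thresholds at the
nonfull rows only. -/
structure GoalR {P : ℝ → ℝ → ℝ} {r : ℝ → ℝ} (nk : NumI P r) {ρ : ℝ → ℝ} (h : Rle r ρ)
    (hP : ∀ a : ℝ, 0 ≤ a → a ≤ 1 → P a a ≤ 1) : Prop where
  noBS : ∃ p : (nk.chg h hP).Par, p.cell.NoJS ∨ p.cell.NoBS
  play : ∃ q : nk.Par, NumI.Play q.cell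
  mac : nk.MacR

/-- Static thresholds at almost all good windows are enough. -/
theorem GoalE.goalR {P : ℝ → ℝ → ℝ} {r : ℝ → ℝ} {nk : NumI P r} {ρ : ℝ → ℝ} {h : Rle r ρ}
    {hP : ∀ a : ℝ, 0 ≤ a → a ≤ 1 → P a a ≤ 1} (hL : Law P) (hG : GoalE nk h hP) :
    GoalR nk h hP :=
  ⟨hG.noBS, hG.play, NumI.MacSta.macR hL h.lip hG.mac⟩

/-- **`CellE n η` from the statements about one class.** -/
theorem cellE_ofR {η : ℝ → ℝ} (hi : ∀ k, 2 ≤ k → k < n → Ext0 k)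
    (hG : ∀ (hn : 2 ≤ n) (_ : ∀ k, 1 ≤ k → k < n → FZX k) (hF : FZX (n - 1)) (hTop : TopS n)
      (D : ℝ), 0 < D → D ≤ 1 → Ext n ((1 + η D) * D) → ∀ (S : PCl n) (P : ℝ → ℝ → ℝ)
      (r : ℝ → ℝ) (P' : ℕ → List (Fin n) × Fin n → ℝ → ℝ → ℝ)
      (Λ : Finset (Fin n) → Fin n → ℝ → ℝ → ℝ)
      (PB : ℕ → List (Fin n) × Fin n → ℝ → ℝ → ℝ) (H : PkT hn S P r P' Λ PB),
      GoalR (H.nk hTop hF) (H.rle ((1 - η D) * D)) H.up) : CellE n η := by
  intro hn hZ D hD hD1 hE al g₀ s d hal hg₀ _ e K₀ N S he hC P r hT hr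
  have hTop : TopS n := tops_ext hZ hi
  have hF : FZX (n - 1) := hZ (n - 1) (by omega) (by omega)
  obtain ⟨S', P', Λ, PB, -, -, H⟩ := pkT_ex hn hal hg₀ hC hT hr
  obtain ⟨⟨p, hJ⟩, ⟨q, hq⟩, hM⟩ := hG hn hZ hF hTop D hD hD1 hE S' P r P' Λ PB H
  exact NumI.full_rowsE _ _ (hT.law ())
    (fun a w h0 h1 h2 => ⟨hT.low () a w h0 h1 h2, hT.up () a w h0 h1 h2⟩) p q hJ hq hM

/-- **`KP m`** from the statements about one class and from the jumps. -/
theorem kp_goalR {m : ℕ} (hm : 1 ≤ m) (η : ℕ → ℝ → ℝ) (hη : ∀ n D, 0 < D → 0 < η n D)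
    (hη1 : ∀ n D, 0 < D → η n D ≤ 1)
    (hG : ∀ n : ℕ, 2 ≤ n → n ≤ m → (∀ k, 2 ≤ k → k < n → Ext0 k) →
      ∀ (hn : 2 ≤ n) (_ : ∀ k, 1 ≤ k → k < n → FZX k) (hF : FZX (n - 1)) (hTop : TopS n)
      (D : ℝ), 0 < D → D ≤ 1 → Ext n ((1 + η n D) * D) → ∀ (S : PCl n) (P : ℝ → ℝ → ℝ)
      (r : ℝ → ℝ) (P' : ℕ → List (Fin n) × Fin n → ℝ → ℝ → ℝ)
      (Λ : Finset (Fin n) → Fin n → ℝ → ℝ → ℝ)
      (PB : ℕ → List (Fin n) × Fin n → ℝ → ℝ → ℝ) (H : PkT hn S P r P' Λ PB),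
      GoalR (H.nk hTop hF) (H.rle ((1 - η n D) * D)) H.up)
    (hJ : ∀ n, 2 ≤ n → n ≤ m → (∀ k, 2 ≤ k → k < n → Ext0 k) → LocE n (η n) JmpE) : KP m := by
  have hC : ∀ n, 2 ≤ n → n ≤ m → (∀ k, 2 ≤ k → k < n → Ext0 k) → CellE n (η n) :=
    fun n h1 h2 h3 => cellE_ofR h3 (hG n h1 h2 h3)
  exact kp_indE hm η hη (fun n h1 h2 h3 => (hC n h1 h2 h3).mic (hη1 n))
    (fun n h1 h2 h3 => (hC n h1 h2 h3).sta (hη1 n)) hJ

end Pool.PKG
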